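import Pool.Agent.Clk.Targets

set_option autoImplicit false

/-!
# Clickomania: the interval dynamic programming for boards with a bounded number of rows
-/

namespace Pool.Agent.Clk

open Pool.Agent.PT (Dat PolyF)

/-! ### encodings of finite types -/

/-- some encoding of a finite type -/
@[instance_reducible]
noncomputable def datFin (α : Type) [Finite α] : Dat α where
  enc a := Dat.enc ((Finite.equivFin α a : Fin (Nat.card α)) : ℕ)
  inj := by
    intro a b h
    have h1 := Dat.inj h
    exact (Finite.equivFin α).injective (Fin.ext h1)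

/-! ### cuts -/

theorem cut_length_le {h : ℕ} (x : List ℕ) (A : Set (Fin h)) : (cut x A).length ≤ x.length := by
  unfold cut
  rw [List.length_map]
  refine (List.length_filter_le _ _).trans ?_
  rw [List.length_zipIdx]

theorem cutsA_length_le {h : ℕ} (τ : List (Label h)) : ∀ x : List ℕ,
    (cutsA τ x).length ≤ x.length := by
  induction τ with
  | nil => intro x; exact le_rfl
  | cons ℓ τ ih => intro x; exact (ih _).trans (cut_length_le _ _)

theorem cutsB_length_le {h : ℕ} (τ : List (Label h)) : ∀ x : List ℕ,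
    (cutsB τ x).length ≤ x.length := by
  induction τ with
  | nil => intro x; exact le_rfl
  | cons ℓ τ ih => intro x; exact (ih _).trans (cut_length_le _ _)

theorem cut_nil {h : ℕ} (A : Set (Fin h)) : cut [] A = [] := rfl

theorem pat_cuts (hiso : T_ISO) {h : ℕ} (τ : List (Label h)) : ∀ a b a' b' : List ℕ,
    a.length ≤ h → b.length ≤ h → a'.length ≤ h → b'.length ≤ h → pat h a b = pat h a' b' →
    pat h (cutsA τ a) (cutsB τ b) = pat h (cutsA τ a') (cutsB τ b') := by
  induction τ with
  | nil => intro a b a' b' _ _ _ _ h; exact h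
  | cons ℓ τ ih =>
    intro a b a' b' h1 h2 h3 h4 hp
    exact ih _ _ _ _ ((cut_length_le _ _).trans h1) ((cut_length_le _ _).trans h2)
      ((cut_length_le _ _).trans h3) ((cut_length_le _ _).trans h4)
      (hiso.2.1 a b a' b' ℓ.1 ℓ.2.1 h1 h2 h3 h4 hp)

theorem pat_cutsB (hiso : T_ISO) {h : ℕ} (τ : List (Label h)) : ∀ x x' : List ℕ,
    x.length ≤ h → x'.length ≤ h → pat h x [] = pat h x' [] →
    pat h (cutsB τ x) [] = pat h (cutsB τ x') [] := by
  induction τ with
  | nil => intro x x' _ _ h; exact h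
  | cons ℓ τ ih =>
    intro x x' h1 h2 hp
    exact ih _ _ ((cut_length_le _ _).trans h1) ((cut_length_le _ _).trans h2)
      (hiso.2.1 x [] x' [] ℓ.2.1 ∅ h1 (Nat.zero_le _) h2 (Nat.zero_le _) hp)

theorem eq_nil_of_pat {h : ℕ} (y : List ℕ) (hy : y.length ≤ h) (hp : pat h y [] = pat h [] []) :
    y = [] := by
  rcases y with _ | ⟨a, y⟩
  · rfl
  · exfalso
    have hh : 0 < h := lt_of_lt_of_le (by simp) hy
    have h1 : (((false, ⟨0, hh⟩), (false, ⟨0, hh⟩)) : (Bool × Fin h) × (Bool × Fin h)) ∈
        pat h (a :: y) [] := ⟨a, by simp [tl, nd, pr], by simp [tl, nd, pr]⟩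
    rw [hp] at h1
    obtain ⟨x, h2, _⟩ := h1
    simp [tl, nd, pr] at h2

/-! ### the values -/

section
variable (h : ℕ)

/-- short traces -/
abbrev Sh : Type := {t : List (Label h) // t.length ≤ 2 * h}

instance : Finite (Label h) := by
  unfold Label
  infer_instance

instance : Finite (Sh h) := List.finite_length_le _ _

/-- the traces of two adjacent columns with a given pattern -/
def DD (π : Set ((Bool × Fin h) × (Bool × Fin h))) : Set (Sh h) :=
  {t | ∃ a b : List ℕ, a.length ≤ h ∧ b.length ≤ h ∧ pat h a b = π ∧ Tr h 0 1 (pr a b) t.1}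

/-- the traces obtained by joining the traces of the two parts -/
def stp (π ρ : Set ((Bool × Fin h) × (Bool × Fin h))) (S₁ S₂ : Set (Sh h)) : Set (Sh h) :=
  {t | ∃ (a b x : List ℕ) (t₁ t₂ : Sh h) (t' t'' : List (Label h)), a.length ≤ h ∧ b.length ≤ h ∧
    x.length ≤ h ∧ pat h a b = π ∧ pat h x [] = ρ ∧ t₁ ∈ S₁ ∧ t₂ ∈ S₂ ∧ t.1 = t' ++ t'' ∧
    Mrg t₁.1 t₂.1 t' ∧ cutsB t₁.1 x = [] ∧ Tr h 0 1 (pr (cutsA t' a) (cutsB t' b)) t''}

end

theorem pr_zero (a b : List ℕ) : pr a b 0 = a := rfl
theorem pr_one (a b : List ℕ) : pr a b 1 = b := rfl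

theorem pr_length {h : ℕ} {a b : List ℕ} (ha : a.length ≤ h) (hb : b.length ≤ h) (l : ℕ) :
    (pr a b l).length ≤ h := by
  unfold pr
  split_ifs
  · exact ha
  · exact hb
  · simp

/-- traces of adjacent columns -/
theorem val_adj (hiso : T_ISO) {h : ℕ} (i j : ℕ) (c : St) (hij : i < j)
    (hc : ∀ l, i < l → l < j → c l = []) (hlen : ∀ l, (c l).length ≤ h) :
    ({t : Sh h | Tr h i j c t.1} : Set (Sh h)) = DD h (pat h (c i) (c j)) := by
  ext t
  constructor
  · intro ht
    exact ⟨c i, c j, hlen _, hlen _, rfl,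
      hiso.1 i j 0 1 c (pr (c i) (c j)) t.1 hij one_pos hc (by omega) hlen
        (pr_length (hlen _) (hlen _)) rfl ht⟩
  · rintro ⟨a, b, ha, hb, hp, ht⟩
    exact hiso.1 0 1 i j (pr a b) c t.1 one_pos hij (by omega) hc (pr_length ha hb) hlen
      hp ht

/-- traces of columns which are not adjacent -/
theorem val_split (hdec : T_DEC) (hsnd : T_SND) (hiso : T_ISO) {h : ℕ} (i j : ℕ) (c : St)
    (hij : i < j) (hlen : ∀ l, (c l).length ≤ h) (hne : ∀ l, i < l → l < j → c l ≠ [])
    (hij' : j ≠ i + 1) (t : Sh h) :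
    Tr h i j c t.1 ↔ ∃ k, i < k ∧ k < j ∧ t ∈ stp h (pat h (c i) (c j)) (pat h (c k) [])
      {t | Tr h i k c t.1} {t | Tr h k j c t.1} := by
  constructor
  · intro ht
    rcases hdec i j c t.1 hij hlen ht with h1 | ⟨k, hik, hkj, hk, t₁, t₂, t', t'', he, h1, h2, h3,
      h4, c', hA, h5⟩
    · exact absurd (h1 (i + 1) (by omega) (by omega)) (hne (i + 1) (by omega) (by omega))
    · refine ⟨k, hik, hkj, c i, c j, c k, ⟨t₁, hiso.2.2 i k c t₁ hik hlen h1⟩,
        ⟨t₂, hiso.2.2 k j c t₂ hkj hlen h2⟩, t', t'', hlen _, hlen _, hlen _, rfl, rfl, h1, h2, he,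
        h3, h4, ?_⟩
      refine hiso.1 i j 0 1 c' _ t'' hij one_pos hA.1 (by omega) hA.2.2.2
        (pr_length ((cutsA_length_le _ _).trans (hlen _)) ((cutsB_length_le _ _).trans (hlen _)))
        ?_ h5
      rw [hA.2.1, hA.2.2.1]
      rfl
  · rintro ⟨k, hik, hkj, a, b, x, t₁, t₂, t', t'', ha, hb, hx, hπ, hρ, h1, h2, he, h3, h4, h5⟩
    rw [he]
    classical
    let c' : St := fun l => if l = i then cutsA t' (c i) else if l = j then cutsB t' (c j) else []
    have hc'i : c' i = cutsA t' (c i) := by simp [c']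
    have hc'j : c' j = cutsB t' (c j) := by
      have : j ≠ i := by omega
      simp [c', this]
    have hc'l : ∀ l, (c' l).length ≤ h := by
      intro l
      simp only [c']
      split_ifs
      · exact (cutsA_length_le _ _).trans (hlen _)
      · exact (cutsB_length_le _ _).trans (hlen _)
      · simp
    have hc'0 : ∀ l, i < l → l < j → c' l = [] := by
      intro l hl hl'
      have e1 : l ≠ i := by omega
      have e2 : l ≠ j := by omega
      simp [c', e1, e2]
    refine hsnd i k j c c' t₁.1 t₂.1 t' t'' hik hkj (hne k hik hkj) hlen h1 h2 h3 ?_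
      ⟨hc'0, hc'i, hc'j, hc'l⟩ ?_
    · refine eq_nil_of_pat _ ((cutsB_length_le _ _).trans (hlen _)) ?_
      have h6 := (pat_cutsB hiso t₁.1 x (c k) hx (hlen _) hρ).symm
      rw [h4] at h6
      exact h6
    · refine hiso.1 0 1 i j _ c' t'' one_pos hij (by omega) hc'0
        (pr_length ((cutsA_length_le _ _).trans ha) ((cutsB_length_le _ _).trans hb)) hc'l ?_ h5
      rw [hc'i, hc'j, pr_zero, pr_one]
      exact pat_cuts hiso t' a b (c i) (c j) ha hb (hlen _) (hlen _) hπ

/-! ### the algorithm -/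

theorem mem_foldl_union {α β : Type} (f : α → Set β) (l : List α) : ∀ (S : Set β) (x : β),
    x ∈ l.foldl (fun acc k => acc ∪ f k) S ↔ x ∈ S ∨ ∃ k ∈ l, x ∈ f k := by
  induction l with
  | nil => intro S x; simp
  | cons a l ih =>
    intro S x
    rw [List.foldl_cons, ih]
    simp only [Set.mem_union, List.mem_cons, exists_eq_or_imp, or_assoc]

/-- the columns of the strip of a position, as a list -/
def cols (b : Pos) : List (List ℕ) := [0] :: (b.map (fun col => col.map (fun a => a + 1)) ++ [[0]])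

theorem cols_length (b : Pos) : (cols b).length = b.length + 2 := by simp [cols]

theorem cols_getD (b : Pos) (i : ℕ) (hi : i < (cols b).length) : (cols b).getD i [] = wrap b i := by
  rw [cols_length] at hi
  unfold cols wrap
  rcases i with _ | i
  · simp
  · rw [List.getD_cons_succ]
    by_cases h : i < b.length
    · rw [List.getD_eq_getElem?_getD, List.getElem?_append_left (by simpa using h)]
      have h1 : ¬ (i + 1 = 0 ∨ i + 1 = b.length + 1) := by omega
      rw [if_neg h1]
      simp [List.getElem?_map, List.getElem?_eq_getElem h]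
    · have h2 : i = b.length := by omega
      subst h2
      simp

theorem wrap_length (h : ℕ) (hh : 1 ≤ h) (b : Pos) (hb : ∀ col ∈ b, col ≠ [] ∧ col.length ≤ h)
    (l : ℕ) : (wrap b l).length ≤ h := by
  unfold wrap
  split_ifs with h1
  · simpa using hh
  · rcases h2 : b[l - 1]? with _ | col
    · simp
    · rw [Option.getD_some, List.length_map]
      exact (hb col (List.mem_of_getElem? h2)).2

theorem wrap_ne (h : ℕ) (b : Pos) (hb : ∀ col ∈ b, col ≠ [] ∧ col.length ≤ h)
    (l : ℕ) (hl : l < b.length + 2) : wrap b l ≠ [] := by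
  unfold wrap
  split_ifs with h1
  · simp
  · have h3 : l - 1 < b.length := by omega
    rw [List.getElem?_eq_getElem h3, Option.getD_some]
    intro h4
    exact (hb _ (List.getElem_mem h3)).1 (List.map_eq_nil_iff.1 h4)

theorem tALG (h1 : T_DEC) (h2 : T_SND) (h3 : T_ISO) (h4 : T_LINK) (h5 : T_CYK) (h6 : T_PATPT) :
    T_ALG := by
  intro h
  have : Fact Pool.Agent.PT.Core := ⟨Pool.Agent.PT.core⟩
  rcases Nat.eq_zero_or_pos h with rfl | hh
  · refine ⟨fun _ => true, Pool.Agent.PT.PolyF.const _, fun b hb => ?_⟩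
    have hb' : b = [] := by
      rcases b with _ | ⟨col, b⟩
      · rfl
      · have := hb col (by simp)
        exact absurd (List.length_eq_zero_iff.1 (Nat.le_zero.1 this.2)) this.1
    subst hb'
    simp only [true_iff]
    exact Relation.ReflTransGen.refl
  · classical
    let i1 : Dat (Set ((Bool × Fin h) × (Bool × Fin h))) := datFin _
    let i2 : Dat (Set (Sh h)) := datFin _
    have hpat : PolyF fun p : List ℕ × List ℕ => pat h p.1 p.2 := h6 h
    have hd : PolyF fun p : List ℕ × List ℕ => DD h (pat h p.1 p.2) :=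
      Pool.Agent.PT.PolyF.comp (Pool.Agent.PT.PolyF.finite (DD h)) hpat
    have hs : PolyF fun p : (List ℕ × List ℕ × List ℕ) × Set (Sh h) × Set (Sh h) =>
        stp h (pat h p.1.1 p.1.2.2) (pat h p.1.2.1 []) p.2.1 p.2.2 := by
      have e1 : PolyF fun p : (List ℕ × List ℕ × List ℕ) × Set (Sh h) × Set (Sh h) =>
          pat h p.1.1 p.1.2.2 :=
        Pool.Agent.PT.PolyF.comp (g := fun p : (List ℕ × List ℕ × List ℕ) × Set (Sh h) × Set (Sh h) =>
          (p.1.1, p.1.2.2)) hpat (by fun_prop)
      have e2 : PolyF fun p : (List ℕ × List ℕ × List ℕ) × Set (Sh h) × Set (Sh h) =>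
          pat h p.1.2.1 [] :=
        Pool.Agent.PT.PolyF.comp (g := fun p : (List ℕ × List ℕ × List ℕ) × Set (Sh h) × Set (Sh h) =>
          (p.1.2.1, [])) hpat (by fun_prop)
      have e3 : PolyF fun q : Set ((Bool × Fin h) × (Bool × Fin h)) ×
          Set ((Bool × Fin h) × (Bool × Fin h)) × Set (Sh h) × Set (Sh h) =>
          stp h q.1 q.2.1 q.2.2.1 q.2.2.2 := Pool.Agent.PT.PolyF.finite _
      exact Pool.Agent.PT.PolyF.comp (g := fun p : (List ℕ × List ℕ × List ℕ) × Set (Sh h) × Set (Sh h) =>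
        (pat h p.1.1 p.1.2.2, pat h p.1.2.1 [], p.2.1, p.2.2)) e3 (by fun_prop)
    obtain ⟨F, hF, hFv⟩ := h5 (α := List ℕ) (V := Set (Sh h)) [] (fun p => DD h (pat h p.1 p.2))
      (fun p => stp h (pat h p.1.1 p.1.2.2) (pat h p.1.2.1 []) p.2.1 p.2.2) (fun S T => S ∪ T) ∅
      hd hs
    have hcols : PolyF cols := by
      unfold cols
      fun_prop
    refine ⟨fun b => decide ((⟨[], Nat.zero_le _⟩ : Sh h) ∈ F (cols b)),
      Pool.Agent.PT.PolyF.comp (f := fun S : Set (Sh h) => decide ((⟨[], Nat.zero_le _⟩ : Sh h) ∈ S))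
        (Pool.Agent.PT.PolyF.finite _)
        (Pool.Agent.PT.PolyF.comp hF hcols), fun b hb => ?_⟩
    have hval := hFv (cols b) (fun i j => {t : Sh h | Tr h i j (wrap b) t.1})
      (by rw [cols_length]; omega) ?_
    · rw [decide_eq_true_iff, hval, cols_length]
      have : b.length + 2 - 1 = b.length + 1 := by omega
      rw [this, h4 h b hh hb]
      exact Iff.rfl
    · intro i j hij hj
      have hi : i < (cols b).length := by omega
      rw [cols_getD b i hi, cols_getD b j hj]
      have hlen := wrap_length h hh b hb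
      split_ifs with hj1
      · exact val_adj h3 i j (wrap b) hij (by intro l hl hl'; omega) hlen
      · ext t
        rw [Set.mem_ofPred_eq, val_split h1 h2 h3 i j (wrap b) hij hlen (fun l hl hl' =>
          wrap_ne h b hb l (by rw [cols_length] at hj; omega)) hj1]
        rw [mem_foldl_union (fun k => stp h (pat h (wrap b i) (wrap b j))
          (pat h ((cols b).getD k []) []) {t | Tr h i k (wrap b) t.1} {t | Tr h k j (wrap b) t.1})]
        simp only [Set.mem_empty_iff_false, false_or, List.mem_filter, List.mem_range,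
          decide_eq_true_eq]
        constructor
        · rintro ⟨k, hik, hkj, ht⟩
          refine ⟨k, ⟨by omega, hik, hkj⟩, ?_⟩
          rw [cols_getD b k (by omega)]
          exact ht
        · rintro ⟨k, ⟨hk, hik, hkj⟩, ht⟩
          rw [cols_getD b k hk] at ht
          exact ⟨k, hik, hkj, ht⟩

end Pool.Agent.Clk
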