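import Pool.Agent.Clk.Targets

set_option autoImplicit false

/-!
# Positions of the pairs in the two columns of the reduction
-/

namespace Pool.Agent.Clk

open Nm

section
variable {α : Type}

/-- the number of remaining tiles in a list -/
noncomputable def wt (S : Set α) (l : List α) : ℕ := (rst S l).length

@[simp] theorem rst_nil (S : Set α) : rst S ([] : List α) = [] := rfl

@[simp] theorem rst_append (S : Set α) (l m : List α) : rst S (l ++ m) = rst S l ++ rst S m := by
  simp [rst]

theorem rst_cons_pos {S : Set α} {a : α} (l : List α) (h : a ∈ S) : rst S (a :: l) = a :: rst S l := by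
  simp [rst, h]

theorem rst_cons_neg {S : Set α} {a : α} (l : List α) (h : a ∉ S) : rst S (a :: l) = rst S l := by
  simp [rst, h]

theorem mem_rst {S : Set α} {a : α} {l : List α} : a ∈ rst S l ↔ a ∈ l ∧ a ∈ S := by
  simp [rst]

@[simp] theorem wt_nil (S : Set α) : wt S ([] : List α) = 0 := rfl

@[simp] theorem wt_append (S : Set α) (l m : List α) : wt S (l ++ m) = wt S l + wt S m := by
  simp [wt]

open scoped Classical in
/-- indicator -/
noncomputable def ind (S : Set α) (a : α) : ℕ := if a ∈ S then 1 else 0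

theorem ind_pos {S : Set α} {a : α} (h : a ∈ S) : ind S a = 1 := by simp [ind, h]

theorem ind_neg {S : Set α} {a : α} (h : a ∉ S) : ind S a = 0 := by simp [ind, h]

theorem ind_le (S : Set α) (a : α) : ind S a ≤ 1 := by
  by_cases h : a ∈ S
  · rw [ind_pos h]
  · rw [ind_neg h]; omega

theorem ind_cases (S : Set α) (a : α) : (a ∈ S ∧ ind S a = 1) ∨ (a ∉ S ∧ ind S a = 0) := by
  by_cases h : a ∈ S
  · exact Or.inl ⟨h, ind_pos h⟩
  · exact Or.inr ⟨h, ind_neg h⟩

@[simp] theorem wt_cons (S : Set α) (a : α) (l : List α) : wt S (a :: l) = ind S a + wt S l := by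
  by_cases h : a ∈ S
  · rw [wt, rst_cons_pos l h, ind_pos h, wt, List.length_cons, Nat.add_comm]
  · rw [wt, rst_cons_neg l h, ind_neg h, wt, Nat.zero_add]

theorem wt_full {S : Set α} {l : List α} (h : ∀ a ∈ l, a ∈ S) : wt S l = l.length := by
  induction l with
  | nil => rfl
  | cons a l ih =>
    rw [wt_cons, ind_pos (h a (by simp)), ih (fun b hb => h b (by simp [hb])), List.length_cons,
      Nat.add_comm]

theorem wt_le (S : Set α) (l : List α) : wt S l ≤ l.length := by
  unfold wt rst
  exact List.length_filter_le _ _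

theorem wt_perm {S : Set α} {l m : List α} (h : l.Perm m) : wt S l = wt S m := by
  unfold wt rst
  exact (h.filter _).length_eq

theorem wt_reverse (S : Set α) (l : List α) : wt S l.reverse = wt S l :=
  wt_perm (List.reverse_perm l)

theorem wt_double (S : Set α) (f : ℕ → α) (l : List ℕ) :
    wt S (l.flatMap fun i => [f i, f i]) = 2 * wt S (l.map f) := by
  induction l with
  | nil => rfl
  | cons a l ih =>
    rw [List.flatMap_cons, wt_append, ih, List.map_cons, wt_cons, wt_cons, wt_cons, wt_nil]
    omega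

theorem wt_congr {S S' : Set α} {l : List α} (h : ∀ a ∈ l, (a ∈ S ↔ a ∈ S')) :
    wt S l = wt S' l := by
  induction l with
  | nil => rfl
  | cons a l ih =>
    rw [wt_cons, wt_cons, ih (fun b hb => h b (by simp [hb]))]
    have := h a (by simp)
    congr 1
    rcases ind_cases S a with ⟨h1, h2⟩ | ⟨h1, h2⟩
    · rw [h2, ind_pos (this.1 h1)]
    · rw [h2, ind_neg (fun h3 => h1 (this.2 h3))]

theorem wt_mono {S S' : Set α} (h : S ⊆ S') (l : List α) : wt S l ≤ wt S' l := by
  induction l with
  | nil => exact le_rfl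
  | cons a l ih =>
    rw [wt_cons, wt_cons]
    have : ind S a ≤ ind S' a := by
      rcases ind_cases S a with ⟨h1, h2⟩ | ⟨h1, h2⟩
      · rw [h2, ind_pos (h h1)]
      · rw [h2]; exact Nat.zero_le _
    omega

/-- a list splits in one way at an element which occurs once -/
theorem split_unique {a : α} {p q s t : List α} (hp : a ∉ p) (hq : a ∉ q)
    (h : s ++ a :: t = p ++ a :: q) : s = p ∧ t = q := by
  rw [List.append_eq_append_iff] at h
  rcases h with ⟨c, h1, h2⟩ | ⟨c, h1, h2⟩
  · cases c with
    | nil => simp at h1 h2; exact ⟨h1.symm, h2⟩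
    | cons x c =>
      exfalso
      rw [List.cons_append, List.cons.injEq] at h2
      apply hp
      rw [h1, h2.1]
      simp
  · cases c with
    | nil => simp at h1 h2; exact ⟨h1, h2.symm⟩
    | cons x c =>
      exfalso
      rw [List.cons_append, List.cons.injEq] at h2
      apply hq
      rw [h2.2]
      simp

/-- The height condition for a pair with one tile in each column. -/
theorem cross_eq {L R p q p' q' : List α} {S : Set α} {a : α} (hL : L = p ++ a :: q)
    (hR : R = p' ++ a :: q') (h1 : a ∉ p) (h2 : a ∉ q) (h3 : a ∉ p') (h4 : a ∉ q') (ha : a ∈ S)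
    (h : Rem L R S a) : wt S p = wt S p' := by
  have e1 : rst S L = rst S p ++ a :: rst S q := by rw [hL, rst_append, rst_cons_pos _ ha]
  have e2 : rst S R = rst S p' ++ a :: rst S q' := by rw [hR, rst_append, rst_cons_pos _ ha]
  have n1 : a ∉ rst S p := fun h => h1 (mem_rst.1 h).1
  have n2 : a ∉ rst S q := fun h => h2 (mem_rst.1 h).1
  have n3 : a ∉ rst S p' := fun h => h3 (mem_rst.1 h).1
  have n4 : a ∉ rst S q' := fun h => h4 (mem_rst.1 h).1
  rcases h with ⟨s, t, h⟩ | ⟨s, t, h⟩ | ⟨s, t, s', t', hl, h, h'⟩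
  · rw [e1] at h
    have := (split_unique n1 n2 h.symm).2
    exact absurd (this ▸ List.mem_cons_self) n2
  · rw [e2] at h
    have := (split_unique n3 n4 h.symm).2
    exact absurd (this ▸ List.mem_cons_self) n4
  · rw [e1] at h
    rw [e2] at h'
    have g1 := (split_unique n1 n2 h.symm).1
    have g2 := (split_unique n3 n4 h'.symm).1
    rw [wt, wt, ← g1, ← g2, hl]

/-- The height condition suffices. -/
theorem rem_cross {L R p q p' q' : List α} {S : Set α} {a : α} (hL : L = p ++ a :: q)
    (hR : R = p' ++ a :: q') (ha : a ∈ S) (h : wt S p = wt S p') : Rem L R S a := by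
  refine Or.inr (Or.inr ⟨rst S p, rst S q, rst S p', rst S q', h, ?_, ?_⟩)
  · rw [hL, rst_append, rst_cons_pos _ ha]
  · rw [hR, rst_append, rst_cons_pos _ ha]

end

/-! ## The gadgets -/

/-- the gadget to which a name belongs -/
def gix : Nm → Option ℕ
  | zz e _ => some e
  | cc e => some e
  | cp e => some e
  | dd e => some e
  | dp e => some e
  | gg e => some e
  | _ => none

theorem gix_gadL {n P e : ℕ} {a : Nm} (h : a ∈ gadL n P e) : gix a = some e := by
  simp only [gadL, List.mem_append, List.mem_map, List.mem_cons, List.not_mem_nil, or_false] at h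
  rcases h with ((⟨i, -, rfl⟩ | rfl | rfl) | ⟨i, -, rfl⟩) | rfl | rfl | rfl <;> rfl

theorem gix_gadR {n Q e : ℕ} {a : Nm} (h : a ∈ gadR n Q e) : gix a = some e := by
  simp only [gadR, List.mem_append, List.mem_map, List.mem_cons, List.not_mem_nil, or_false] at h
  rcases h with (((rfl | rfl | rfl) | ⟨i, -, rfl⟩) | rfl | rfl) | ⟨i, -, rfl⟩ <;> rfl

theorem range_split {m n : ℕ} (h : m ≤ n) (f : ℕ → Nm) :
    (List.range m).map f ++ (List.range (n - m)).map (fun i => f (m + i)) =
      (List.range n).map f := by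
  have e : n = m + (n - m) := by omega
  conv_rhs => rw [e, List.range_add, List.map_append, List.map_map]
  rfl

/-- the spine of a gadget -/
def spine (n e : ℕ) : List Nm := (List.range n).map (zz e)

theorem wt_gadL {n P e : ℕ} (S : Set Nm) (h : 2 * P ≤ n) : wt S (gadL n P e) =
    wt S (spine n e) + ind S (cc e) + ind S (cp e) + ind S (dd e) + ind S (gg e) +
      ind S (dp e) := by
  have := congrArg (wt S) (range_split h (zz e))
  simp only [gadL, spine, wt_append, wt_cons, wt_nil] at this ⊢
  omega

theorem wt_gadR {n Q e : ℕ} (S : Set Nm) (h : 2 * Q ≤ n) : wt S (gadR n Q e) =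
    wt S (spine n e) + ind S (cc e) + ind S (cp e) + ind S (dd e) + ind S (gg e) +
      ind S (dp e) := by
  have := congrArg (wt S) (range_split (m := n - 2 * Q) (n := n) (by omega) (zz e))
  have e1 : n - (n - 2 * Q) = 2 * Q := by omega
  rw [e1] at this
  simp only [gadR, spine, wt_append, wt_cons, wt_nil] at this ⊢
  omega

/-- all gadgets -/
def gads (f : ℕ × ℕ → ℕ → List Nm) (E : List (ℕ × ℕ)) (m : ℕ) : List Nm :=
  (E.zipIdx m).flatMap fun s => f s.1 s.2

theorem gads_nil (f : ℕ × ℕ → ℕ → List Nm) (m : ℕ) : gads f [] m = [] := rfl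

theorem gads_cons (f : ℕ × ℕ → ℕ → List Nm) (x : ℕ × ℕ) (E : List (ℕ × ℕ)) (m : ℕ) :
    gads f (x :: E) m = f x m ++ gads f E (m + 1) := by
  simp [gads, List.zipIdx_cons]

theorem gads_append (f : ℕ × ℕ → ℕ → List Nm) (E E' : List (ℕ × ℕ)) (m : ℕ) :
    gads f (E ++ E') m = gads f E m ++ gads f E' (m + E.length) := by
  simp [gads, List.zipIdx_append]

theorem gix_gads {f : ℕ × ℕ → ℕ → List Nm} (hf : ∀ x e a, a ∈ f x e → gix a = some e)
    (E : List (ℕ × ℕ)) : ∀ (m : ℕ) (a : Nm), a ∈ gads f E m →
      ∃ e, gix a = some e ∧ m ≤ e ∧ e < m + E.length := by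
  induction E with
  | nil => intro m a h; simp [gads_nil] at h
  | cons x E ih =>
    intro m a h
    rw [gads_cons, List.mem_append] at h
    rcases h with h | h
    · exact ⟨m, hf _ _ _ h, le_rfl, by simp⟩
    · obtain ⟨e, h1, h2, h3⟩ := ih _ _ h
      exact ⟨e, h1, by omega, by simp only [List.length_cons]; omega⟩

theorem wt_gads {f g : ℕ × ℕ → ℕ → List Nm} {S : Set Nm} (E : List (ℕ × ℕ))
    (h : ∀ x ∈ E, ∀ e, wt S (f x e) = wt S (g x e)) : ∀ m, wt S (gads f E m) = wt S (gads g E m) := by
  induction E with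
  | nil => intro m; rfl
  | cons x E ih =>
    intro m
    rw [gads_cons, gads_cons, wt_append, wt_append, h x (by simp), ih (fun y hy => h y (by simp [hy]))]

section
variable (N k : ℕ) (E : List (ℕ × ℕ))

/-- left gadget of an edge -/
def fL (x : ℕ × ℕ) (e : ℕ) : List Nm := gadL (len N k) (k + x.1 + 1) e

/-- right gadget of an edge -/
def fR (x : ℕ × ℕ) (e : ℕ) : List Nm := gadR (len N k) (k + x.2 + 1) e

theorem gadsL_eq : gadsL N k E = gads (fL N k) E 0 := rfl

theorem gadsR_eq : gadsR N k E = gads (fR N k) E 0 := rfl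

/-- the pairs at the bottom of the left column -/
def xs : List Nm := (List.range (big N k E)).map xx

/-- the pairs at the bottom of the right column -/
def ys : List Nm := (List.range k).map yy

/-- the pairs around `YY` -/
def qs : List Nm := (List.range (big N k E)).map qq

theorem wt_fL_fR (hE : ∀ e ∈ E, e.1 < N ∧ e.2 < N) (S : Set Nm) (x : ℕ × ℕ) (hx : x ∈ E) (e : ℕ) :
    wt S (fL N k x e) = wt S (fR N k x e) := by
  obtain ⟨h1, h2⟩ := hE x hx
  rw [fL, fR, wt_gadL S (by unfold len; omega), wt_gadR S (by unfold len; omega)]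

/-- Everything about the position of the gadget of one edge. -/
theorem gad_pos (hE : ∀ e ∈ E, e.1 < N ∧ e.2 < N) {e u v : ℕ} (he : E[e]? = some (u, v)) :
    ∃ A B A' B' : List Nm,
      colL N k E = ((List.range (big N k E)).flatMap fun i => [xx i, xx i]) ++ A ++
        gadL (len N k) (k + u + 1) e ++ B ∧
      colR N k E = ((List.range k).flatMap fun i => [yy i, yy i]) ++ qs N k E ++ [YY] ++
        (qs N k E).reverse ++ A' ++ gadR (len N k) (k + v + 1) e ++ B' ∧
      (∀ a, gix a = some e → a ∉ A ∧ a ∉ B ∧ a ∉ A' ∧ a ∉ B') ∧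
      ∀ S : Set Nm, wt S A = wt S A' := by
  have hlt : e < E.length := by
    by_contra h
    rw [List.getElem?_eq_none (by omega)] at he
    cases he
  have hg : E[e] = (u, v) := by
    rw [List.getElem?_eq_getElem hlt] at he
    exact Option.some.inj he
  have hsplit : E = E.take e ++ (u, v) :: E.drop (e + 1) := by
    rw [← hg, List.getElem_cons_drop, List.take_append_drop]
  have hlen : (E.take e).length = e := by rw [List.length_take]; omega
  have key : ∀ f : ℕ × ℕ → ℕ → List Nm, gads f E 0 =
      gads f (E.take e) 0 ++ f (u, v) e ++ gads f (E.drop (e + 1)) (e + 1) := by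
    intro f
    conv_lhs => rw [hsplit]
    rw [gads_append, gads_cons, Nat.zero_add, hlen, List.append_assoc]
  have hfL : ∀ x e a, a ∈ fL N k x e → gix a = some e := fun x e a h => gix_gadL h
  have hfR : ∀ x e a, a ∈ fR N k x e → gix a = some e := fun x e a h => gix_gadR h
  refine ⟨gads (fL N k) (E.take e) 0, gads (fL N k) (E.drop (e + 1)) (e + 1) ++ [YY] ++
    (List.range k).flatMap (fun i => [tt i, tt i]), gads (fR N k) (E.take e) 0,
    gads (fR N k) (E.drop (e + 1)) (e + 1), ?_, ?_, ?_, ?_⟩
  · rw [colL, gadsL_eq, key (fL N k)]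
    simp only [List.append_assoc]
    rfl
  · rw [colR, gadsR_eq, key (fR N k)]
    simp only [List.append_assoc]
    rfl
  · intro a ha
    refine ⟨fun h => ?_, fun h => ?_, fun h => ?_, fun h => ?_⟩
    · obtain ⟨e', h1, h2, h3⟩ := gix_gads hfL _ _ _ h
      rw [ha] at h1
      cases h1
      omega
    · rw [List.mem_append, List.mem_append] at h
      rcases h with (h | h) | h
      · obtain ⟨e', h1, h2, h3⟩ := gix_gads hfL _ _ _ h
        rw [ha] at h1
        cases h1
        omega
      · rw [List.mem_singleton] at h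
        subst h
        cases ha
      · rw [List.mem_flatMap] at h
        obtain ⟨i, -, h⟩ := h
        have : a = tt i := by simpa using h
        subst this
        cases ha
    · obtain ⟨e', h1, h2, h3⟩ := gix_gads hfR _ _ _ h
      rw [ha] at h1
      cases h1
      omega
    · obtain ⟨e', h1, h2, h3⟩ := gix_gads hfR _ _ _ h
      rw [ha] at h1
      cases h1
      omega
  · intro S
    exact wt_gads _ (fun x hx e => wt_fL_fR N k E hE S x (List.mem_of_mem_take hx) e) 0

end

end Pool.Agent.Clk
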