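import Pool.Agent.Clk.Targets

set_option autoImplicit false

/-!
# A single column behaves as a single row
-/

namespace Pool.Agent.Clk

open Relation

namespace COL_

/-- the position with the one column `col` -/
def G (col : List ℕ) : Pos := if col = [] then [] else [col]

/-- the position with the one row `col` -/
def R (col : List ℕ) : Pos := col.map fun a => [a]

theorem tile_G (col : List ℕ) (p : ℕ × ℕ) :
    tile (G col) p = if p.1 = 0 then col[p.2]? else none := by
  unfold tile G
  by_cases h : col = []
  · subst h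
    simp
  · rw [if_neg h]
    rcases Nat.eq_zero_or_pos p.1 with h0 | h0
    · rw [h0]; simp
    · rw [if_neg (by omega)]
      obtain ⟨k, hk⟩ := Nat.exists_eq_succ_of_ne_zero (by omega : p.1 ≠ 0)
      rw [hk]
      simp

theorem tile_R (col : List ℕ) (p : ℕ × ℕ) :
    tile (R col) p = if p.2 = 0 then col[p.1]? else none := by
  unfold tile R
  rw [List.getElem?_map]
  rcases Nat.eq_zero_or_pos p.2 with h0 | h0
  · rw [h0]
    cases h : col[p.1]? with
    | none => simp
    | some a => simp
  · rw [if_neg (by omega)]
    obtain ⟨k, hk⟩ := Nat.exists_eq_succ_of_ne_zero (by omega : p.2 ≠ 0)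
    rw [hk]
    cases h : col[p.1]? with
    | none => simp
    | some a => simp

theorem tile_swap (col : List ℕ) (p : ℕ × ℕ) : tile (R col) p = tile (G col) p.swap := by
  rw [tile_G, tile_R]
  rfl

theorem near_swap {p q : ℕ × ℕ} : Near p q ↔ Near p.swap q.swap := by
  unfold Near
  simp only [Prod.fst_swap, Prod.snd_swap]
  exact or_comm

theorem bond_swap (col : List ℕ) {p q : ℕ × ℕ} :
    Bond (R col) p q ↔ Bond (G col) p.swap q.swap := by
  unfold Bond
  rw [near_swap, tile_swap, tile_swap]

theorem gr_swap (col : List ℕ) (p q : ℕ × ℕ) :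
    ReflTransGen (Bond (R col)) p q ↔ ReflTransGen (Bond (G col)) p.swap q.swap := by
  constructor
  · intro h
    exact ReflTransGen.lift Prod.swap (fun a b h => (bond_swap col).1 h) _ _ h
  · intro h
    have h2 : ReflTransGen (Bond (R col)) p.swap.swap q.swap.swap :=
      ReflTransGen.lift (r := Bond (G col)) (p := Bond (R col)) Prod.swap
        (fun a b h => (bond_swap col).2 (by simpa using h)) _ _ h
    rw [Prod.swap_swap, Prod.swap_swap] at h2
    exact h2

theorem mem_group_swap (col : List ℕ) (p q : ℕ × ℕ) :
    q ∈ group (R col) p ↔ q.swap ∈ group (G col) p.swap := gr_swap col p q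

theorem remove_G (col : List ℕ) (S : Set (ℕ × ℕ)) : remove (G col) S = G (keep 0 col S) := by
  unfold remove
  by_cases h : col = []
  · subst h
    simp [G, keep]
  · have e : G col = [col] := if_neg h
    rw [e]
    by_cases h2 : keep 0 col S = []
    · simp [G, h2]
    · simp [G, h2]

theorem keep_one (x a : ℕ) (S : Set (ℕ × ℕ)) [Decidable ((x, 0) ∉ S)] :
    keep x [a] S = if (x, 0) ∉ S then [a] else [] := by
  unfold keep
  by_cases h : (x, 0) ∉ S
  · rw [if_pos h]
    simp [h]
  · rw [if_neg h]
    simp only [not_not] at h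
    simp [h]

open scoped Classical in
theorem remove_R_aux (S S' : Set (ℕ × ℕ)) (h : ∀ x, (x, 0) ∈ S ↔ (0, x) ∈ S') (col : List ℕ) :
    ∀ k : ℕ, (((col.map fun a => [a]).zipIdx k).map (fun t => keep t.2 t.1 S)).filter
      (fun c => decide (c ≠ [])) =
    ((((col.zipIdx k).filter fun t => decide ((0, t.2) ∉ S')).map Prod.fst).map fun a => [a]) := by
  induction col with
  | nil => intro k; simp
  | cons a col ih =>
    intro k
    rw [List.map_cons, List.zipIdx_cons, List.zipIdx_cons, List.map_cons, keep_one]
    by_cases hk : (k, 0) ∈ S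
    · have hk' : (0, k) ∈ S' := (h k).1 hk
      rw [if_neg (by simpa using hk), List.filter_cons_of_neg (by simp),
        List.filter_cons_of_neg (by simpa using hk')]
      exact ih (k + 1)
    · have hk' : (0, k) ∉ S' := fun h' => hk ((h k).2 h')
      rw [if_pos hk, List.filter_cons_of_pos (by simp), List.filter_cons_of_pos (by simpa using hk'),
        List.map_cons, List.map_cons]
      congr 1
      exact ih (k + 1)

theorem remove_R (col : List ℕ) (S S' : Set (ℕ × ℕ)) (h : ∀ x, (x, 0) ∈ S ↔ (0, x) ∈ S') :
    remove (R col) S = R (keep 0 col S') := by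
  have := remove_R_aux S S' h col 0
  unfold remove R keep
  exact this

/-- a click, in terms of the column -/
def M (col col' : List ℕ) : Prop :=
  ∃ p, (tile (G col) p).isSome ∧ (∃ q, q ≠ p ∧ q ∈ group (G col) p) ∧
    col' = keep 0 col (group (G col) p)

theorem click_G (col : List ℕ) (b' : Pos) : Click (G col) b' ↔ ∃ col', M col col' ∧ b' = G col' := by
  constructor
  · rintro ⟨p, h1, h2, rfl⟩
    exact ⟨_, ⟨p, h1, h2, rfl⟩, remove_G _ _⟩
  · rintro ⟨col', ⟨p, h1, h2, rfl⟩, rfl⟩
    exact ⟨p, h1, h2, (remove_G _ _).symm⟩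

theorem click_R (col : List ℕ) (b' : Pos) : Click (R col) b' ↔ ∃ col', M col col' ∧ b' = R col' := by
  have key : ∀ p : ℕ × ℕ, remove (R col) (group (R col) p) =
      R (keep 0 col (group (G col) p.swap)) := by
    intro p
    apply remove_R
    intro x
    exact mem_group_swap col p (x, 0)
  constructor
  · rintro ⟨p, h1, ⟨q, h2, h3⟩, rfl⟩
    refine ⟨_, ⟨p.swap, ?_, ⟨q.swap, ?_, ?_⟩, rfl⟩, key p⟩
    · rw [← tile_swap]; exact h1
    · intro h
      exact h2 (Prod.swap_injective h)
    · exact (mem_group_swap col p q).1 h3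
  · rintro ⟨col', ⟨p, h1, ⟨q, h2, h3⟩, rfl⟩, rfl⟩
    refine ⟨p.swap, ?_, ⟨q.swap, ?_, ?_⟩, ?_⟩
    · rw [tile_swap, Prod.swap_swap]; exact h1
    · intro h
      exact h2 (Prod.swap_injective h)
    · rw [mem_group_swap, Prod.swap_swap, Prod.swap_swap]; exact h3
    · rw [key, Prod.swap_swap]

theorem clear_iff (F : List ℕ → Pos) (h0 : ∀ col, F col = [] ↔ col = [])
    (hF : ∀ col b', Click (F col) b' ↔ ∃ col', M col col' ∧ b' = F col') (col : List ℕ) :
    Clearable (F col) ↔ ReflTransGen M col [] := by
  constructor
  · intro h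
    have key : ∀ x : Pos, ReflTransGen Click x [] → ∀ col, x = F col → ReflTransGen M col [] := by
      intro x hx
      induction hx using ReflTransGen.head_induction_on with
      | refl =>
        intro col h
        rw [(h0 col).1 h.symm]
      | head hstep _ ih =>
        intro col h
        subst h
        obtain ⟨col', h1, h2⟩ := (hF col _).1 hstep
        exact ReflTransGen.head h1 (ih col' h2)
    exact key _ h col rfl
  · intro h
    have key : ∀ x y : List ℕ, ReflTransGen M x y → ReflTransGen Click (F x) (F y) := by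
      intro x y h
      induction h with
      | refl => exact ReflTransGen.refl
      | tail _ hstep ih => exact ReflTransGen.tail ih ((hF _ _).2 ⟨_, hstep, rfl⟩)
    have := key _ _ h
    rw [(h0 []).2 rfl] at this
    exact this

end COL_

theorem tCOL : T_COL := by
  intro col hcol
  have e1 : COL_.G col = [col] := if_neg hcol
  have e2 : COL_.R col = col.map fun a => [a] := rfl
  rw [← e1, ← e2, COL_.clear_iff COL_.G ?_ COL_.click_G, COL_.clear_iff COL_.R ?_ COL_.click_R]
  · intro c
    simp [COL_.R]
  · intro c
    unfold COL_.G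
    by_cases h : c = []
    · simp [h]
    · simp [h]

end Pool.Agent.Clk
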