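import Pool.Agent.Clk.Targets
import Pool.Agent.PT.Core
import Pool.Agent.PT.Gen
import Pool.Agent.PT.Num

set_option autoImplicit false

/-!
# Interval dynamic programming in polynomial time
-/

namespace Pool.Agent.Clk

open Pool.Agent.PT

namespace CYK_

instance factCore : Fact Core := ⟨core⟩

theorem foldl_congr' {σ β : Type} (f g : σ → β → σ) : ∀ (l : List β) (s : σ),
    (∀ a ∈ l, ∀ t, f t a = g t a) → l.foldl f s = l.foldl g s := by
  intro l
  induction l with
  | nil => intro s _; rfl
  | cons a l ih =>
    intro s h
    rw [List.foldl_cons, List.foldl_cons, h a (by simp)]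
    exact ih _ fun b hb t => h b (by simp [hb]) t

variable {α V : Type}

/-- an entry of the matrix -/
def entry (z : V) (M : List (List V)) (i j : ℕ) : V := (M.getD i []).getD j z

/-- the inner columns -/
def mids (l : List α) (i j : ℕ) : List ℕ :=
  (List.range l.length).filter fun k => decide (i < k ∧ k < j)

/-- the value computed from the matrix -/
def cell (x₀ : α) (d : α × α → V) (s : (α × α × α) × V × V → V) (u : V → V → V) (z : V)
    (l : List α) (M : List (List V)) (i j : ℕ) : V :=
  if decide (j = i + 1) = true then d (l.getD i x₀, l.getD j x₀)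
  else (mids l i j).foldl (fun acc k =>
    u acc (s ((l.getD i x₀, l.getD k x₀, l.getD j x₀), entry z M i k, entry z M k j))) z

/-- one round -/
def step (x₀ : α) (d : α × α → V) (s : (α × α × α) × V × V → V) (u : V → V → V) (z : V)
    (l : List α) (M : List (List V)) : List (List V) :=
  (List.range l.length).map fun i => (List.range l.length).map fun j =>
    cell x₀ d s u z l M i j

theorem getD_map_range {β : Type} (f : ℕ → β) (n i : ℕ) (b : β) (hi : i < n) :
    ((List.range n).map f).getD i b = f i := by
  rw [List.getD_eq_getElem _ _ (by simpa using hi)]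
  simp

theorem entry_step (x₀ : α) (d : α × α → V) (s : (α × α × α) × V × V → V) (u : V → V → V)
    (z : V) (l : List α) (M : List (List V)) {i j : ℕ} (hi : i < l.length) (hj : j < l.length) :
    entry z (step x₀ d s u z l M) i j = cell x₀ d s u z l M i j := by
  unfold entry step
  rw [getD_map_range _ _ _ _ hi, getD_map_range _ _ _ _ hj]

theorem correct (x₀ : α) (d : α × α → V) (s : (α × α × α) × V × V → V) (u : V → V → V)
    (z : V) (l : List α) (val : ℕ → ℕ → V)
    (hval : ∀ i j, i < j → j < l.length → val i j =
      if j = i + 1 then d (l.getD i x₀, l.getD j x₀)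
      else ((List.range l.length).filter fun k => decide (i < k ∧ k < j)).foldl
        (fun acc k => u acc (s ((l.getD i x₀, l.getD k x₀, l.getD j x₀), val i k, val k j))) z)
    {β : Type} : ∀ (L : List β) (i j : ℕ), i < j → j < l.length → j - i ≤ L.length →
      entry z (L.foldl (fun M _ => step x₀ d s u z l M) []) i j = val i j := by
  intro L
  induction L using List.reverseRecOn with
  | nil =>
    intro i j h1 _ h3
    simp at h3
    omega
  | append_singleton L a ih =>
    intro i j h1 h2 h3
    rw [List.foldl_append, List.foldl_cons, List.foldl_nil,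
      entry_step _ _ _ _ _ _ _ (by omega) h2, hval i j h1 h2]
    unfold cell
    by_cases hj : j = i + 1
    · rw [if_pos hj, if_pos (by simpa using hj)]
    · rw [if_neg hj, if_neg (by simpa using hj)]
      unfold mids
      refine foldl_congr' _ _ _ _ fun k hk t => ?_
      rw [List.mem_filter] at hk
      obtain ⟨-, hk2⟩ := hk
      have hk3 : i < k ∧ k < j := by simpa using hk2
      rw [List.length_append, List.length_singleton] at h3
      rw [ih i k hk3.1 (by omega) (by omega), ih k j hk3.2 h2 (by omega)]

variable [Dat α] [Dat V]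

theorem entry_polyF (z : V) {γ : Type} [Dat γ] {M : γ → List (List V)} {i j : γ → ℕ}
    (hM : PolyF M) (hi : PolyF i) (hj : PolyF j) :
    PolyF (fun x => entry z (M x) (i x) (j x)) := by
  unfold entry
  exact PolyF.getD (PolyF.getD hM hi (PolyF.const [])) hj (PolyF.const z)

theorem mids_polyF {γ : Type} [Dat γ] {l : γ → List α} {i j : γ → ℕ}
    (hl : PolyF l) (hi : PolyF i) (hj : PolyF j) :
    PolyF (fun x => mids (l x) (i x) (j x)) := by
  unfold mids
  refine PolyF.filter (f := fun (x : γ) (k : ℕ) => decide (i x < k ∧ k < j x)) ?_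
    (PolyF.range_length hl)
  have hi' : PolyF (fun p : γ × ℕ => i p.1) := hi.comp PolyF.id.fst
  have hj' : PolyF (fun p : γ × ℕ => j p.1) := hj.comp PolyF.id.fst
  have hk : PolyF (fun p : γ × ℕ => p.2) := PolyF.id.snd
  exact PolyF.decide_and (PolyF.nat_lt hi' hk) (PolyF.nat_lt hk hj')

theorem size_finite [Finite V] : ∃ K : ℕ, ∀ v : V, sz v ≤ K := by
  have := Fintype.ofFinite V
  exact ⟨∑ v : V, sz v, fun v => Finset.single_le_sum (f := fun v : V => sz v)
    (fun _ _ => Nat.zero_le _) (Finset.mem_univ v)⟩

theorem cell_polyF [Finite V] (x₀ : α) {d : α × α → V} {s : (α × α × α) × V × V → V}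
    (u : V → V → V) (z : V) (hd : PolyF d) (hs : PolyF s) :
    PolyF (fun p : ((List α × List (List V)) × ℕ) × ℕ =>
      cell x₀ d s u z p.1.1.1 p.1.1.2 p.1.2 p.2) := by
  obtain ⟨K, hK⟩ := size_finite (V := V)
  unfold cell
  refine PolyF.iteb ?_ ?_ ?_
  · exact PolyF.eq_nat (by fun_prop) (by fun_prop)
  · exact hd.comp (PolyF.pair (PolyF.getD (by fun_prop) (by fun_prop) (by fun_prop))
      (PolyF.getD (by fun_prop) (by fun_prop) (by fun_prop)))
  · refine PolyF.foldl
      (f := fun (p : ((List α × List (List V)) × ℕ) × ℕ) (acc : V) (k : ℕ) =>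
        u acc (s ((p.1.1.1.getD p.1.2 x₀, p.1.1.1.getD k x₀, p.1.1.1.getD p.2 x₀),
          entry z p.1.1.2 p.1.2 k, entry z p.1.1.2 k p.2)))
      ?_ (PolyF.const z) (mids_polyF (by fun_prop) (by fun_prop) (by fun_prop))
      (fun _ => K) (PolyB.const K) (fun x l₁ _ => hK _)
    have hu : PolyF (fun q : V × V => u q.1 q.2) := PolyF.finite _
    refine hu.comp (PolyF.pair (by fun_prop) (hs.comp (PolyF.pair ?_ (PolyF.pair ?_ ?_))))
    · exact PolyF.pair (PolyF.getD (by fun_prop) (by fun_prop) (by fun_prop))
        (PolyF.pair (PolyF.getD (by fun_prop) (by fun_prop) (by fun_prop))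
          (PolyF.getD (by fun_prop) (by fun_prop) (by fun_prop)))
    · exact entry_polyF z (by fun_prop) (by fun_prop) (by fun_prop)
    · exact entry_polyF z (by fun_prop) (by fun_prop) (by fun_prop)

theorem step_polyF [Finite V] (x₀ : α) {d : α × α → V} {s : (α × α × α) × V × V → V}
    (u : V → V → V) (z : V) (hd : PolyF d) (hs : PolyF s) :
    PolyF (fun p : List α × List (List V) => step x₀ d s u z p.1 p.2) := by
  unfold step
  refine PolyF.map (f := fun (p : List α × List (List V)) (i : ℕ) =>
    (List.range p.1.length).map fun j => cell x₀ d s u z p.1 p.2 i j) ?_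
    (PolyF.range_length (by fun_prop))
  refine PolyF.map (f := fun (q : (List α × List (List V)) × ℕ) (j : ℕ) =>
    cell x₀ d s u z q.1.1 q.1.2 q.2 j) ?_ (PolyF.range_length (by fun_prop))
  exact cell_polyF x₀ u z hd hs

theorem size_step [Finite V] {K : ℕ} (hK : ∀ v : V, sz v ≤ K) (x₀ : α) (d : α × α → V)
    (s : (α × α × α) × V × V → V) (u : V → V → V) (z : V) (l : List α) (M : List (List V)) :
    sz (step x₀ d s u z l M) ≤ sz l * (sz l * (K + 1) + 1 + 1) + 1 := by
  have hl : l.length ≤ sz l := (length_lt_sz l).le
  unfold step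
  refine (sz_list_le (M := sz l * (K + 1) + 1) ?_).trans ?_
  · intro a ha
    obtain ⟨i, -, rfl⟩ := List.mem_map.mp ha
    refine (sz_list_le (M := K) ?_).trans ?_
    · intro b hb
      exact hK b
    · rw [List.length_map, List.length_range]
      have := Nat.mul_le_mul_right (K + 1) hl
      omega
  · rw [List.length_map, List.length_range]
    have := Nat.mul_le_mul_right (sz l * (K + 1) + 1 + 1) hl
    omega

end CYK_

open CYK_ in
theorem tCYK : T_CYK := by
  intro α V _ _ _ x₀ d s u z hd hs
  obtain ⟨K, hK⟩ := size_finite (V := V)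
  refine ⟨fun l => entry z (l.foldl (fun M _ => step x₀ d s u z l M) []) 0 (l.length - 1),
    ?_, fun l val hl hval => ?_⟩
  · have hfold : PolyF (fun l : List α =>
        l.foldl (fun (M : List (List V)) (_ : α) => step x₀ d s u z l M) []) := by
      refine PolyF.foldl (f := fun (l : List α) (M : List (List V)) (_ : α) =>
        step x₀ d s u z l M) ?_ (PolyF.const []) PolyF.id
        (fun l => sz l * (sz l * (K + 1) + 1 + 1) + 1) ?_ ?_
      · exact (step_polyF x₀ u z hd hs).comp
          (g := fun p : List α × List (List V) × α => (p.1, p.2.1)) (by fun_prop)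
      · exact (PolyB.sz.mul (((PolyB.sz.mul (PolyB.const (K + 1))).add (PolyB.const 1)).add
          (PolyB.const 1))).add (PolyB.const 1)
      · intro l l₁ _
        induction l₁ using List.reverseRecOn with
        | nil =>
          rw [List.foldl_nil, sz_nil]
          omega
        | append_singleton L a _ =>
          rw [List.foldl_append, List.foldl_cons, List.foldl_nil]
          exact size_step hK _ _ _ _ _ _ _
    refine entry_polyF z hfold (PolyF.const 0) ?_
    have h1 : PolyF (fun l : List α => l.tail.length) := by fun_prop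
    exact h1.congr fun l => by simp
  · exact correct x₀ d s u z l val hval l 0 (l.length - 1) (by omega) (by omega) (by omega)

end Pool.Agent.Clk
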