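import Pool.Agent.Clk.Sound

set_option autoImplicit false

/-!
# A vertex cover gives a way to clear the columns
-/

namespace Pool.Agent.Clk

open Nm

section
variable {N k : ℕ} {E : List (ℕ × ℕ)}

/-- all names which occur -/
def supp (N k : ℕ) (E : List (ℕ × ℕ)) : Set Nm := {a | a ∈ colL N k E ++ colR N k E}

theorem batch_list (S : Set Nm) (l : List Nm)
    (h : ∀ S' : Set Nm, S \ {a | a ∈ l} ⊆ S' → S' ⊆ S → ∀ a ∈ l, a ∈ S' →
      Rem (colL N k E) (colR N k E) S' a) :
    Relation.ReflTransGen (SMv (colL N k E) (colR N k E)) S (S \ {a | a ∈ l}) := by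
  induction l generalizing S with
  | nil => simp; exact Relation.ReflTransGen.refl
  | cons a l ih =>
    by_cases ha : a ∈ S
    · have h1 : SMv (colL N k E) (colR N k E) S (S \ {a}) :=
        ⟨a, ha, h S (Set.sdiff_subset) (Set.Subset.refl _) a (by simp) ha, rfl⟩
      have h2 := ih (S \ {a}) (fun S' hS1 hS2 b hb hbS => by
        refine h S' ?_ (hS2.trans Set.sdiff_subset) b (by simp [hb]) hbS
        refine Set.Subset.trans ?_ hS1
        rintro x ⟨hx1, hx2⟩
        simp only [Set.mem_ofPred_eq, List.mem_cons, not_or] at hx2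
        exact ⟨⟨hx1, hx2.1⟩, hx2.2⟩)
      have h3 : (S \ {a}) \ {b | b ∈ l} = S \ {b | b ∈ a :: l} := by
        ext x
        simp only [Set.mem_sdiff, Set.mem_singleton_iff, Set.mem_ofPred_eq, List.mem_cons]
        tauto
      rw [h3] at h2
      exact Relation.ReflTransGen.head h1 h2
    · have h3 : S \ {b | b ∈ a :: l} = S \ {b | b ∈ l} := by
        ext x
        simp only [Set.mem_sdiff, Set.mem_ofPred_eq, List.mem_cons, not_or]
        constructor
        · tauto
        · rintro ⟨h1, h2⟩
          exact ⟨h1, fun h' => ha (h' ▸ h1), h2⟩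
      rw [h3]
      refine ih S (fun S' hS1 hS2 b hb hbS => h S' ?_ hS2 b (by simp [hb]) hbS)
      rw [h3]
      exact hS1

/-- Remove the pairs in `B` in any order. -/
theorem batch {S : Set Nm} (B : Set Nm) (hS : S ⊆ supp N k E)
    (h : ∀ S' : Set Nm, S \ B ⊆ S' → S' ⊆ S → ∀ a ∈ B, a ∈ S' →
      Rem (colL N k E) (colR N k E) S' a) :
    Relation.ReflTransGen (SMv (colL N k E) (colR N k E)) S (S \ B) := by
  classical
  have e : S \ B = S \ {a | a ∈ (colL N k E ++ colR N k E).filter fun a => decide (a ∈ B)} := by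
    ext x
    simp only [Set.mem_sdiff, Set.mem_ofPred_eq, List.mem_filter, decide_eq_true_eq, not_and]
    constructor
    · rintro ⟨h1, h2⟩
      exact ⟨h1, fun _ => h2⟩
    · rintro ⟨h1, h2⟩
      exact ⟨h1, h2 (hS h1)⟩
  rw [e]
  apply batch_list
  intro S' h1 h2 a ha haS
  refine h S' ?_ h2 a ?_ haS
  · rw [e]; exact h1
  · rw [List.mem_filter] at ha
    simpa using ha.2

theorem wt_between {S S' B : Set Nm} (h1 : S \ B ⊆ S') (h2 : S' ⊆ S) {l : List Nm}
    (h : ∀ a ∈ l, a ∉ B) : wt S' l = wt S l :=
  wt_congr fun a ha => ⟨fun h' => h2 h', fun h' => h1 ⟨h', h a ha⟩⟩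

theorem ind_between {S S' B : Set Nm} (h1 : S \ B ⊆ S') (h2 : S' ⊆ S) {a : Nm}
    (h : a ∉ B) : ind S' a = ind S a := by
  by_cases ha : a ∈ S
  · rw [ind_pos ha, ind_pos (h1 ⟨ha, h⟩)]
  · rw [ind_neg ha, ind_neg (fun h' => ha (h2 h'))]

theorem wt_prefix {f : ℕ → Nm} {S : Set Nm} {X m : ℕ} (hX : X ≤ m)
    (h : ∀ i, i < m → (f i ∈ S ↔ i < X)) : wt S ((List.range m).map f) = X := by
  rw [← range_split hX f, wt_append, wt_full, List.length_map, List.length_range]
  · have : wt S ((List.range (m - X)).map fun i => f (X + i)) = wt ∅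
        ((List.range (m - X)).map fun i => f (X + i)) := by
      apply wt_congr
      intro a ha
      simp only [List.mem_map, List.mem_range] at ha
      obtain ⟨i, hi, rfl⟩ := ha
      rw [h (X + i) (by omega)]
      simp
    rw [this]
    simp [wt, rst]
  · intro a ha
    simp only [List.mem_map, List.mem_range] at ha
    obtain ⟨i, hi, rfl⟩ := ha
    exact (h i (by omega)).2 hi

theorem rem_adj_left {L R p q : List Nm} {S : Set Nm} {a : Nm} (hL : L = p ++ a :: a :: q)
    (ha : a ∈ S) : Rem L R S a := by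
  refine Or.inl ⟨rst S p, rst S q, ?_⟩
  rw [hL, rst_append, rst_cons_pos _ ha, rst_cons_pos _ ha]

theorem rem_adj_right {L R p q : List Nm} {S : Set Nm} {a : Nm} (hR : R = p ++ a :: a :: q)
    (ha : a ∈ S) : Rem L R S a := by
  refine Or.inr (Or.inl ⟨rst S p, rst S q, ?_⟩)
  rw [hR, rst_append, rst_cons_pos _ ha, rst_cons_pos _ ha]

theorem flat_cut {m i : ℕ} (h : i < m) (f : ℕ → Nm) :
    (List.range m).flatMap (fun j => [f j, f j]) =
      (List.range i).flatMap (fun j => [f j, f j]) ++ f i :: f i ::
        (List.range (m - i - 1)).flatMap (fun j => [f (i + 1 + j), f (i + 1 + j)]) := by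
  have e : m = i + 1 + (m - i - 1) := by omega
  conv_lhs => rw [e, List.range_add, List.range_succ]
  simp [List.flatMap_map]

theorem rem_xx {S : Set Nm} {i : ℕ} (hi : i < big N k E) (ha : xx i ∈ S) :
    Rem (colL N k E) (colR N k E) S (xx i) :=
  rem_adj_left (p := (List.range i).flatMap (fun j => [xx j, xx j]))
    (q := (List.range (big N k E - i - 1)).flatMap (fun j => [xx (i + 1 + j), xx (i + 1 + j)]) ++
      gadsL N k E ++ [YY] ++ (List.range k).flatMap fun i => [tt i, tt i])
    (by rw [colL, flat_cut hi xx]; simp) ha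

theorem rem_tt {S : Set Nm} {i : ℕ} (hi : i < k) (ha : tt i ∈ S) :
    Rem (colL N k E) (colR N k E) S (tt i) :=
  rem_adj_left (p := (List.range (big N k E)).flatMap (fun i => [xx i, xx i]) ++ gadsL N k E ++
      [YY] ++ (List.range i).flatMap (fun j => [tt j, tt j]))
    (q := (List.range (k - i - 1)).flatMap (fun j => [tt (i + 1 + j), tt (i + 1 + j)]))
    (by rw [colL, flat_cut hi tt]; simp) ha

theorem rem_yy {S : Set Nm} {i : ℕ} (hi : i < k) (ha : yy i ∈ S) :
    Rem (colL N k E) (colR N k E) S (yy i) :=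
  rem_adj_right (p := (List.range i).flatMap (fun j => [yy j, yy j]))
    (q := (List.range (k - i - 1)).flatMap (fun j => [yy (i + 1 + j), yy (i + 1 + j)]) ++
      (List.range (big N k E)).map qq ++ [YY] ++
        ((List.range (big N k E)).map qq).reverse ++ gadsR N k E)
    (by rw [colR, flat_cut hi yy]; simp) ha

theorem rst_empty {S : Set Nm} {l : List Nm} (h : ∀ a ∈ l, a ∉ S) : rst S l = [] := by
  rw [rst, List.filter_eq_nil_iff]
  intro a ha
  simpa using h a ha

theorem rem_qq {S : Set Nm} {j : ℕ} (hj : j < big N k E) (hY : YY ∉ S) (ha : qq j ∈ S)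
    (h : ∀ i, j < i → qq i ∉ S) : Rem (colL N k E) (colR N k E) S (qq j) := by
  have e := range_cut hj qq
  have h0 : rst S ((List.range (big N k E - j - 1)).map fun i => qq (j + 1 + i)) = [] := by
    apply rst_empty
    intro a ha
    simp only [List.mem_map, List.mem_range] at ha
    obtain ⟨i, -, rfl⟩ := ha
    exact h _ (by omega)
  have h1 : rst S (((List.range (big N k E - j - 1)).map fun i => qq (j + 1 + i)).reverse) = [] := by
    apply rst_empty
    intro a ha
    simp only [List.mem_reverse, List.mem_map, List.mem_range] at ha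
    obtain ⟨i, -, rfl⟩ := ha
    exact h _ (by omega)
  refine Or.inr (Or.inl ⟨rst S (((List.range k).flatMap fun i => [yy i, yy i]) ++
    (List.range j).map qq), rst S (((List.range j).map qq).reverse ++ gadsR N k E), ?_⟩)
  rw [colR, e]
  simp only [List.reverse_append, List.reverse_cons, rst_append, h0, h1, rst_cons_pos _ ha,
    rst_cons_neg _ hY, rst_nil, List.append_nil, List.nil_append, List.append_assoc,
    List.cons_append]

/-- first vertex of an edge -/
def fu (E : List (ℕ × ℕ)) (e : ℕ) : ℕ := (E.getD e (0, 0)).1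

/-- second vertex of an edge -/
def fv (E : List (ℕ × ℕ)) (e : ℕ) : ℕ := (E.getD e (0, 0)).2

theorem get_fu_fv {e : ℕ} (he : e < E.length) : E[e]? = some (fu E e, fv E e) := by
  rw [fu, fv, List.getD_eq_getElem?_getD, List.getElem?_eq_getElem he]
  rfl

theorem mem_gads_of {f : ℕ × ℕ → ℕ → List Nm} {a : Nm} {e u v : ℕ} (he : E[e]? = some (u, v))
    (h : a ∈ f (u, v) e) : a ∈ gads f E 0 := by
  rw [gads, List.mem_flatMap]
  exact ⟨((u, v), e), List.mem_zipIdx_iff_getElem?.2 he, h⟩

theorem supp_lt {a : Nm} {e : ℕ} (h : a ∈ supp N k E) (hg : gix a = some e) : e < E.length := by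
  rw [supp, Set.mem_ofPred_eq, List.mem_append] at h
  rcases h with h | h
  · rw [colL, List.mem_append, List.mem_append, List.mem_append] at h
    rcases h with ((h | h) | h) | h
    · rw [List.mem_flatMap] at h
      obtain ⟨i, -, h⟩ := h
      have : a = xx i := by simpa using h
      subst this
      cases hg
    · obtain ⟨e', h1, h2⟩ := gix_gadsL h
      rw [hg] at h1
      cases h1
      exact h2
    · rw [List.mem_singleton] at h
      subst h
      cases hg
    · rw [List.mem_flatMap] at h
      obtain ⟨i, -, h⟩ := h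
      have : a = tt i := by simpa using h
      subst this
      cases hg
  · rw [colR, List.mem_append, List.mem_append, List.mem_append, List.mem_append] at h
    rcases h with (((h | h) | h) | h) | h
    · rw [List.mem_flatMap] at h
      obtain ⟨i, -, h⟩ := h
      have : a = yy i := by simpa using h
      subst this
      cases hg
    · simp only [List.mem_map, List.mem_range] at h
      obtain ⟨i, hi, rfl⟩ := h
      cases hg
    · rw [List.mem_singleton] at h
      subst h
      cases hg
    · simp only [List.mem_reverse, List.mem_map, List.mem_range] at h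
      obtain ⟨i, hi, rfl⟩ := h
      cases hg
    · obtain ⟨e', h1, h2⟩ := gix_gadsR h
      rw [hg] at h1
      cases h1
      exact h2

theorem xx_supp {i : ℕ} : xx i ∈ supp N k E ↔ i < big N k E := by
  constructor
  · intro h
    rw [supp, Set.mem_ofPred_eq, List.mem_append] at h
    rcases h with h | h
    · rw [colL, List.mem_append, List.mem_append, List.mem_append] at h
      rcases h with ((h | h) | h) | h
      · simpa using h
      · obtain ⟨e', h1, h2⟩ := gix_gadsL h
        cases h1
      · simp at h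
      · simp at h
    · rw [colR, List.mem_append, List.mem_append, List.mem_append, List.mem_append] at h
      rcases h with (((h | h) | h) | h) | h
      · simp at h
      · simp at h
      · simp at h
      · simp at h
      · obtain ⟨e', h1, h2⟩ := gix_gadsR h
        cases h1
  · intro h
    simp [supp, colL, h]

theorem yy_supp {i : ℕ} : yy i ∈ supp N k E ↔ i < k := by
  constructor
  · intro h
    rw [supp, Set.mem_ofPred_eq, List.mem_append] at h
    rcases h with h | h
    · rw [colL, List.mem_append, List.mem_append, List.mem_append] at h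
      rcases h with ((h | h) | h) | h
      · simp at h
      · obtain ⟨e', h1, h2⟩ := gix_gadsL h
        cases h1
      · simp at h
      · simp at h
    · rw [colR, List.mem_append, List.mem_append, List.mem_append, List.mem_append] at h
      rcases h with (((h | h) | h) | h) | h
      · simpa using h
      · simp at h
      · simp at h
      · simp at h
      · obtain ⟨e', h1, h2⟩ := gix_gadsR h
        cases h1
  · intro h
    simp [supp, colR, h]

theorem qq_supp {i : ℕ} : qq i ∈ supp N k E ↔ i < big N k E := by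
  constructor
  · intro h
    rw [supp, Set.mem_ofPred_eq, List.mem_append] at h
    rcases h with h | h
    · rw [colL, List.mem_append, List.mem_append, List.mem_append] at h
      rcases h with ((h | h) | h) | h
      · simp at h
      · obtain ⟨e', h1, h2⟩ := gix_gadsL h
        cases h1
      · simp at h
      · simp at h
    · rw [colR, List.mem_append, List.mem_append, List.mem_append, List.mem_append] at h
      rcases h with (((h | h) | h) | h) | h
      · simp at h
      · simpa using h
      · simp at h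
      · simpa using h
      · obtain ⟨e', h1, h2⟩ := gix_gadsR h
        cases h1
  · intro h
    simp [supp, colR, h]

theorem tt_supp {i : ℕ} : tt i ∈ supp N k E ↔ i < k := by
  constructor
  · intro h
    rw [supp, Set.mem_ofPred_eq, List.mem_append] at h
    rcases h with h | h
    · rw [colL, List.mem_append, List.mem_append, List.mem_append] at h
      rcases h with ((h | h) | h) | h
      · simp at h
      · obtain ⟨e', h1, h2⟩ := gix_gadsL h
        cases h1
      · simp at h
      · simpa using h
    · rw [colR, List.mem_append, List.mem_append, List.mem_append, List.mem_append] at h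
      rcases h with (((h | h) | h) | h) | h
      · simp at h
      · simp at h
      · simp at h
      · simp at h
      · obtain ⟨e', h1, h2⟩ := gix_gadsR h
        cases h1
  · intro h
    simp [supp, colL, h]

theorem YY_supp : YY ∈ supp N k E := by simp [supp, colL]

theorem gad_supp {e : ℕ} (he : e < E.length) {a : Nm}
    (ha : a = cc e ∨ a = cp e ∨ a = dd e ∨ a = dp e ∨ a = gg e) : a ∈ supp N k E := by
  have : a ∈ gads (fL N k) E 0 := by
    apply mem_gads_of (get_fu_fv he)
    rcases ha with rfl | rfl | rfl | rfl | rfl <;> simp [fL, gadL]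
  rw [supp, Set.mem_ofPred_eq, List.mem_append, colL, gadsL_eq]
  left
  simp [this]

theorem zz_supp (hE : ∀ e ∈ E, e.1 < N ∧ e.2 < N) {e i : ℕ} (he : e < E.length)
    (hi : i < len N k) : zz e i ∈ supp N k E := by
  have h1 := get_fu_fv he
  obtain ⟨hu, hv⟩ := lt_of_get hE h1
  have : zz e i ∈ gads (fL N k) E 0 := by
    apply mem_gads_of h1
    obtain ⟨p, q, h, -⟩ := gadL_zz (n := len N k) (P := k + fu E e + 1) (e := e) (i := i)
      (by unfold len; omega) hi
    rw [fL, h]
    simp
  rw [supp, Set.mem_ofPred_eq, List.mem_append, colL, gadsL_eq]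
  left
  simp [this]

theorem zz_supp' (hE : ∀ e ∈ E, e.1 < N ∧ e.2 < N) {e i : ℕ} (h : zz e i ∈ supp N k E) :
    i < len N k := by
  rcases mem_cols hE (List.mem_append.1 h) with ⟨i', h'⟩ | ⟨i', -, h'⟩ | ⟨i', -, h'⟩ | ⟨i', h'⟩ |
    h' | ⟨e', u, v, -, h' | ⟨i', hi', h'⟩⟩
  · cases h'
  · cases h'
  · cases h'
  · cases h'
  · cases h'
  · simp at h'
  · rw [zz.injEq] at h'
    rw [h'.2]
    exact hi'

/-- sets in the first phase -/
def cA (E : List (ℕ × ℕ)) (C : Finset ℕ) (X Y v w : ℕ) (g : Prop) : Nm → Prop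
  | xx i => i < X
  | yy i => i < Y
  | qq _ => True
  | tt _ => True
  | YY => True
  | zz _ _ => True
  | cc e => ¬ (fu E e ∈ C ∧ fu E e < w)
  | cp e => v ≤ fu E e
  | dd e => ¬ (fu E e ∉ C ∧ fv E e < w)
  | dp e => v ≤ fv E e
  | gg _ => g

/-- sets in the first phase -/
def stA (N k : ℕ) (E : List (ℕ × ℕ)) (C : Finset ℕ) (X Y v w : ℕ) (g : Prop) : Set Nm :=
  {a | a ∈ supp N k E ∧ cA E C X Y v w g a}

/-- sets in the second phase -/
def cB (E : List (ℕ × ℕ)) (C : Finset ℕ) (X A w : ℕ) : Nm → Prop
  | xx i => i < X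
  | yy i => i < X
  | qq i => i < A
  | tt _ => True
  | YY => False
  | zz _ _ => True
  | cc e => fu E e ∉ C ∧ fu E e < w
  | cp _ => False
  | dd e => fu E e ∈ C ∧ fv E e < w
  | dp _ => False
  | gg _ => False

/-- sets in the second phase -/
def stB (N k : ℕ) (E : List (ℕ × ℕ)) (C : Finset ℕ) (X A w : ℕ) : Set Nm :=
  {a | a ∈ supp N k E ∧ cB E C X A w a}

variable {C : Finset ℕ}

theorem stA_vals (hE : ∀ e ∈ E, e.1 < N ∧ e.2 < N) {X Y v w : ℕ} {g : Prop}
    (hX : X ≤ big N k E) (hY : Y ≤ k) :
    wt (stA N k E C X Y v w g) (xs N k E) = X ∧ wt (stA N k E C X Y v w g) (ys k) = Y ∧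
    wt (stA N k E C X Y v w g) (qs N k E) = big N k E ∧
    (∀ e, e < E.length → ∀ m, m ≤ len N k → wt (stA N k E C X Y v w g) (spine m e) = m) := by
  refine ⟨wt_prefix hX fun i hi => ?_, wt_prefix hY fun i hi => ?_, ?_, ?_⟩
  · exact ⟨fun h => h.2, fun h => ⟨xx_supp.2 hi, h⟩⟩
  · exact ⟨fun h => h.2, fun h => ⟨yy_supp.2 hi, h⟩⟩
  · rw [wt_full, qs, List.length_map, List.length_range]
    intro a ha
    simp only [qs, List.mem_map, List.mem_range] at ha
    obtain ⟨i, hi, rfl⟩ := ha
    exact ⟨qq_supp.2 hi, trivial⟩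
  · intro e he m hm
    rw [wt_full, spine, List.length_map, List.length_range]
    intro a ha
    simp only [spine, List.mem_map, List.mem_range] at ha
    obtain ⟨i, hi, rfl⟩ := ha
    exact ⟨zz_supp hE he (by omega), trivial⟩

theorem stB_vals (hE : ∀ e ∈ E, e.1 < N ∧ e.2 < N) {X A w : ℕ}
    (hX : X ≤ big N k E) (hX' : X ≤ k) (hA : A ≤ big N k E) :
    wt (stB N k E C X A w) (xs N k E) = X ∧ wt (stB N k E C X A w) (ys k) = X ∧
    wt (stB N k E C X A w) (qs N k E) = A ∧
    (∀ e, e < E.length → ∀ m, m ≤ len N k → wt (stB N k E C X A w) (spine m e) = m) := by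
  refine ⟨wt_prefix hX fun i hi => ?_, wt_prefix hX' fun i hi => ?_,
    wt_prefix hA fun i hi => ?_, ?_⟩
  · exact ⟨fun h => h.2, fun h => ⟨xx_supp.2 hi, h⟩⟩
  · exact ⟨fun h => h.2, fun h => ⟨yy_supp.2 hi, h⟩⟩
  · exact ⟨fun h => h.2, fun h => ⟨qq_supp.2 hi, h⟩⟩
  · intro e he m hm
    rw [wt_full, spine, List.length_map, List.length_range]
    intro a ha
    simp only [spine, List.mem_map, List.mem_range] at ha
    obtain ⟨i, hi, rfl⟩ := ha
    exact ⟨zz_supp hE he (by omega), trivial⟩

/-- short name for reachability -/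
abbrev Reach (N k : ℕ) (E : List (ℕ × ℕ)) : Set Nm → Set Nm → Prop :=
  Relation.ReflTransGen (SMv (colL N k E) (colR N k E))

theorem step_x {X Y v w : ℕ} {g : Prop} (X' : ℕ) (hX : X' ≤ X) :
    Reach N k E (stA N k E C X Y v w g) (stA N k E C X' Y v w g) := by
  have e : stA N k E C X' Y v w g = stA N k E C X Y v w g \ {a | ∃ i, X' ≤ i ∧ a = xx i} := by
    ext a
    simp only [stA, Set.mem_sdiff, Set.mem_ofPred_eq]
    cases a <;> simp [cA] <;> intros <;> omega
  rw [e]
  apply batch _ (fun a h => h.1)
  rintro S' h1 h2 a ⟨i, hi, rfl⟩ ha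
  exact rem_xx (xx_supp.1 (h2 ha).1) ha

theorem step_y {X Y v w : ℕ} {g : Prop} (Y' : ℕ) (hY : Y' ≤ Y) :
    Reach N k E (stA N k E C X Y v w g) (stA N k E C X Y' v w g) := by
  have e : stA N k E C X Y' v w g = stA N k E C X Y v w g \ {a | ∃ i, Y' ≤ i ∧ a = yy i} := by
    ext a
    simp only [stA, Set.mem_sdiff, Set.mem_ofPred_eq]
    cases a <;> simp [cA] <;> intros <;> omega
  rw [e]
  apply batch _ (fun a h => h.1)
  rintro S' h1 h2 a ⟨i, hi, rfl⟩ ha
  exact rem_yy (yy_supp.1 (h2 ha).1) ha

/-- remove the pairs `cp`, `dp` at the level of `v` -/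
theorem step_p (hE : ∀ e ∈ E, e.1 < N ∧ e.2 < N) {X Y v : ℕ} (hX : X ≤ big N k E) (hY : Y ≤ k)
    (h : X + (k + v + 1) = Y + big N k E) :
    Reach N k E (stA N k E C X Y v v True) (stA N k E C X Y (v + 1) v True) := by
  have e : stA N k E C X Y (v + 1) v True = stA N k E C X Y v v True \
      {a | ∃ e, (a = cp e ∧ fu E e = v) ∨ (a = dp e ∧ fv E e = v)} := by
    ext a
    simp only [stA, Set.mem_sdiff, Set.mem_ofPred_eq]
    cases a with
    | cp e =>
      simp only [cA, cp.injEq, reduceCtorEq, false_and, or_false]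
      constructor
      · rintro ⟨h1, h2⟩
        refine ⟨⟨h1, by omega⟩, ?_⟩
        rintro ⟨e', rfl, h3⟩
        omega
      · rintro ⟨⟨h1, h2⟩, h3⟩
        refine ⟨h1, ?_⟩
        by_contra h4
        exact h3 ⟨e, rfl, by omega⟩
    | dp e =>
      simp only [cA, dp.injEq, reduceCtorEq, false_and, false_or]
      constructor
      · rintro ⟨h1, h2⟩
        refine ⟨⟨h1, by omega⟩, ?_⟩
        rintro ⟨e', rfl, h3⟩
        omega
      · rintro ⟨⟨h1, h2⟩, h3⟩
        refine ⟨h1, ?_⟩
        by_contra h4
        exact h3 ⟨e, rfl, by omega⟩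
    | _ => simp [cA]
  rw [e]
  obtain ⟨v1, v2, v3, v4⟩ := stA_vals (C := C) (v := v) (w := v) (g := True) hE hX hY
  apply batch _ (fun a h => h.1)
  rintro S' h1 h2 a ⟨e, ⟨rfl, he⟩ | ⟨rfl, he⟩⟩ ha
  · have hel := supp_lt (h2 ha).1 rfl
    have hg := get_fu_fv hel
    obtain ⟨hu, hv⟩ := lt_of_get hE hg
    rw [rem_cp hE hg ha, wt_between h1 h2 (l := xs N k E) (by simp [xs]),
      wt_between h1 h2 (l := ys k) (by simp [ys]), wt_between h1 h2 (l := qs N k E) (by simp [qs]),
      wt_between h1 h2 (l := spine (2 * (k + fu E e + 1)) e) (by simp [spine]),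
      ind_between h1 h2 (a := YY) (by simp), ind_between h1 h2 (a := cc e) (by simp), v1, v2, v3,
      v4 e hel _ (by unfold len; omega), ind_pos (S := stA N k E C X Y v v True) (a := YY) ⟨YY_supp, trivial⟩,
      ind_pos (S := stA N k E C X Y v v True) (a := cc e) ⟨gad_supp hel (by simp), by simp only [cA]; omega⟩, he]
    omega
  · have hel := supp_lt (h2 ha).1 rfl
    have hg := get_fu_fv hel
    obtain ⟨hu, hv⟩ := lt_of_get hE hg
    rw [rem_dp hE hg ha, wt_between h1 h2 (l := xs N k E) (by simp [xs]),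
      wt_between h1 h2 (l := ys k) (by simp [ys]), wt_between h1 h2 (l := qs N k E) (by simp [qs]),
      wt_between h1 h2 (l := spine (len N k) e) (by simp [spine]),
      wt_between h1 h2 (l := spine (len N k - 2 * (k + fv E e + 1)) e) (by simp [spine]),
      ind_between h1 h2 (a := YY) (by simp), ind_between h1 h2 (a := dd e) (by simp), v1, v2, v3,
      v4 e hel _ le_rfl, v4 e hel _ (by omega), ind_pos (S := stA N k E C X Y v v True) (a := YY) ⟨YY_supp, trivial⟩,
      ind_pos (S := stA N k E C X Y v v True) (a := dd e) ⟨gad_supp hel (by simp), by simp only [cA]; omega⟩, he]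
    have : len N k = 2 * (k + N) := rfl
    omega

/-- remove the designated pairs `cc`, `dd` at the level of `v` -/
theorem step_c (hE : ∀ e ∈ E, e.1 < N ∧ e.2 < N) {X Y v : ℕ} (hX : X ≤ big N k E) (hY : Y ≤ k)
    (h : X + (k + v + 1) = Y + big N k E + 1) :
    Reach N k E (stA N k E C X Y (v + 1) v True) (stA N k E C X Y (v + 1) (v + 1) True) := by
  have e : stA N k E C X Y (v + 1) (v + 1) True = stA N k E C X Y (v + 1) v True \
      {a | ∃ e, (a = cc e ∧ fu E e = v ∧ fu E e ∈ C) ∨ (a = dd e ∧ fv E e = v ∧ fu E e ∉ C)} := by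
    ext a
    simp only [stA, Set.mem_sdiff, Set.mem_ofPred_eq]
    cases a with
    | cc e =>
      simp only [cA, cc.injEq, reduceCtorEq, false_and, or_false]
      constructor
      · rintro ⟨h1, h2⟩
        refine ⟨⟨h1, fun h3 => h2 ⟨h3.1, by omega⟩⟩, ?_⟩
        rintro ⟨e', rfl, h3, h4⟩
        exact h2 ⟨h4, by omega⟩
      · rintro ⟨⟨h1, h2⟩, h3⟩
        refine ⟨h1, fun h4 => ?_⟩
        by_cases h5 : fu E e = v
        · exact h3 ⟨e, rfl, h5, h4.1⟩
        · exact h2 ⟨h4.1, by omega⟩
    | dd e =>
      simp only [cA, dd.injEq, reduceCtorEq, false_and, false_or]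
      constructor
      · rintro ⟨h1, h2⟩
        refine ⟨⟨h1, fun h3 => h2 ⟨h3.1, by omega⟩⟩, ?_⟩
        rintro ⟨e', rfl, h3, h4⟩
        exact h2 ⟨h4, by omega⟩
      · rintro ⟨⟨h1, h2⟩, h3⟩
        refine ⟨h1, fun h4 => ?_⟩
        by_cases h5 : fv E e = v
        · exact h3 ⟨e, rfl, h5, h4.1⟩
        · exact h2 ⟨h4.1, by omega⟩
    | _ => simp [cA]
  rw [e]
  obtain ⟨v1, v2, v3, v4⟩ := stA_vals (C := C) (v := v + 1) (w := v) (g := True) hE hX hY
  apply batch _ (fun a h => h.1)
  rintro S' h1 h2 a ⟨e, ⟨rfl, he, hC⟩ | ⟨rfl, he, hC⟩⟩ ha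
  · have hel := supp_lt (h2 ha).1 rfl
    have hg := get_fu_fv hel
    obtain ⟨hu, hv⟩ := lt_of_get hE hg
    rw [rem_cc hE hg ha, wt_between h1 h2 (l := xs N k E) (by simp [xs]),
      wt_between h1 h2 (l := ys k) (by simp [ys]), wt_between h1 h2 (l := qs N k E) (by simp [qs]),
      wt_between h1 h2 (l := spine (2 * (k + fu E e + 1)) e) (by simp [spine]),
      ind_between h1 h2 (a := YY) (by simp), ind_between h1 h2 (a := cp e) (by simp),
      ind_between h1 h2 (a := gg e) (by simp), v1, v2, v3,
      v4 e hel _ (by unfold len; omega), ind_pos (S := stA N k E C X Y (v + 1) v True) (a := YY) ⟨YY_supp, trivial⟩,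
      ind_pos (S := stA N k E C X Y (v + 1) v True) (a := gg e) ⟨gad_supp hel (by simp), trivial⟩,
      ind_neg (S := stA N k E C X Y (v + 1) v True) (a := cp e) (fun h' => by have := h'.2; simp only [cA] at this; omega), he]
    omega
  · have hel := supp_lt (h2 ha).1 rfl
    have hg := get_fu_fv hel
    obtain ⟨hu, hv⟩ := lt_of_get hE hg
    rw [rem_dd hE hg ha, wt_between h1 h2 (l := xs N k E) (by simp [xs]),
      wt_between h1 h2 (l := ys k) (by simp [ys]), wt_between h1 h2 (l := qs N k E) (by simp [qs]),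
      wt_between h1 h2 (l := spine (len N k) e) (by simp [spine]),
      wt_between h1 h2 (l := spine (len N k - 2 * (k + fv E e + 1)) e) (by simp [spine]),
      ind_between h1 h2 (a := YY) (by simp), ind_between h1 h2 (a := dp e) (by simp),
      ind_between h1 h2 (a := gg e) (by simp), v1, v2, v3,
      v4 e hel _ le_rfl, v4 e hel _ (by omega), ind_pos (S := stA N k E C X Y (v + 1) v True) (a := YY) ⟨YY_supp, trivial⟩,
      ind_pos (S := stA N k E C X Y (v + 1) v True) (a := gg e) ⟨gad_supp hel (by simp), trivial⟩,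
      ind_neg (S := stA N k E C X Y (v + 1) v True) (a := dp e) (fun h' => by have := h'.2; simp only [cA] at this; omega), he]
    have : len N k = 2 * (k + N) := rfl
    omega

/-- nothing to remove when `v` is not in the cover -/
theorem step_n (hcov : ∀ e ∈ E, e.1 ∈ C ∨ e.2 ∈ C) {X Y v w : ℕ} (hv : v ∉ C) {g : Prop} :
    stA N k E C X Y w v g = stA N k E C X Y w (v + 1) g := by
  ext a
  simp only [stA, Set.mem_ofPred_eq]
  cases a with
  | cc e =>
    simp only [cA, not_and, not_lt]
    refine and_congr_right fun hs => forall_congr' fun h1 => ?_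
    have : fu E e ≠ v := fun h => hv (h ▸ h1)
    omega
  | dd e =>
    simp only [cA, not_and, not_lt]
    refine and_congr_right fun hs => forall_congr' fun h1 => ?_
    have : fv E e ≠ v := by
      intro h
      have hel := supp_lt hs rfl
      rcases hcov _ (List.mem_of_getElem? (get_fu_fv hel)) with h2 | h2
      · exact h1 h2
      · exact hv (h ▸ h2)
    omega
  | _ => simp [cA]

/-- the first phase -/
theorem phase1 (hE : ∀ e ∈ E, e.1 < N ∧ e.2 < N) (hne : E ≠ [])
    (hcov : ∀ e ∈ E, e.1 ∈ C ∨ e.2 ∈ C) (hC : C.card ≤ k) (v : ℕ) (hv : v ≤ N) :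
    Reach N k E (stA N k E C (big N k E) k 0 0 True)
      (stA N k E C (big N k E - v - (C.filter (· < v)).card) (k - (C.filter (· < v)).card) v v
        True) := by
  have hbig : k + N + N + k + 1 ≤ big N k E := by
    have : 1 ≤ E.length := List.length_pos_iff.2 hne
    have h2 : 1 * (len N k + 1) ≤ E.length * (len N k + 1) := Nat.mul_le_mul_right _ this
    unfold big len at *
    omega
  have hcard : ∀ v, (C.filter (· < v)).card ≤ k := fun v => (Finset.card_filter_le _ _).trans hC
  induction v with
  | zero =>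
    have : (C.filter (· < 0)).card = 0 := by simp
    rw [this]
    exact Relation.ReflTransGen.refl
  | succ v ih =>
    refine (ih (by omega)).trans ?_
    have hm := hcard v
    by_cases hvC : v ∈ C
    · have e1 : (C.filter (· < v + 1)).card = (C.filter (· < v)).card + 1 := by
        have : C.filter (· < v + 1) = insert v (C.filter (· < v)) := by
          ext x
          simp only [Finset.mem_filter, Finset.mem_insert]
          constructor
          · rintro ⟨h1, h2⟩
            by_cases h3 : x = v
            · exact Or.inl h3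
            · exact Or.inr ⟨h1, by omega⟩
          · rintro (rfl | ⟨h1, h2⟩)
            · exact ⟨hvC, by omega⟩
            · exact ⟨h1, by omega⟩
        rw [this, Finset.card_insert_of_notMem (by simp)]
      have hm' := hcard (v + 1)
      rw [e1] at hm' ⊢
      refine (step_x (big N k E - (v + 1) - (C.filter (· < v)).card) (by omega)).trans ?_
      refine (step_p hE (by omega) (by omega) (by omega)).trans ?_
      refine (step_y (k - ((C.filter (· < v)).card + 1)) (by omega)).trans ?_
      refine (step_c hE (by omega) (by omega) (by omega)).trans ?_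
      exact step_x _ (by omega)
    · have e1 : (C.filter (· < v + 1)).card = (C.filter (· < v)).card := by
        congr 1
        ext x
        simp only [Finset.mem_filter]
        refine and_congr_right fun h => ?_
        have : x ≠ v := fun h' => hvC (h' ▸ h)
        omega
      rw [e1]
      refine (step_x (big N k E - (v + 1) - (C.filter (· < v)).card) (by omega)).trans ?_
      refine (step_p hE (by omega) (by omega) (by omega)).trans ?_
      rw [step_n hcov hvC]

/-- remove all pairs `gg` -/
theorem step_g (hE : ∀ e ∈ E, e.1 < N ∧ e.2 < N) (hcov : ∀ e ∈ E, e.1 ∈ C ∨ e.2 ∈ C) {X Y : ℕ}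
    (hX : X ≤ big N k E) (hY : Y ≤ k) (h : X + (k + N) = Y + big N k E) :
    Reach N k E (stA N k E C X Y N N True) (stA N k E C X Y N N False) := by
  have e : stA N k E C X Y N N False = stA N k E C X Y N N True \ {a | ∃ e, a = gg e} := by
    ext a
    simp only [stA, Set.mem_sdiff, Set.mem_ofPred_eq]
    cases a <;> simp [cA]
  rw [e]
  obtain ⟨v1, v2, v3, v4⟩ := stA_vals (C := C) (v := N) (w := N) (g := True) hE hX hY
  apply batch _ (fun a h => h.1)
  rintro S' h1 h2 a ⟨e, rfl⟩ ha
  have hel := supp_lt (h2 ha).1 rfl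
  have hg := get_fu_fv hel
  obtain ⟨hu, hv⟩ := lt_of_get hE hg
  rw [rem_gg hE hg ha, wt_between h1 h2 (l := xs N k E) (by simp [xs]),
    wt_between h1 h2 (l := ys k) (by simp [ys]), wt_between h1 h2 (l := qs N k E) (by simp [qs]),
    wt_between h1 h2 (l := spine (len N k) e) (by simp [spine]),
    ind_between h1 h2 (a := YY) (by simp), ind_between h1 h2 (a := cc e) (by simp),
    ind_between h1 h2 (a := dd e) (by simp), v1, v2, v3, v4 e hel _ le_rfl,
    ind_pos (S := stA N k E C X Y N N True) (a := YY) ⟨YY_supp, trivial⟩]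
  have hlen : len N k = 2 * (k + N) := rfl
  by_cases hC : fu E e ∈ C
  · rw [ind_neg (S := stA N k E C X Y N N True) (a := cc e) (fun h' => h'.2 ⟨hC, hu⟩),
      ind_pos (S := stA N k E C X Y N N True) (a := dd e) ⟨gad_supp hel (by simp), fun h' => h'.1 hC⟩]
    omega
  · rw [ind_pos (S := stA N k E C X Y N N True) (a := cc e) ⟨gad_supp hel (by simp), fun h' => hC h'.1⟩,
      ind_neg (S := stA N k E C X Y N N True) (a := dd e) (fun h' => h'.2 ⟨hC, hv⟩)]
    omega

theorem sum_gads_eq {f : ℕ × ℕ → ℕ → List Nm} {c : ℕ} {S : Set Nm} (E : List (ℕ × ℕ)) :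
    ∀ m, (∀ i x, E[i]? = some x → wt S (f x (m + i)) = c) → wt S (gads f E m) = E.length * c := by
  induction E with
  | nil => intro m _; simp [gads_nil]
  | cons x E ih =>
    intro m h
    rw [gads_cons, wt_append, List.length_cons, Nat.add_mul, Nat.one_mul]
    have h1 := h 0 x (by simp)
    rw [Nat.add_zero] at h1
    have h2 := ih (m + 1) (fun i y hy => by
      have := h (i + 1) y (by simpa using hy)
      rwa [Nat.add_comm i 1, ← Nat.add_assoc] at this)
    omega

/-- remove `YY` -/
theorem step_YY (hE : ∀ e ∈ E, e.1 < N ∧ e.2 < N) {X : ℕ} (hX : X ≤ big N k E) (hX' : X ≤ k) :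
    Reach N k E (stA N k E C X X N N False) (stB N k E C X (big N k E) N) := by
  have hfu : ∀ e, e < E.length → fu E e < N ∧ fv E e < N := fun e he =>
    lt_of_get hE (get_fu_fv he)
  have e : stB N k E C X (big N k E) N = stA N k E C X X N N False \ {YY} := by
    ext a
    simp only [stA, stB, Set.mem_sdiff, Set.mem_ofPred_eq, Set.mem_singleton_iff]
    cases a with
    | qq i =>
      simp only [cA, cB, reduceCtorEq, not_false_eq_true, and_true]
      exact ⟨fun h => h.1, fun h => ⟨h, qq_supp.1 h⟩⟩
    | cc e =>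
      simp only [cA, cB, reduceCtorEq, not_false_eq_true, and_true]
      refine and_congr_right fun hs => ?_
      have := hfu e (supp_lt hs rfl)
      tauto
    | cp e =>
      simp only [cA, cB, reduceCtorEq, not_false_eq_true, and_true]
      constructor
      · rintro ⟨-, h⟩; exact h.elim
      · rintro ⟨hs, h⟩
        have := hfu e (supp_lt hs rfl)
        omega
    | dd e =>
      simp only [cA, cB, reduceCtorEq, not_false_eq_true, and_true]
      refine and_congr_right fun hs => ?_
      have := hfu e (supp_lt hs rfl)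
      tauto
    | dp e =>
      simp only [cA, cB, reduceCtorEq, not_false_eq_true, and_true]
      constructor
      · rintro ⟨-, h⟩; exact h.elim
      · rintro ⟨hs, h⟩
        have := hfu e (supp_lt hs rfl)
        omega
    | _ => simp [cA, cB]
  rw [e]
  apply Relation.ReflTransGen.single
  have hY : YY ∈ stA N k E C X X N N False := ⟨YY_supp, trivial⟩
  refine ⟨YY, hY, ?_, rfl⟩
  obtain ⟨v1, v2, v3, v4⟩ := stA_vals (C := C) (v := N) (w := N) (g := False) hE hX hX'
  rw [rem_YY hY, v1, v2, v3, gadsL_eq, sum_gads_eq (c := len N k + 1)]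
  · rfl
  · rintro e ⟨u, v⟩ he
    rw [Nat.zero_add]
    have hel := lt_len_of_get he
    have hg := get_fu_fv hel
    rw [he] at hg
    have hg' := Option.some.inj hg
    have hu : u = fu E e := congrArg Prod.fst hg'
    have hv : v = fv E e := congrArg Prod.snd hg'
    obtain ⟨hu', hv'⟩ := hfu e hel
    rw [fL, wt_gadL _ (by dsimp only; unfold len; omega), v4 e hel _ le_rfl,
      ind_neg (S := stA N k E C X X N N False) (a := cp e) (fun h' => by have := h'.2; simp only [cA] at this; omega),
      ind_neg (S := stA N k E C X X N N False) (a := dp e) (fun h' => by have := h'.2; simp only [cA] at this; omega),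
      ind_neg (S := stA N k E C X X N N False) (a := gg e) (fun h' => h'.2)]
    by_cases hC : fu E e ∈ C
    · rw [ind_neg (S := stA N k E C X X N N False) (a := cc e) (fun h' => h'.2 ⟨hC, hu'⟩),
        ind_pos (S := stA N k E C X X N N False) (a := dd e) ⟨gad_supp hel (by simp), fun h' => h'.1 hC⟩]
    · rw [ind_pos (S := stA N k E C X X N N False) (a := cc e) ⟨gad_supp hel (by simp), fun h' => hC h'.1⟩,
        ind_neg (S := stA N k E C X X N N False) (a := dd e) (fun h' => h'.2 ⟨hC, hv'⟩)]

theorem step_q {X w : ℕ} (A A' : ℕ) (hA' : A' ≤ A) :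
    Reach N k E (stB N k E C X A w) (stB N k E C X A' w) := by
  induction A with
  | zero =>
    have : A' = 0 := by omega
    subst this
    exact Relation.ReflTransGen.refl
  | succ A ih =>
    by_cases h : A' = A + 1
    · subst h
      exact Relation.ReflTransGen.refl
    · refine Relation.ReflTransGen.trans ?_ (ih (by omega))
      have e : stB N k E C X A w = stB N k E C X (A + 1) w \ {qq A} := by
        ext a
        simp only [stB, Set.mem_sdiff, Set.mem_ofPred_eq, Set.mem_singleton_iff]
        cases a with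
        | qq i =>
          simp only [cB, qq.injEq]
          constructor
          · rintro ⟨h1, h2⟩; exact ⟨⟨h1, by omega⟩, by omega⟩
          · rintro ⟨⟨h1, h2⟩, h3⟩; exact ⟨h1, by omega⟩
        | _ => simp [cB]
      by_cases hb : A < big N k E
      · rw [e]
        apply Relation.ReflTransGen.single
        have hq : qq A ∈ stB N k E C X (A + 1) w := ⟨qq_supp.2 hb, by simp [cB]⟩
        refine ⟨qq A, hq, rem_qq hb (fun h => h.2) hq ?_, rfl⟩
        intro i hi h'
        have := h'.2
        simp only [cB] at this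
        omega
      · have : stB N k E C X (A + 1) w \ {qq A} = stB N k E C X (A + 1) w := by
          apply Set.sdiff_singleton_eq_self
          intro h'
          exact hb (qq_supp.1 h'.1)
        rw [e, this]

/-- remove the remaining pairs `cc`, `dd` at the level of `v` -/
theorem step_d (hE : ∀ e ∈ E, e.1 < N ∧ e.2 < N) {X v : ℕ} (hX : X ≤ big N k E) (hX' : X ≤ k)
    (hA : k + v + 1 ≤ big N k E) :
    Reach N k E (stB N k E C X (k + v + 1) (v + 1)) (stB N k E C X (k + v + 1) v) := by
  have e : stB N k E C X (k + v + 1) v = stB N k E C X (k + v + 1) (v + 1) \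
      {a | ∃ e, (a = cc e ∧ fu E e = v) ∨ (a = dd e ∧ fv E e = v)} := by
    ext a
    simp only [stB, Set.mem_sdiff, Set.mem_ofPred_eq]
    cases a with
    | cc e =>
      simp only [cB, cc.injEq, reduceCtorEq, false_and, or_false]
      constructor
      · rintro ⟨h1, h2, h2'⟩
        refine ⟨⟨h1, h2, by omega⟩, ?_⟩
        rintro ⟨e', rfl, h3⟩
        omega
      · rintro ⟨⟨h1, h2, h2'⟩, h3⟩
        refine ⟨h1, h2, ?_⟩
        by_contra h4
        exact h3 ⟨e, rfl, by omega⟩
    | dd e =>
      simp only [cB, dd.injEq, reduceCtorEq, false_and, false_or]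
      constructor
      · rintro ⟨h1, h2, h2'⟩
        refine ⟨⟨h1, h2, by omega⟩, ?_⟩
        rintro ⟨e', rfl, h3⟩
        omega
      · rintro ⟨⟨h1, h2, h2'⟩, h3⟩
        refine ⟨h1, h2, ?_⟩
        by_contra h4
        exact h3 ⟨e, rfl, by omega⟩
    | _ => simp [cB]
  rw [e]
  obtain ⟨v1, v2, v3, v4⟩ := stB_vals (C := C) (A := k + v + 1) (w := v + 1) hE hX hX' hA
  apply batch _ (fun a h => h.1)
  rintro S' h1 h2 a ⟨e, ⟨rfl, he⟩ | ⟨rfl, he⟩⟩ ha
  · have hel := supp_lt (h2 ha).1 rfl
    have hg := get_fu_fv hel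
    obtain ⟨hu, hv⟩ := lt_of_get hE hg
    rw [rem_cc hE hg ha, wt_between h1 h2 (l := xs N k E) (by simp [xs]),
      wt_between h1 h2 (l := ys k) (by simp [ys]), wt_between h1 h2 (l := qs N k E) (by simp [qs]),
      wt_between h1 h2 (l := spine (2 * (k + fu E e + 1)) e) (by simp [spine]),
      ind_between h1 h2 (a := YY) (by simp), ind_between h1 h2 (a := cp e) (by simp),
      ind_between h1 h2 (a := gg e) (by simp), v1, v2, v3,
      v4 e hel _ (by unfold len; omega), ind_neg (S := stB N k E C X (k + v + 1) (v + 1)) (a := YY) (fun h' => h'.2),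
      ind_neg (S := stB N k E C X (k + v + 1) (v + 1)) (a := gg e) (fun h' => h'.2),
      ind_neg (S := stB N k E C X (k + v + 1) (v + 1)) (a := cp e) (fun h' => h'.2), he]
    omega
  · have hel := supp_lt (h2 ha).1 rfl
    have hg := get_fu_fv hel
    obtain ⟨hu, hv⟩ := lt_of_get hE hg
    rw [rem_dd hE hg ha, wt_between h1 h2 (l := xs N k E) (by simp [xs]),
      wt_between h1 h2 (l := ys k) (by simp [ys]), wt_between h1 h2 (l := qs N k E) (by simp [qs]),
      wt_between h1 h2 (l := spine (len N k) e) (by simp [spine]),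
      wt_between h1 h2 (l := spine (len N k - 2 * (k + fv E e + 1)) e) (by simp [spine]),
      ind_between h1 h2 (a := YY) (by simp), ind_between h1 h2 (a := dp e) (by simp),
      ind_between h1 h2 (a := gg e) (by simp), v1, v2, v3,
      v4 e hel _ le_rfl, v4 e hel _ (by omega), ind_neg (S := stB N k E C X (k + v + 1) (v + 1)) (a := YY) (fun h' => h'.2),
      ind_neg (S := stB N k E C X (k + v + 1) (v + 1)) (a := gg e) (fun h' => h'.2), ind_neg (S := stB N k E C X (k + v + 1) (v + 1)) (a := dp e) (fun h' => h'.2), he]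
    have : len N k = 2 * (k + N) := rfl
    omega

theorem phase2 (hE : ∀ e ∈ E, e.1 < N ∧ e.2 < N) {X : ℕ} (hX : X ≤ big N k E) (hX' : X ≤ k) :
    ∀ v, k + v ≤ big N k E → Reach N k E (stB N k E C X (k + v) v) (stB N k E C X k 0) := by
  intro v
  induction v with
  | zero => intro _; exact Relation.ReflTransGen.refl
  | succ v ih =>
    intro hv
    refine (step_d hE hX hX' hv).trans ?_
    exact (step_q (k + v + 1) (k + v) (by omega)).trans (ih (by omega))

/-- the rest -/
theorem phase3 (hE : ∀ e ∈ E, e.1 < N ∧ e.2 < N) {X : ℕ} (hX : X ≤ big N k E) (hX' : X ≤ k) :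
    Reach N k E (stB N k E C X 0 0) ∅ := by
  obtain ⟨v1, v2, v3, v4⟩ := stB_vals (C := C) (A := 0) (w := 0) hE hX hX' (Nat.zero_le _)
  have h1 : Reach N k E (stB N k E C X 0 0) (stB N k E C X 0 0 \ {a | ∃ e i, a = zz e i}) := by
    apply batch _ (fun a h => h.1)
    rintro S' h1 h2 a ⟨e, i, rfl⟩ ha
    have hel := supp_lt (h2 ha).1 rfl
    have hg := get_fu_fv hel
    have hi := zz_supp' hE (h2 ha).1
    rw [rem_zz hE hg hi ha, wt_between h1 h2 (l := xs N k E) (by simp [xs]),
      wt_between h1 h2 (l := ys k) (by simp [ys]), wt_between h1 h2 (l := qs N k E) (by simp [qs]),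
      ind_between h1 h2 (a := YY) (by simp), ind_between h1 h2 (a := cc e) (by simp),
      ind_between h1 h2 (a := dd e) (by simp), ind_between h1 h2 (a := cp e) (by simp),
      ind_between h1 h2 (a := dp e) (by simp),
      ind_between h1 h2 (a := gg e) (by simp), v1, v2, v3, ind_neg (S := stB N k E C X 0 0) (a := YY) (fun h' => h'.2),
      ind_neg (S := stB N k E C X 0 0) (a := gg e) (fun h' => h'.2), ind_neg (S := stB N k E C X 0 0) (a := cp e) (fun h' => h'.2),
      ind_neg (S := stB N k E C X 0 0) (a := dp e) (fun h' => h'.2), ind_neg (S := stB N k E C X 0 0) (a := cc e) (fun h' => by simpa using h'.2.2),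
      ind_neg (S := stB N k E C X 0 0) (a := dd e) (fun h' => by simpa using h'.2.2)]
    simp
  refine h1.trans ?_
  have e : (∅ : Set Nm) = (stB N k E C X 0 0 \ {a | ∃ e i, a = zz e i}) \
      {a | ∃ i, a = xx i ∨ a = yy i ∨ a = tt i} := by
    ext a
    simp only [stB, Set.mem_sdiff, Set.mem_ofPred_eq, Set.mem_empty_iff_false]
    cases a <;> simp [cB]
  rw [e]
  apply batch _ (fun a h => h.1.1)
  rintro S' h1 h2 a ⟨i, rfl | rfl | rfl⟩ ha
  · exact rem_xx (xx_supp.1 (h2 ha).1.1) ha
  · exact rem_yy (yy_supp.1 (h2 ha).1.1) ha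
  · exact rem_tt (tt_supp.1 (h2 ha).1.1) ha

theorem start_eq : supp N k E = stA N k E C (big N k E) k 0 0 True := by
  ext a
  simp only [stA, Set.mem_ofPred_eq]
  cases a with
  | xx i => simp only [cA]; exact ⟨fun h => ⟨h, xx_supp.1 h⟩, fun h => h.1⟩
  | yy i => simp only [cA]; exact ⟨fun h => ⟨h, yy_supp.1 h⟩, fun h => h.1⟩
  | _ => simp [cA]

end

theorem tCOMPL (h1 : T_SET) (h2 : T_TWICE) : T_COMPL := by
  intro N k E hne hE ⟨C₀, hC₀, hcov₀⟩
  rw [h1.1 _ _ (h2 N k E hE).1]
  change Reach N k E (supp N k E) ∅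
  let C : Finset ℕ := C₀.filter (· < N)
  have hC : C.card ≤ k := (Finset.card_filter_le _ _).trans hC₀
  have hcov : ∀ e ∈ E, e.1 ∈ C ∨ e.2 ∈ C := by
    intro e he
    obtain ⟨h1, h2⟩ := hE e he
    rcases hcov₀ e he with h | h
    · exact Or.inl (Finset.mem_filter.2 ⟨h, h1⟩)
    · exact Or.inr (Finset.mem_filter.2 ⟨h, h2⟩)
  have hbig : k + N + N + k + 1 ≤ big N k E := by
    have : 1 ≤ E.length := List.length_pos_iff.2 hne
    have h2 : 1 * (len N k + 1) ≤ E.length * (len N k + 1) := Nat.mul_le_mul_right _ this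
    unfold big len at *
    omega
  have hm : (C.filter (· < N)).card ≤ k := (Finset.card_filter_le _ _).trans hC
  rw [start_eq (C := C)]
  refine (phase1 hE hne hcov hC N le_rfl).trans ?_
  refine (step_g hE hcov (by omega) (by omega) (by omega)).trans ?_
  refine (step_x (k - (C.filter (· < N)).card) (by omega)).trans ?_
  refine (step_YY hE (by omega) (by omega)).trans ?_
  refine (step_q (big N k E) (k + N) (by omega)).trans ?_
  refine (phase2 hE (by omega) (by omega) N (by omega)).trans ?_
  refine (step_q k 0 (by omega)).trans ?_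
  exact phase3 hE (by omega) (by omega)

end Pool.Agent.Clk
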