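import Pool.Agent.Clk.Targets

set_option autoImplicit false

/-!
# DEC: decomposition of a trace at the inner column which is emptied last
-/

namespace Pool.Agent.Clk
namespace DEC_

theorem keep_congr {x : ℕ} {col : List ℕ} {S T : Set (ℕ × ℕ)}
    (h : ∀ r, (x, r) ∈ S ↔ (x, r) ∈ T) : keep x col S = keep x col T := by
  unfold keep
  congr 1
  apply List.filter_congr
  intro t _
  rw [decide_eq_decide, h]

theorem keep_none {x : ℕ} {col : List ℕ} {S : Set (ℕ × ℕ)} (h : ∀ r, (x, r) ∉ S) :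
    keep x col S = col := by
  unfold keep
  rw [List.filter_eq_self.2 (fun t _ => by simpa using h t.2)]
  simp

theorem keep_length {x : ℕ} {col : List ℕ} {S : Set (ℕ × ℕ)} :
    (keep x col S).length ≤ col.length := by
  unfold keep
  rw [List.length_map]
  exact (List.length_filter_le _ _).trans (by simp)

theorem keep_nil {x : ℕ} {S : Set (ℕ × ℕ)} : keep x [] S = [] := by simp [keep]

theorem keep_cut {h : ℕ} {x : ℕ} {col : List ℕ} {S : Set (ℕ × ℕ)} (hl : col.length ≤ h) :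
    keep x col S = cut col {r : Fin h | (x, (r : ℕ)) ∈ S} := by
  unfold keep cut
  congr 1
  apply List.filter_congr
  intro t ht
  rw [decide_eq_decide]
  have h2 : t.2 < col.length := List.snd_lt_of_mem_zipIdx ht
  constructor
  · intro h1 r hr he
    rw [← he] at h1
    exact h1 hr
  · intro h1 h3
    exact h1 ⟨t.2, h2.trans_le hl⟩ h3 rfl

theorem meets {x : ℕ} {col : List ℕ} {S : Set (ℕ × ℕ)} (h1 : col ≠ []) (h2 : keep x col S = []) :
    ∃ r, (x, r) ∈ S := by
  by_contra h3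
  push Not at h3
  exact h1 ((keep_none h3).symm.trans h2)

/-- the two contents agree on the strip -/
def Ag (i j : ℕ) (c c' : St) : Prop := ∀ l, i ≤ l → l ≤ j → c l = c' l

theorem Ag.symm {i j : ℕ} {c c' : St} (h : Ag i j c c') : Ag i j c' c :=
  fun l h1 h2 => (h l h1 h2).symm

theorem Ag.tl {i j : ℕ} {c c' : St} (h : Ag i j c c') {p : ℕ × ℕ} (h1 : i ≤ p.1) (h2 : p.1 ≤ j) :
    Clk.tl c p = Clk.tl c' p := by
  unfold Clk.tl
  rw [h _ h1 h2]

theorem Ag.bond {i j : ℕ} {c c' : St} (h : Ag i j c c') {p q : ℕ × ℕ} (h1 : i ≤ p.1)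
    (h2 : p.1 ≤ j) (h3 : i ≤ q.1) (h4 : q.1 ≤ j) (hb : SBond c p q) : SBond c' p q := by
  obtain ⟨ht, a, ha, ha'⟩ := hb
  refine ⟨?_, a, by rw [← h.tl h1 h2]; exact ha, by rw [← h.tl h3 h4]; exact ha'⟩
  rcases ht with ht | ⟨he, ⟨hlt, hn⟩ | ⟨hlt, hn⟩⟩
  · exact Or.inl ht
  · refine Or.inr ⟨he, Or.inl ⟨hlt, fun l hl hl' => ?_⟩⟩
    rw [← h l (by omega) (by omega)]
    exact hn l hl hl'
  · refine Or.inr ⟨he, Or.inr ⟨hlt, fun l hl hl' => ?_⟩⟩
    rw [← h l (by omega) (by omega)]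
    exact hn l hl hl'

theorem Ag.cn {i j : ℕ} {c c' : St} {G : Set (ℕ × ℕ)} (h : Ag i j c c')
    (hG : ∀ p ∈ G, i ≤ p.1 ∧ p.1 ≤ j) {p q : ℕ × ℕ} (hc : Cn c G p q) : Cn c' G p q := by
  unfold Cn at hc ⊢
  refine Relation.ReflTransGen.mono ?_ _ _ hc
  rintro u v ⟨hu, hv, hb⟩
  exact ⟨hu, hv, h.bond (hG u hu).1 (hG u hu).2 (hG v hv).1 (hG v hv).2 hb⟩

theorem Ag.ev {i j : ℕ} {c c' : St} {G : Set (ℕ × ℕ)} (h : Ag i j c c') (hE : Ev c i j G) :
    Ev c' i j G := by
  have hG : ∀ p ∈ G, i ≤ p.1 ∧ p.1 ≤ j := fun p hp => ⟨(hE.sub p hp).1, (hE.sub p hp).2.1⟩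
  refine ⟨?_, ?_, ?_, ?_, ?_⟩
  · intro p hp
    obtain ⟨h1, h2, h3⟩ := hE.sub p hp
    exact ⟨h1, h2, by rw [← h.tl h1 h2]; exact h3⟩
  · intro p q hp h1 h2 hb
    exact hE.closed p q hp h1 h2 (h.symm.bond (hG p hp).1 (hG p hp).2 h1 h2 hb)
  · intro hv p hp
    obtain ⟨q, hq, h1, h2⟩ := hE.attach hv p hp
    exact ⟨q, hq, h1, h.cn hG h2⟩
  · intro h1 h2
    obtain ⟨p, hp, q, hq, h3, h4, h5⟩ := hE.span h1 h2
    exact ⟨p, hp, q, hq, h3, h4, h.cn hG h5⟩
  · intro hv
    obtain ⟨h1, p, hp, q, hq, hb⟩ := hE.inner hv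
    exact ⟨fun p hp q hq => h.cn hG (h1 p hp q hq), p, hp, q, hq,
      h.bond (hG p hp).1 (hG p hp).2 (hG q hq).1 (hG q hq).2 hb⟩

theorem Ag.lab {h : ℕ} {i j : ℕ} {c c' : St} {G : Set (ℕ × ℕ)} (ha : Ag i j c c')
    (hG : ∀ p ∈ G, i ≤ p.1 ∧ p.1 ≤ j) : Clk.lab h c i j G = Clk.lab h c' i j G := by
  unfold Clk.lab
  refine Prod.ext rfl (Prod.ext rfl (Prod.ext ?_ ?_))
  · apply Set.ext
    intro s
    constructor
    · rintro ⟨h1, h2, h3⟩
      exact ⟨h1, h2, ha.cn hG h3⟩
    · rintro ⟨h1, h2, h3⟩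
      exact ⟨h1, h2, ha.symm.cn hG h3⟩
  · apply propext
    constructor
    · rintro ⟨p, hp, q, hq, hb⟩
      exact ⟨p, hp, q, hq, ha.bond (hG p hp).1 (hG p hp).2 (hG q hq).1 (hG q hq).2 hb⟩
    · rintro ⟨p, hp, q, hq, hb⟩
      exact ⟨p, hp, q, hq, ha.symm.bond (hG p hp).1 (hG p hp).2 (hG q hq).1 (hG q hq).2 hb⟩

theorem Ag.rem {i j : ℕ} {c c' : St} {G G' : Set (ℕ × ℕ)} (h : Ag i j c c')
    (hG : ∀ p : ℕ × ℕ, i ≤ p.1 → p.1 ≤ j → (p ∈ G ↔ p ∈ G')) :
    Ag i j (Clk.rem c G) (Clk.rem c' G') := by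
  intro l h1 h2
  unfold Clk.rem
  rw [h l h1 h2]
  exact keep_congr fun r => hG (l, r) h1 h2

theorem Ag.tr {h : ℕ} {i j : ℕ} (hij : i < j) {c : St} {τ : List (Label h)} (hT : Tr h i j c τ) :
    ∀ {c' : St}, Ag i j c c' → Tr h i j c' τ := by
  induction hT with
  | done c hc =>
    intro c' ha
    exact Tr.done c' fun l h1 h2 => by rw [← ha l h1.le h2.le]; exact hc l h1 h2
  | silent c G τ h1 h2 hE hv _ ih =>
    intro c' ha
    refine Tr.silent c' G τ ?_ ?_ (ha.ev hE) hv (ih (ha.rem fun _ _ _ => Iff.rfl))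
    · rwa [← ha i le_rfl hij.le]
    · rwa [← ha j hij.le le_rfl]
  | vis c G τ h1 h2 hE hv _ ih =>
    intro c' ha
    rw [ha.lab fun p hp => ⟨(hE.sub p hp).1, (hE.sub p hp).2.1⟩]
    refine Tr.vis c' G τ ?_ ?_ (ha.ev hE) hv (ih (ha.rem fun _ _ _ => Iff.rfl))
    · rwa [← ha i le_rfl hij.le]
    · rwa [← ha j hij.le le_rfl]

open scoped Classical in
/-- the visible part of one event -/
noncomputable def vl (h : ℕ) (c : St) (i j : ℕ) (G : Set (ℕ × ℕ)) : List (Label h) :=
  if Vis i j G then [lab h c i j G] else []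

theorem step {h i j : ℕ} {c : St} {G : Set (ℕ × ℕ)} {τ : List (Label h)} (h1 : c i ≠ [])
    (h2 : c j ≠ []) (hE : Ev c i j G) (hT : Tr h i j (rem c G) τ) :
    Tr h i j c (vl h c i j G ++ τ) := by
  unfold vl
  split_ifs with hv
  · exact Tr.vis c G τ h1 h2 hE hv hT
  · exact Tr.silent c G τ h1 h2 hE hv hT

theorem row_lt {h i j : ℕ} {c : St} {G : Set (ℕ × ℕ)} (hl : ∀ l, (c l).length ≤ h)
    (hE : Ev c i j G) {p : ℕ × ℕ} (hp : p ∈ G) : p.2 < h := by
  have h1 := (hE.sub p hp).2.2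
  unfold tl at h1
  by_contra h2
  have h3 : (c p.1).length ≤ p.2 := (hl p.1).trans (not_lt.1 h2)
  rw [List.getElem?_eq_none h3] at h1
  simp at h1

theorem cutsA_vl {h i j : ℕ} {c : St} {G : Set (ℕ × ℕ)} {τ : List (Label h)}
    (hl : ∀ l, (c l).length ≤ h) : cutsA (vl h c i j G ++ τ) (c i) = cutsA τ (rem c G i) := by
  unfold vl
  split_ifs with hv
  · show cutsA τ (cut (c i) _) = _
    unfold rem
    rw [keep_cut (hl i)]
    rfl
  · have : rem c G i = c i := keep_none fun r hr => hv ⟨(i, r), hr, Or.inl rfl⟩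
    rw [this]
    rfl

theorem cutsB_vl {h i j : ℕ} {c : St} {G : Set (ℕ × ℕ)} {τ : List (Label h)}
    (hl : ∀ l, (c l).length ≤ h) : cutsB (vl h c i j G ++ τ) (c j) = cutsB τ (rem c G j) := by
  unfold vl
  split_ifs with hv
  · show cutsB τ (cut (c j) _) = _
    unfold rem
    rw [keep_cut (hl j)]
    rfl
  · have : rem c G j = c j := keep_none fun r hr => hv ⟨(j, r), hr, Or.inr rfl⟩
    rw [this]
    rfl

theorem after_vl {h i j : ℕ} {c c' : St} {G : Set (ℕ × ℕ)} {τ : List (Label h)}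
    (hl : ∀ l, (c l).length ≤ h) (hA : After i j (rem c G) c' τ) :
    After i j c c' (vl h c i j G ++ τ) := by
  obtain ⟨h1, h2, h3, h4⟩ := hA
  exact ⟨h1, by rw [cutsA_vl hl]; exact h2, by rw [cutsB_vl hl]; exact h3, h4⟩

/-- what has to be shown after one step -/
def Goal {h : ℕ} (i j : ℕ) (c : St) (τ : List (Label h)) (k : ℕ) : Prop :=
  c k ≠ [] ∧ ∃ τ₁ τ₂ τ' τ'', τ = τ' ++ τ'' ∧ Tr h i k c τ₁ ∧
    Tr h k j c τ₂ ∧ Mrg τ₁ τ₂ τ' ∧ cutsB τ₁ (c k) = [] ∧
    ∃ c', After i j c c' τ' ∧ Tr h i j c' τ''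

theorem visL_iff {h i k j : ℕ} {c : St} {G : Set (ℕ × ℕ)} (hik : i < k) (hkj : k < j)
    (hl : ∀ l, (c l).length ≤ h) (hE : Ev c i j G) :
    VisL (lab h c i k {p | p ∈ G ∧ p.1 ≤ k}) (lab h c k j {p | p ∈ G ∧ k ≤ p.1}) ↔
      Vis i j G := by
  constructor
  · rintro (⟨r, hr⟩ | ⟨r, hr⟩)
    · exact ⟨_, hr.1, Or.inl rfl⟩
    · exact ⟨_, hr.1, Or.inr rfl⟩
  · rintro ⟨p, hp, rfl | rfl⟩
    · exact Or.inl ⟨⟨p.2, row_lt hl hE hp⟩, hp, hik.le⟩
    · exact Or.inr ⟨⟨p.2, row_lt hl hE hp⟩, hp, hkj.le⟩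

/-- the main step -/
theorem main (hS : T_SPLIT) {h i j k : ℕ} (hik : i < k) (hkj : k < j) {c : St}
    (hl : ∀ l, (c l).length ≤ h) {G : Set (ℕ × ℕ)} (hi : c i ≠ []) (hj : c j ≠ []) (hk : c k ≠ [])
    (hE : Ev c i j G) {τ₁ τ₂ τ' τ'' : List (Label h)} {c' : St} (h1 : Tr h i k (rem c G) τ₁)
    (h2 : Tr h k j (rem c G) τ₂) (hM : Mrg τ₁ τ₂ τ') (hc : cutsB τ₁ (rem c G k) = [])
    (hA : After i j (rem c G) c' τ') (hT : Tr h i j c' τ'') :
    Goal i j c (vl h c i j G ++ (τ' ++ τ'')) k := by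
  obtain ⟨hS1, hS2⟩ := hS c i k j G hik hkj hk hl hE
  by_cases hm : ∃ r, (k, r) ∈ G
  · obtain ⟨hE1, hE2, hO, hL⟩ := hS1 hm
    obtain ⟨r, hr⟩ := hm
    refine ⟨hk, vl h c i k {p | p ∈ G ∧ p.1 ≤ k} ++ τ₁, vl h c k j {p | p ∈ G ∧ k ≤ p.1} ++ τ₂,
      vl h c i j G ++ τ', τ'', (List.append_assoc _ _ _).symm, ?_, ?_, ?_, ?_, c',
      after_vl hl hA, hT⟩
    · refine step hi hk hE1 (Ag.tr hik h1 ?_)
      refine Ag.rem (fun _ _ _ => rfl) fun p _ hp => ?_
      exact ⟨fun h => ⟨h, hp⟩, fun h => h.1⟩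
    · refine step hk hj hE2 (Ag.tr hkj h2 ?_)
      refine Ag.rem (fun _ _ _ => rfl) fun p hp _ => ?_
      exact ⟨fun h => ⟨h, hp⟩, fun h => h.1⟩
    · have v1 : Vis i k {p | p ∈ G ∧ p.1 ≤ k} := ⟨(k, r), ⟨hr, le_rfl⟩, Or.inr rfl⟩
      have v2 : Vis k j {p | p ∈ G ∧ k ≤ p.1} := ⟨(k, r), ⟨hr, le_rfl⟩, Or.inl rfl⟩
      unfold vl
      rw [if_pos v1, if_pos v2]
      have hv := visL_iff hik hkj hl hE
      split_ifs with hV
      · rw [hL]
        exact Mrg.both _ _ _ _ _ hO (hv.2 hV) hM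
      · exact Mrg.inner _ _ _ _ _ hO (fun h => hV (hv.1 h)) hM
    · rw [cutsB_vl hl]
      have : rem c {p | p ∈ G ∧ p.1 ≤ k} k = rem c G k := by
        unfold rem
        exact keep_congr fun r => ⟨fun h => h.1, fun h => ⟨h, le_rfl⟩⟩
      rw [this]
      exact hc
  · have hmk : ∀ r, (k, r) ∉ G := fun r hr => hm ⟨r, hr⟩
    have hkk : rem c G k = c k := keep_none hmk
    rcases hS2 hm with ⟨hp, hE1⟩ | ⟨hp, hE1⟩
    · have hlab : lab h c i j G = lab h c i k G := by
        have hj' : ∀ r, (j, r) ∉ G := fun r hr => by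
          have := hp _ hr
          simp only at this
          omega
        have hnd : ∀ s : Bool × Fin h, nd i j s ∈ G ∨ nd i k s ∈ G → s.1 = false := by
          rintro ⟨s, r⟩ hs
          cases s
          · rfl
          · rcases hs with hs | hs
            · exact absurd hs (hj' _)
            · exact absurd hs (hmk _)
        have hnd' : ∀ s : Bool × Fin h, s.1 = false → nd i j s = nd i k s := by
          rintro ⟨s, r⟩ hs
          simp only at hs
          subst hs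
          rfl
        unfold lab
        refine Prod.ext rfl (Prod.ext ?_ (Prod.ext ?_ rfl))
        · apply Set.ext
          intro r
          exact ⟨fun h => absurd h (hj' _), fun h => absurd h (hmk _)⟩
        · apply Set.ext
          intro s
          constructor
          · rintro ⟨g1, g2, g3⟩
            have e1 := hnd' _ (hnd _ (Or.inl g1))
            have e2 := hnd' _ (hnd _ (Or.inl g2))
            rw [e1] at g1
            rw [e2] at g2
            rw [e1, e2] at g3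
            exact ⟨g1, g2, g3⟩
          · rintro ⟨g1, g2, g3⟩
            have e1 := hnd' _ (hnd _ (Or.inr g1))
            have e2 := hnd' _ (hnd _ (Or.inr g2))
            rw [← e1] at g1
            rw [← e2] at g2
            rw [← e1, ← e2] at g3
            exact ⟨g1, g2, g3⟩
      have hvis : Vis i j G ↔ Vis i k G := by
        constructor
        · rintro ⟨p, hpG, h | h⟩
          · exact ⟨p, hpG, Or.inl h⟩
          · have := hp p hpG
            omega
        · rintro ⟨p, hpG, h | h⟩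
          · exact ⟨p, hpG, Or.inl h⟩
          · have := hp p hpG
            omega
      have hvl : vl h c i j G = vl h c i k G := by
        unfold vl
        by_cases hv : Vis i j G
        · rw [if_pos hv, if_pos (hvis.1 hv), hlab]
        · rw [if_neg hv, if_neg fun h => hv (hvis.2 h)]
      refine ⟨hk, vl h c i k G ++ τ₁, τ₂, vl h c i j G ++ τ', τ'', (List.append_assoc _ _ _).symm,
        step hi hk hE1 h1, ?_, ?_, ?_, c', after_vl hl hA, hT⟩
      · refine Ag.tr hkj h2 fun l g1 g2 => keep_none fun r hr => ?_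
        have := hp _ hr
        simp only at this
        omega
      · rw [hvl]
        unfold vl
        split_ifs with hV
        · refine Mrg.left _ _ _ _ ?_ hM
          apply Set.eq_empty_iff_forall_notMem.2
          intro r hr
          exact hmk _ hr
        · exact hM
      · rw [cutsB_vl hl]
        exact hc
    · have hlab : lab h c i j G = lab h c k j G := by
        have hi' : ∀ r, (i, r) ∉ G := fun r hr => by
          have := hp _ hr
          simp only at this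
          omega
        have hnd : ∀ s : Bool × Fin h, nd i j s ∈ G ∨ nd k j s ∈ G → s.1 = true := by
          rintro ⟨s, r⟩ hs
          cases s
          · rcases hs with hs | hs
            · exact absurd hs (hi' _)
            · exact absurd hs (hmk _)
          · rfl
        have hnd' : ∀ s : Bool × Fin h, s.1 = true → nd i j s = nd k j s := by
          rintro ⟨s, r⟩ hs
          simp only at hs
          subst hs
          rfl
        unfold lab
        refine Prod.ext ?_ (Prod.ext rfl (Prod.ext ?_ rfl))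
        · apply Set.ext
          intro r
          exact ⟨fun h => absurd h (hi' _), fun h => absurd h (hmk _)⟩
        · apply Set.ext
          intro s
          constructor
          · rintro ⟨g1, g2, g3⟩
            have e1 := hnd' _ (hnd _ (Or.inl g1))
            have e2 := hnd' _ (hnd _ (Or.inl g2))
            rw [e1] at g1
            rw [e2] at g2
            rw [e1, e2] at g3
            exact ⟨g1, g2, g3⟩
          · rintro ⟨g1, g2, g3⟩
            have e1 := hnd' _ (hnd _ (Or.inr g1))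
            have e2 := hnd' _ (hnd _ (Or.inr g2))
            rw [← e1] at g1
            rw [← e2] at g2
            rw [← e1, ← e2] at g3
            exact ⟨g1, g2, g3⟩
      have hvis : Vis i j G ↔ Vis k j G := by
        constructor
        · rintro ⟨p, hpG, h | h⟩
          · have := hp p hpG
            omega
          · exact ⟨p, hpG, Or.inr h⟩
        · rintro ⟨p, hpG, h | h⟩
          · have := hp p hpG
            omega
          · exact ⟨p, hpG, Or.inr h⟩
      have hvl : vl h c i j G = vl h c k j G := by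
        unfold vl
        by_cases hv : Vis i j G
        · rw [if_pos hv, if_pos (hvis.1 hv), hlab]
        · rw [if_neg hv, if_neg fun h => hv (hvis.2 h)]
      refine ⟨hk, τ₁, vl h c k j G ++ τ₂, vl h c i j G ++ τ', τ'', (List.append_assoc _ _ _).symm,
        ?_, step hk hj hE1 h2, ?_, ?_, c', after_vl hl hA, hT⟩
      · refine Ag.tr hik h1 fun l g1 g2 => keep_none fun r hr => ?_
        have := hp _ hr
        simp only at this
        omega
      · rw [hvl]
        unfold vl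
        split_ifs with hV
        · refine Mrg.right _ _ _ _ ?_ hM
          apply Set.eq_empty_iff_forall_notMem.2
          intro r hr
          exact hmk _ hr
        · exact hM
      · rw [hkk] at hc
        exact hc

theorem one (hS : T_SPLIT) {h i j : ℕ} {c : St} (hl : ∀ l, (c l).length ≤ h)
    {G : Set (ℕ × ℕ)} {τ : List (Label h)} (hi : c i ≠ []) (hj : c j ≠ []) (hE : Ev c i j G)
    (hT : Tr h i j (rem c G) τ)
    (ih : (∀ l, (rem c G l).length ≤ h) → (∀ l, i < l → l < j → rem c G l = []) ∨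
      ∃ k, i < k ∧ k < j ∧ Goal i j (rem c G) τ k) :
    (∀ l, i < l → l < j → c l = []) ∨ ∃ k, i < k ∧ k < j ∧ Goal i j c (vl h c i j G ++ τ) k := by
  by_cases hall : ∀ l, i < l → l < j → c l = []
  · exact Or.inl hall
  right
  have hl' : ∀ l, (rem c G l).length ≤ h := fun l => keep_length.trans (hl l)
  rcases ih hl' with h0 | ⟨k, hik, hkj, hk, τ₁, τ₂, τ', τ'', rfl, h1, h2, hM, hc, c', hA, hT'⟩
  · push Not at hall
    obtain ⟨k, hik, hkj, hk⟩ := hall
    refine ⟨k, hik, hkj, ?_⟩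
    have := main hS hik hkj hl hi hj hk hE (τ₁ := []) (τ₂ := []) (τ' := []) (τ'' := τ)
      (c' := rem c G) (Tr.done _ fun l g1 g2 => h0 l g1 (g2.trans hkj))
      (Tr.done _ fun l g1 g2 => h0 l (hik.trans g1) g2) Mrg.nil (h0 k hik hkj)
      ⟨h0, rfl, rfl, hl'⟩ hT
    exact this
  · refine ⟨k, hik, hkj, ?_⟩
    have hk' : c k ≠ [] := by
      intro h
      apply hk
      unfold rem
      rw [h, keep_nil]
    exact main hS hik hkj hl hi hj hk' hE h1 h2 hM hc hA hT'

end DEC_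

open DEC_ in
/-- DEC -/
theorem tDEC (hS : T_SPLIT) : T_DEC := by
  intro h i j c τ hij hl hT
  suffices hs : (∀ l, i < l → l < j → c l = []) ∨ ∃ k, i < k ∧ k < j ∧ Goal i j c τ k by
    exact hs
  induction hT with
  | done c hc => exact Or.inl hc
  | silent c G τ h1 h2 hE hv hT ih =>
    have := one hS hl h1 h2 hE hT ih
    unfold vl at this
    rw [if_neg hv] at this
    exact this
  | vis c G τ h1 h2 hE hv hT ih =>
    have := one hS hl h1 h2 hE hT ih
    unfold vl at this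
    rw [if_pos hv] at this
    exact this

end Pool.Agent.Clk
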