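import Pool.Agent.Clk.Targets

set_option autoImplicit false

/-!
# Reading a position from its encoding
-/

namespace Pool.Agent.Clk

open Pool.Agent.SLN (Sym encWalk encBits)
open Pool.Agent.PT (Dat PolyF PolyB D sz Core sz_pair sz_cons sz_nil sz_pos sz_reverse
  length_lt_sz sz_le_of_prefix enc val val_bits sz_bits_le sz_nat)

namespace DECODE

/-- digits read (reversed), colours of the column (reversed), columns (reversed) -/
abbrev DSt : Type := List Bool × List ℕ × List (List ℕ)

/-- one step of the parser -/
def dstep (s : DSt) (c : Sym) : DSt :=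
  cond (decide (c = Sym.zero)) (false :: s.1, s.2)
    (cond (decide (c = Sym.one)) (true :: s.1, s.2)
      (cond (decide (c = Sym.comma)) ([], val s.1.reverse :: s.2.1, s.2.2)
        ([], [], s.2.1.reverse :: s.2.2)))

/-- the parser -/
def parse (w : List Sym) : List (List ℕ) := (w.foldl dstep ([], [], [])).2.2.reverse

theorem foldl_bits (l : List Bool) (o : List Bool) (r : List ℕ × List (List ℕ)) :
    (encBits l).foldl dstep (o, r) = (l.reverse ++ o, r) := by
  unfold encBits
  induction l generalizing o with
  | nil => rfl
  | cons b l ih =>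
    rw [List.map_cons, List.foldl_cons]
    have : dstep (o, r) (if b = true then Sym.one else Sym.zero) = (b :: o, r) := by
      cases b <;> simp [dstep]
    rw [this, ih]
    simp

theorem foldl_names (w : List ℕ) : ∀ (o : List ℕ) (r : List (List ℕ)),
    ((w.map Nat.bits).flatMap (fun v => encBits v ++ [Sym.comma])).foldl dstep ([], o, r) =
      ([], w.reverse ++ o, r) := by
  induction w with
  | nil => intro o r; rfl
  | cons v w ih =>
    intro o r
    have h : dstep (v.bits.reverse ++ [], o, r) Sym.comma = ([], v :: o, r) := by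
      simp [dstep, val_bits]
    rw [List.map_cons, List.flatMap_cons, List.foldl_append, List.foldl_append, foldl_bits,
      List.foldl_cons, List.foldl_nil, h, ih]
    simp

theorem foldl_col (w : List ℕ) (r : List (List ℕ)) :
    (encWalk (w.map Nat.bits)).foldl dstep ([], [], r) = ([], [], w :: r) := by
  unfold encWalk
  rw [List.foldl_append, foldl_names, List.foldl_cons, List.foldl_nil]
  simp [dstep]

theorem foldl_pos (b : Pos) : ∀ r : List (List ℕ),
    (encPos b).foldl dstep ([], [], r) = ([], [], b.reverse ++ r) := by
  unfold encPos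
  induction b with
  | nil => intro r; rfl
  | cons w l ih =>
    intro r
    rw [List.flatMap_cons, List.foldl_append, foldl_col, ih]
    simp

theorem parse_encPos (b : Pos) : parse (encPos b) = b := by
  unfold parse
  rw [foldl_pos]
  simp

theorem val_lt (l : List Bool) : val l < 2 ^ l.length := by
  induction l with
  | nil => simp [val]
  | cons b l ih =>
    rw [val, List.length_cons, pow_succ]
    cases b <;> simp <;> omega

theorem sz_val_le (l : List Bool) : sz (val l) ≤ 4 * l.length + 1 := by
  rw [sz_nat]
  have h1 := sz_bits_le (val l).bits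
  have h2 : (val l).bits.length ≤ l.length := by
    rw [Nat.size_eq_bits_len]
    exact Nat.size_le.2 (val_lt l)
  omega

/-- a bound for the size of a state -/
def pot (s : DSt) : ℕ := 4 * s.1.length + sz s.2.1 + sz s.2.2

theorem pot_dstep_le (s : DSt) (c : Sym) : pot (dstep s c) ≤ pot s + 4 := by
  obtain ⟨l, cl, cs⟩ := s
  have h1 := sz_val_le l.reverse
  rw [List.length_reverse] at h1
  have h2 := sz_pos cl
  have h3 : sz ([] : List ℕ) = 1 := rfl
  cases c <;> simp [dstep, pot, sz_cons, sz_reverse, h3] <;> omega

theorem pot_foldl (w : List Sym) (s : DSt) : pot (w.foldl dstep s) ≤ pot s + 4 * w.length := by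
  induction w generalizing s with
  | nil => simp
  | cons c w ih =>
    rw [List.foldl_cons, List.length_cons]
    have := ih (dstep s c)
    have := pot_dstep_le s c
    omega

theorem sz_le_pot (s : DSt) : sz s ≤ pot s + 3 := by
  obtain ⟨l, cl, cs⟩ := s
  have h1 := sz_bits_le l
  rw [sz_pair, sz_pair]
  unfold pot
  simp only
  omega

section

variable {γ : Type} [Dat γ] [hC : Fact Core]

theorem dstep_pt {s : γ → DSt} {c : γ → Sym} (hs : PolyF s) (hc : PolyF c) :
    PolyF (fun x => dstep (s x) (c x)) := by
  unfold dstep; fun_prop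

theorem foldl_dstep_pt : PolyF (fun w : List Sym => w.foldl dstep ([], [], [])) := by
  refine PolyF.foldl (f := fun _ => dstep) (dstep_pt (by fun_prop) (by fun_prop)) (by fun_prop)
    (by fun_prop) (fun w => 5 + 4 * sz w) ((PolyB.const _).add ((PolyB.const 4).mul PolyB.sz)) ?_
  intro w l₁ hl₁
  have h1 := pot_foldl l₁ ([], [], [])
  have h2 := length_lt_sz l₁
  have h3 := sz_le_of_prefix hl₁
  have h4 := sz_le_pot (l₁.foldl dstep ([], [], []))
  have h5 : pot ([], [], []) = 2 := rfl
  omega

theorem parse_pt : PolyF parse := by
  have := foldl_dstep_pt (hC := hC)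
  exact this.snd.snd.reverse

end

end DECODE

theorem tDECODE : T_DECODE := by
  have : Fact Core := ⟨Pool.Agent.PT.core⟩
  exact ⟨DECODE.parse, DECODE.parse_pt, DECODE.parse_encPos⟩

end Pool.Agent.Clk
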