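import Pool.Agent.CookLevin.Defs
import Pool.Agent.SLN.Defs

set_option autoImplicit false

/-!
# Clickomania: the puzzle and its decision problems
-/

namespace Pool.Agent.Clk

open Pool.Agent.PAH (DecisionProblem)
open Pool.Agent.SLN (Sym encWalk encBits)
open Pool.Agent.CookLevin (InNP NPHard encBool)

/-- A position: the occupied columns from left to right, each given by the colours of its tiles from
bottom to top. -/
abbrev Pos : Type := List (List ℕ)

/-- The colour of the tile in the cell `(column, row)`, if the cell is occupied. -/
def tile (b : Pos) (p : ℕ × ℕ) : Option ℕ := (b[p.1]?).bind fun col => col[p.2]?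

/-- Cells with a common edge. -/
def Near (p q : ℕ × ℕ) : Prop :=
  (p.1 = q.1 ∧ (p.2 + 1 = q.2 ∨ q.2 + 1 = p.2)) ∨
    (p.2 = q.2 ∧ (p.1 + 1 = q.1 ∨ q.1 + 1 = p.1))

/-- Adjacent tiles of the same colour. -/
def Bond (b : Pos) (p q : ℕ × ℕ) : Prop := Near p q ∧ ∃ a, tile b p = some a ∧ tile b q = some a

/-- The group which contains the tile in the cell `p`. -/
def group (b : Pos) (p : ℕ × ℕ) : Set (ℕ × ℕ) := {q | Relation.ReflTransGen (Bond b) p q}

open scoped Classical in
/-- What is left of the column `col` with number `x` when the cells in `S` are removed; the tiles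
above them drop. -/
noncomputable def keep (x : ℕ) (col : List ℕ) (S : Set (ℕ × ℕ)) : List ℕ :=
  (col.zipIdx.filter fun t => decide ((x, t.2) ∉ S)).map Prod.fst

/-- The position after removing the cells in `S`: tiles drop, empty columns are deleted. -/
noncomputable def remove (b : Pos) (S : Set (ℕ × ℕ)) : Pos :=
  (b.zipIdx.map fun t => keep t.2 t.1 S).filter fun col => decide (col ≠ [])

/-- A click removes a group with at least two tiles. -/
def Click (b b' : Pos) : Prop :=
  ∃ p, (tile b p).isSome ∧ (∃ q, q ≠ p ∧ q ∈ group b p) ∧ b' = remove b (group b p)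

/-- Some finite sequence of clicks removes every tile. -/
def Clearable (b : Pos) : Prop := Relation.ReflTransGen Click b []

/-- A board: a full rectangular array with `h` rows and `w` columns. -/
def IsBoard (h w : ℕ) (b : Pos) : Prop :=
  0 < h ∧ 0 < w ∧ b.length = w ∧ ∀ col ∈ b, col.length = h

/-- Boards with at most `h` rows. -/
def rows (h : ℕ) (b : Pos) : Prop := ∃ h' w', IsBoard h' w' b ∧ h' ≤ h

/-- Boards with at most `h` rows and at most `c` colours. -/
def rowsColours (h c : ℕ) (b : Pos) : Prop :=
  ∃ h' w', IsBoard h' w' b ∧ h' ≤ h ∧ b.flatten.toFinset.card ≤ c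

/-- Boards with at most `m` copies (tiles of the same colour) and at most `w` columns. -/
def copiesColumns (m w : ℕ) (b : Pos) : Prop :=
  ∃ h' w', IsBoard h' w' b ∧ w' ≤ w ∧ ∀ a, b.flatten.count a ≤ m

/-- Boards with at most `m` copies and at most `h` rows. -/
def copiesRows (m h : ℕ) (b : Pos) : Prop :=
  ∃ h' w', IsBoard h' w' b ∧ h' ≤ h ∧ ∀ a, b.flatten.count a ≤ m

/-- A position, tile by tile: the colours of a column in binary, each followed by a comma, and a
semicolon after each column. -/
def encPos (b : Pos) : List Sym := b.flatMap fun col => encWalk (col.map Nat.bits)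

/-- The class P: membership is decided by a polynomial time Turing machine. -/
def InP (P : DecisionProblem) : Prop :=
  ∃ R : P.Inst → Bool, Nonempty (Turing.TM2ComputableInPolyTime P.enc encBool R) ∧
    ∀ a, P.Yes a ↔ R a = true

theorem encBits_split : ∀ (a c : List Bool) (s t : List Sym),
    encBits a ++ Sym.comma :: s = encBits c ++ Sym.comma :: t → a = c ∧ s = t := by
  intro a
  induction a with
  | nil =>
    intro c s t h
    cases c with
    | nil => simpa [encBits] using h
    | cons x c => cases x <;> simp [encBits] at h
  | cons x a ih =>
    intro c s t h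
    cases c with
    | nil => cases x <;> simp [encBits] at h
    | cons y c =>
      have h' : (if x then Sym.one else Sym.zero) = (if y then Sym.one else Sym.zero) ∧
          encBits a ++ Sym.comma :: s = encBits c ++ Sym.comma :: t := by
        simpa [encBits] using h
      obtain ⟨h1, h2⟩ := h'
      obtain ⟨h3, h4⟩ := ih c s t h2
      refine ⟨?_, h4⟩
      rw [h3]
      cases x <;> cases y <;> simp_all

theorem encBits_ne_semi (a : List Bool) (s t : List Sym) :
    encBits a ++ Sym.comma :: s ≠ Sym.semi :: t := by
  cases a with
  | nil => simp [encBits]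
  | cons x a => cases x <;> simp [encBits]

theorem encWalk_split : ∀ (u v : List (List Bool)) (s t : List Sym),
    encWalk u ++ s = encWalk v ++ t → u = v ∧ s = t := by
  intro u
  induction u with
  | nil =>
    intro v s t h
    cases v with
    | nil => simpa [encWalk] using h
    | cons y v =>
      exfalso
      apply encBits_ne_semi y (encWalk v ++ t) s
      simpa [encWalk] using h.symm
  | cons x u ih =>
    intro v s t h
    cases v with
    | nil =>
      exfalso
      apply encBits_ne_semi x (encWalk u ++ s) t
      simpa [encWalk] using h
    | cons y v =>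
      have h' : encBits x ++ Sym.comma :: (encWalk u ++ s) =
          encBits y ++ Sym.comma :: (encWalk v ++ t) := by
        simpa [encWalk] using h
      obtain ⟨h1, h2⟩ := encBits_split _ _ _ _ h'
      obtain ⟨h3, h4⟩ := ih _ _ _ h2
      exact ⟨by rw [h1, h3], h4⟩

theorem bits_inj {m n : ℕ} (h : m.bits = n.bits) : m = n := by
  have h1 := congrArg (fun l : List Bool => l.foldr (fun b s => Nat.bit b s) 0) h
  have key : ∀ n : ℕ, n.bits.foldr (fun b s => Nat.bit b s) 0 = n := by
    intro n
    induction n using Nat.binaryRec' with
    | zero => simp
    | bit b n hb ih =>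
      rw [Nat.bits_append_bit n b hb, List.foldr_cons, ih]
  simpa [key] using h1

theorem encPos_inj : Function.Injective encPos := by
  intro b
  induction b with
  | nil =>
    intro b' h
    cases b' with
    | nil => rfl
    | cons y b' =>
      have : encWalk (y.map Nat.bits) = [] := by
        have h' : [] = encWalk (y.map Nat.bits) ++ encPos b' := by simpa [encPos] using h
        exact (List.append_eq_nil_iff.1 h'.symm).1
      simp [encWalk] at this
  | cons x b ih =>
    intro b' h
    cases b' with
    | nil =>
      have : encWalk (x.map Nat.bits) = [] := by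
        have h' : encWalk (x.map Nat.bits) ++ encPos b = [] := by simpa [encPos] using h
        exact (List.append_eq_nil_iff.1 h').1
      simp [encWalk] at this
    | cons y b' =>
      have h' : encWalk (x.map Nat.bits) ++ encPos b = encWalk (y.map Nat.bits) ++ encPos b' := by
        simpa [encPos] using h
      obtain ⟨h1, h2⟩ := encWalk_split _ _ _ _ h'
      have h3 : x = y := List.map_injective_iff.2 (fun m n h => bits_inj h) h1
      rw [h3, ih h2]

/-- The decision problem CLEAR, restricted to the family `F` of boards: can the board be
cleared? -/
def clear (F : Pos → Prop) : DecisionProblem where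
  Inst := {b : Pos // F b}
  Alphabet := Sym
  finite := inferInstance
  enc := fun b => encPos b.1
  enc_inj := fun _ _ h => Subtype.ext (encPos_inj h)
  Yes := fun b => Clearable b.1

end Pool.Agent.Clk
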