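import Pool.Agent.Clk.Compl

set_option autoImplicit false

/-!
# Assembly
-/

namespace Pool.Agent.Clk

open Pool.Agent.SLN (Sym Lit Satisfiable)
open Pool.Agent.PT (Dat PolyF)
open Pool.Agent.CookLevin (InNP NPHard encBool)

/-! ## Polynomial time -/

/-- A family with a polynomial time test on the columns. -/
theorem inP_of (h1 : T_DECODE) {F : Pos → Prop} {alg : List (List ℕ) → Bool} (ha : PolyF alg)
    (hF : ∀ b, F b → (alg b = true ↔ Clearable b)) : InP (clear F) := by
  have hcore : Fact Pool.Agent.PT.Core := ⟨Pool.Agent.PT.core⟩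
  obtain ⟨D, hD, hDe⟩ := h1
  refine ⟨fun b => alg b.1, ?_, fun b => (hF b.1 b.2).symm⟩
  have hG : PolyF fun w : List Sym => [alg (D w)] :=
    PolyF.cons (PolyF.comp ha hD) (PolyF.const _)
  refine Pool.Agent.PT.tm_of_polyF hG (clear F).enc encBool (fun b => alg b.1) fun b => ?_
  change [alg (D (encPos b.1))] = [alg b.1]
  rw [hDe]

theorem inP_rows (h1 : T_DECODE) (h2 : T_ALG) (h : ℕ) {F : Pos → Prop}
    (hF : ∀ b, F b → rows h b) : InP (clear F) := by
  obtain ⟨alg, ha, hb⟩ := h2 h
  refine inP_of h1 ha fun b hFb => hb b ?_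
  obtain ⟨h', w', ⟨g1, g2, g3, g4⟩, g5⟩ := hF b hFb
  intro col hcol
  have := g4 col hcol
  refine ⟨fun h' => ?_, by omega⟩
  rw [h'] at this
  simp at this
  omega

theorem inP_column (h1 : T_DECODE) (h2 : T_ALG) (h3 : T_COL) {F : Pos → Prop}
    (hF : ∀ b, F b → ∃ h, IsBoard h 1 b) : InP (clear F) := by
  have hcore : Fact Pool.Agent.PT.Core := ⟨Pool.Agent.PT.core⟩
  obtain ⟨alg, ha, hb⟩ := h2 1
  have hr : PolyF fun b : List (List ℕ) => (b.headD []).map fun a => [a] := by fun_prop
  refine inP_of h1 (ha.comp hr) fun b hFb => ?_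
  obtain ⟨h, g1, -, g3, g4⟩ := hF b hFb
  obtain ⟨col, rfl⟩ := List.length_eq_one_iff.1 g3
  have hc : col ≠ [] := by
    intro h'
    have := g4 col (by simp)
    rw [h'] at this
    simp at this
    omega
  rw [h3 col hc]
  refine hb _ ?_
  intro c hc
  obtain ⟨a, -, rfl⟩ := List.mem_map.1 hc
  simp

/-- without two tiles of the same colour there is no click -/
theorem no_click {b b' : Pos} (h : ∀ a, b.flatten.count a ≤ 1) : ¬ Click b b' := by
  rintro ⟨p, hp, ⟨q, hqp, hq⟩, -⟩
  have key : ∀ q, Relation.ReflTransGen (Bond b) p q → tile b q = tile b p := by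
    intro q hq
    induction hq with
    | refl => rfl
    | tail _ h1 ih =>
      obtain ⟨-, a, h2, h3⟩ := h1
      rw [h3, ← h2, ih]
  obtain ⟨a, ha⟩ := Option.isSome_iff_exists.1 hp
  have hq' := key q hq
  rw [ha] at hq'
  -- two cells with the colour `a`
  have two : ∀ b : Pos, ∀ p q : ℕ × ℕ, p ≠ q → tile b p = some a → tile b q = some a →
      2 ≤ b.flatten.count a := by
    intro b
    have one : ∀ (b : Pos) (p : ℕ × ℕ), tile b p = some a → 1 ≤ b.flatten.count a := by
      intro b p hp
      rw [List.one_le_count_iff, List.mem_flatten]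
      unfold tile at hp
      obtain ⟨col, h1, h2⟩ := Option.bind_eq_some_iff.1 hp
      exact ⟨col, List.mem_of_getElem? h1, List.mem_of_getElem? h2⟩
    have two' : ∀ (l : List ℕ) (i j : ℕ), i ≠ j → l[i]? = some a → l[j]? = some a →
        2 ≤ l.count a := by
      intro l
      induction l with
      | nil => intro i j _ h; simp at h
      | cons x l ih =>
        intro i j hij hi hj
        rw [List.count_cons]
        cases i with
        | zero =>
          cases j with
          | zero => exact absurd rfl hij
          | succ j =>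
            have h1 : x = a := by simpa using hi
            have h2 : a ∈ l := List.mem_of_getElem? (by simpa using hj : l[j]? = some a)
            have h3 := List.one_le_count_iff.2 h2
            simp [h1]
            omega
        | succ i =>
          cases j with
          | zero =>
            have h1 : x = a := by simpa using hj
            have h2 : a ∈ l := List.mem_of_getElem? (by simpa using hi : l[i]? = some a)
            have h3 := List.one_le_count_iff.2 h2
            simp [h1]
            omega
          | succ j =>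
            have := ih i j (by omega) (by simpa using hi) (by simpa using hj)
            omega
    induction b with
    | nil => intro p q _ hp; simp [tile] at hp
    | cons col b ih =>
      rintro ⟨x, y⟩ ⟨x', y'⟩ hne hp hq
      rw [List.flatten_cons, List.count_append]
      cases x with
      | zero =>
        have hp' : col[y]? = some a := by simpa [tile] using hp
        cases x' with
        | zero =>
          have hq' : col[y']? = some a := by simpa [tile] using hq
          have := two' col y y' (fun h => hne (by rw [h])) hp' hq'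
          omega
        | succ x' =>
          have h1 := List.one_le_count_iff.2 (List.mem_of_getElem? hp')
          have h2 := one b (x', y') (by simpa [tile] using hq)
          omega
      | succ x =>
        cases x' with
        | zero =>
          have hq' : col[y']? = some a := by simpa [tile] using hq
          have h1 := List.one_le_count_iff.2 (List.mem_of_getElem? hq')
          have h2 := one b (x, y) (by simpa [tile] using hp)
          omega
        | succ x' =>
          have := ih (x, y) (x', y') (fun h => hne (by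
            have h1 := congrArg Prod.fst h
            have h2 := congrArg Prod.snd h
            simp only at h1 h2
            rw [h1, h2])) (by simpa [tile] using hp) (by simpa [tile] using hq)
          omega
  have := two b p q hqp.symm ha hq'
  have := h a
  omega

theorem not_clearable {b : Pos} (hb : b ≠ []) (h : ∀ a, b.flatten.count a ≤ 1) :
    ¬ Clearable b := by
  intro hc
  rcases Relation.ReflTransGen.cases_head hc with h1 | ⟨c, h1, -⟩
  · exact hb h1
  · exact no_click h h1

theorem inP_copies (h1 : T_DECODE) {F : Pos → Prop}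
    (hF : ∀ b, F b → b ≠ [] ∧ ∀ a, b.flatten.count a ≤ 1) : InP (clear F) := by
  have hcore : Fact Pool.Agent.PT.Core := ⟨Pool.Agent.PT.core⟩
  refine inP_of h1 (alg := fun _ => false) (PolyF.const _) fun b hFb => ?_
  have := not_clearable (hF b hFb).1 (hF b hFb).2
  simp [this]

/-! ## Hardness -/

theorem code_inj : Function.Injective code := by
  intro a b h
  cases a <;> cases b <;> simp only [code] at h <;> first
    | (exfalso; omega)
    | rfl
    | (congr 1; omega)
    | skip
  · rename_i e i e' i'
    have h' : Nat.pair e i = Nat.pair e' i' := by omega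
    obtain ⟨h1, h2⟩ := Nat.pair_eq_pair.1 h'
    rw [h1, h2]

theorem vcE_lt {φ : List (List Lit)} {e : ℕ × ℕ} (he : e ∈ vcE φ) :
    e.1 < (occ φ).length ∧ e.2 < (occ φ).length := by
  rw [vcE, List.mem_flatMap] at he
  obtain ⟨⟨p, i⟩, h1, h2⟩ := he
  rw [List.mem_map] at h2
  obtain ⟨⟨q, j⟩, h3, rfl⟩ := h2
  have h4 := (List.mem_filter.1 h3).1
  refine ⟨?_, ?_⟩
  · have := List.mem_zipIdx_iff_getElem?.1 h1
    by_contra hc
    rw [List.getElem?_eq_none (by simpa using hc)] at this
    cases this
  · have := List.mem_zipIdx_iff_getElem?.1 h4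
    by_contra hc
    rw [List.getElem?_eq_none (by simpa using hc)] at this
    cases this

theorem vcE_pad (φ : List (List Lit)) : vcE (pad φ) ≠ [] := by
  have : ((0, 1) : ℕ × ℕ) ∈ vcE (pad φ) := by
    rw [vcE, List.mem_flatMap]
    refine ⟨((0, (true, [])), 0), ?_, ?_⟩
    · rw [List.mem_zipIdx_iff_getElem?]
      simp [occ, pad, List.zipIdx_cons]
    · rw [List.mem_map]
      refine ⟨((0, (false, [])), 1), ?_, rfl⟩
      rw [List.mem_filter, List.mem_zipIdx_iff_getElem?]
      refine ⟨?_, ?_⟩
      · simp [occ, pad, List.zipIdx_cons]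
      · simp [conf]
  intro h
  rw [h] at this
  simp at this

theorem sat_pad (φ : List (List Lit)) : Satisfiable (pad φ) ↔ Satisfiable φ := by
  constructor
  · rintro ⟨τ, h⟩
    exact ⟨τ, fun c hc => h c (by simp [pad, hc])⟩
  · rintro ⟨τ, h⟩
    refine ⟨τ, fun c hc => ?_⟩
    rw [pad, List.mem_cons] at hc
    rcases hc with rfl | hc
    · cases hτ : τ [] with
      | true => exact ⟨(true, []), by simp, hτ⟩
      | false => exact ⟨(false, []), by simp, hτ⟩
    · exact h c hc

theorem twice_count {L R : List Nm} (h : Twice L R) (a : ℕ) :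
    (L.map code ++ R.map code).count a ≤ 2 := by
  by_cases ha : a ∈ L.map code ++ R.map code
  · rw [← List.map_append, List.mem_map] at ha
    obtain ⟨b, hb, rfl⟩ := ha
    rw [← List.map_append, List.count_map_of_injective _ _ code_inj, List.count_append]
    exact (h b hb).le
  · rw [List.count_eq_zero_of_not_mem ha]
    omega

theorem small_not_clearable : ¬ Clearable [[0], [1]] := by
  apply not_clearable (by simp)
  intro a
  simp only [List.flatten_cons, List.flatten_nil, List.append_nil, List.singleton_append,
    List.count_cons, List.count_nil]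
  by_cases h0 : a = 0
  · subst h0; simp
  · by_cases h1 : a = 1
    · subst h1; simp
    · have h2 : ¬ (0 = a) := fun h => h0 h.symm
      have h3 : ¬ (1 = a) := fun h => h1 h.symm
      simp [h2, h3]

section
variable (hT : T_TWICE)

include hT

theorem board_family (m w : ℕ) (hm : 2 ≤ m) (hw : 2 ≤ w) (φ : List (List Lit)) :
    copiesColumns m w (board φ) := by
  unfold board
  split_ifs with h
  · refine ⟨1, 2, ⟨by omega, by omega, rfl, by simp⟩, hw, fun a => ?_⟩
    refine (List.count_le_length).trans ?_
    simpa using hm
  · have h1 := hT (occ (pad φ)).length ((occ (pad φ)).length - (pad φ).length) (vcE (pad φ))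
      (fun e he => vcE_lt he)
    refine ⟨(colL (occ (pad φ)).length ((occ (pad φ)).length - (pad φ).length)
      (vcE (pad φ))).length, 2, ⟨?_, by omega, rfl, ?_⟩, hw, fun a => ?_⟩
    · apply List.length_pos_iff.2
      simp [colL]
    · intro col hcol
      simp only [List.mem_cons, List.not_mem_nil, or_false] at hcol
      rcases hcol with rfl | rfl
      · rw [List.length_map]
      · rw [List.length_map, h1.2]
    · refine le_trans ?_ hm
      have := twice_count h1.1 a
      simpa using this

theorem board_yes (h1 : T_TWO) (h2 : T_SET) (h3 : T_VC) (φ : List (List Lit)) :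
    Satisfiable φ ↔ Clearable (board φ) := by
  unfold board
  split_ifs with h
  · refine ⟨fun hs => ?_, fun hc => absurd hc small_not_clearable⟩
    exfalso
    rw [List.any_eq_true] at h
    obtain ⟨c, hc, he⟩ := h
    obtain ⟨τ, hτ⟩ := hs
    obtain ⟨l, hl, -⟩ := hτ c hc
    rw [List.isEmpty_iff.1 he] at hl
    simp at hl
  · have hne : ∀ c ∈ pad φ, c ≠ [] := by
      intro c hc he
      rw [pad, List.mem_cons] at hc
      rcases hc with rfl | hc
      · simp at he
      · apply h
        rw [List.any_eq_true]
        exact ⟨c, hc, by rw [he]; rfl⟩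
    rw [← sat_pad, h3 (pad φ) hne]
    have hE : ∀ e ∈ vcE (pad φ), e.1 < (occ (pad φ)).length ∧ e.2 < (occ (pad φ)).length :=
      fun e he => vcE_lt he
    have ht := hT _ ((occ (pad φ)).length - (pad φ).length) _ hE
    rw [h1 _ _ (by simp [colL]) (by simp [colR]) (twice_count ht.1), h2.2 code _ _ code_inj]
    exact ⟨tCOMPL h2 hT _ _ _ (vcE_pad φ) hE, tSOUND h2 hT _ _ _ (vcE_pad φ) hE⟩

theorem nphard (h1 : T_TWO) (h2 : T_SET) (h3 : T_VC) (h4 : T_PRINT) (m w : ℕ) (hm : 2 ≤ m)
    (hw : 2 ≤ w) : NPHard (clear (copiesColumns m w)) := by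
  exact @Pool.Agent.CookLevin.hard (clear (copiesColumns m w)) (inferInstanceAs (Dat Sym))
    (fun φ => ⟨board φ, board_family hT m w hm hw φ⟩) (fun φ => encPos (board φ)) h4
    (fun φ => rfl) (fun φ => board_yes hT h1 h2 h3 φ)

end

/-! ## The classification -/

/-- all parts -/
structure Parts : Prop where
  decode : T_DECODE
  alg : T_ALG
  col : T_COL
  np : T_NP
  two : T_TWO
  set : T_SET
  twice : T_TWICE
  vc : T_VC
  print : T_PRINT

theorem classification (P : Parts) :
    (∀ h c, InP (clear (rowsColours h c))) ∧
    (∀ m h, InP (clear (copiesRows m h))) ∧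
    (∀ m w, m ≤ 1 ∨ w ≤ 1 → InP (clear (copiesColumns m w))) ∧
    (∀ m w, 2 ≤ m → 2 ≤ w →
      InNP (clear (copiesColumns m w)) ∧ NPHard (clear (copiesColumns m w))) := by
  refine ⟨fun h c => ?_, fun m h => ?_, fun m w hmw => ?_, fun m w hm hw => ⟨?_, ?_⟩⟩
  · refine inP_rows P.decode P.alg h fun b hb => ?_
    obtain ⟨h', w', g1, g2, -⟩ := hb
    exact ⟨h', w', g1, g2⟩
  · refine inP_rows P.decode P.alg h fun b hb => ?_
    obtain ⟨h', w', g1, g2, -⟩ := hb
    exact ⟨h', w', g1, g2⟩
  · rcases hmw with hm | hw
    · refine inP_copies P.decode fun b hb => ?_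
      obtain ⟨h', w', g1, -, g2⟩ := hb
      refine ⟨fun he => ?_, fun a => (g2 a).trans hm⟩
      obtain ⟨-, k2, k3, -⟩ := g1
      rw [he] at k3
      simp at k3
      omega
    · refine inP_column P.decode P.alg P.col fun b hb => ?_
      obtain ⟨h', w', g1, g2, -⟩ := hb
      have : w' = 1 := by
        have := g1.2.1
        omega
      subst this
      exact ⟨h', g1⟩
  · refine P.np _ fun b hb => ?_
    obtain ⟨h', w', g1, -⟩ := hb
    exact ⟨h', w', g1⟩
  · exact nphard P.twice P.two P.set P.vc P.print m w hm hw

end Pool.Agent.Clk
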