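import Pool.Agent.Clk.Targets

set_option autoImplicit false

/-!
# GLUE: events of two neighbouring strips glue
-/

namespace Pool.Agent.Clk

theorem glue_touch_symm {c : St} {p q : ℕ × ℕ} (h : Touch c p q) : Touch c q p := by
  rcases h with ⟨h1, h2⟩ | ⟨h1, h2⟩
  · exact Or.inl ⟨h1.symm, h2.symm⟩
  · exact Or.inr ⟨h1.symm, h2.symm⟩

theorem glue_bond_symm {c : St} {p q : ℕ × ℕ} (h : SBond c p q) : SBond c q p := by
  obtain ⟨h1, a, h2, h3⟩ := h
  exact ⟨glue_touch_symm h1, a, h3, h2⟩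

theorem glue_cn_symm {c : St} {G : Set (ℕ × ℕ)} {p q : ℕ × ℕ} (h : Cn c G p q) : Cn c G q p := by
  induction h with
  | refl => exact Relation.ReflTransGen.refl
  | tail _ hstep ih =>
    exact Relation.ReflTransGen.head ⟨hstep.2.1, hstep.1, glue_bond_symm hstep.2.2⟩ ih

theorem glue_cn_mono {c : St} {G G' : Set (ℕ × ℕ)} (hG : G ⊆ G') {p q : ℕ × ℕ} (h : Cn c G p q) :
    Cn c G' p q := by
  induction h with
  | refl => exact Relation.ReflTransGen.refl
  | tail _ hstep ih =>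
    exact Relation.ReflTransGen.tail ih ⟨hG hstep.1, hG hstep.2.1, hstep.2.2⟩

theorem glue_cn_trans {c : St} {G : Set (ℕ × ℕ)} {p q r : ℕ × ℕ} (h : Cn c G p q)
    (h' : Cn c G q r) : Cn c G p r := Relation.ReflTransGen.trans h h'

/-- bonds do not jump over a nonempty column -/
theorem glue_nojump {c : St} {k : ℕ} (hk : c k ≠ []) {p q : ℕ × ℕ} (h : SBond c p q)
    (h1 : p.1 < k) (h2 : k < q.1) : False := by
  obtain ⟨h | h, -⟩ := h
  · omega
  · obtain ⟨-, ⟨-, h⟩ | ⟨h, -⟩⟩ := h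
    · exact hk (h k h1 h2)
    · omega

theorem glue_row {c : St} {h : ℕ} (hl : ∀ l, (c l).length ≤ h) {p : ℕ × ℕ}
    (hp : (tl c p).isSome) : p.2 < h := by
  unfold tl at hp
  have : p.2 < (c p.1).length := by
    by_contra hcon
    rw [List.getElem?_eq_none (by omega)] at hp
    simp at hp
  exact lt_of_lt_of_le this (hl _)

/-- the cell of a node of the three columns -/
def glue_cell {h : ℕ} (i k j : ℕ) (u : Fin 3 × Fin h) : ℕ × ℕ :=
  (if u.1 = 0 then i else if u.1 = 1 then k else j, (u.2 : ℕ))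

theorem glue_cell_e1 {h : ℕ} (i k j : ℕ) (s : Bool × Fin h) :
    glue_cell i k j (e1 s) = nd i k s := by
  rcases s with ⟨b, r⟩
  cases b <;> simp [glue_cell, e1, nd]

theorem glue_cell_e2 {h : ℕ} (i k j : ℕ) (s : Bool × Fin h) :
    glue_cell i k j (e2 s) = nd k j s := by
  rcases s with ⟨b, r⟩
  cases b <;> simp [glue_cell, e2, nd]

theorem glue_cell_e3 {h : ℕ} (i k j : ℕ) (s : Bool × Fin h) :
    glue_cell i k j (e3 s) = nd i j s := by
  rcases s with ⟨b, r⟩
  cases b <;> simp [glue_cell, e3, nd]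

section
variable {h : ℕ} {c : St} {i k j : ℕ} {G₁ G₂ : Set (ℕ × ℕ)}

/-- connections by the labels are paths -/
theorem glue_J_cn {u v : Fin 3 × Fin h}
    (hJ : J (lab h c i k G₁) (lab h c k j G₂) u v) :
    Cn c (G₁ ∪ G₂) (glue_cell i k j u) (glue_cell i k j v) := by
  induction hJ with
  | refl => exact Relation.ReflTransGen.refl
  | tail _ hstep ih =>
    refine glue_cn_trans ih ?_
    rcases hstep with ⟨s, hs, rfl, rfl⟩ | ⟨s, hs, rfl, rfl⟩
    · rw [glue_cell_e1, glue_cell_e1]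
      exact glue_cn_mono Set.subset_union_left hs.2.2
    · rw [glue_cell_e2, glue_cell_e2]
      exact glue_cn_mono Set.subset_union_right hs.2.2

/-- paths are connections by the labels -/
theorem glue_cn_J (hik : i < k) (hkj : k < j) (hk : c k ≠ [])
    (h1 : ∀ p ∈ G₁, p.1 ≤ k ∧ p.2 < h) (h2 : ∀ p ∈ G₂, k ≤ p.1 ∧ p.2 < h)
    (hrow : ∀ r, (k, r) ∈ G₁ ↔ (k, r) ∈ G₂) {u : Fin 3 × Fin h}
    (hu : glue_cell i k j u ∈ G₁ ∪ G₂) {q : ℕ × ℕ}
    (hq : Cn c (G₁ ∪ G₂) (glue_cell i k j u) q) :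
    (∃ s : Bool × Fin h, J (lab h c i k G₁) (lab h c k j G₂) u (e1 s) ∧ nd i k s ∈ G₁ ∧ q ∈ G₁ ∧
      Cn c G₁ (nd i k s) q) ∨
    (∃ s : Bool × Fin h, J (lab h c i k G₁) (lab h c k j G₂) u (e2 s) ∧ nd k j s ∈ G₂ ∧ q ∈ G₂ ∧
      Cn c G₂ (nd k j s) q) := by
  have left_of : ∀ p ∈ G₁ ∪ G₂, p.1 ≤ k → p ∈ G₁ := by
    rintro ⟨x, y⟩ (hp | hp) hx
    · exact hp
    · have := (h2 _ hp).1
      simp only at this hx
      obtain rfl : x = k := le_antisymm hx this
      exact (hrow y).2 hp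
  have right_of : ∀ p ∈ G₁ ∪ G₂, k ≤ p.1 → p ∈ G₂ := by
    rintro ⟨x, y⟩ (hp | hp) hx
    · have := (h1 _ hp).1
      simp only at this hx
      obtain rfl : x = k := le_antisymm this hx
      exact (hrow y).1 hp
    · exact hp
  induction hq with
  | refl =>
    rcases u with ⟨a, r⟩
    fin_cases a
    · left
      have hc : glue_cell i k j ((0 : Fin 3), r) = nd i k (false, r) := by simp [glue_cell, nd]
      refine ⟨(false, r), Relation.ReflTransGen.refl, ?_, ?_, ?_⟩
      · apply left_of _ (by rw [← hc]; exact hu)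
        simp [nd]; omega
      · apply left_of _ hu
        simp [glue_cell]; omega
      · rw [← hc]; exact Relation.ReflTransGen.refl
    · left
      have hc : glue_cell i k j ((1 : Fin 3), r) = nd i k (true, r) := by simp [glue_cell, nd]
      refine ⟨(true, r), Relation.ReflTransGen.refl, ?_, ?_, ?_⟩
      · apply left_of _ (by rw [← hc]; exact hu)
        simp [nd]
      · apply left_of _ hu
        simp [glue_cell]
      · rw [← hc]; exact Relation.ReflTransGen.refl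
    · right
      have hc : glue_cell i k j ((2 : Fin 3), r) = nd k j (true, r) := by simp [glue_cell, nd]
      refine ⟨(true, r), Relation.ReflTransGen.refl, ?_, ?_, ?_⟩
      · apply right_of _ (by rw [← hc]; exact hu)
        simp [nd]; omega
      · apply right_of _ hu
        simp [glue_cell]; omega
      · rw [← hc]; exact Relation.ReflTransGen.refl
  | @tail q q' _ hstep ih =>
    obtain ⟨hq, hq', hb⟩ := hstep
    rcases ih with ⟨s, hJ, hs, hqs, hcn⟩ | ⟨s, hJ, hs, hqs, hcn⟩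
    · by_cases hx : q'.1 ≤ k
      · left
        have hq1 := left_of _ hq' hx
        exact ⟨s, hJ, hs, hq1, Relation.ReflTransGen.tail hcn ⟨hqs, hq1, hb⟩⟩
      · right
        have hqk : q.1 = k := by
          rcases lt_or_eq_of_le (h1 _ hqs).1 with hlt | heq
          · exact (glue_nojump hk hb hlt (by omega)).elim
          · exact heq
        have hqe : q = nd k j ((false, ⟨q.2, (h1 _ hqs).2⟩) : Bool × Fin h) := by
          simp only [nd]
          exact Prod.ext (by simpa using hqk) rfl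
        have hqe' : q = nd i k ((true, ⟨q.2, (h1 _ hqs).2⟩) : Bool × Fin h) := by
          simp only [nd]
          exact Prod.ext (by simpa using hqk) rfl
        have hqG2 : q ∈ G₂ := right_of _ hq hqk.ge
        have hq2 : q' ∈ G₂ := right_of _ hq' (by omega)
        refine ⟨(false, ⟨q.2, (h1 _ hqs).2⟩), Relation.ReflTransGen.tail hJ ?_, hqe ▸ hqG2, hq2, ?_⟩
        · left
          refine ⟨(s, (true, ⟨q.2, (h1 _ hqs).2⟩)), ⟨hs, ?_, ?_⟩, rfl, ?_⟩
          · change nd i k ((true, ⟨q.2, (h1 _ hqs).2⟩) : Bool × Fin h) ∈ G₁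
            rw [← hqe']; exact hqs
          · change Cn c G₁ (nd i k s) (nd i k ((true, ⟨q.2, (h1 _ hqs).2⟩) : Bool × Fin h))
            rw [← hqe']; exact hcn
          · simp [e1, e2]
        · rw [← hqe]
          exact Relation.ReflTransGen.single ⟨hqG2, hq2, hb⟩
    · by_cases hx : k ≤ q'.1
      · right
        have hq1 := right_of _ hq' hx
        exact ⟨s, hJ, hs, hq1, Relation.ReflTransGen.tail hcn ⟨hqs, hq1, hb⟩⟩
      · left
        have hqk : q.1 = k := by
          rcases lt_or_eq_of_le (h2 _ hqs).1 with hlt | heq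
          · exact (glue_nojump hk (glue_bond_symm hb) (by omega) hlt).elim
          · exact heq.symm
        have hqe : q = nd i k ((true, ⟨q.2, (h2 _ hqs).2⟩) : Bool × Fin h) := by
          simp only [nd]
          exact Prod.ext (by simpa using hqk) rfl
        have hqe' : q = nd k j ((false, ⟨q.2, (h2 _ hqs).2⟩) : Bool × Fin h) := by
          simp only [nd]
          exact Prod.ext (by simpa using hqk) rfl
        have hqG1 : q ∈ G₁ := left_of _ hq hqk.le
        have hq1 : q' ∈ G₁ := left_of _ hq' (by omega)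
        refine ⟨(true, ⟨q.2, (h2 _ hqs).2⟩), Relation.ReflTransGen.tail hJ ?_, hqe ▸ hqG1, hq1, ?_⟩
        · right
          refine ⟨(s, (false, ⟨q.2, (h2 _ hqs).2⟩)), ⟨hs, ?_, ?_⟩, rfl, ?_⟩
          · change nd k j ((false, ⟨q.2, (h2 _ hqs).2⟩) : Bool × Fin h) ∈ G₂
            rw [← hqe']; exact hqs
          · change Cn c G₂ (nd k j s) (nd k j ((false, ⟨q.2, (h2 _ hqs).2⟩) : Bool × Fin h))
            rw [← hqe']; exact hcn
          · simp [e1, e2]
        · rw [← hqe]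
          exact Relation.ReflTransGen.single ⟨hqG1, hq1, hb⟩

/-- paths between nodes are connections by the labels -/
theorem glue_cn_J' (hik : i < k) (hkj : k < j) (hk : c k ≠ [])
    (h1 : ∀ p ∈ G₁, p.1 ≤ k ∧ p.2 < h) (h2 : ∀ p ∈ G₂, k ≤ p.1 ∧ p.2 < h)
    (hrow : ∀ r, (k, r) ∈ G₁ ↔ (k, r) ∈ G₂) {u v : Fin 3 × Fin h}
    (hu : glue_cell i k j u ∈ G₁ ∪ G₂)
    (hq : Cn c (G₁ ∪ G₂) (glue_cell i k j u) (glue_cell i k j v)) :
    J (lab h c i k G₁) (lab h c k j G₂) u v := by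
  rcases glue_cn_J hik hkj hk h1 h2 hrow hu hq with ⟨s, hJ, hs, hv, hcn⟩ | ⟨s, hJ, hs, hv, hcn⟩
  · refine Relation.ReflTransGen.tail hJ (Or.inl ?_)
    have hle := (h1 _ hv).1
    rcases v with ⟨a, r⟩
    fin_cases a
    · have hc : glue_cell i k j ((0 : Fin 3), r) = nd i k (false, r) := by simp [glue_cell, nd]
      refine ⟨(s, (false, r)), ⟨hs, ?_, ?_⟩, rfl, rfl⟩
      · change nd i k (false, r) ∈ G₁
        rw [← hc]; exact hv
      · change Cn c G₁ (nd i k s) (nd i k (false, r))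
        rw [← hc]; exact hcn
    · have hc : glue_cell i k j ((1 : Fin 3), r) = nd i k (true, r) := by simp [glue_cell, nd]
      refine ⟨(s, (true, r)), ⟨hs, ?_, ?_⟩, rfl, rfl⟩
      · change nd i k (true, r) ∈ G₁
        rw [← hc]; exact hv
      · change Cn c G₁ (nd i k s) (nd i k (true, r))
        rw [← hc]; exact hcn
    · exfalso
      have : (glue_cell i k j ((2 : Fin 3), r)).1 = j := by simp [glue_cell]
      have hle' : (glue_cell i k j ((2 : Fin 3), r)).1 ≤ k := hle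
      omega
  · refine Relation.ReflTransGen.tail hJ (Or.inr ?_)
    have hle := (h2 _ hv).1
    rcases v with ⟨a, r⟩
    fin_cases a
    · exfalso
      have : (glue_cell i k j ((0 : Fin 3), r)).1 = i := by simp [glue_cell]
      have hle' : k ≤ (glue_cell i k j ((0 : Fin 3), r)).1 := hle
      omega
    · have hc : glue_cell i k j ((1 : Fin 3), r) = nd k j (false, r) := by simp [glue_cell, nd]
      refine ⟨(s, (false, r)), ⟨hs, ?_, ?_⟩, rfl, rfl⟩
      · change nd k j (false, r) ∈ G₂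
        rw [← hc]; exact hv
      · change Cn c G₂ (nd k j s) (nd k j (false, r))
        rw [← hc]; exact hcn
    · have hc : glue_cell i k j ((2 : Fin 3), r) = nd k j (true, r) := by simp [glue_cell, nd]
      refine ⟨(s, (true, r)), ⟨hs, ?_, ?_⟩, rfl, rfl⟩
      · change nd k j (true, r) ∈ G₂
        rw [← hc]; exact hv
      · change Cn c G₂ (nd k j s) (nd k j (true, r))
        rw [← hc]; exact hcn

end

/-- the first part of GLUE -/
theorem glue_one {h : ℕ} {c : St} {i k j : ℕ} {G₁ G₂ : Set (ℕ × ℕ)} (hik : i < k) (hkj : k < j)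
    (hk : c k ≠ []) (hl : ∀ l, (c l).length ≤ h) (E1 : Ev c i k G₁) (E2 : Ev c k j G₂)
    (hok : Ok (lab h c i k G₁) (lab h c k j G₂)) :
    Ev c i j (G₁ ∪ G₂) ∧
      lab h c i j (G₁ ∪ G₂) = comp (lab h c i k G₁) (lab h c k j G₂) := by
  have h1 : ∀ p ∈ G₁, p.1 ≤ k ∧ p.2 < h := fun p hp =>
    ⟨(E1.sub p hp).2.1, glue_row hl (E1.sub p hp).2.2⟩
  have h2 : ∀ p ∈ G₂, k ≤ p.1 ∧ p.2 < h := fun p hp =>
    ⟨(E2.sub p hp).1, glue_row hl (E2.sub p hp).2.2⟩
  have hrow : ∀ r, (k, r) ∈ G₁ ↔ (k, r) ∈ G₂ := by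
    intro r
    have heq : {r : Fin h | (k, (r : ℕ)) ∈ G₁} = {r : Fin h | (k, (r : ℕ)) ∈ G₂} := hok.eq
    constructor
    · intro hr
      have hrh : r < h := (h1 _ hr).2
      have : (⟨r, hrh⟩ : Fin h) ∈ {r : Fin h | (k, (r : ℕ)) ∈ G₁} := hr
      rw [heq] at this
      exact this
    · intro hr
      have hrh : r < h := (h2 _ hr).2
      have : (⟨r, hrh⟩ : Fin h) ∈ {r : Fin h | (k, (r : ℕ)) ∈ G₂} := hr
      rw [← heq] at this
      exact this
  obtain ⟨r0, hr0⟩ : ∃ r : Fin h, (k, (r : ℕ)) ∈ G₁ := hok.ne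
  have left_of : ∀ p ∈ G₁ ∪ G₂, p.1 ≤ k → p ∈ G₁ := by
    rintro ⟨x, y⟩ (hp | hp) hx
    · exact hp
    · have := (h2 _ hp).1
      simp only at this hx
      obtain rfl : x = k := le_antisymm hx this
      exact (hrow y).2 hp
  have right_of : ∀ p ∈ G₁ ∪ G₂, k ≤ p.1 → p ∈ G₂ := by
    rintro ⟨x, y⟩ (hp | hp) hx
    · have := (h1 _ hp).1
      simp only at this hx
      obtain rfl : x = k := le_antisymm this hx
      exact (hrow y).1 hp
    · exact hp
  have hm1 : G₁ ⊆ G₁ ∪ G₂ := Set.subset_union_left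
  have hm2 : G₂ ⊆ G₁ ∪ G₂ := Set.subset_union_right
  have hvis1 : Vis i k G₁ := ⟨_, hr0, Or.inr rfl⟩
  have hvis2 : Vis k j G₂ := ⟨_, (hrow _).1 hr0, Or.inl rfl⟩
  -- visibility
  have hvisL : Vis i j (G₁ ∪ G₂) → VisL (lab h c i k G₁) (lab h c k j G₂) := by
    rintro ⟨⟨x, y⟩, hp, hx⟩
    simp only at hx
    rcases hx with rfl | rfl
    · have hp1 : (x, y) ∈ G₁ := left_of _ hp hik.le
      exact Or.inl ⟨⟨y, (h1 _ hp1).2⟩, hp1⟩
    · have hp1 : (x, y) ∈ G₂ := right_of _ hp hkj.le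
      exact Or.inr ⟨⟨y, (h2 _ hp1).2⟩, hp1⟩
  have hLvis : VisL (lab h c i k G₁) (lab h c k j G₂) → Vis i j (G₁ ∪ G₂) := by
    rintro (⟨a, ha⟩ | ⟨b, hb⟩)
    · exact ⟨_, Or.inl ha, Or.inl rfl⟩
    · exact ⟨_, Or.inr hb, Or.inr rfl⟩
  -- every cell is connected with a boundary cell or a cell of column k
  have htok : ∀ p ∈ G₁ ∪ G₂, (∃ q ∈ G₁ ∪ G₂, (q.1 = i ∨ q.1 = j) ∧ Cn c (G₁ ∪ G₂) p q) ∨
      ∃ r : Fin h, (k, (r : ℕ)) ∈ G₁ ∧ Cn c (G₁ ∪ G₂) p (k, (r : ℕ)) := by
    rintro p (hp | hp)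
    · obtain ⟨q, hq, hqi | hqk, hcn⟩ := E1.attach hvis1 p hp
      · exact Or.inl ⟨q, Or.inl hq, Or.inl hqi, glue_cn_mono hm1 hcn⟩
      · right
        refine ⟨⟨q.2, (h1 _ hq).2⟩, ?_, ?_⟩
        · have : ((k, q.2) : ℕ × ℕ) = q := Prod.ext hqk.symm rfl
          change ((k, q.2) : ℕ × ℕ) ∈ G₁
          rw [this]; exact hq
        · have : ((k, q.2) : ℕ × ℕ) = q := Prod.ext hqk.symm rfl
          change Cn c (G₁ ∪ G₂) p (k, q.2)
          rw [this]; exact glue_cn_mono hm1 hcn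
    · obtain ⟨q, hq, hqk | hqj, hcn⟩ := E2.attach hvis2 p hp
      · right
        have hqe : ((k, q.2) : ℕ × ℕ) = q := Prod.ext hqk.symm rfl
        refine ⟨⟨q.2, (h2 _ hq).2⟩, ?_, ?_⟩
        · change ((k, q.2) : ℕ × ℕ) ∈ G₁
          rw [hrow, hqe]; exact hq
        · change Cn c (G₁ ∪ G₂) p (k, q.2)
          rw [hqe]; exact glue_cn_mono hm2 hcn
      · exact Or.inl ⟨q, Or.inr hq, Or.inr hqj, glue_cn_mono hm2 hcn⟩
  have hc0 : ∀ a : Fin h, glue_cell i k j ((0 : Fin 3), a) = (i, (a : ℕ)) := by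
    intro a; simp [glue_cell]
  have hc1 : ∀ a : Fin h, glue_cell i k j ((1 : Fin 3), a) = (k, (a : ℕ)) := by
    intro a; simp [glue_cell]
  have hc2 : ∀ a : Fin h, glue_cell i k j ((2 : Fin 3), a) = (j, (a : ℕ)) := by
    intro a; simp [glue_cell]
  refine ⟨⟨?_, ?_, ?_, ?_, ?_⟩, ?_⟩
  · rintro p (hp | hp)
    · exact ⟨(E1.sub p hp).1, (E1.sub p hp).2.1.trans hkj.le, (E1.sub p hp).2.2⟩
    · exact ⟨hik.le.trans (E2.sub p hp).1, (E2.sub p hp).2.1, (E2.sub p hp).2.2⟩
  · rintro p q (hp | hp) hqi hqj hb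
    · by_cases hx : q.1 ≤ k
      · exact Or.inl (E1.closed p q hp hqi hx hb)
      · have hpk : p.1 = k := by
          rcases lt_or_eq_of_le (h1 _ hp).1 with hlt | heq
          · exact (glue_nojump hk hb hlt (by omega)).elim
          · exact heq
        exact Or.inr (E2.closed p q (right_of _ (Or.inl hp) hpk.ge) (by omega) hqj hb)
    · by_cases hx : k ≤ q.1
      · exact Or.inr (E2.closed p q hp hx hqj hb)
      · have hpk : p.1 = k := by
          rcases lt_or_eq_of_le (h2 _ hp).1 with hlt | heq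
          · exact (glue_nojump hk (glue_bond_symm hb) (by omega) hlt).elim
          · exact heq.symm
        exact Or.inl (E1.closed p q (left_of _ (Or.inr hp) hpk.le) hqi (by omega) hb)
  · intro hv p hp
    rcases htok p hp with hgood | ⟨r, hr, hcn⟩
    · exact hgood
    · rcases hok.attach (hvisL hv) r hr with ⟨a, ha, hJ⟩ | ⟨b, hb, hJ⟩
      · have hJ' := glue_J_cn hJ
        rw [hc0, hc1] at hJ'
        exact ⟨(i, (a : ℕ)), Or.inl ha, Or.inl rfl, glue_cn_trans hcn hJ'⟩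
      · have hJ' := glue_J_cn hJ
        rw [hc2, hc1] at hJ'
        exact ⟨(j, (b : ℕ)), Or.inr hb, Or.inr rfl, glue_cn_trans hcn hJ'⟩
  · rintro ⟨p, hp, hpi⟩ ⟨q, hq, hqj⟩
    have hp1 : p ∈ G₁ := left_of _ hp (by omega)
    have hq1 : q ∈ G₂ := right_of _ hq (by omega)
    have hn1 : (lab h c i k G₁).1.Nonempty := by
      refine ⟨⟨p.2, (h1 _ hp1).2⟩, ?_⟩
      change ((i, p.2) : ℕ × ℕ) ∈ G₁
      rw [show ((i, p.2) : ℕ × ℕ) = p from Prod.ext hpi.symm rfl]; exact hp1
    have hn2 : (lab h c k j G₂).2.1.Nonempty := by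
      refine ⟨⟨q.2, (h2 _ hq1).2⟩, ?_⟩
      change ((j, q.2) : ℕ × ℕ) ∈ G₂
      rw [show ((j, q.2) : ℕ × ℕ) = q from Prod.ext hqj.symm rfl]; exact hq1
    obtain ⟨a, ha, b, hb, hJ⟩ := hok.span hn1 hn2
    have hJ' := glue_J_cn hJ
    rw [hc0, hc2] at hJ'
    exact ⟨(i, (a : ℕ)), Or.inl ha, (j, (b : ℕ)), Or.inr hb, rfl, rfl, hJ'⟩
  · intro hv
    obtain ⟨hcon, hflag⟩ := hok.inner (fun hL => hv (hLvis hL))
    have htok' : ∀ p ∈ G₁ ∪ G₂, ∃ r : Fin h, (k, (r : ℕ)) ∈ G₁ ∧
        Cn c (G₁ ∪ G₂) p (k, (r : ℕ)) := by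
      intro p hp
      rcases htok p hp with ⟨q, hq, hqij, -⟩ | hgood
      · exact (hv ⟨q, hq, hqij⟩).elim
      · exact hgood
    refine ⟨?_, ?_⟩
    · intro p hp q hq
      obtain ⟨r, hr, hcr⟩ := htok' p hp
      obtain ⟨t, ht, hct⟩ := htok' q hq
      have hJ' := glue_J_cn (hcon r hr t ht)
      rw [hc1, hc1] at hJ'
      exact glue_cn_trans hcr (glue_cn_trans hJ' (glue_cn_symm hct))
    · rcases hflag with ⟨p, hp, q, hq, hb⟩ | ⟨p, hp, q, hq, hb⟩
      · exact ⟨p, Or.inl hp, q, Or.inl hq, hb⟩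
      · exact ⟨p, Or.inr hp, q, Or.inr hq, hb⟩
  · -- the label
    have hin : ∀ s : Bool × Fin h,
        nd i j s ∈ G₁ ∪ G₂ ↔ InL (lab h c i k G₁) (lab h c k j G₂) s := by
      rintro ⟨b, r⟩
      cases b
      · have hnd : nd i j ((false, r) : Bool × Fin h) = (i, (r : ℕ)) := by simp [nd]
        rw [hnd]
        constructor
        · intro hp
          exact ⟨fun _ => left_of _ hp hik.le, fun hcon => by simp at hcon⟩
        · intro hp
          exact Or.inl (hp.1 rfl)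
      · have hnd : nd i j ((true, r) : Bool × Fin h) = (j, (r : ℕ)) := by simp [nd]
        rw [hnd]
        constructor
        · intro hp
          exact ⟨fun hcon => by simp at hcon, fun _ => right_of _ hp hkj.le⟩
        · intro hp
          exact Or.inr (hp.2 rfl)
    refine Prod.ext ?_ (Prod.ext ?_ (Prod.ext ?_ ?_))
    · ext r
      exact ⟨fun hp => left_of _ hp hik.le, fun hp => Or.inl hp⟩
    · ext r
      exact ⟨fun hp => right_of _ hp hkj.le, fun hp => Or.inr hp⟩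
    · ext s
      constructor
      · rintro ⟨hs1, hs2, hcn⟩
        refine ⟨(hin _).1 hs1, (hin _).1 hs2, ?_⟩
        apply glue_cn_J' hik hkj hk h1 h2 hrow
        · rw [glue_cell_e3]; exact hs1
        · rw [glue_cell_e3, glue_cell_e3]; exact hcn
      · rintro ⟨hs1, hs2, hJ⟩
        refine ⟨(hin _).2 hs1, (hin _).2 hs2, ?_⟩
        have hJ' := glue_J_cn hJ
        rw [glue_cell_e3, glue_cell_e3] at hJ'
        exact hJ'
    · apply propext
      constructor
      · rintro ⟨p, hp, q, hq, hb⟩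
        by_cases hpk : p.1 ≤ k
        · by_cases hqk : q.1 ≤ k
          · exact Or.inl ⟨p, left_of _ hp hpk, q, left_of _ hq hqk, hb⟩
          · have hpk' : p.1 = k := by
              rcases lt_or_eq_of_le hpk with hlt | heq
              · exact (glue_nojump hk hb hlt (by omega)).elim
              · exact heq
            exact Or.inr ⟨p, right_of _ hp hpk'.ge, q, right_of _ hq (by omega), hb⟩
        · by_cases hqk : k ≤ q.1
          · exact Or.inr ⟨p, right_of _ hp (by omega), q, right_of _ hq hqk, hb⟩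
          · exact (glue_nojump hk (glue_bond_symm hb) (by omega) (by omega)).elim
      · rintro (⟨p, hp, q, hq, hb⟩ | ⟨p, hp, q, hq, hb⟩)
        · exact ⟨p, Or.inl hp, q, Or.inl hq, hb⟩
        · exact ⟨p, Or.inr hp, q, Or.inr hq, hb⟩

/-- the second part of GLUE -/
theorem glue_two {h : ℕ} {c : St} {i k j : ℕ} {G : Set (ℕ × ℕ)} (hik : i < k) (hkj : k < j)
    (hk : c k ≠ []) (E : Ev c i k G) (hG : ∀ r, (k, r) ∉ G) :
    Ev c i j G ∧ lab h c i j G = lab h c i k G := by
  have hlt : ∀ p ∈ G, p.1 < k := by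
    rintro ⟨x, y⟩ hp
    have hx : x ≤ k := (E.sub _ hp).2.1
    rcases lt_or_eq_of_le hx with hx | rfl
    · exact hx
    · exact (hG y hp).elim
  have hvis : Vis i j G ↔ Vis i k G := by
    constructor
    · rintro ⟨p, hp, hx⟩
      have := hlt p hp
      exact ⟨p, hp, Or.inl (by omega)⟩
    · rintro ⟨p, hp, hx⟩
      have := hlt p hp
      exact ⟨p, hp, Or.inl (by omega)⟩
  refine ⟨⟨?_, ?_, ?_, ?_, ?_⟩, ?_⟩
  · intro p hp
    exact ⟨(E.sub p hp).1, (E.sub p hp).2.1.trans hkj.le, (E.sub p hp).2.2⟩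
  · intro p q hp hqi hqj hb
    have hp' := hlt p hp
    by_cases hx : q.1 ≤ k
    · exact E.closed p q hp hqi hx hb
    · exact (glue_nojump hk hb hp' (by omega)).elim
  · intro hv p hp
    obtain ⟨q, hq, hqx, hcn⟩ := E.attach (hvis.1 hv) p hp
    have := hlt q hq
    exact ⟨q, hq, Or.inl (by omega), hcn⟩
  · rintro - ⟨p, hp, hpj⟩
    have := hlt p hp
    omega
  · intro hv
    exact E.inner (fun hv' => hv (hvis.2 hv'))
  · have hnot : ∀ x : ℕ, k ≤ x → ∀ r : ℕ, (x, r) ∉ G := by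
      intro x hx r hp
      have := hlt _ hp
      simp only at this
      omega
    have hnd : ∀ s : Bool × Fin h, nd i j s ∈ G → nd i j s = nd i k s := by
      rintro ⟨b, r⟩ hs
      cases b
      · simp [nd]
      · exfalso
        apply hnot j hkj.le (r : ℕ)
        simpa [nd] using hs
    have hnd' : ∀ s : Bool × Fin h, nd i k s ∈ G → nd i j s = nd i k s := by
      rintro ⟨b, r⟩ hs
      cases b
      · simp [nd]
      · exfalso
        apply hnot k le_rfl (r : ℕ)
        simpa [nd] using hs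
    refine Prod.ext rfl (Prod.ext ?_ (Prod.ext ?_ rfl))
    · ext r
      exact ⟨fun hp => (hnot j hkj.le _ hp).elim, fun hp => (hnot k le_rfl _ hp).elim⟩
    · ext s
      constructor
      · rintro ⟨hs1, hs2, hcn⟩
        have e1 := hnd _ hs1
        have e2 := hnd _ hs2
        rw [e1] at hs1 hcn
        rw [e2] at hs2 hcn
        exact ⟨hs1, hs2, hcn⟩
      · rintro ⟨hs1, hs2, hcn⟩
        have e1 := hnd' _ hs1
        have e2 := hnd' _ hs2
        rw [← e1] at hs1 hcn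
        rw [← e2] at hs2 hcn
        exact ⟨hs1, hs2, hcn⟩

/-- the third part of GLUE -/
theorem glue_three {h : ℕ} {c : St} {i k j : ℕ} {G : Set (ℕ × ℕ)} (hik : i < k)
    (hk : c k ≠ []) (E : Ev c k j G) (hG : ∀ r, (k, r) ∉ G) :
    Ev c i j G ∧ lab h c i j G = lab h c k j G := by
  have hlt : ∀ p ∈ G, k < p.1 := by
    rintro ⟨x, y⟩ hp
    have hx : k ≤ x := (E.sub _ hp).1
    rcases lt_or_eq_of_le hx with hx | rfl
    · exact hx
    · exact (hG y hp).elim
  have hvis : Vis i j G ↔ Vis k j G := by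
    constructor
    · rintro ⟨p, hp, hx⟩
      have := hlt p hp
      exact ⟨p, hp, Or.inr (by omega)⟩
    · rintro ⟨p, hp, hx⟩
      have := hlt p hp
      exact ⟨p, hp, Or.inr (by omega)⟩
  refine ⟨⟨?_, ?_, ?_, ?_, ?_⟩, ?_⟩
  · intro p hp
    exact ⟨hik.le.trans (E.sub p hp).1, (E.sub p hp).2.1, (E.sub p hp).2.2⟩
  · intro p q hp hqi hqj hb
    have hp' := hlt p hp
    by_cases hx : k ≤ q.1
    · exact E.closed p q hp hx hqj hb
    · exact (glue_nojump hk (glue_bond_symm hb) (by omega) hp').elim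
  · intro hv p hp
    obtain ⟨q, hq, hqx, hcn⟩ := E.attach (hvis.1 hv) p hp
    have := hlt q hq
    exact ⟨q, hq, Or.inr (by omega), hcn⟩
  · rintro ⟨p, hp, hpj⟩ -
    have := hlt p hp
    omega
  · intro hv
    exact E.inner (fun hv' => hv (hvis.2 hv'))
  · have hnot : ∀ x : ℕ, x ≤ k → ∀ r : ℕ, (x, r) ∉ G := by
      intro x hx r hp
      have := hlt _ hp
      simp only at this
      omega
    have hnd : ∀ s : Bool × Fin h, nd i j s ∈ G → nd i j s = nd k j s := by
      rintro ⟨b, r⟩ hs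
      cases b
      · exfalso
        apply hnot i hik.le (r : ℕ)
        simpa [nd] using hs
      · simp [nd]
    have hnd' : ∀ s : Bool × Fin h, nd k j s ∈ G → nd i j s = nd k j s := by
      rintro ⟨b, r⟩ hs
      cases b
      · exfalso
        apply hnot k le_rfl (r : ℕ)
        simpa [nd] using hs
      · simp [nd]
    refine Prod.ext ?_ (Prod.ext rfl (Prod.ext ?_ rfl))
    · ext r
      exact ⟨fun hp => (hnot i hik.le _ hp).elim, fun hp => (hnot k le_rfl _ hp).elim⟩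
    · ext s
      constructor
      · rintro ⟨hs1, hs2, hcn⟩
        have e1 := hnd _ hs1
        have e2 := hnd _ hs2
        rw [e1] at hs1 hcn
        rw [e2] at hs2 hcn
        exact ⟨hs1, hs2, hcn⟩
      · rintro ⟨hs1, hs2, hcn⟩
        have e1 := hnd' _ hs1
        have e2 := hnd' _ hs2
        rw [← e1] at hs1 hcn
        rw [← e2] at hs2 hcn
        exact ⟨hs1, hs2, hcn⟩

theorem tGLUE : T_GLUE := by
  intro h c i k j G₁ G₂ hik hkj hk hl
  exact ⟨fun E1 E2 hok => glue_one hik hkj hk hl E1 E2 hok,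
    fun E hG => glue_two hik hkj hk E hG, fun E hG => glue_three hik hk E hG⟩

end Pool.Agent.Clk
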