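import Pool.Agent.Clk.Targets

set_option autoImplicit false

/-!
# Two adjacent columns: traces depend only on the pattern
-/

namespace Pool.Agent.Clk

namespace ISO_

/-! ## Keeping and cutting -/

open scoped Classical in
/-- the rows which are left -/
noncomputable def rws {h : ℕ} (n : ℕ) (A : Set (Fin h)) : List ℕ :=
  (List.range n).filter fun r => decide (∀ s ∈ A, (s : ℕ) ≠ r)

theorem zipIdx_map_snd (x : List ℕ) : x.zipIdx.map Prod.snd = List.range x.length := by
  apply List.ext_getElem?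
  intro n
  simp only [List.getElem?_map, List.getElem?_zipIdx]
  by_cases hn : n < x.length
  · simp [hn]
  · rw [List.getElem?_eq_none (not_lt.mp hn)]
    simp [not_lt.mp hn]

theorem cut_get {h : ℕ} (x : List ℕ) (A : Set (Fin h)) (n : ℕ) :
    (cut x A)[n]? = (rws x.length A)[n]?.bind fun r => x[r]? := by
  classical
  have h1 : rws x.length A =
      (x.zipIdx.filter fun t => decide (∀ r ∈ A, (r : ℕ) ≠ t.2)).map Prod.snd := by
    unfold rws
    rw [← zipIdx_map_snd, List.filter_map]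
    rfl
  unfold cut
  rw [h1, List.getElem?_map, List.getElem?_map]
  set L := x.zipIdx.filter fun t => decide (∀ r ∈ A, (r : ℕ) ≠ t.2) with hL
  rcases hn : L[n]? with _ | ⟨v, r⟩
  · rfl
  · simp only [Option.map_some, Option.bind_some]
    have hm : (v, r) ∈ L := List.mem_of_getElem? hn
    rw [hL] at hm
    have hm2 := (List.mem_filter.mp hm).1
    exact (List.mem_zipIdx_iff_getElem?.mp hm2).symm

theorem rws_lt {h : ℕ} {n : ℕ} {A : Set (Fin h)} {k r : ℕ} (hr : (rws n A)[k]? = some r) :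
    r < n := by
  have h1 := List.mem_of_getElem? hr
  unfold rws at h1
  exact List.mem_range.mp (List.mem_filter.mp h1).1

theorem length_keep_le (x : ℕ) (col : List ℕ) (S : Set (ℕ × ℕ)) :
    (keep x col S).length ≤ col.length := by
  classical
  unfold keep
  rw [List.length_map]
  refine (List.length_filter_le _ _).trans ?_
  rw [List.length_zipIdx]

theorem length_keep_lt (x : ℕ) (col : List ℕ) (S : Set (ℕ × ℕ)) (r : ℕ) (hr : r < col.length)
    (hS : (x, r) ∈ S) : (keep x col S).length < col.length := by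
  classical
  unfold keep
  rw [List.length_map]
  have hmem : (col[r], r) ∈ col.zipIdx := by
    rw [List.mem_zipIdx_iff_getElem?]
    exact List.getElem?_eq_getElem hr
  calc (col.zipIdx.filter fun t => decide ((x, t.2) ∉ S)).length < col.zipIdx.length := by
        apply List.length_filter_lt_length_iff_exists.mpr
        exact ⟨_, hmem, by simp [hS]⟩
    _ = col.length := List.length_zipIdx

theorem keep_eq_cut {h : ℕ} (x : ℕ) (col : List ℕ) (S : Set (ℕ × ℕ)) (hc : col.length ≤ h) :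
    keep x col S = cut col ({r : Fin h | (x, (r : ℕ)) ∈ S}) := by
  classical
  unfold keep cut
  congr 1
  apply List.filter_congr
  rintro ⟨v, n⟩ hm
  have hn : n < col.length := by
    have h1 := List.mem_zipIdx_iff_getElem?.mp hm
    by_contra hcon
    rw [List.getElem?_eq_none (not_lt.mp hcon)] at h1
    exact absurd h1 (by simp)
  rw [decide_eq_decide]
  constructor
  · intro h1 r hr hrn
    apply h1
    have : (x, (r : ℕ)) ∈ S := hr
    rwa [hrn] at this
  · intro h1 h2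
    exact h1 ⟨n, by omega⟩ h2 rfl

/-! ## Nodes -/

/-- the column of a node -/
def co (a b : List ℕ) (s : Bool) : List ℕ := if s then b else a

theorem tl_pr {h : ℕ} (a b : List ℕ) (s : Bool × Fin h) :
    tl (pr a b) (nd 0 1 s) = (co a b s.1)[(s.2 : ℕ)]? := by
  rcases s with ⟨_ | _, r⟩ <;> simp [tl, pr, nd, co]

theorem tl_nd {h : ℕ} (c : St) (i j : ℕ) (s : Bool × Fin h) :
    tl c (nd i j s) = (co (c i) (c j) s.1)[(s.2 : ℕ)]? := by
  rcases s with ⟨_ | _, r⟩ <;> simp [tl, nd, co]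

theorem mem_pat {h : ℕ} (a b : List ℕ) (s t : Bool × Fin h) :
    (s, t) ∈ pat h a b ↔ ∃ x, (co a b s.1)[(s.2 : ℕ)]? = some x ∧
      (co a b t.1)[(t.2 : ℕ)]? = some x := by
  unfold pat
  simp only [Set.mem_ofPred_eq, tl_pr]

theorem mem_pat_self {h : ℕ} (a b : List ℕ) (s : Bool × Fin h) :
    (s, s) ∈ pat h a b ↔ (s.2 : ℕ) < (co a b s.1).length := by
  rw [mem_pat]
  constructor
  · rintro ⟨x, hx, -⟩
    exact (List.getElem?_eq_some_iff.mp hx).1
  · intro h1
    exact ⟨_, List.getElem?_eq_getElem h1, List.getElem?_eq_getElem h1⟩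

theorem length_eq_of_pat {h : ℕ} {a b a' b' : List ℕ} (hp : pat h a b = pat h a' b') (s : Bool)
    (h1 : (co a b s).length ≤ h) (h2 : (co a' b' s).length ≤ h) :
    (co a b s).length = (co a' b' s).length := by
  apply le_antisymm
  · by_contra hcon
    push Not at hcon
    have h3 : ((s, ⟨(co a' b' s).length, by omega⟩), (s, ⟨(co a' b' s).length, by omega⟩)) ∈
        pat h a b := (mem_pat_self a b (s, ⟨(co a' b' s).length, by omega⟩)).mpr hcon
    rw [hp, mem_pat_self] at h3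
    exact lt_irrefl _ h3
  · by_contra hcon
    push Not at hcon
    have h3 : ((s, ⟨(co a b s).length, by omega⟩), (s, ⟨(co a b s).length, by omega⟩)) ∈
        pat h a' b' := (mem_pat_self a' b' (s, ⟨(co a b s).length, by omega⟩)).mpr hcon
    rw [← hp, mem_pat_self] at h3
    exact lt_irrefl _ h3

/-- the set which is cut -/
def cs {h : ℕ} (A B : Set (Fin h)) (s : Bool) : Set (Fin h) := if s then B else A

theorem co_cut {h : ℕ} (a b : List ℕ) (A B : Set (Fin h)) (s : Bool) :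
    co (cut a A) (cut b B) s = cut (co a b s) (cs A B s) := by
  cases s <;> rfl

theorem pat_cut_sub {h : ℕ} {a b a' b' : List ℕ} (A B : Set (Fin h))
    (ha : ∀ s, (co a b s).length ≤ h) (ha' : ∀ s, (co a' b' s).length ≤ h)
    (hp : pat h a b = pat h a' b') :
    pat h (cut a A) (cut b B) ⊆ pat h (cut a' A) (cut b' B) := by
  rintro ⟨s, t⟩ hst
  rw [mem_pat] at hst ⊢
  obtain ⟨x, hs, ht⟩ := hst
  have hl := fun u => length_eq_of_pat hp u (ha u) (ha' u)
  rw [co_cut, cut_get] at hs ht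
  rw [co_cut, cut_get, co_cut, cut_get, ← hl s.1, ← hl t.1]
  obtain ⟨r, hr, hr2⟩ := Option.bind_eq_some_iff.mp hs
  obtain ⟨q, hq, hq2⟩ := Option.bind_eq_some_iff.mp ht
  have hrh : r < h := lt_of_lt_of_le (rws_lt hr) (ha s.1)
  have hqh : q < h := lt_of_lt_of_le (rws_lt hq) (ha t.1)
  have hm : ((s.1, (⟨r, hrh⟩ : Fin h)), (t.1, (⟨q, hqh⟩ : Fin h))) ∈ pat h a b := by
    rw [mem_pat]
    exact ⟨x, hr2, hq2⟩
  rw [hp, mem_pat] at hm
  obtain ⟨y, hy1, hy2⟩ := hm
  refine ⟨y, ?_, ?_⟩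
  · rw [hr]
    exact hy1
  · rw [hq]
    exact hy2

theorem pat_cut {h : ℕ} {a b a' b' : List ℕ} (A B : Set (Fin h)) (h1 : a.length ≤ h)
    (h2 : b.length ≤ h) (h3 : a'.length ≤ h) (h4 : b'.length ≤ h)
    (hp : pat h a b = pat h a' b') :
    pat h (cut a A) (cut b B) = pat h (cut a' A) (cut b' B) := by
  have e1 : ∀ s, (co a b s).length ≤ h := by intro s; cases s <;> assumption
  have e2 : ∀ s, (co a' b' s).length ≤ h := by intro s; cases s <;> assumption
  exact Set.Subset.antisymm (pat_cut_sub A B e1 e2 hp) (pat_cut_sub A B e2 e1 hp.symm)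

/-- adjacent nodes -/
def adj {h : ℕ} (s t : Bool × Fin h) : Prop :=
  (s.1 = t.1 ∧ ((s.2 : ℕ) + 1 = t.2 ∨ (t.2 : ℕ) + 1 = s.2)) ∨ (s.2 = t.2 ∧ s.1 ≠ t.1)

/-- bonds between nodes -/
def NB {h : ℕ} (P : Set ((Bool × Fin h) × (Bool × Fin h))) (s t : Bool × Fin h) : Prop :=
  adj s t ∧ (s, t) ∈ P

/-- connected nodes -/
def CnN {h : ℕ} (P : Set ((Bool × Fin h) × (Bool × Fin h))) (g : Set (Bool × Fin h)) :
    Bool × Fin h → Bool × Fin h → Prop :=
  Relation.ReflTransGen fun s t => s ∈ g ∧ t ∈ g ∧ NB P s t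

/-- events in terms of nodes -/
structure EvN {h : ℕ} (P : Set ((Bool × Fin h) × (Bool × Fin h))) (g : Set (Bool × Fin h)) :
    Prop where
  sub : ∀ s ∈ g, (s, s) ∈ P
  closed : ∀ s t, s ∈ g → NB P s t → t ∈ g
  span : (∃ s ∈ g, s.1 = false) → (∃ s ∈ g, s.1 = true) →
    ∃ s ∈ g, ∃ t ∈ g, s.1 = false ∧ t.1 = true ∧ CnN P g s t

/-- labels in terms of nodes -/
def labN {h : ℕ} (P : Set ((Bool × Fin h) × (Bool × Fin h))) (g : Set (Bool × Fin h)) :
    Label h :=
  ({r | (false, r) ∈ g}, {r | (true, r) ∈ g}, {s | s.1 ∈ g ∧ s.2 ∈ g ∧ CnN P g s.1 s.2},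
    ∃ s ∈ g, ∃ t ∈ g, NB P s t)

theorem nd_inj {h : ℕ} {i j : ℕ} (hij : i < j) : Function.Injective (nd (h := h) i j) := by
  rintro ⟨s, r⟩ ⟨t, q⟩ hst
  simp only [nd, Prod.mk.injEq] at hst
  obtain ⟨h1, h2⟩ := hst
  have h3 : r = q := Fin.ext h2
  subst h3
  cases s <;> cases t <;> simp at h1 ⊢ <;> omega

section

variable {h i j : ℕ} {c : St}

theorem bond_iff (hij : i < j) (he : ∀ l, i < l → l < j → c l = []) (s t : Bool × Fin h) :
    SBond c (nd i j s) (nd i j t) ↔ NB (pat h (c i) (c j)) s t := by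
  unfold SBond NB
  rw [mem_pat, tl_nd, tl_nd]
  apply and_congr_left'
  rcases s with ⟨s, r⟩
  rcases t with ⟨t, q⟩
  cases s <;> cases t
  · simp [Touch, adj, nd]
  · simp only [Touch, adj, nd]
    constructor
    · rintro (⟨h1, -⟩ | ⟨h1, -⟩)
      · simp at h1
        omega
      · exact Or.inr ⟨Fin.ext h1, by simp⟩
    · rintro (⟨h1, -⟩ | ⟨h1, -⟩)
      · simp at h1
      · refine Or.inr ⟨by simpa using congrArg Fin.val h1, Or.inl ⟨by simpa using hij, ?_⟩⟩
        intro l h2 h3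
        exact he l (by simpa using h2) (by simpa using h3)
  · simp only [Touch, adj, nd]
    constructor
    · rintro (⟨h1, -⟩ | ⟨h1, -⟩)
      · simp at h1
        omega
      · exact Or.inr ⟨Fin.ext h1, by simp⟩
    · rintro (⟨h1, -⟩ | ⟨h1, -⟩)
      · simp at h1
      · refine Or.inr ⟨by simpa using congrArg Fin.val h1, Or.inr ⟨by simpa using hij, ?_⟩⟩
        intro l h2 h3
        exact he l (by simpa using h2) (by simpa using h3)
  · simp [Touch, adj, nd]

theorem exists_node (he : ∀ l, i < l → l < j → c l = []) (hh : ∀ l, (c l).length ≤ h)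
    {p : ℕ × ℕ} (h1 : i ≤ p.1) (h2 : p.1 ≤ j) (h3 : (tl c p).isSome) :
    ∃ s : Bool × Fin h, p = nd i j s := by
  rcases p with ⟨x, r⟩
  simp only at h1 h2
  have hr : r < (c x).length := by
    unfold tl at h3
    by_contra hcon
    rw [List.getElem?_eq_none (not_lt.mp hcon)] at h3
    exact absurd h3 (by simp)
  have hrh : r < h := lt_of_lt_of_le hr (hh x)
  rcases eq_or_lt_of_le h1 with h4 | h4
  · exact ⟨(false, ⟨r, hrh⟩), by simp [nd, h4]⟩
  rcases eq_or_lt_of_le h2 with h5 | h5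
  · exact ⟨(true, ⟨r, hrh⟩), by simp [nd, h5]⟩
  · exfalso
    rw [he x h4 h5] at hr
    simp at hr

theorem cn_iff (hij : i < j) (he : ∀ l, i < l → l < j → c l = []) {G : Set (ℕ × ℕ)}
    (hG : ∀ p ∈ G, ∃ s : Bool × Fin h, p = nd i j s) (s t : Bool × Fin h) :
    Cn c G (nd i j s) (nd i j t) ↔ CnN (pat h (c i) (c j)) {s | nd i j s ∈ G} s t := by
  constructor
  · intro h1
    have key : ∀ q, Cn c G (nd i j s) q → ∃ t, q = nd i j t ∧
        CnN (pat h (c i) (c j)) {s | nd i j s ∈ G} s t := by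
      intro q hq
      induction hq with
      | refl => exact ⟨s, rfl, Relation.ReflTransGen.refl⟩
      | tail _ h3 ih =>
        obtain ⟨t, rfl, h4⟩ := ih
        obtain ⟨h5, h6, h7⟩ := h3
        obtain ⟨u, rfl⟩ := hG _ h6
        exact ⟨u, rfl, h4.tail ⟨h5, h6, (bond_iff hij he t u).mp h7⟩⟩
    obtain ⟨u, h2, h3⟩ := key _ h1
    rw [nd_inj hij h2]
    exact h3
  · intro h1
    refine Relation.ReflTransGen.lift (nd i j) ?_ _ _ h1
    rintro u v ⟨h2, h3, h4⟩
    exact ⟨h2, h3, (bond_iff hij he u v).mpr h4⟩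

theorem lab_eq (hij : i < j) (he : ∀ l, i < l → l < j → c l = []) {G : Set (ℕ × ℕ)}
    (hG : ∀ p ∈ G, ∃ s : Bool × Fin h, p = nd i j s) :
    lab h c i j G = labN (pat h (c i) (c j)) {s | nd i j s ∈ G} := by
  unfold lab labN
  refine Prod.ext ?_ (Prod.ext ?_ (Prod.ext ?_ ?_))
  · ext r
    simp [nd]
  · ext r
    simp [nd]
  · ext s
    simp only [Set.mem_ofPred_eq]
    rw [cn_iff hij he hG]
  · simp only
    apply propext
    constructor
    · rintro ⟨p, hp, q, hq, hpq⟩
      obtain ⟨s, rfl⟩ := hG p hp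
      obtain ⟨t, rfl⟩ := hG q hq
      exact ⟨s, hp, t, hq, (bond_iff hij he s t).mp hpq⟩
    · rintro ⟨s, hs, t, ht, hst⟩
      exact ⟨_, hs, _, ht, (bond_iff hij he s t).mpr hst⟩

theorem evN_of_ev (hij : i < j) (he : ∀ l, i < l → l < j → c l = []) (hh : ∀ l, (c l).length ≤ h)
    {G : Set (ℕ × ℕ)} (hE : Ev c i j G) :
    (∀ p ∈ G, ∃ s : Bool × Fin h, p = nd i j s) ∧
      EvN (pat h (c i) (c j)) {s : Bool × Fin h | nd i j s ∈ G} := by
  have hG : ∀ p ∈ G, ∃ s : Bool × Fin h, p = nd i j s := by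
    intro p hp
    obtain ⟨h1, h2, h3⟩ := hE.sub p hp
    exact exists_node he hh h1 h2 h3
  refine ⟨hG, ?_, ?_, ?_⟩
  · intro s hs
    rw [mem_pat_self]
    have h3 := (hE.sub _ hs).2.2
    rw [tl_nd] at h3
    by_contra hcon
    rw [List.getElem?_eq_none (not_lt.mp hcon)] at h3
    exact absurd h3 (by simp)
  · intro s t hs hst
    refine hE.closed _ _ hs ?_ ?_ ((bond_iff hij he s t).mpr hst)
    · rcases t with ⟨_ | _, r⟩ <;> simp [nd, hij.le]
    · rcases t with ⟨_ | _, r⟩ <;> simp [nd, hij.le]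
  · rintro ⟨s, hs, hs1⟩ ⟨t, ht, ht1⟩
    obtain ⟨p, hp, q, hq, hpi, hqj, hpq⟩ := hE.span ⟨_, hs, by simp [nd, hs1]⟩
      ⟨_, ht, by simp [nd, ht1]⟩
    obtain ⟨u, rfl⟩ := hG p hp
    obtain ⟨v, rfl⟩ := hG q hq
    refine ⟨u, hp, v, hq, ?_, ?_, (cn_iff hij he hG u v).mp hpq⟩
    · rcases u with ⟨_ | _, r⟩
      · rfl
      · simp [nd] at hpi
        omega
    · rcases v with ⟨_ | _, r⟩
      · simp [nd] at hqj
        omega
      · rfl

theorem ev_of_evN (hij : i < j) (he : ∀ l, i < l → l < j → c l = []) (hh : ∀ l, (c l).length ≤ h)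
    {g : Set (Bool × Fin h)} (hg : g.Nonempty) (hE : EvN (pat h (c i) (c j)) g) :
    Ev c i j (nd i j '' g) ∧ Vis i j (nd i j '' g) ∧ {s | nd i j s ∈ nd i j '' g} = g ∧
      ∀ p ∈ nd i j '' g, ∃ s : Bool × Fin h, p = nd i j s := by
  have hG : ∀ p ∈ nd i j '' g, ∃ s : Bool × Fin h, p = nd i j s := by
    rintro p ⟨s, -, rfl⟩
    exact ⟨s, rfl⟩
  have hpre : {s | nd i j s ∈ nd i j '' g} = g := by
    ext s
    simp only [Set.mem_ofPred_eq]
    exact (nd_inj hij).mem_set_image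
  have hcol : ∀ s : Bool × Fin h, (nd i j s).1 = i ∨ (nd i j s).1 = j := by
    rintro ⟨_ | _, r⟩ <;> simp [nd]
  have hvis : Vis i j (nd i j '' g) := by
    obtain ⟨s, hs⟩ := hg
    exact ⟨_, ⟨s, hs, rfl⟩, hcol s⟩
  refine ⟨⟨?_, ?_, ?_, ?_, ?_⟩, hvis, hpre, hG⟩
  · rintro p ⟨s, hs, rfl⟩
    refine ⟨?_, ?_, ?_⟩
    · rcases hcol s with h1 | h1 <;> rw [h1]
      exact hij.le
    · rcases hcol s with h1 | h1 <;> rw [h1]
      exact hij.le
    · rw [tl_nd]
      have := (mem_pat_self (c i) (c j) s).mp (hE.sub s hs)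
      rw [List.getElem?_eq_getElem this]
      rfl
  · rintro p q ⟨s, hs, rfl⟩ h1 h2 h3
    have h4 : (tl c q).isSome := by
      obtain ⟨-, a, -, h5⟩ := h3
      rw [h5]
      rfl
    obtain ⟨t, rfl⟩ := exists_node he hh h1 h2 h4
    exact ⟨t, hE.closed s t hs ((bond_iff hij he s t).mp h3), rfl⟩
  · rintro - p ⟨s, hs, rfl⟩
    exact ⟨_, ⟨s, hs, rfl⟩, hcol s, Relation.ReflTransGen.refl⟩
  · rintro ⟨p, ⟨s, hs, rfl⟩, hp⟩ ⟨q, ⟨t, ht, rfl⟩, hq⟩
    have hs1 : s.1 = false := by
      rcases s with ⟨_ | _, r⟩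
      · rfl
      · simp [nd] at hp
        omega
    have ht1 : t.1 = true := by
      rcases t with ⟨_ | _, r⟩
      · simp [nd] at hq
        omega
      · rfl
    obtain ⟨u, hu, v, hv, hu1, hv1, huv⟩ := hE.span ⟨s, hs, hs1⟩ ⟨t, ht, ht1⟩
    refine ⟨_, ⟨u, hu, rfl⟩, _, ⟨v, hv, rfl⟩, by simp [nd, hu1], by simp [nd, hv1], ?_⟩
    rw [cn_iff hij he hG, hpre]
    exact huv
  · intro h1
    exact absurd hvis h1

theorem rem_nil {G : Set (ℕ × ℕ)} (he : ∀ l, i < l → l < j → c l = []) :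
    ∀ l, i < l → l < j → rem c G l = [] := by
  intro l h1 h2
  unfold rem
  rw [he l h1 h2]
  rfl

theorem rem_length {G : Set (ℕ × ℕ)} (hh : ∀ l, (c l).length ≤ h) :
    ∀ l, (rem c G l).length ≤ h := fun l => (length_keep_le l (c l) G).trans (hh l)

theorem pat_rem (hh : ∀ l, (c l).length ≤ h) (G : Set (ℕ × ℕ)) :
    pat h (rem c G i) (rem c G j) =
      pat h (cut (c i) {r : Fin h | (false, r) ∈ {s | nd i j s ∈ G}})
        (cut (c j) {r : Fin h | (true, r) ∈ {s | nd i j s ∈ G}}) := by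
  unfold rem
  rw [keep_eq_cut i (c i) G (hh i), keep_eq_cut j (c j) G (hh j)]
  rfl

end

theorem transport {h i j : ℕ} {c : St} {τ : List (Label h)} (hT : Tr h i j c τ) :
    ∀ (i' j' : ℕ) (c' : St), i < j → i' < j' →
    (∀ l, i < l → l < j → c l = []) → (∀ l, i' < l → l < j' → c' l = []) →
    (∀ l, (c l).length ≤ h) → (∀ l, (c' l).length ≤ h) →
    pat h (c i) (c j) = pat h (c' i') (c' j') → Tr h i' j' c' τ := by
  induction hT with
  | done c _ =>
    intro i' j' c' _ _ _ he' _ _ _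
    exact Tr.done c' he'
  | silent c G τ _ _ hE hV _ _ =>
    intro i' j' c' _ _ he _ _ _ _
    exfalso
    obtain ⟨-, p, hp, -⟩ := hE.inner hV
    obtain ⟨h1, h2, h3⟩ := hE.sub p hp
    have h4 : i < p.1 := lt_of_le_of_ne h1 fun h5 => hV ⟨p, hp, Or.inl h5.symm⟩
    have h5 : p.1 < j := lt_of_le_of_ne h2 fun h6 => hV ⟨p, hp, Or.inr h6⟩
    unfold tl at h3
    rw [he p.1 h4 h5] at h3
    simp at h3
  | vis c G τ hi hj hE hV _ ih =>
    intro i' j' c' hij hij' he he' hh hh' hp
    obtain ⟨hG, hEN⟩ := evN_of_ev hij he hh hE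
    have hlab := lab_eq hij he hG
    have hne : {s : Bool × Fin h | nd i j s ∈ G}.Nonempty := by
      obtain ⟨p, hp, -⟩ := hV
      obtain ⟨s, rfl⟩ := hG p hp
      exact ⟨s, hp⟩
    rw [hp] at hEN
    obtain ⟨hE', hV', hpre, hG'⟩ := ev_of_evN hij' he' hh' hne hEN
    have hlab' := lab_eq hij' he' hG'
    rw [hpre] at hlab'
    rw [hlab, hp, ← hlab']
    have hl1 : (c i).length = (c' i').length :=
      length_eq_of_pat hp false (hh i) (hh' i')
    have hl2 : (c j).length = (c' j').length :=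
      length_eq_of_pat hp true (hh j) (hh' j')
    refine Tr.vis c' _ τ ?_ ?_ hE' hV' ?_
    · intro h0
      rw [h0] at hl1
      exact hi (List.length_eq_zero_iff.mp hl1)
    · intro h0
      rw [h0] at hl2
      exact hj (List.length_eq_zero_iff.mp hl2)
    · apply ih i' j' _ hij hij' (rem_nil he) (rem_nil he') (rem_length hh) (rem_length hh')
      rw [pat_rem hh, pat_rem hh', hpre]
      exact pat_cut _ _ (hh i) (hh j) (hh' i') (hh' j') hp

theorem length_le {h i j : ℕ} {c : St} {τ : List (Label h)} (hT : Tr h i j c τ) :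
    τ.length ≤ (c i).length + (c j).length := by
  induction hT with
  | done c _ => simp
  | silent c G τ _ _ _ _ _ ih =>
    refine ih.trans ?_
    exact Nat.add_le_add (length_keep_le i (c i) G) (length_keep_le j (c j) G)
  | vis c G τ _ _ hE hV _ ih =>
    have h1 := length_keep_le i (c i) G
    have h2 := length_keep_le j (c j) G
    have h3 : (keep i (c i) G).length < (c i).length ∨ (keep j (c j) G).length < (c j).length := by
      obtain ⟨p, hp, hpc⟩ := hV
      have h4 := (hE.sub p hp).2.2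
      rcases p with ⟨x, r⟩
      have hr : r < (c x).length := by
        unfold tl at h4
        by_contra hcon
        rw [List.getElem?_eq_none (not_lt.mp hcon)] at h4
        exact absurd h4 (by simp)
      rcases hpc with h5 | h5
      · simp only at h5
        subst h5
        exact Or.inl (length_keep_lt x (c x) G r hr hp)
      · simp only at h5
        subst h5
        exact Or.inr (length_keep_lt x (c x) G r hr hp)
    have h6 : τ.length ≤ (keep i (c i) G).length + (keep j (c j) G).length := ih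
    rw [List.length_cons]
    omega

end ISO_

open ISO_ in
theorem tISO : T_ISO := by
  refine ⟨?_, ?_, ?_⟩
  · intro h i j i' j' c c' τ hij hij' he he' hh hh' hp hT
    exact transport hT i' j' c' hij hij' he he' hh hh' hp
  · intro h a b a' b' A B h1 h2 h3 h4 hp
    exact pat_cut A B h1 h2 h3 h4 hp
  · intro h i j c τ _ hh hT
    have h1 := length_le hT
    have h2 := hh i
    have h3 := hh j
    omega

end Pool.Agent.Clk
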