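import Pool.Agent.Clk.Targets

set_option autoImplicit false

/-!
# Clearing a position and erasing the inner columns of its strip
-/

namespace Pool.Agent.Clk

namespace LINK

/-! ## Lists of columns with empty columns -/

/-- the nonempty columns -/
def nz (d : Pos) : Pos := d.filter fun col => decide (col ≠ [])

/-- the nonempty columns with their numbers -/
def zz (d : Pos) : List (List ℕ × ℕ) := d.zipIdx.filter fun t => decide (t.1 ≠ [])

/-- the number of the nonempty column `x` -/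
def kp (d : Pos) (x : ℕ) : ℕ := (((zz d)[x]?).map Prod.snd).getD 0

theorem zz_fst (d : Pos) : (zz d).map Prod.fst = nz d := by
  unfold zz nz
  have h := List.filter_map (f := (Prod.fst : List ℕ × ℕ → List ℕ))
    (p := fun col : List ℕ => decide (col ≠ [])) (l := d.zipIdx)
  rw [List.zipIdx_map_fst] at h
  rw [h]
  rfl

theorem zz_length (d : Pos) : (zz d).length = (nz d).length := by
  rw [← zz_fst, List.length_map]

theorem zz_get {d : Pos} {x : ℕ} {t : List ℕ × ℕ} (h : (zz d)[x]? = some t) :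
    (nz d)[x]? = some t.1 ∧ kp d x = t.2 ∧ d[t.2]? = some t.1 ∧ t.1 ≠ [] := by
  have h1 : t ∈ zz d := List.mem_iff_getElem?.2 ⟨x, h⟩
  unfold zz at h1
  rw [List.mem_filter, List.mem_zipIdx_iff_getElem?] at h1
  refine ⟨?_, ?_, h1.1, by simpa using h1.2⟩
  · rw [← zz_fst, List.getElem?_map, h]
    rfl
  · unfold kp
    rw [h]
    rfl

theorem zz_some {d : Pos} {x : ℕ} (hx : x < (nz d).length) : ∃ t, (zz d)[x]? = some t := by
  rw [← zz_length] at hx
  exact ⟨_, List.getElem?_eq_getElem hx⟩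

theorem kp_lt_length {d : Pos} {x : ℕ} (hx : x < (nz d).length) : kp d x < d.length := by
  obtain ⟨t, ht⟩ := zz_some hx
  obtain ⟨-, h2, h3, -⟩ := zz_get ht
  rw [h2]
  exact (List.getElem?_eq_some_iff.1 h3).1

theorem kp_get {d : Pos} {x : ℕ} (hx : x < (nz d).length) : d[kp d x]? = (nz d)[x]? := by
  obtain ⟨t, ht⟩ := zz_some hx
  obtain ⟨h1, h2, h3, -⟩ := zz_get ht
  rw [h1, h2, h3]

theorem zz_pairwise (d : Pos) : (zz d).Pairwise fun s t => s.2 < t.2 := by
  unfold zz
  apply List.Pairwise.filter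
  have h := List.pairwise_lt_range' (s := 0) (n := d.length) 1
  rw [← List.zipIdx_map_snd, List.pairwise_map] at h
  exact h

theorem kp_lt {d : Pos} {x y : ℕ} (hxy : x < y) (hy : y < (nz d).length) : kp d x < kp d y := by
  have hx : x < (nz d).length := hxy.trans hy
  have hx' : x < (zz d).length := by rwa [zz_length]
  have hy' : y < (zz d).length := by rwa [zz_length]
  have h := List.pairwise_iff_getElem.1 (zz_pairwise d) x y hx' hy' hxy
  have h1 := (zz_get (List.getElem?_eq_getElem hx')).2.1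
  have h2 := (zz_get (List.getElem?_eq_getElem hy')).2.1
  rw [h1, h2]
  exact h

theorem kp_inj {d : Pos} {x y : ℕ} (hx : x < (nz d).length) (hy : y < (nz d).length)
    (h : kp d x = kp d y) : x = y := by
  rcases lt_trichotomy x y with h1 | h1 | h1
  · have := kp_lt h1 hy
    omega
  · exact h1
  · have := kp_lt h1 hx
    omega

theorem lt_of_kp_lt {d : Pos} {x y : ℕ} (hx : x < (nz d).length)
    (h : kp d x < kp d y) : x < y := by
  rcases lt_trichotomy x y with h1 | h1 | h1
  · exact h1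
  · subst h1
    omega
  · have := kp_lt h1 hx
    omega

theorem kp_surj {d : Pos} {l : ℕ} {col : List ℕ} (h : d[l]? = some col) (hc : col ≠ []) :
    ∃ x, x < (nz d).length ∧ kp d x = l := by
  have h1 : (col, l) ∈ zz d := by
    unfold zz
    rw [List.mem_filter, List.mem_zipIdx_iff_getElem?]
    exact ⟨h, by simpa using hc⟩
  obtain ⟨x, hx⟩ := List.mem_iff_getElem?.1 h1
  refine ⟨x, ?_, (zz_get hx).2.1⟩
  rw [← zz_length]
  exact (List.getElem?_eq_some_iff.1 hx).1

/-! ## The strip -/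

theorem wrap_zero (d : Pos) : wrap d 0 = [0] := by simp [wrap]

theorem wrap_last (d : Pos) : wrap d (d.length + 1) = [0] := by simp [wrap]

theorem wrap_succ {d : Pos} {l : ℕ} (hl : l < d.length) :
    wrap d (l + 1) = ((d[l]?).getD []).map (· + 1) := by
  unfold wrap
  rw [if_neg (by omega)]
  simp

theorem wrap_big {d : Pos} {l : ℕ} (hl : d.length + 1 < l) : wrap d l = [] := by
  unfold wrap
  rw [if_neg (by omega), List.getElem?_eq_none (by omega)]
  rfl

/-- the cell of the strip -/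
def ph (d : Pos) (p : ℕ × ℕ) : ℕ × ℕ := (kp d p.1 + 1, p.2)

theorem ph_inj {d : Pos} {p q : ℕ × ℕ} (hp : p.1 < (nz d).length) (hq : q.1 < (nz d).length)
    (h : ph d p = ph d q) : p = q := by
  unfold ph at h
  rw [Prod.mk.injEq] at h
  exact Prod.ext (kp_inj hp hq (by omega)) h.2

theorem tile_lt {b : Pos} {p : ℕ × ℕ} {a : ℕ} (h : tile b p = some a) : p.1 < b.length := by
  by_contra hc
  unfold tile at h
  rw [List.getElem?_eq_none (by omega)] at h
  simp at h

theorem tl_ph {d : Pos} {p : ℕ × ℕ} (hp : p.1 < (nz d).length) :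
    tl (wrap d) (ph d p) = (tile (nz d) p).map (· + 1) := by
  unfold tl ph tile
  simp only
  rw [wrap_succ (kp_lt_length hp), kp_get hp, List.getElem?_map]
  rw [List.getElem?_eq_getElem hp]
  rfl

theorem tl_zero {d : Pos} {p : ℕ × ℕ} {a : ℕ} (h : tl (wrap d) p = some a)
    (hp : p.1 = 0 ∨ p.1 = d.length + 1) : a = 0 := by
  unfold tl at h
  have h1 : wrap d p.1 = [0] := by
    rcases hp with hp | hp
    · rw [hp, wrap_zero]
    · rw [hp, wrap_last]
  rw [h1] at h
  have h2 := List.mem_of_getElem? h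
  simpa using h2

theorem tl_inner {d : Pos} {p : ℕ × ℕ} {a : ℕ} (h : tl (wrap d) p = some a)
    (h0 : p.1 ≠ 0) (h1 : p.1 ≠ d.length + 1) :
    ∃ q a', tile (nz d) q = some a' ∧ ph d q = p ∧ a = a' + 1 := by
  obtain ⟨l, r⟩ := p
  simp only at h0 h1
  obtain ⟨l, rfl⟩ := Nat.exists_eq_succ_of_ne_zero h0
  have hl : l < d.length := by
    by_contra hc
    unfold tl at h
    simp only at h
    rw [wrap_big (by omega)] at h
    simp at h
  unfold tl at h
  simp only [Nat.succ_eq_add_one] at h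
  rw [wrap_succ hl, List.getElem?_eq_getElem hl, Option.getD_some, List.getElem?_map] at h
  have hne : d[l] ≠ [] := by
    intro hc
    rw [hc] at h
    simp at h
  obtain ⟨x, hx, hkx⟩ := kp_surj (List.getElem?_eq_getElem hl) hne
  obtain ⟨a', ha', hb⟩ := Option.map_eq_some_iff.1 h
  refine ⟨(x, r), a', ?_, ?_, hb.symm⟩
  · unfold tile
    simp only
    rw [← kp_get hx, hkx, List.getElem?_eq_getElem hl]
    exact ha'
  · unfold ph
    simp only
    rw [hkx]

theorem touch_symm {c : St} {p q : ℕ × ℕ} (h : Touch c p q) : Touch c q p := by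
  rcases h with ⟨h1, h2⟩ | ⟨h1, h2⟩
  · exact Or.inl ⟨h1.symm, h2.symm⟩
  · exact Or.inr ⟨h1.symm, h2.symm⟩

theorem sbond_symm {c : St} {p q : ℕ × ℕ} (h : SBond c p q) : SBond c q p := by
  obtain ⟨h1, a, h2, h3⟩ := h
  exact ⟨touch_symm h1, a, h3, h2⟩

theorem near_symm {p q : ℕ × ℕ} (h : Near p q) : Near q p := by
  rcases h with ⟨h1, h2⟩ | ⟨h1, h2⟩
  · exact Or.inl ⟨h1.symm, h2.symm⟩
  · exact Or.inr ⟨h1.symm, h2.symm⟩

theorem bond_symm {b : Pos} {p q : ℕ × ℕ} (h : Bond b p q) : Bond b q p := by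
  obtain ⟨h1, a, h2, h3⟩ := h
  exact ⟨near_symm h1, a, h3, h2⟩

/-- adjacent columns -/
theorem adj {d : Pos} {x y : ℕ} (hx : x < (nz d).length) (hy : y < (nz d).length) :
    x + 1 = y ↔ kp d x + 1 < kp d y + 1 ∧
      ∀ l, kp d x + 1 < l → l < kp d y + 1 → wrap d l = [] := by
  constructor
  · intro h
    subst h
    refine ⟨Nat.add_lt_add_right (kp_lt (Nat.lt_add_one x) hy) 1, fun l h1 h2 => ?_⟩
    obtain ⟨l, rfl⟩ := Nat.exists_eq_succ_of_ne_zero (show l ≠ 0 by omega)
    have hyl := kp_lt_length hy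
    have hl : l < d.length := by omega
    rw [Nat.succ_eq_add_one, wrap_succ hl, List.getElem?_eq_getElem hl, Option.getD_some]
    by_contra hc
    have hne : d[l] ≠ [] := by
      intro h0
      rw [h0] at hc
      exact hc rfl
    obtain ⟨z, hz, hkz⟩ := kp_surj (List.getElem?_eq_getElem hl) hne
    have h3 : x < z := lt_of_kp_lt hx (by omega)
    have h4 : z < x + 1 := lt_of_kp_lt hz (by omega)
    omega
  · rintro ⟨h1, h2⟩
    have h3 : x < y := lt_of_kp_lt hx (by omega)
    by_contra hc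
    have h4 : x + 1 < y := by omega
    have hx1 : x + 1 < (nz d).length := h4.trans hy
    have h5 := kp_lt (Nat.lt_add_one x) hx1
    have h6 := kp_lt h4 hy
    have h7 := h2 (kp d (x + 1) + 1) (by omega) (by omega)
    rw [wrap_succ (kp_lt_length hx1)] at h7
    obtain ⟨t, ht⟩ := zz_some hx1
    obtain ⟨-, h8, h9, h10⟩ := zz_get ht
    rw [h8, h9] at h7
    simp only [Option.getD_some, List.map_eq_nil_iff] at h7
    exact h10 h7

theorem near_iff {d : Pos} {p q : ℕ × ℕ} (hp : p.1 < (nz d).length) (hq : q.1 < (nz d).length) :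
    Near p q ↔ Touch (wrap d) (ph d p) (ph d q) := by
  unfold Near Touch ph
  simp only
  rw [← adj hp hq, ← adj hq hp]
  have h1 : p.1 = q.1 ↔ kp d p.1 + 1 = kp d q.1 + 1 := by
    constructor
    · intro h
      rw [h]
    · intro h
      exact kp_inj hp hq (by omega)
  rw [← h1]

theorem bond_iff {d : Pos} {p q : ℕ × ℕ} (hp : p.1 < (nz d).length)
    (hq : q.1 < (nz d).length) :
    Bond (nz d) p q ↔ SBond (wrap d) (ph d p) (ph d q) := by
  unfold Bond SBond
  rw [near_iff hp hq, tl_ph hp, tl_ph hq]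
  refine and_congr_right fun _ => ?_
  constructor
  · rintro ⟨a, h1, h2⟩
    exact ⟨a + 1, by rw [h1]; rfl, by rw [h2]; rfl⟩
  · rintro ⟨a, h1, h2⟩
    obtain ⟨a1, h3, h4⟩ := Option.map_eq_some_iff.1 h1
    obtain ⟨a2, h5, h6⟩ := Option.map_eq_some_iff.1 h2
    exact ⟨a1, h3, by rw [h5]; congr 1; omega⟩

/-- a bond with an inner cell -/
theorem bond_inner {d : Pos} {p q : ℕ × ℕ} {a : ℕ} (hp : tile (nz d) p = some a)
    (h : SBond (wrap d) (ph d p) q) : ∃ v, ph d v = q ∧ v.1 < (nz d).length ∧ Bond (nz d) p v := by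
  have hp1 := tile_lt hp
  obtain ⟨h1, x, h2, h3⟩ := h
  rw [tl_ph hp1, hp] at h2
  have hx : x = a + 1 := by
    simpa using h2.symm
  subst hx
  have hq0 : q.1 ≠ 0 := fun hc => by
    have := tl_zero h3 (Or.inl hc)
    omega
  have hq1 : q.1 ≠ d.length + 1 := fun hc => by
    have := tl_zero h3 (Or.inr hc)
    omega
  obtain ⟨v, a', h4, h5, h6⟩ := tl_inner h3 hq0 hq1
  have hv := tile_lt h4
  refine ⟨v, h5, hv, ?_⟩
  rw [bond_iff hp1 hv, h5]
  refine ⟨h1, a + 1, ?_, h3⟩
  rw [tl_ph hp1, hp]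
  rfl

/-! ## Removal -/

theorem keep_nil (x : ℕ) (S : Set (ℕ × ℕ)) : keep x [] S = [] := rfl

theorem keep_congr {x y : ℕ} {S T : Set (ℕ × ℕ)} (h : ∀ r, (x, r) ∈ S ↔ (y, r) ∈ T)
    (col : List ℕ) : keep x col S = keep y col T := by
  unfold keep
  congr 1
  refine List.filter_congr fun t _ => ?_
  rw [decide_eq_decide, h]

theorem keep_map (x : ℕ) (col : List ℕ) (S : Set (ℕ × ℕ)) (f : ℕ → ℕ) :
    keep x (col.map f) S = (keep x col S).map f := by
  unfold keep
  rw [List.zipIdx_map, List.filter_map, List.map_map, List.map_map]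
  rfl

theorem keep_self {x : ℕ} {col : List ℕ} {S : Set (ℕ × ℕ)} (h : ∀ r, (x, r) ∉ S) :
    keep x col S = col := by
  unfold keep
  rw [List.filter_eq_self.2 fun t _ => by simpa using h t.2, List.zipIdx_map_fst]

open scoped Classical in
/-- the columns after the removal of the cells in `G` -/
noncomputable def nxt (d : Pos) (G : Set (ℕ × ℕ)) : Pos :=
  d.zipIdx.map fun t => keep (t.2 + 1) t.1 G

theorem nxt_length (d : Pos) (G : Set (ℕ × ℕ)) : (nxt d G).length = d.length := by
  unfold nxt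
  rw [List.length_map, List.length_zipIdx]

theorem nxt_get (d : Pos) (G : Set (ℕ × ℕ)) (l : ℕ) :
    (nxt d G)[l]? = (d[l]?).map fun col => keep (l + 1) col G := by
  unfold nxt
  rw [List.getElem?_map, List.getElem?_zipIdx, Option.map_map]
  congr 1
  funext col
  simp

theorem rem_wrap {d : Pos} {G : Set (ℕ × ℕ)} (h0 : ∀ r, (0, r) ∉ G)
    (h1 : ∀ r, (d.length + 1, r) ∉ G) : rem (wrap d) G = wrap (nxt d G) := by
  funext l
  unfold rem
  rcases Nat.eq_zero_or_pos l with rfl | hl
  · rw [wrap_zero, wrap_zero, keep_self h0]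
  obtain ⟨l, rfl⟩ := Nat.exists_eq_succ_of_ne_zero hl.ne'
  rw [Nat.succ_eq_add_one]
  rcases lt_trichotomy l d.length with h2 | h2 | h2
  · rw [wrap_succ h2, wrap_succ (by rwa [nxt_length]), nxt_get, keep_map,
      List.getElem?_eq_getElem h2]
    rfl
  · rw [h2, wrap_last, keep_self h1]
    have h3 := wrap_last (nxt d G)
    rw [nxt_length] at h3
    rw [h3]
  · rw [wrap_big (by omega), wrap_big (by rw [nxt_length]; omega), keep_nil]

theorem remove_nz {d : Pos} {G S : Set (ℕ × ℕ)}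
    (hS : ∀ x r, x < (nz d).length → ((x, r) ∈ S ↔ (kp d x + 1, r) ∈ G)) :
    remove (nz d) S = nz (nxt d G) := by
  have h1 : nz (nxt d G) = ((zz d).map fun t => keep (t.2 + 1) t.1 G).filter
      fun col => decide (col ≠ []) := by
    unfold nz nxt zz
    rw [List.filter_map, List.filter_map, List.filter_filter]
    congr 1
    refine List.filter_congr fun t _ => ?_
    simp only [Function.comp_apply]
    by_cases ht : t.1 = []
    · rw [ht, keep_nil]
      simp
    · simp [ht]
  rw [h1]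
  unfold remove
  congr 1
  refine List.ext_getElem? fun x => ?_
  rw [List.getElem?_map, List.getElem?_map, List.getElem?_zipIdx]
  rcases lt_or_ge x (nz d).length with hx | hx
  · obtain ⟨t, ht⟩ := zz_some hx
    obtain ⟨h2, h3, -, -⟩ := zz_get ht
    rw [h2, ht]
    simp only [Option.map_some, zero_add]
    congr 1
    refine keep_congr (fun r => ?_) _
    rw [← h3]
    exact hS x r hx
  · rw [List.getElem?_eq_none (by omega), List.getElem?_eq_none (by rw [zz_length]; omega)]
    rfl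

/-! ## Clicks and events -/

theorem group_tile {b : Pos} {p q : ℕ × ℕ} (hp : (tile b p).isSome) (hq : q ∈ group b p) :
    ∃ a, tile b q = some a := by
  have hq' : Relation.ReflTransGen (Bond b) p q := hq
  induction hq' with
  | refl => exact Option.isSome_iff_exists.1 hp
  | tail _ h _ =>
    obtain ⟨-, a, -, h2⟩ := h
    exact ⟨a, h2⟩

theorem fwd {d b' : Pos} (h : Click (nz d) b') : ∃ G, Ev (wrap d) 0 (d.length + 1) G ∧
    ¬ Vis 0 (d.length + 1) G ∧ b' = nz (nxt d G) ∧ rem (wrap d) G = wrap (nxt d G) := by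
  obtain ⟨p, hp, ⟨q, hqp, hq⟩, rfl⟩ := h
  have hcell : ∀ u ∈ group (nz d) p, u.1 < (nz d).length := fun u hu => by
    obtain ⟨a, ha⟩ := group_tile hp hu
    exact tile_lt ha
  have hpin : p ∈ group (nz d) p := Relation.ReflTransGen.refl
  have hcol : ∀ u ∈ group (nz d) p, (ph d u).1 ≠ 0 ∧ (ph d u).1 < d.length + 1 := by
    intro u hu
    have := kp_lt_length (hcell u hu)
    unfold ph
    simp only
    omega
  have hvis : ¬ Vis 0 (d.length + 1) (ph d '' group (nz d) p) := by
    rintro ⟨v, ⟨u, hu, rfl⟩, h⟩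
    have := hcol u hu
    omega
  have hconn : ∀ u ∈ group (nz d) p,
      Cn (wrap d) (ph d '' group (nz d) p) (ph d p) (ph d u) := by
    intro u hu
    have hu' : Relation.ReflTransGen (Bond (nz d)) p u := hu
    induction hu' with
    | refl => exact Relation.ReflTransGen.refl
    | tail h1 h2 ih =>
      rename_i v w
      have hv : v ∈ group (nz d) p := h1
      refine Relation.ReflTransGen.tail (ih hv) ⟨⟨v, hv, rfl⟩, ⟨w, hu, rfl⟩, ?_⟩
      exact (bond_iff (hcell v hv) (hcell w hu)).1 h2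
  have hsymm : ∀ u v, Cn (wrap d) (ph d '' group (nz d) p) u v →
      Cn (wrap d) (ph d '' group (nz d) p) v u := by
    intro u v huv
    induction huv with
    | refl => exact Relation.ReflTransGen.refl
    | tail _ h2 ih => exact Relation.ReflTransGen.head ⟨h2.2.1, h2.1, sbond_symm h2.2.2⟩ ih
  refine ⟨ph d '' group (nz d) p, ⟨?_, ?_, ?_, ?_, ?_⟩, hvis, ?_, ?_⟩
  · rintro _ ⟨u, hu, rfl⟩
    have := hcol u hu
    refine ⟨Nat.zero_le _, this.2.le, ?_⟩
    rw [tl_ph (hcell u hu)]
    obtain ⟨a, ha⟩ := group_tile hp hu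
    rw [ha]
    rfl
  · rintro _ v ⟨u, hu, rfl⟩ - - huv
    obtain ⟨a, ha⟩ := group_tile hp hu
    obtain ⟨w, hw, -, hw2⟩ := bond_inner ha huv
    exact ⟨w, Relation.ReflTransGen.tail hu hw2, hw⟩
  · intro hv
    exact absurd hv hvis
  · rintro ⟨v, hv, hv0⟩
    exact absurd ⟨v, hv, Or.inl hv0⟩ hvis
  · intro _
    constructor
    · rintro _ ⟨u, hu, rfl⟩ _ ⟨v, hv, rfl⟩
      exact (hsymm _ _ (hconn u hu)).trans (hconn v hv)
    · rcases Relation.ReflTransGen.cases_head hq with h1 | ⟨u, h1, -⟩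
      · exact absurd h1.symm hqp
      · have hu : u ∈ group (nz d) p := Relation.ReflTransGen.single h1
        exact ⟨ph d p, ⟨p, hpin, rfl⟩, ph d u, ⟨u, hu, rfl⟩,
          (bond_iff (hcell p hpin) (hcell u hu)).1 h1⟩
  · refine remove_nz fun x r hx => ?_
    constructor
    · intro h
      exact ⟨(x, r), h, rfl⟩
    · rintro ⟨u, hu, hu2⟩
      have : u = (x, r) := ph_inj (hcell u hu) hx hu2
      rwa [← this]
  · refine rem_wrap (fun r h => hvis ⟨_, h, Or.inl rfl⟩) fun r h => hvis ⟨_, h, Or.inr rfl⟩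

theorem bwd {d : Pos} {G : Set (ℕ × ℕ)} (h : Ev (wrap d) 0 (d.length + 1) G)
    (hv : ¬ Vis 0 (d.length + 1) G) : Click (nz d) (nz (nxt d G)) ∧
      rem (wrap d) G = wrap (nxt d G) := by
  have hG : ∀ p ∈ G, ∃ q a, tile (nz d) q = some a ∧ ph d q = p := by
    intro p hp
    obtain ⟨-, -, h1⟩ := h.sub p hp
    obtain ⟨a, ha⟩ := Option.isSome_iff_exists.1 h1
    obtain ⟨q, a', h2, h3, -⟩ := tl_inner ha (fun hc => hv ⟨p, hp, Or.inl hc⟩)
      (fun hc => hv ⟨p, hp, Or.inr hc⟩)
    exact ⟨q, a', h2, h3⟩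
  obtain ⟨hconn, p, hp, q, hq, hpq⟩ := h.inner hv
  obtain ⟨p, a, hpa, rfl⟩ := hG p hp
  obtain ⟨q, a', hqa, rfl⟩ := hG q hq
  have hpl := tile_lt hpa
  have hql := tile_lt hqa
  have hb : Bond (nz d) p q := (bond_iff hpl hql).2 hpq
  have hne : q ≠ p := by
    rintro rfl
    rcases hb.1 with ⟨-, h1⟩ | ⟨-, h1⟩
    · omega
    · omega
  have hsub1 : ∀ u ∈ group (nz d) p, ph d u ∈ G ∧ u.1 < (nz d).length := by
    intro u hu
    have hu' : Relation.ReflTransGen (Bond (nz d)) p u := hu
    clear hu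
    induction hu' with
    | refl => exact ⟨hp, hpl⟩
    | tail h1 h2 ih =>
      rename_i v w
      have hw : w.1 < (nz d).length := by
        obtain ⟨-, x, -, hx⟩ := h2
        exact tile_lt hx
      refine ⟨h.closed _ _ ih.1 (Nat.zero_le _) ?_ ((bond_iff ih.2 hw).1 h2), hw⟩
      have := kp_lt_length hw
      unfold ph
      simp only
      omega
  have hsub2 : ∀ y, Cn (wrap d) G (ph d p) y → ∃ v, ph d v = y ∧ v ∈ group (nz d) p := by
    intro y hy
    induction hy with
    | refl => exact ⟨p, rfl, Relation.ReflTransGen.refl⟩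
    | tail _ h2 ih =>
      rename_i v w
      obtain ⟨v', rfl, hv'⟩ := ih
      obtain ⟨-, hw, hb2⟩ := h2
      obtain ⟨w', x, hw', rfl⟩ := hG _ hw
      refine ⟨w', rfl, Relation.ReflTransGen.tail hv' ?_⟩
      exact (bond_iff (hsub1 v' hv').2 (tile_lt hw')).2 hb2
  refine ⟨⟨p, Option.isSome_iff_exists.2 ⟨a, hpa⟩, ⟨q, hne, Relation.ReflTransGen.single hb⟩, ?_⟩,
    rem_wrap (fun r h => hv ⟨_, h, Or.inl rfl⟩) fun r h => hv ⟨_, h, Or.inr rfl⟩⟩
  refine (remove_nz fun x r hx => ?_).symm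
  constructor
  · intro h1
    exact (hsub1 _ h1).1
  · intro h1
    obtain ⟨v, hv1, hv2⟩ := hsub2 _ (hconn _ hp _ h1)
    have : v = (x, r) := ph_inj (hsub1 v hv2).2 hx hv1
    rwa [← this]

theorem nz_eq_nil {d : Pos} : nz d = [] ↔ ∀ l, 0 < l → l < d.length + 1 → wrap d l = [] := by
  unfold nz
  rw [List.filter_eq_nil_iff]
  constructor
  · intro h l h1 h2
    obtain ⟨l, rfl⟩ := Nat.exists_eq_succ_of_ne_zero h1.ne'
    have hl : l < d.length := by omega
    rw [Nat.succ_eq_add_one, wrap_succ hl, List.getElem?_eq_getElem hl, Option.getD_some]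
    have h3 := h d[l] (List.getElem_mem hl)
    have h4 : d[l] = [] := by simpa using h3
    rw [h4]
    rfl
  · intro h col hcol
    obtain ⟨l, hl, rfl⟩ := List.mem_iff_getElem.1 hcol
    have h3 := h (l + 1) (by omega) (by omega)
    rw [wrap_succ hl, List.getElem?_eq_getElem hl, Option.getD_some, List.map_eq_nil_iff] at h3
    simp [h3]

theorem main1 (h : ℕ) {b : Pos} (hb : Clearable b) : ∀ d : Pos, nz d = b →
    Tr h 0 (d.length + 1) (wrap d) [] := by
  unfold Clearable at hb
  induction hb using Relation.ReflTransGen.head_induction_on with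
  | refl =>
    intro d hd
    exact Tr.done _ (nz_eq_nil.1 hd)
  | head h1 _ ih =>
    intro d hd
    subst hd
    obtain ⟨G, hG, hv, hb', hr⟩ := fwd h1
    refine Tr.silent _ G [] ?_ ?_ hG hv ?_
    · rw [wrap_zero]
      simp
    · rw [wrap_last]
      simp
    · rw [hr]
      have := ih (nxt d G) hb'.symm
      rwa [nxt_length] at this

theorem main2 (h : ℕ) {j : ℕ} {c : St} {τ : List (Label h)} (ht : Tr h 0 j c τ) :
    τ = [] → ∀ d : Pos, j = d.length + 1 → c = wrap d → Clearable (nz d) := by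
  induction ht with
  | done c hc =>
    intro _ d hj hcd
    subst hj hcd
    rw [nz_eq_nil.2 hc]
    exact Relation.ReflTransGen.refl
  | silent c G τ _ _ hG hv _ ih =>
    intro hτ d hj hcd
    subst hj hcd
    obtain ⟨h1, h2⟩ := bwd hG hv
    have h3 := ih hτ (nxt d G) (by rw [nxt_length]) h2
    exact Relation.ReflTransGen.head h1 h3
  | vis c G τ _ _ _ _ _ _ =>
    intro hτ
    exact absurd hτ (List.cons_ne_nil _ _)

end LINK

open LINK

theorem tLINK : T_LINK := by
  intro h b _ hb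
  have hnz : nz b = b := by
    unfold nz
    rw [List.filter_eq_self]
    intro col hcol
    simpa using (hb col hcol).1
  constructor
  · intro hc
    exact main1 h hc b hnz
  · intro ht
    have := main2 h ht rfl b rfl rfl
    rwa [hnz] at this

end Pool.Agent.Clk
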