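import Pool.Agent.Clk.Targets

set_option autoImplicit false

/-!
# CLK-NP: clearing a board is in NP

The witness is a list of bits: `false` moves a pointer to the next tile, `true` clicks the tile at
the pointer and resets the pointer.
-/

namespace Pool.Agent.Clk

open Pool.Agent.PT hiding Sym
open Pool.Agent.SLN (Sym encWalk encBits)
open Pool.Agent.CookLevin (InNP encPair encBool)
open scoped List

namespace NP_

/-! ## The check -/

/-- the colour of a cell -/
def col (b : Pos) (p : ℕ × ℕ) : ℕ := (b.getD p.1 []).getD p.2 0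

/-- the list of the cells with a tile -/
def cells (b : Pos) : List (ℕ × ℕ) :=
  (List.range b.length).flatMap fun x => (List.range (b.getD x []).length).map fun y => (x, y)

/-- adjacency -/
def nearb (p q : ℕ × ℕ) : Bool :=
  (decide (p.1 = q.1) && (decide (p.2 + 1 = q.2) || decide (q.2 + 1 = p.2))) ||
    (decide (p.2 = q.2) && (decide (p.1 + 1 = q.1) || decide (q.1 + 1 = p.1)))

/-- one step of the closure -/
def grow (b : Pos) (S : List (ℕ × ℕ)) : List (ℕ × ℕ) :=
  (cells b).filter fun q => S.any fun p =>
    decide (p = q) || (nearb p q && decide (col b p = col b q))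

/-- the closure -/
def clo (b : Pos) (p : ℕ × ℕ) : List (ℕ × ℕ) :=
  (cells b).foldl (fun S _ => grow b S) ((cells b).filter fun q => decide (p = q))

/-- what is left of a column -/
def keepL (x : ℕ) (c : List ℕ) (G : List (ℕ × ℕ)) : List ℕ :=
  ((c.zip (List.range c.length)).filter fun t => !(G.any fun p => decide (p = (x, t.2)))).map
    Prod.fst

/-- the position after removing the cells in a list -/
def removeL (b : Pos) (G : List (ℕ × ℕ)) : Pos :=
  ((b.zip (List.range b.length)).map fun t => keepL t.2 t.1 G).filter fun c => !c.isEmpty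

/-- the cell at the pointer -/
def ptr (b : Pos) (i : ℕ) : ℕ × ℕ := (cells b).getD i (0, 0)

/-- click the tile at the pointer, if this is allowed -/
def clickAt (b : Pos) (i : ℕ) : Pos :=
  bif (cells b).any (fun q => decide (q = ptr b i)) &&
      (clo b (ptr b i)).any (fun q => !decide (q = ptr b i)) then
    removeL b (clo b (ptr b i)) else b

/-- one step -/
def stp (s : Pos × ℕ) (c : Bool) : Pos × ℕ := bif c then (clickAt s.1 s.2, 0) else (s.1, s.2 + 1)

/-- the verifier on positions -/
def run (b : Pos) (w : List Bool) : Bool := (w.foldl stp (b, 0)).1.isEmpty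

/-! ## Cells -/

theorem tile_eq (b : Pos) (p : ℕ × ℕ) : tile b p = (b.getD p.1 [])[p.2]? := by
  unfold tile
  rw [List.getD_eq_getElem?_getD]
  cases b[p.1]? <;> simp

theorem some_iff {α : Type} (l : List α) (n : ℕ) : (l[n]?).isSome = true ↔ n < l.length := by
  simp

theorem mem_cells {b : Pos} {p : ℕ × ℕ} : p ∈ cells b ↔ (tile b p).isSome = true := by
  obtain ⟨x, y⟩ := p
  rw [tile_eq, some_iff]
  unfold cells
  simp only [List.mem_flatMap, List.mem_range, List.mem_map, Prod.mk.injEq]
  constructor
  · rintro ⟨x', -, y', h2, rfl, rfl⟩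
    exact h2
  · intro h
    refine ⟨x, ?_, y, h, rfl, rfl⟩
    by_contra hx
    rw [List.getD_eq_default _ _ (by omega)] at h
    simp at h

theorem tile_col {b : Pos} {p : ℕ × ℕ} (h : p ∈ cells b) : tile b p = some (col b p) := by
  rw [mem_cells] at h
  rw [tile_eq] at h ⊢
  unfold col
  obtain ⟨a, ha⟩ := Option.isSome_iff_exists.1 h
  rw [ha, List.getD_eq_getElem?_getD (l := b.getD p.1 []), ha]
  rfl

theorem nearb_iff (p q : ℕ × ℕ) : nearb p q = true ↔ Near p q := by
  simp [nearb, Near]

theorem bond_cells {b : Pos} {p q : ℕ × ℕ} (h : Bond b p q) : p ∈ cells b ∧ q ∈ cells b := by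
  obtain ⟨-, a, h1, h2⟩ := h
  rw [mem_cells, mem_cells, h1, h2]
  simp

theorem bond_iff {b : Pos} {p q : ℕ × ℕ} (hp : p ∈ cells b) (hq : q ∈ cells b) :
    Bond b p q ↔ (nearb p q && decide (col b p = col b q)) = true := by
  unfold Bond
  rw [tile_col hp, tile_col hq, Bool.and_eq_true, nearb_iff, decide_eq_true_eq]
  refine and_congr Iff.rfl ⟨?_, fun h => ⟨col b p, rfl, by rw [h]⟩⟩
  rintro ⟨a, h1, h2⟩
  rw [Option.some.injEq] at h1 h2
  rw [h1, h2]

theorem mem_grow {b : Pos} {S : List (ℕ × ℕ)} {q : ℕ × ℕ} : q ∈ grow b S ↔ q ∈ cells b ∧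
    ∃ p ∈ S, p = q ∨ (nearb p q && decide (col b p = col b q)) = true := by
  unfold grow
  rw [List.mem_filter, List.any_eq_true]
  refine and_congr Iff.rfl (exists_congr fun p => and_congr Iff.rfl ?_)
  rw [Bool.or_eq_true, decide_eq_true_eq]

/-! ## The closure -/

/-- a sublist of the cells given by a condition -/
def Good (b : Pos) (S : List (ℕ × ℕ)) : Prop := S = (cells b).filter fun q => decide (q ∈ S)

theorem good_filter (b : Pos) (P : ℕ × ℕ → Bool) : Good b ((cells b).filter P) := by
  unfold Good
  apply List.filter_congr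
  intro q hq
  rw [Bool.eq_iff_iff, decide_eq_true_eq, List.mem_filter]
  simp [hq]

theorem good_sub {b : Pos} {S : List (ℕ × ℕ)} (h : Good b S) : S <+ cells b := by
  rw [h]
  exact List.filter_sublist

theorem sub_grow {b : Pos} {S : List (ℕ × ℕ)} (h : Good b S) : S <+ grow b S := by
  conv_lhs => rw [h]
  unfold grow
  apply List.monotone_filter_right
  intro q hq
  have hq' : q ∈ S := by simpa using hq
  show (S.any fun p => decide (p = q) || (nearb p q && decide (col b p = col b q))) = true
  rw [List.any_eq_true]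
  exact ⟨q, hq', by simp⟩

/-- the stages of the closure -/
def st (b : Pos) (p : ℕ × ℕ) (n : ℕ) : List (ℕ × ℕ) :=
  (grow b)^[n] ((cells b).filter fun q => decide (p = q))

theorem st_succ (b : Pos) (p : ℕ × ℕ) (n : ℕ) : st b p (n + 1) = grow b (st b p n) :=
  Function.iterate_succ_apply' _ _ _

theorem good_st (b : Pos) (p : ℕ × ℕ) (n : ℕ) : Good b (st b p n) := by
  cases n with
  | zero => exact good_filter b _
  | succ n =>
    rw [st_succ]
    exact good_filter b _

theorem foldl_st (b : Pos) (p : ℕ × ℕ) (l : List (ℕ × ℕ)) :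
    l.foldl (fun S _ => grow b S) ((cells b).filter fun q => decide (p = q)) =
      st b p l.length := by
  have h : ∀ (l : List (ℕ × ℕ)) (S : List (ℕ × ℕ)),
      l.foldl (fun S _ => grow b S) S = (grow b)^[l.length] S := by
    intro l
    induction l with
    | nil => intro S; rfl
    | cons a l ih =>
      intro S
      rw [List.foldl_cons, ih, List.length_cons, Function.iterate_succ_apply]
  exact h l _

theorem st_long (b : Pos) (p : ℕ × ℕ) (n : ℕ) (h : ∀ m < n, st b p m ≠ st b p (m + 1)) :
    n ≤ (st b p n).length := by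
  induction n with
  | zero => omega
  | succ n ih =>
    have h1 := ih fun m hm => h m (by omega)
    have h2 := h n (by omega)
    have h3 : st b p n <+ st b p (n + 1) := by
      rw [st_succ]
      exact sub_grow (good_st b p n)
    have h4 := h3.length_le
    have h5 : (st b p n).length ≠ (st b p (n + 1)).length := fun h => h2 (h3.eq_of_length h)
    omega

theorem st_stable (b : Pos) (p : ℕ × ℕ) :
    grow b (st b p (cells b).length) = st b p (cells b).length := by
  have h1 : ∃ m ≤ (cells b).length, st b p m = st b p (m + 1) := by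
    by_contra hc
    push Not at hc
    have h2 := st_long b p ((cells b).length + 1) fun m hm => hc m (by omega)
    have h3 := (good_sub (good_st b p ((cells b).length + 1))).length_le
    omega
  obtain ⟨m, hm, hm'⟩ := h1
  have h2 : ∀ k, st b p (m + k) = st b p m := by
    intro k
    induction k with
    | zero => rfl
    | succ k ih =>
      rw [← add_assoc, st_succ, ih, ← st_succ, ← hm']
  have h3 : st b p (cells b).length = st b p m := by
    have := h2 ((cells b).length - m)
    rwa [Nat.add_sub_cancel' hm] at this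
  rw [h3, ← st_succ, ← hm']

theorem mem_clo {b : Pos} {p : ℕ × ℕ} (hp : p ∈ cells b) (q : ℕ × ℕ) :
    q ∈ clo b p ↔ q ∈ group b p := by
  unfold clo
  rw [foldl_st]
  constructor
  · have key : ∀ n q, q ∈ st b p n → Relation.ReflTransGen (Bond b) p q := by
      intro n
      induction n with
      | zero =>
        intro q hq
        have h1 : q ∈ (cells b).filter fun q => decide (p = q) := hq
        rw [List.mem_filter, decide_eq_true_eq] at h1
        rw [h1.2]
      | succ n ih =>
        intro q hq
        rw [st_succ, mem_grow] at hq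
        obtain ⟨h1, r, h2, h3⟩ := hq
        rcases h3 with rfl | h3
        · exact ih _ h2
        · have h4 : r ∈ cells b := (good_sub (good_st b p n)).subset h2
          exact (ih r h2).tail ((bond_iff h4 h1).2 h3)
    exact key _ q
  · intro hq
    have hq' : Relation.ReflTransGen (Bond b) p q := hq
    induction hq' with
    | refl =>
      have h0 : ∀ n, p ∈ st b p n := by
        intro n
        induction n with
        | zero =>
          show p ∈ (cells b).filter fun q => decide (p = q)
          rw [List.mem_filter]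
          exact ⟨hp, by simp⟩
        | succ n ih =>
          rw [st_succ]
          exact (sub_grow (good_st b p n)).subset ih
      exact h0 _
    | tail h1 h2 ih =>
      obtain ⟨h3, h4⟩ := bond_cells h2
      rw [← st_stable, mem_grow]
      exact ⟨h4, _, ih h1, Or.inr ((bond_iff h3 h4).1 h2)⟩

/-! ## Removing -/

theorem zip_range {α : Type} (l : List α) : l.zip (List.range l.length) = l.zipIdx := by
  rw [List.zipIdx_eq_zip_range', List.range_eq_range']

theorem keepL_eq (x : ℕ) (c : List ℕ) (G : List (ℕ × ℕ)) (S : Set (ℕ × ℕ))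
    (h : ∀ q, q ∈ G ↔ q ∈ S) : keepL x c G = keep x c S := by
  classical
  unfold keepL keep
  rw [zip_range]
  congr 1
  apply List.filter_congr
  intro t _
  rw [Bool.eq_iff_iff, decide_eq_true_iff, ← h, Bool.not_eq_true', ← Bool.not_eq_true,
    List.any_eq_true]
  refine not_congr ⟨?_, fun h1 => ⟨_, h1, by simp⟩⟩
  rintro ⟨p, h1, h2⟩
  rw [decide_eq_true_eq] at h2
  rwa [← h2]

theorem removeL_eq (b : Pos) (G : List (ℕ × ℕ)) (S : Set (ℕ × ℕ))
    (h : ∀ q, q ∈ G ↔ q ∈ S) : removeL b G = remove b S := by
  unfold removeL remove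
  rw [zip_range]
  have h1 : (fun t : List ℕ × ℕ => keepL t.2 t.1 G) = fun t => keep t.2 t.1 S := by
    funext t
    exact keepL_eq _ _ _ _ h
  rw [h1]
  apply List.filter_congr
  intro c _
  cases c <;> simp

theorem clickAt_spec (b : Pos) (i : ℕ) : clickAt b i = b ∨ Click b (clickAt b i) := by
  unfold clickAt
  set p := ptr b i with hp
  cases h : (cells b).any (fun q => decide (q = p)) && (clo b p).any (fun q => !decide (q = p))
  · left; rfl
  · right
    rw [Bool.and_eq_true, List.any_eq_true, List.any_eq_true] at h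
    obtain ⟨⟨p', h1, h2⟩, q, h3, h4⟩ := h
    rw [decide_eq_true_eq] at h2
    rw [h2] at h1
    refine ⟨p, mem_cells.1 h1, ⟨q, by simpa using h4, (mem_clo h1 q).1 h3⟩, ?_⟩
    rw [cond_true]
    exact removeL_eq _ _ _ (mem_clo h1)

theorem clickAt_of {b b' : Pos} (h : Click b b') : ∃ i < (cells b).length, clickAt b i = b' ∧
    ∃ p ∈ cells b, b' = removeL b (clo b p) ∧ p ∈ clo b p := by
  obtain ⟨p, h1, ⟨q, h2, h3⟩, rfl⟩ := h
  have hp : p ∈ cells b := mem_cells.2 h1
  obtain ⟨i, hi, hi'⟩ := List.getElem_of_mem hp
  have e : ptr b i = p := by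
    unfold ptr
    rw [List.getD_eq_getElem _ _ hi, hi']
  have e2 : removeL b (clo b p) = remove b (group b p) := removeL_eq _ _ _ (mem_clo hp)
  refine ⟨i, hi, ?_, p, hp, e2.symm, (mem_clo hp p).2 Relation.ReflTransGen.refl⟩
  unfold clickAt
  rw [e]
  have h4 : (cells b).any (fun q => decide (q = p)) = true := by
    rw [List.any_eq_true]
    exact ⟨p, hp, by simp⟩
  have h5 : (clo b p).any (fun q => !decide (q = p)) = true := by
    rw [List.any_eq_true]
    exact ⟨q, (mem_clo hp q).2 h3, by simp [h2]⟩
  rw [h4, h5, Bool.and_true, cond_true, e2]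

/-! ## Number of tiles -/

/-- the number of tiles -/
def tot (b : Pos) : ℕ := (b.map List.length).sum

theorem length_cells (b : Pos) : (cells b).length = tot b := by
  unfold cells tot
  rw [List.length_flatMap]
  congr 1
  apply List.ext_getElem
  · simp
  · intro n h1 h2
    have h3 : n < b.length := by simpa using h2
    simp [h3]

theorem tot_filter (b : Pos) : tot (b.filter fun c => !c.isEmpty) = tot b := by
  unfold tot
  induction b with
  | nil => rfl
  | cons c b ih =>
    cases c with
    | nil => simpa using ih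
    | cons a c => simp [ih]

theorem keepL_sub (x : ℕ) (c : List ℕ) (G : List (ℕ × ℕ)) : keepL x c G <+ c := by
  have h1 : (c.zip (List.range c.length)).map Prod.fst = c := by
    rw [List.map_fst_zip]
    simp
  unfold keepL
  conv_rhs => rw [← h1]
  exact List.filter_sublist.map _

theorem tot_remove {b : Pos} {G : List (ℕ × ℕ)} {p : ℕ × ℕ} (hp : p ∈ cells b) (hG : p ∈ G) :
    tot (removeL b G) < tot b := by
  unfold removeL
  rw [tot_filter]
  unfold tot
  have h1 : (b.map List.length) = (b.zip (List.range b.length)).map fun t => t.1.length := by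
    have h1 : (b.zip (List.range b.length)).map Prod.fst = b := by
      rw [List.map_fst_zip]
      simp
    conv_lhs => rw [← h1]
    rw [List.map_map]
    rfl
  rw [h1, List.map_map]
  apply List.sum_lt_sum
  · intro t _
    exact (keepL_sub _ _ _).length_le
  · obtain ⟨x, y⟩ := p
    rw [mem_cells, tile_eq, some_iff] at hp
    have hx : x < b.length := by
      by_contra hx
      rw [List.getD_eq_default _ _ (by simpa using hx)] at hp
      simp at hp
    rw [List.getD_eq_getElem _ _ hx] at hp
    have hp' : y < (b[x]).length := hp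
    refine ⟨(b[x], x), ?_, ?_⟩
    · rw [zip_range]
      exact List.mem_zipIdx_iff_getElem?.2 (by simp [hx])
    · show (keepL x b[x] G).length < (b[x]).length
      unfold keepL
      rw [List.length_map]
      have h2 : (b[x].zip (List.range b[x].length)).length = b[x].length := by simp
      refine lt_of_lt_of_eq ?_ h2
      rw [List.length_filter_lt_length_iff_exists]
      refine ⟨(b[x][y], y), ?_, ?_⟩
      · rw [zip_range]
        exact List.mem_zipIdx_iff_getElem?.2 (by simp [hp'])
      · simp [hG]

/-! ## Correctness of the verifier -/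

theorem sound (w : List Bool) : ∀ s : Pos × ℕ,
    Relation.ReflTransGen Click s.1 (w.foldl stp s).1 := by
  induction w with
  | nil => intro s; exact Relation.ReflTransGen.refl
  | cons c w ih =>
    intro s
    rw [List.foldl_cons]
    refine Relation.ReflTransGen.trans ?_ (ih _)
    cases c
    · exact Relation.ReflTransGen.refl
    · show Relation.ReflTransGen Click s.1 (clickAt s.1 s.2)
      rcases clickAt_spec s.1 s.2 with h | h
      · rw [h]
      · exact Relation.ReflTransGen.single h

theorem foldl_move (b : Pos) (n : ℕ) : ∀ i : ℕ,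
    (List.replicate n false).foldl stp (b, i) = (b, i + n) := by
  induction n with
  | zero => intro i; rfl
  | succ n ih =>
    intro i
    rw [List.replicate_succ, List.foldl_cons]
    have e : stp (b, i) false = (b, i + 1) := rfl
    rw [e, ih]
    congr 1
    omega

theorem complete (b : Pos) (h : Clearable b) :
    ∃ w : List Bool, w.length ≤ tot b * tot b ∧ (w.foldl stp (b, 0)).1 = [] := by
  unfold Clearable at h
  induction h using Relation.ReflTransGen.head_induction_on with
  | refl => exact ⟨[], by simp, rfl⟩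
  | head h1 h2 ih =>
    rename_i b₁ b₂
    obtain ⟨w, hw1, hw2⟩ := ih
    obtain ⟨i, hi, e1, p, hp, e2, hG⟩ := clickAt_of h1
    have hlt : tot b₂ < tot b₁ := by
      rw [e2]
      exact tot_remove hp hG
    rw [length_cells] at hi
    refine ⟨List.replicate i false ++ true :: w, ?_, ?_⟩
    · rw [List.length_append, List.length_cons, List.length_replicate]
      nlinarith
    · rw [List.foldl_append, foldl_move, List.foldl_cons, zero_add]
      have e : stp (b₁, i) true = (clickAt b₁ i, 0) := rfl
      rw [e, e1]
      exact hw2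

theorem run_spec (b : Pos) (w : List Bool) (h : run b w = true) : Clearable b := by
  unfold run at h
  rw [List.isEmpty_iff] at h
  have := sound w (b, 0)
  rw [h] at this
  exact this

theorem length_encWalk (u : List (List Bool)) : u.length ≤ (encWalk u).length := by
  unfold encWalk
  rw [List.length_append, List.length_flatMap]
  have : u.length ≤ (u.map fun v => (encBits v ++ [SLN.Sym.comma]).length).sum := by
    induction u with
    | nil => simp
    | cons v u ih =>
      rw [List.map_cons, List.sum_cons, List.length_cons]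
      have : 1 ≤ (encBits v ++ [SLN.Sym.comma]).length := by simp
      omega
  omega

theorem tot_le (b : Pos) : tot b ≤ (encPos b).length := by
  unfold tot encPos
  rw [List.length_flatMap]
  apply List.sum_le_sum
  intro c _
  have := length_encWalk (c.map Nat.bits)
  rwa [List.length_map] at this

/-! ## Polynomial time -/

/-- letters of the input of the verifier -/
abbrev Ltr : Type := Sym ⊕ Bool

/-- letters as data -/
@[instance_reducible, local instance] def datLtr : Dat Ltr :=
  ⟨fun c => enc ((Sum.elim (fun a => (false, a, false)) (fun b => (true, SLN.Sym.zero, b)) c :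
    Bool × Sym × Bool)), by
    intro c d h
    have h' := Dat.inj h
    rcases c with c | c <;> rcases d with d | d <;> simp at h' ⊢ <;> exact h'⟩

/-- the instance -/
def lf (c : Ltr) : List Sym := Sum.elim (fun a => [a]) (fun _ => []) c

/-- the witness -/
def rt (c : Ltr) : List Bool := Sum.elim (fun _ => []) (fun b => [b]) c

theorem flat_lf (u : List Sym) (w : List Bool) :
    (u.map Sum.inl ++ w.map Sum.inr : List Ltr).flatMap lf = u := by
  have h1 : ∀ u : List Sym, (u.map Sum.inl : List Ltr).flatMap lf = u := by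
    intro u
    induction u with
    | nil => rfl
    | cons a u ih => rw [List.map_cons, List.flatMap_cons, ih]; rfl
  have h2 : ∀ w : List Bool, (w.map Sum.inr : List Ltr).flatMap lf = [] := by
    intro w
    induction w with
    | nil => rfl
    | cons a w ih => rw [List.map_cons, List.flatMap_cons, ih]; rfl
  rw [List.flatMap_append, h1, h2, List.append_nil]

theorem flat_rt (u : List Sym) (w : List Bool) :
    (u.map Sum.inl ++ w.map Sum.inr : List Ltr).flatMap rt = w := by
  have h1 : ∀ u : List Sym, (u.map Sum.inl : List Ltr).flatMap rt = [] := by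
    intro u
    induction u with
    | nil => rfl
    | cons a u ih => rw [List.map_cons, List.flatMap_cons, ih]; rfl
  have h2 : ∀ w : List Bool, (w.map Sum.inr : List Ltr).flatMap rt = w := by
    intro w
    induction w with
    | nil => rfl
    | cons a w ih => rw [List.map_cons, List.flatMap_cons, ih]; rfl
  rw [List.flatMap_append, h1, h2, List.nil_append]

theorem sz_sublist {α : Type} [Dat α] {l₁ l₂ : List α} (h : l₁ <+ l₂) : sz l₁ ≤ sz l₂ := by
  induction h with
  | slnil => exact le_rfl
  | cons a _ ih => rw [sz_cons]; omega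
  | cons_cons a _ ih => rw [sz_cons, sz_cons]; omega

theorem sz_removeL (b : Pos) (G : List (ℕ × ℕ)) : sz (removeL b G) ≤ sz b := by
  unfold removeL
  refine (sz_sublist List.filter_sublist).trans ?_
  have h1 : (b.zip (List.range b.length)).map Prod.fst = b := by
    rw [List.map_fst_zip]
    simp
  have h2 : ∀ l : List (List ℕ × ℕ), sz (l.map fun t => keepL t.2 t.1 G) ≤ sz (l.map Prod.fst) := by
    intro l
    induction l with
    | nil => exact le_rfl
    | cons t l ih =>
      rw [List.map_cons, List.map_cons, sz_cons, sz_cons]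
      have := sz_sublist (keepL_sub t.2 t.1 G)
      omega
  have h3 := h2 (b.zip (List.range b.length))
  rwa [h1] at h3

theorem sz_clickAt (b : Pos) (i : ℕ) : sz (clickAt b i) ≤ sz b := by
  unfold clickAt
  cases (cells b).any (fun q => decide (q = ptr b i)) &&
      (clo b (ptr b i)).any (fun q => !decide (q = ptr b i))
  · exact le_rfl
  · exact sz_removeL _ _

theorem sz_run (w : List Bool) : ∀ s : Pos × ℕ,
    sz (w.foldl stp s).1 ≤ sz s.1 ∧ (w.foldl stp s).2 ≤ s.2 + w.length := by
  induction w with
  | nil => intro s; exact ⟨le_rfl, le_rfl⟩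
  | cons c w ih =>
    intro s
    rw [List.foldl_cons, List.length_cons]
    obtain ⟨h1, h2⟩ := ih (stp s c)
    cases c
    · have e : stp s false = (s.1, s.2 + 1) := rfl
      rw [e] at h1 h2 ⊢
      exact ⟨h1, by simp only at h2; omega⟩
    · have e : stp s true = (clickAt s.1 s.2, 0) := rfl
      rw [e] at h1 h2 ⊢
      exact ⟨h1.trans (sz_clickAt _ _), by simp only at h2; omega⟩

section

variable {γ : Type} [Dat γ] [hC : Fact Core]

theorem col_pt {b : γ → Pos} {p : γ → ℕ × ℕ} (hb : PolyF b) (hp : PolyF p) :
    PolyF (fun x => col (b x) (p x)) := by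
  unfold col
  exact PolyF.getD (PolyF.getD hb (PolyF.fst hp) (PolyF.const ([] : List ℕ))) (PolyF.snd hp)
    (PolyF.const 0)

theorem cells_pt : PolyF cells := by
  unfold cells
  refine PolyF.flatMap (f := fun b x => (List.range (b.getD x []).length).map fun y => (x, y)) ?_
    (PolyF.range_length (PolyF.id (α := Pos)))
  refine PolyF.map (f := fun (p : Pos × ℕ) y => (p.2, y)) (by fun_prop) (PolyF.range_length ?_)
  exact PolyF.getD (PolyF.fst PolyF.id) (PolyF.snd PolyF.id) (PolyF.const ([] : List ℕ))

theorem eq_pt {f g : γ → ℕ × ℕ} (hf : PolyF f) (hg : PolyF g) :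
    PolyF (fun x => decide (f x = g x)) := PolyF.eq hf hg

theorem nearb_pt {p q : γ → ℕ × ℕ} (hp : PolyF p) (hq : PolyF q) :
    PolyF (fun x => nearb (p x) (q x)) := by
  unfold nearb
  fun_prop

theorem grow_pt : PolyF (fun p : Pos × List (ℕ × ℕ) => grow p.1 p.2) := by
  unfold grow
  refine PolyF.filter (f := fun (p : Pos × List (ℕ × ℕ)) q => p.2.any fun r =>
    decide (r = q) || (nearb r q && decide (col p.1 r = col p.1 q))) ?_
    (cells_pt.comp (PolyF.fst PolyF.id))
  refine PolyF.any (f := fun (x : (Pos × List (ℕ × ℕ)) × (ℕ × ℕ)) r =>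
    decide (r = x.2) || (nearb r x.2 && decide (col x.1.1 r = col x.1.1 x.2))) ?_ (by fun_prop)
  refine PolyF.or (eq_pt (by fun_prop) (by fun_prop)) (PolyF.and (nearb_pt (by fun_prop)
    (by fun_prop)) (PolyF.eq_nat (col_pt (by fun_prop) (by fun_prop))
      (col_pt (by fun_prop) (by fun_prop))))

theorem clo_pt : PolyF (fun p : Pos × (ℕ × ℕ) => clo p.1 p.2) := by
  have hcells : PolyF (fun p : Pos × (ℕ × ℕ) => cells p.1) := cells_pt.comp (PolyF.fst PolyF.id)
  unfold clo
  refine PolyF.foldl (f := fun (p : Pos × (ℕ × ℕ)) S _ => grow p.1 S) ?_ ?_ hcells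
    (fun p => sz (cells p.1)) hcells.bound ?_
  · exact grow_pt.comp (PolyF.pair (by fun_prop) (by fun_prop))
  · exact PolyF.filter (f := fun (p : Pos × (ℕ × ℕ)) q => decide (p.2 = q))
      (eq_pt (by fun_prop) (by fun_prop)) hcells
  · intro p l₁ _
    rw [foldl_st]
    exact sz_sublist (good_sub (good_st _ _ _))

theorem keepL_pt {x : γ → ℕ} {c : γ → List ℕ} {G : γ → List (ℕ × ℕ)} (hx : PolyF x)
    (hc : PolyF c) (hG : PolyF G) : PolyF (fun z => keepL (x z) (c z) (G z)) := by
  unfold keepL
  refine PolyF.map (f := fun _ (t : ℕ × ℕ) => t.1) (by fun_prop) ?_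
  refine PolyF.filter (f := fun z (t : ℕ × ℕ) => !((G z).any fun p => decide (p = (x z, t.2)))) ?_
    (PolyF.zip hc (PolyF.range_length hc))
  refine PolyF.not ?_
  refine PolyF.any (f := fun (z : γ × (ℕ × ℕ)) p => decide (p = (x z.1, z.2.2))) ?_
    (hG.comp (PolyF.fst PolyF.id))
  refine eq_pt (by fun_prop) (PolyF.pair ?_ (by fun_prop))
  exact hx.comp (PolyF.fst (PolyF.fst PolyF.id))

theorem removeL_pt : PolyF (fun p : Pos × List (ℕ × ℕ) => removeL p.1 p.2) := by
  have h1 : PolyF (fun p : Pos × List (ℕ × ℕ) => p.1) := PolyF.fst PolyF.id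
  unfold removeL
  refine PolyF.filter (f := fun _ (c : List ℕ) => !c.isEmpty) (by fun_prop) ?_
  refine PolyF.map (f := fun (p : Pos × List (ℕ × ℕ)) (t : List ℕ × ℕ) => keepL t.2 t.1 p.2) ?_
    (PolyF.zip h1 (PolyF.range_length h1))
  exact keepL_pt (by fun_prop) (by fun_prop) (by fun_prop)

theorem clickAt_pt : PolyF (fun s : Pos × ℕ => clickAt s.1 s.2) := by
  have h1 : PolyF (fun s : Pos × ℕ => s.1) := PolyF.fst PolyF.id
  have h2 : PolyF (fun s : Pos × ℕ => cells s.1) := cells_pt.comp h1
  have h3 : PolyF (fun s : Pos × ℕ => ptr s.1 s.2) := by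
    unfold ptr
    exact PolyF.getD h2 (PolyF.snd PolyF.id) (PolyF.const (0, 0))
  have h4 : PolyF (fun s : Pos × ℕ => clo s.1 (ptr s.1 s.2)) := clo_pt.comp (PolyF.pair h1 h3)
  have h5 : PolyF (fun s : Pos × ℕ => removeL s.1 (clo s.1 (ptr s.1 s.2))) :=
    removeL_pt.comp (PolyF.pair h1 h4)
  have h6 : PolyF (fun x : (Pos × ℕ) × (ℕ × ℕ) => ptr x.1.1 x.1.2) :=
    h3.comp (PolyF.fst PolyF.id)
  unfold clickAt
  refine PolyF.cond (PolyF.and ?_ ?_) h5 h1
  · exact PolyF.any (f := fun (s : Pos × ℕ) q => decide (q = ptr s.1 s.2))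
      (eq_pt (by fun_prop) h6) h2
  · exact PolyF.any (f := fun (s : Pos × ℕ) q => !decide (q = ptr s.1 s.2))
      (PolyF.not (eq_pt (by fun_prop) h6)) h4

theorem stp_pt : PolyF (fun p : (Pos × ℕ) × Bool => stp p.1 p.2) := by
  unfold stp
  refine PolyF.cond (PolyF.snd PolyF.id) (PolyF.pair ?_ (PolyF.const 0))
    (PolyF.pair (by fun_prop) (by fun_prop))
  exact clickAt_pt.comp (PolyF.fst PolyF.id)

theorem run_pt : PolyF (fun p : Pos × List Bool => run p.1 p.2) := by
  unfold run
  refine PolyF.isEmpty (PolyF.fst ?_)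
  refine PolyF.foldl (f := fun (_ : Pos × List Bool) => stp) ?_
    (PolyF.pair (PolyF.fst PolyF.id) (PolyF.const 0)) (PolyF.snd PolyF.id)
    (fun p => sz p.1 + (4 * sz p.2 + 2))
    ((PolyF.bound (PolyF.fst PolyF.id)).add (((PolyB.const 4).mul
      (PolyF.bound (PolyF.snd PolyF.id))).add (PolyB.const 2))) ?_
  · exact stp_pt.comp (PolyF.snd PolyF.id)
  · intro p l₁ hl₁
    obtain ⟨h1, h2⟩ := sz_run l₁ (p.1, 0)
    have h3 := sz_nat_le (l₁.foldl stp (p.1, 0)).2
    have h4 := length_lt_sz l₁
    have h5 := sz_le_of_prefix hl₁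
    have h6 : sz (l₁.foldl stp (p.1, 0)) =
      sz (l₁.foldl stp (p.1, 0)).1 + sz (l₁.foldl stp (p.1, 0)).2 + 1 := rfl
    simp only [zero_add] at h1 h2
    omega

omit hC in
theorem ver_enc {D : List Sym → List (List ℕ)} (hD : ∀ b : Pos, D (encPos b) = b) (b : Pos)
    (w : List Bool) :
    [run (D (((encPos b).map Sum.inl ++ w.map Sum.inr : List Ltr).flatMap lf))
      (((encPos b).map Sum.inl ++ w.map Sum.inr : List Ltr).flatMap rt)] = [run b w] := by
  rw [flat_lf, flat_rt, hD]

theorem ver_pt {D : List Sym → List (List ℕ)} (hD : PolyF D) :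
    PolyF (fun z : List Ltr => [run (D (z.flatMap lf)) (z.flatMap rt)]) := by
  have hl : PolyF lf := PolyF.finite lf
  have hr : PolyF rt := PolyF.finite rt
  have h1 : PolyF (fun z : List Ltr => z.flatMap lf) := by
    refine PolyF.flatMap (f := fun _ => lf) ?_ PolyF.id
    exact PolyF.comp (g := fun p : List Ltr × Ltr => p.2) hl (by fun_prop)
  have h2 : PolyF (fun z : List Ltr => z.flatMap rt) := by
    refine PolyF.flatMap (f := fun _ => rt) ?_ PolyF.id
    exact PolyF.comp (g := fun p : List Ltr × Ltr => p.2) hr (by fun_prop)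
  exact PolyF.cons (run_pt.comp (PolyF.pair (hD.comp h1) h2)) (PolyF.const [])

end

end NP_

attribute [local instance] NP_.datLtr

open NP_ in
/-- NP: clearing a board is in NP -/
theorem tNP (hD : T_DECODE) : T_NP := by
  have : Fact Core := ⟨core⟩
  obtain ⟨D, hD1, hD2⟩ := hD
  intro F _
  refine ⟨fun a => run a.1.1 a.2, Polynomial.X * Polynomial.X, ?_, ?_⟩
  · refine tm_of_polyF (ver_pt hD1) (encPair (clear F)) encBool _ ?_
    intro a
    exact ver_enc hD2 a.1.1 a.2
  · intro a
    show Clearable a.1 ↔ ∃ w : List Bool, w.length ≤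
      (Polynomial.X * Polynomial.X : Polynomial ℕ).eval (encPos a.1).length ∧ run a.1 w = true
    rw [Polynomial.eval_mul, Polynomial.eval_X]
    constructor
    · intro h
      obtain ⟨w, h1, h2⟩ := complete a.1 h
      refine ⟨w, h1.trans (Nat.mul_le_mul (tot_le _) (tot_le _)), ?_⟩
      unfold run
      rw [h2]
      rfl
    · rintro ⟨w, -, h⟩
      exact run_spec _ _ h

end Pool.Agent.Clk
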