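import Pool.Agent.Clk.Targets
import Pool.Agent.Clk.CYK
import Pool.Agent.PT.Core
import Pool.Agent.PT.Gen
import Pool.Agent.PT.Num

set_option autoImplicit false

/-!
# The pattern of two columns in polynomial time
-/

namespace Pool.Agent.Clk

open Pool.Agent.PT

namespace PATPT_

/-- a set-valued function into the subsets of a finite type, from its membership tests -/
theorem polyF_set {α ι : Type} [Dat α] [Finite ι] [Dat (Set ι)] (g : ι → α → Bool)
    (hg : ∀ t, PolyF (g t)) (l : List ι) : PolyF fun x : α => {t | t ∈ l ∧ g t x = true} := by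
  classical
  induction l with
  | nil =>
    exact (PolyF.const (∅ : Set ι)).congr fun x => by ext t; simp
  | cons t l ih =>
    have h1 : PolyF fun x : α => (g t x, {t | t ∈ l ∧ g t x = true}) := PolyF.pair (hg t) ih
    have h2 : PolyF fun q : Bool × Set ι => if q.1 = true then insert t q.2 else q.2 :=
      PolyF.finite _
    refine (h2.comp h1).congr fun x => ?_
    ext s
    by_cases h : g t x = true
    · simp only [h, if_true, Set.mem_insert_iff, Set.mem_ofPred_eq, List.mem_cons]
      constructor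
      · rintro (rfl | ⟨h3, h4⟩)
        · exact ⟨Or.inl rfl, h⟩
        · exact ⟨Or.inr h3, h4⟩
      · rintro ⟨rfl | h3, h4⟩
        · exact Or.inl rfl
        · exact Or.inr ⟨h3, h4⟩
    · simp only [h, Bool.false_eq_true, if_false, Set.mem_ofPred_eq, List.mem_cons]
      constructor
      · rintro ⟨h3, h4⟩
        exact ⟨Or.inr h3, h4⟩
      · rintro ⟨rfl | h3, h4⟩
        · exact absurd h4 h
        · exact ⟨h3, h4⟩

/-- one of the two columns -/
def col (b : Bool) (p : List ℕ × List ℕ) : List ℕ := if b = true then p.2 else p.1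

theorem polyF_col (b : Bool) : PolyF (col b) := by
  cases b
  · exact (PolyF.fst PolyF.id).congr fun p => by simp [col]
  · exact (PolyF.snd PolyF.id).congr fun p => by simp [col]

theorem tl_eq (p : List ℕ × List ℕ) {h : ℕ} (s : Bool × Fin h) :
    tl (pr p.1 p.2) (nd 0 1 s) = (col s.1 p)[(s.2 : ℕ)]? := by
  obtain ⟨b, r⟩ := s
  cases b <;> simp [tl, pr, nd, col]

theorem ex_iff (u v : List ℕ) (r t : ℕ) : (∃ x, u[r]? = some x ∧ v[t]? = some x) ↔
    r < u.length ∧ t < v.length ∧ u.getD r 0 = v.getD t 0 := by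
  constructor
  · rintro ⟨x, h1, h2⟩
    obtain ⟨h3, h4⟩ := List.getElem?_eq_some_iff.1 h1
    obtain ⟨h5, h6⟩ := List.getElem?_eq_some_iff.1 h2
    refine ⟨h3, h5, ?_⟩
    rw [List.getD_eq_getElem _ _ h3, List.getD_eq_getElem _ _ h5, h4, h6]
  · rintro ⟨h3, h5, h⟩
    rw [List.getD_eq_getElem _ _ h3, List.getD_eq_getElem _ _ h5] at h
    exact ⟨u[r], List.getElem?_eq_getElem h3, by rw [List.getElem?_eq_getElem h5, h]⟩

/-- the membership test -/
def test {h : ℕ} (s : (Bool × Fin h) × (Bool × Fin h)) (p : List ℕ × List ℕ) : Bool :=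
  decide ((s.1.2 : ℕ) < (col s.1.1 p).length) && (decide ((s.2.2 : ℕ) < (col s.2.1 p).length) &&
    decide ((col s.1.1 p).getD (s.1.2 : ℕ) 0 = (col s.2.1 p).getD (s.2.2 : ℕ) 0))

theorem polyF_test {h : ℕ} (s : (Bool × Fin h) × (Bool × Fin h)) : PolyF (test s) := by
  have h1 := polyF_col s.1.1
  have h2 := polyF_col s.2.1
  unfold test
  exact PolyF.and (PolyF.nat_lt (PolyF.const _) (PolyF.length h1))
    (PolyF.and (PolyF.nat_lt (PolyF.const _) (PolyF.length h2))
      (PolyF.eq_nat (PolyF.getD h1 (PolyF.const _) (PolyF.const _))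
        (PolyF.getD h2 (PolyF.const _) (PolyF.const _))))

theorem test_iff {h : ℕ} (s : (Bool × Fin h) × (Bool × Fin h)) (p : List ℕ × List ℕ) :
    test s p = true ↔ s ∈ pat h p.1 p.2 := by
  have : s ∈ pat h p.1 p.2 ↔
      ∃ x, tl (pr p.1 p.2) (nd 0 1 s.1) = some x ∧ tl (pr p.1 p.2) (nd 0 1 s.2) = some x := Iff.rfl
  rw [this, tl_eq, tl_eq, ex_iff]
  simp [test]

end PATPT_

open PATPT_

/-- PATPT -/
theorem tPATPT : T_PATPT := by
  intro h _
  classical
  have := Fintype.ofFinite ((Bool × Fin h) × (Bool × Fin h))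
  refine (polyF_set (fun s : (Bool × Fin h) × (Bool × Fin h) => test s) (fun s => polyF_test s)
    (Finset.univ : Finset ((Bool × Fin h) × (Bool × Fin h))).toList).congr fun p => ?_
  ext s
  rw [← test_iff]
  simp

end Pool.Agent.Clk
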