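import Pool.Agent.Clk.Targets
import Pool.Agent.DHD.ARITH

set_option autoImplicit false

/-!
# The board of a formula is written in polynomial time
-/

namespace Pool.Agent.Clk

open Pool.Agent.PT (Dat PolyF Core)
open Pool.Agent.SLN (Sym Lit encBits encWalk)
open Pool.Agent.DHD.ARITH (nat_mul nat_sub)

namespace PRINT_

theorem code_inj : Function.Injective code := by
  intro a b h
  cases a <;> cases b <;> simp only [code] at h <;>
    first
    | (exfalso; omega)
    | rfl
    | (rename_i i j; have h1 : i = j := by omega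
       rw [h1])
    | (rename_i e i e' i'
       have h1 : Nat.pair e i = Nat.pair e' i' := by omega
       rw [Nat.pair_eq_pair] at h1
       rw [h1.1, h1.2])

instance datNm : Dat Nm := ⟨fun n => Dat.enc (code n), fun _ _ h => code_inj (Dat.inj h)⟩

variable {α β γ : Type} [Dat α] [Dat β] [Dat γ]

theorem of_code {f : γ → Nm} (h : PolyF (fun x => code (f x))) : PolyF f := h

theorem code_pt {f : γ → Nm} (h : PolyF f) : PolyF (fun x => code (f x)) := h

variable [hC : Fact Core]

theorem pair_pt {f g : γ → ℕ} (hf : PolyF f) (hg : PolyF g) :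
    PolyF (fun x => Nat.pair (f x) (g x)) := by
  have h : PolyF (fun x => if decide (f x < g x) = true then g x * g x + f x
      else f x * f x + f x + g x) := by
    fun_prop
  refine h.congr fun x => ?_
  unfold Nat.pair
  by_cases hx : f x < g x
  · rw [if_pos hx, if_pos (by simpa using hx)]
  · rw [if_neg hx, if_neg (by simpa using hx)]

section names
variable {e i : γ → ℕ}

@[fun_prop] theorem xx_pt (hi : PolyF i) : PolyF (fun x => Nm.xx (i x)) :=
  of_code (show PolyF (fun x => 11 * i x) by fun_prop)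
@[fun_prop] theorem yy_pt (hi : PolyF i) : PolyF (fun x => Nm.yy (i x)) :=
  of_code (show PolyF (fun x => 11 * i x + 1) by fun_prop)
@[fun_prop] theorem qq_pt (hi : PolyF i) : PolyF (fun x => Nm.qq (i x)) :=
  of_code (show PolyF (fun x => 11 * i x + 2) by fun_prop)
@[fun_prop] theorem tt_pt (hi : PolyF i) : PolyF (fun x => Nm.tt (i x)) :=
  of_code (show PolyF (fun x => 11 * i x + 3) by fun_prop)
@[fun_prop] theorem zz_pt (he : PolyF e) (hi : PolyF i) : PolyF (fun x => Nm.zz (e x) (i x)) :=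
  of_code (show PolyF (fun x => 11 * Nat.pair (e x) (i x) + 5) from
    (nat_mul (PolyF.const 11) (pair_pt he hi)).nat_add (PolyF.const 5))
@[fun_prop] theorem cc_pt (hi : PolyF i) : PolyF (fun x => Nm.cc (i x)) :=
  of_code (show PolyF (fun x => 11 * i x + 6) by fun_prop)
@[fun_prop] theorem cp_pt (hi : PolyF i) : PolyF (fun x => Nm.cp (i x)) :=
  of_code (show PolyF (fun x => 11 * i x + 7) by fun_prop)
@[fun_prop] theorem dd_pt (hi : PolyF i) : PolyF (fun x => Nm.dd (i x)) :=
  of_code (show PolyF (fun x => 11 * i x + 8) by fun_prop)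
@[fun_prop] theorem dp_pt (hi : PolyF i) : PolyF (fun x => Nm.dp (i x)) :=
  of_code (show PolyF (fun x => 11 * i x + 9) by fun_prop)
@[fun_prop] theorem gg_pt (hi : PolyF i) : PolyF (fun x => Nm.gg (i x)) :=
  of_code (show PolyF (fun x => 11 * i x + 10) by fun_prop)

end names

/-! ### Numbers of polynomial size -/

/-- polynomial time computable numbers, with a polynomial bound for the values -/
structure Un (n : γ → ℕ) : Prop where
  pt : PolyF n
  bd : ∃ l : γ → List Unit, PolyF l ∧ ∀ x, n x ≤ (l x).length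

theorem Un.len {l : γ → List α} (hl : PolyF l) : Un fun x => (l x).length :=
  ⟨hl.length, fun x => (l x).map fun _ => (), PolyF.map (f := fun _ _ => ()) (by fun_prop) hl,
    fun x => by simp⟩

theorem Un.const (n : ℕ) : Un (fun _ : γ => n) :=
  ⟨PolyF.const n, fun _ => List.replicate n (), PolyF.const _, fun x => by simp⟩

theorem Un.add {m n : γ → ℕ} (hm : Un m) (hn : Un n) : Un fun x => m x + n x := by
  obtain ⟨l, hl, hl'⟩ := hm.bd
  obtain ⟨l', hl1, hl1'⟩ := hn.bd
  refine ⟨hm.pt.nat_add hn.pt, fun x => l x ++ l' x, hl.append hl1, fun x => ?_⟩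
  have := hl' x
  have := hl1' x
  rw [List.length_append]
  omega

theorem Un.mul {m n : γ → ℕ} (hm : Un m) (hn : Un n) : Un fun x => m x * n x := by
  obtain ⟨l, hl, hl'⟩ := hm.bd
  obtain ⟨l', hl1, hl1'⟩ := hn.bd
  refine ⟨nat_mul hm.pt hn.pt, fun x => (l x).flatMap fun _ => l' x,
    PolyF.flatMap (f := fun x _ => l' x) (hl1.comp (PolyF.fst PolyF.id)) hl, fun x => ?_⟩
  have h1 := hl' x
  have h2 := hl1' x
  have h3 : ((l x).flatMap fun _ => l' x).length = (l x).length * (l' x).length := by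
    simp [List.length_flatMap]
  rw [h3]
  exact Nat.mul_le_mul h1 h2

theorem Un.sub {m n : γ → ℕ} (hm : Un m) (hn : PolyF n) : Un fun x => m x - n x := by
  obtain ⟨l, hl, hl'⟩ := hm.bd
  refine ⟨nat_sub hm.pt hn, l, hl, fun x => ?_⟩
  have := hl' x
  show m x - n x ≤ _
  omega

theorem Un.min {m n : γ → ℕ} (hm : PolyF m) (hn : Un n) : Un fun x => Min.min (m x) (n x) := by
  obtain ⟨l, hl, hl'⟩ := hn.bd
  refine ⟨hm.nat_min hn.pt, l, hl, fun x => ?_⟩
  have := hl' x
  show Min.min (m x) (n x) ≤ _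
  omega

theorem Un.comp {n : γ → ℕ} (hn : Un n) {f : α → γ} (hf : PolyF f) : Un fun x => n (f x) := by
  obtain ⟨l, hl, hl'⟩ := hn.bd
  exact ⟨hn.pt.comp hf, fun x => l (f x), hl.comp hf, fun x => hl' _⟩

theorem Un.fst {n : γ → ℕ} (hn : Un n) : Un fun x : γ × α => n x.1 := hn.comp (PolyF.fst PolyF.id)

omit hC in
theorem range_filter (n m : ℕ) (h : n ≤ m) :
    (List.range m).filter (fun i => decide (i < n)) = List.range n := by
  obtain ⟨d, rfl⟩ := Nat.exists_eq_add_of_le h
  rw [List.range_add, List.filter_append]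
  have h1 : (List.range n).filter (fun i => decide (i < n)) = List.range n := by
    rw [List.filter_eq_self]
    intro a ha
    simpa using ha
  have h2 : ((List.range d).map (n + ·)).filter (fun i => decide (i < n)) = [] := by
    rw [List.filter_eq_nil_iff]
    intro a ha
    simp only [List.mem_map] at ha
    obtain ⟨b, -, rfl⟩ := ha
    simp
  rw [h1, h2, List.append_nil]

theorem range_pt {n : γ → ℕ} (hn : Un n) : PolyF fun x => List.range (n x) := by
  obtain ⟨l, hl, hl'⟩ := hn.bd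
  have h1 := hn.pt
  have h : PolyF fun x => (List.range (l x).length).filter fun i => decide (i < n x) := by
    refine PolyF.filter (f := fun x i => decide (i < n x)) ?_ hl.range_length
    exact (PolyF.snd PolyF.id).nat_lt (h1.comp (PolyF.fst PolyF.id))
  exact h.congr fun x => range_filter _ _ (hl' x)

theorem zipIdx_pt {l : γ → List α} (hl : PolyF l) : PolyF fun x => (l x).zipIdx := by
  refine (hl.zip hl.range_length).congr fun x => ?_
  rw [List.zipIdx_eq_zip_range', List.range_eq_range']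

theorem gadL_pt {n P e : γ → ℕ} (hn : Un n) (hP : Un P) (he : PolyF e) :
    PolyF fun x => gadL (n x) (P x) (e x) := by
  have h2P : Un fun x => 2 * P x := (Un.const 2).mul hP
  have h1 : PolyF fun x => (List.range (2 * P x)).map (Nm.zz (e x)) :=
    PolyF.map (f := fun x i => Nm.zz (e x) i)
      (zz_pt (he.comp (PolyF.fst PolyF.id)) (PolyF.snd PolyF.id)) (range_pt h2P)
  have h2 : PolyF fun x => (List.range (n x - 2 * P x)).map
      (fun i => Nm.zz (e x) (2 * P x + i)) :=
    PolyF.map (f := fun x i => Nm.zz (e x) (2 * P x + i))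
      (zz_pt (he.comp (PolyF.fst PolyF.id))
        ((h2P.pt.comp (PolyF.fst PolyF.id)).nat_add (PolyF.snd PolyF.id)))
      (range_pt (hn.sub h2P.pt))
  have h3 : PolyF fun x => [Nm.cc (e x), Nm.cp (e x)] := by fun_prop
  have h4 : PolyF fun x => [Nm.dd (e x), Nm.gg (e x), Nm.dp (e x)] := by fun_prop
  exact ((h1.append h3).append h2).append h4

theorem gadR_pt {n Q e : γ → ℕ} (hn : Un n) (hQ : Un Q) (he : PolyF e) :
    PolyF fun x => gadR (n x) (Q x) (e x) := by
  have h2Q : Un fun x => 2 * Q x := (Un.const 2).mul hQ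
  have h1 : PolyF fun x => (List.range (n x - 2 * Q x)).map (Nm.zz (e x)) :=
    PolyF.map (f := fun x i => Nm.zz (e x) i)
      (zz_pt (he.comp (PolyF.fst PolyF.id)) (PolyF.snd PolyF.id)) (range_pt (hn.sub h2Q.pt))
  have h2 : PolyF fun x => (List.range (2 * Q x)).map
      (fun i => Nm.zz (e x) (n x - 2 * Q x + i)) :=
    PolyF.map (f := fun x i => Nm.zz (e x) (n x - 2 * Q x + i))
      (zz_pt (he.comp (PolyF.fst PolyF.id))
        (((hn.sub h2Q.pt).pt.comp (PolyF.fst PolyF.id)).nat_add (PolyF.snd PolyF.id)))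
      (range_pt h2Q)
  have h3 : PolyF fun x => [Nm.cp (e x), Nm.gg (e x), Nm.cc (e x)] := by fun_prop
  have h4 : PolyF fun x => [Nm.dp (e x), Nm.dd (e x)] := by fun_prop
  exact ((h3.append h1).append h4).append h2

theorem len_un {N k : γ → ℕ} (hN : Un N) (hk : Un k) : Un fun x => len (N x) (k x) :=
  (Un.const 2).mul (hk.add hN)

theorem big_un {N k : γ → ℕ} {E : γ → List (ℕ × ℕ)} (hN : Un N) (hk : Un k) (hE : PolyF E) :
    Un fun x => big (N x) (k x) (E x) :=
  (Un.len hE).mul ((len_un hN hk).add (Un.const 1))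

omit hC in
theorem flatMap_congr' {σ τ : Type} {l : List σ} {f g : σ → List τ} (h : ∀ a ∈ l, f a = g a) :
    l.flatMap f = l.flatMap g := by
  rw [List.flatMap_def, List.flatMap_def, List.map_congr_left h]

omit hC in
theorem mem_of_zipIdx {σ : Type} {l : List σ} {a : σ × ℕ} (h : a ∈ l.zipIdx) : a.1 ∈ l :=
  List.fst_mem_of_mem_zipIdx h

theorem gadsL_pt {N k : γ → ℕ} {E : γ → List (ℕ × ℕ)} (hN : Un N) (hk : Un k) (hE : PolyF E)
    (hb : ∀ x, ∀ e ∈ E x, e.1 < N x ∧ e.2 < N x) :
    PolyF fun x => gadsL (N x) (k x) (E x) := by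
  have h : PolyF fun x => (E x).zipIdx.flatMap fun s =>
      gadL (len (N x) (k x)) (k x + Min.min s.1.1 (N x) + 1) s.2 := by
    refine PolyF.flatMap (f := fun (x : γ) (s : (ℕ × ℕ) × ℕ) => gadL (len (N x) (k x))
      (k x + Min.min s.1.1 (N x) + 1) s.2) ?_ (zipIdx_pt hE)
    exact gadL_pt (γ := γ × (ℕ × ℕ) × ℕ) (n := fun p => len (N p.1) (k p.1))
      (P := fun p => k p.1 + Min.min p.2.1.1 (N p.1) + 1) (e := fun p => p.2.2)
      (len_un hN hk).fst
      ((hk.fst.add (Un.min (m := fun p : γ × (ℕ × ℕ) × ℕ => p.2.1.1) (by fun_prop) hN.fst)).add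
        (Un.const 1)) (by fun_prop)
  refine h.congr fun x => ?_
  unfold gadsL
  refine flatMap_congr' fun s hs => ?_
  have h1 := (hb x s.1 (mem_of_zipIdx hs)).1
  rw [Nat.min_eq_left h1.le]

theorem gadsR_pt {N k : γ → ℕ} {E : γ → List (ℕ × ℕ)} (hN : Un N) (hk : Un k) (hE : PolyF E)
    (hb : ∀ x, ∀ e ∈ E x, e.1 < N x ∧ e.2 < N x) :
    PolyF fun x => gadsR (N x) (k x) (E x) := by
  have h : PolyF fun x => (E x).zipIdx.flatMap fun s =>
      gadR (len (N x) (k x)) (k x + Min.min s.1.2 (N x) + 1) s.2 := by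
    refine PolyF.flatMap (f := fun (x : γ) (s : (ℕ × ℕ) × ℕ) => gadR (len (N x) (k x))
      (k x + Min.min s.1.2 (N x) + 1) s.2) ?_ (zipIdx_pt hE)
    exact gadR_pt (γ := γ × (ℕ × ℕ) × ℕ) (n := fun p => len (N p.1) (k p.1))
      (Q := fun p => k p.1 + Min.min p.2.1.2 (N p.1) + 1) (e := fun p => p.2.2)
      (len_un hN hk).fst
      ((hk.fst.add (Un.min (m := fun p : γ × (ℕ × ℕ) × ℕ => p.2.1.2) (by fun_prop) hN.fst)).add
        (Un.const 1)) (by fun_prop)
  refine h.congr fun x => ?_
  unfold gadsR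
  refine flatMap_congr' fun s hs => ?_
  have h1 := (hb x s.1 (mem_of_zipIdx hs)).2
  rw [Nat.min_eq_left h1.le]

theorem colL_pt {N k : γ → ℕ} {E : γ → List (ℕ × ℕ)} (hN : Un N) (hk : Un k) (hE : PolyF E)
    (hb : ∀ x, ∀ e ∈ E x, e.1 < N x ∧ e.2 < N x) :
    PolyF fun x => colL (N x) (k x) (E x) := by
  have h1 : PolyF fun x => (List.range (big (N x) (k x) (E x))).flatMap
      fun i => [Nm.xx i, Nm.xx i] :=
    PolyF.flatMap (f := fun (_ : γ) i => [Nm.xx i, Nm.xx i]) (by fun_prop)
      (range_pt (big_un hN hk hE))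
  have h2 : PolyF fun x => (List.range (k x)).flatMap fun i => [Nm.tt i, Nm.tt i] :=
    PolyF.flatMap (f := fun (_ : γ) i => [Nm.tt i, Nm.tt i]) (by fun_prop) (range_pt hk)
  exact ((h1.append (gadsL_pt hN hk hE hb)).append (PolyF.const [Nm.YY])).append h2

theorem colR_pt {N k : γ → ℕ} {E : γ → List (ℕ × ℕ)} (hN : Un N) (hk : Un k) (hE : PolyF E)
    (hb : ∀ x, ∀ e ∈ E x, e.1 < N x ∧ e.2 < N x) :
    PolyF fun x => colR (N x) (k x) (E x) := by
  have h1 : PolyF fun x => (List.range (k x)).flatMap fun i => [Nm.yy i, Nm.yy i] :=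
    PolyF.flatMap (f := fun (_ : γ) i => [Nm.yy i, Nm.yy i]) (by fun_prop) (range_pt hk)
  have h2 : PolyF fun x => (List.range (big (N x) (k x) (E x))).map Nm.qq :=
    PolyF.map (f := fun (_ : γ) i => Nm.qq i) (by fun_prop) (range_pt (big_un hN hk hE))
  exact (((h1.append h2).append (PolyF.const [Nm.YY])).append h2.reverse).append
    (gadsR_pt hN hk hE hb)

/-! ### Formulas -/

theorem pad_pt {φ : γ → List (List Lit)} (hφ : PolyF φ) : PolyF fun x => pad (φ x) :=
  (PolyF.const _).cons hφ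

theorem occ_pt {φ : γ → List (List Lit)} (hφ : PolyF φ) : PolyF fun x => occ (φ x) := by
  refine PolyF.flatMap (f := fun (_ : γ) (t : List Lit × ℕ) => t.1.map fun l => (t.2, l)) ?_
    (zipIdx_pt hφ)
  exact PolyF.map (f := fun (p : γ × List Lit × ℕ) (l : Lit) => (p.2.2, l)) (by fun_prop)
    (by fun_prop)

theorem conf_pt {p q : γ → ℕ × Lit} (hp : PolyF p) (hq : PolyF q) :
    PolyF fun x => conf (p x) (q x) := by
  unfold conf
  have h1 : PolyF fun x => decide ((p x).1 = (q x).1) := by fun_prop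
  have h2 : PolyF fun x => decide ((p x).2.2 = (q x).2.2) := PolyF.eq (by fun_prop) (by fun_prop)
  have h3 : PolyF fun x => decide ((p x).2.1 = (q x).2.1) := by fun_prop
  exact h1.or (h2.and h3.not)

theorem vcE_pt {φ : γ → List (List Lit)} (hφ : PolyF φ) : PolyF fun x => vcE (φ x) := by
  have h0 := zipIdx_pt (occ_pt hφ)
  refine PolyF.flatMap (f := fun (x : γ) (s : (ℕ × Lit) × ℕ) => ((occ (φ x)).zipIdx.filter fun t =>
    decide (s.2 < t.2) && conf s.1 t.1).map fun t => (s.2, t.2)) ?_ h0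
  refine PolyF.map (f := fun (p : γ × (ℕ × Lit) × ℕ) (t : (ℕ × Lit) × ℕ) => (p.2.2, t.2))
    (by fun_prop) ?_
  refine PolyF.filter (f := fun (p : γ × (ℕ × Lit) × ℕ) (t : (ℕ × Lit) × ℕ) =>
    decide (p.2.2 < t.2) && conf p.2.1 t.1) ?_ (h0.comp (PolyF.fst PolyF.id))
  have h1 : PolyF fun p : (γ × (ℕ × Lit) × ℕ) × (ℕ × Lit) × ℕ => decide (p.1.2.2 < p.2.2) := by
    fun_prop
  exact h1.and (conf_pt (by fun_prop) (by fun_prop))

omit hC [Dat α] [Dat β] [Dat γ] in
theorem vcE_lt (φ : List (List Lit)) : ∀ e ∈ vcE φ, e.1 < (occ φ).length ∧ e.2 < (occ φ).length := by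
  intro e he
  simp only [vcE, List.mem_flatMap, List.mem_map, List.mem_filter] at he
  obtain ⟨s, hs, t, ⟨ht, -⟩, rfl⟩ := he
  exact ⟨by simpa using List.snd_lt_of_mem_zipIdx hs, by simpa using List.snd_lt_of_mem_zipIdx ht⟩

theorem encPos_pt {b : γ → List (List ℕ)} (hb : PolyF b) : PolyF fun x => encPos (b x) := by
  unfold encPos encWalk encBits
  refine PolyF.flatMap (f := fun (_ : γ) (col : List ℕ) => (col.map Nat.bits).flatMap (fun v =>
    (v.map fun b => if b then Sym.one else Sym.zero) ++ [Sym.comma]) ++ [Sym.semi]) ?_ hb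
  refine PolyF.append ?_ (PolyF.const _)
  refine PolyF.flatMap (f := fun (_ : γ × List ℕ) (v : List Bool) =>
    (v.map fun b => if b then Sym.one else Sym.zero) ++ [Sym.comma]) ?_ ?_
  · refine PolyF.append ?_ (PolyF.const _)
    exact PolyF.map (f := fun (_ : (γ × List ℕ) × List Bool) (b : Bool) =>
      if b then Sym.one else Sym.zero) (by fun_prop) (by fun_prop)
  · exact PolyF.map (f := fun (_ : γ × List ℕ) (n : ℕ) => n.bits) (by fun_prop) (by fun_prop)

theorem board_pt {φ : γ → List (List Lit)} (hφ : PolyF φ) : PolyF fun x => board (φ x) := by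
  have hp := pad_pt hφ
  have hN : Un fun x => (occ (pad (φ x))).length := Un.len (occ_pt hp)
  have hk : Un fun x => (occ (pad (φ x))).length - (pad (φ x)).length := hN.sub hp.length
  have hE := vcE_pt hp
  have hb := fun x => vcE_lt (pad (φ x))
  have h1 := colL_pt hN hk hE hb
  have h2 := colR_pt hN hk hE hb
  have h3 : PolyF fun x => (colL (occ (pad (φ x))).length
      ((occ (pad (φ x))).length - (pad (φ x)).length) (vcE (pad (φ x)))).map code :=
    PolyF.map (f := fun (_ : γ) n => code n) (code_pt (PolyF.snd PolyF.id)) h1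
  have h4 : PolyF fun x => (colR (occ (pad (φ x))).length
      ((occ (pad (φ x))).length - (pad (φ x)).length) (vcE (pad (φ x)))).map code :=
    PolyF.map (f := fun (_ : γ) n => code n) (code_pt (PolyF.snd PolyF.id)) h2
  have h5 : PolyF fun x => (φ x).any fun c => c.isEmpty :=
    PolyF.any (f := fun (_ : γ) (c : List Lit) => c.isEmpty) (by fun_prop) hφ
  exact (h5.iteb (PolyF.const [[0], [1]]) (h3.cons (h4.cons (PolyF.const []))) :)

end PRINT_

theorem tPRINT : T_PRINT := by
  have : Fact Core := ⟨Pool.Agent.PT.core⟩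
  exact PRINT_.encPos_pt (PRINT_.board_pt PolyF.id)

end Pool.Agent.Clk

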