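import Pool.Agent.Clk.Base

set_option autoImplicit false

/-!
# When the pairs of a gadget can be removed
-/

namespace Pool.Agent.Clk

open Nm

theorem rem_iff {α : Type} {L R p q p' q' : List α} {S : Set α} {a : α} (hL : L = p ++ a :: q)
    (hR : R = p' ++ a :: q') (h1 : a ∉ p) (h2 : a ∉ q) (h3 : a ∉ p') (h4 : a ∉ q') (ha : a ∈ S) :
    Rem L R S a ↔ wt S p = wt S p' :=
  ⟨cross_eq hL hR h1 h2 h3 h4 ha, rem_cross hL hR ha⟩

theorem zz_mem_spine {n e e' i : ℕ} : zz e i ∈ spine n e' ↔ e = e' ∧ i < n := by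
  simp only [spine, List.mem_map, List.mem_range, zz.injEq]
  constructor
  · rintro ⟨j, h1, h2, h3⟩
    exact ⟨h2.symm, h3 ▸ h1⟩
  · rintro ⟨rfl, h⟩
    exact ⟨i, h, rfl, rfl⟩

theorem spine_tail {m n e : ℕ} (h : m ≤ n) :
    spine m e ++ (List.range (n - m)).map (fun i => zz e (m + i)) = spine n e :=
  range_split h (zz e)

theorem wt_spine_tail {m n e : ℕ} (S : Set Nm) (h : m ≤ n) :
    wt S (spine m e) + wt S ((List.range (n - m)).map (fun i => zz e (m + i))) =
      wt S (spine n e) := by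
  rw [← wt_append, spine_tail h]

section
variable {N k : ℕ} {E : List (ℕ × ℕ)} (hE : ∀ e ∈ E, e.1 < N ∧ e.2 < N) {e u v : ℕ}
  (he : E[e]? = some (u, v)) {S : Set Nm}

include hE he

theorem lt_of_get : u < N ∧ v < N := hE (u, v) (List.mem_of_getElem? he)

theorem rem_cc (ha : cc e ∈ S) : Rem (colL N k E) (colR N k E) S (cc e) ↔
    2 * wt S (xs N k E) + wt S (spine (2 * (k + u + 1)) e) =
      2 * wt S (ys k) + 2 * wt S (qs N k E) + ind S YY + ind S (cp e) + ind S (gg e) := by
  obtain ⟨A, B, A', B', hL, hR, hn, hw⟩ := gad_pos N k E hE he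
  obtain ⟨hA, hB, hA', hB'⟩ := hn (cc e) rfl
  rw [rem_iff (p := ((List.range (big N k E)).flatMap fun i => [xx i, xx i]) ++ A ++
      spine (2 * (k + u + 1)) e)
    (q := [cp e] ++ (List.range (len N k - 2 * (k + u + 1))).map
      (fun i => zz e (2 * (k + u + 1) + i)) ++ [dd e, gg e, dp e] ++ B)
    (p' := ((List.range k).flatMap fun i => [yy i, yy i]) ++ qs N k E ++ [YY] ++
      (qs N k E).reverse ++ A' ++ [cp e, gg e])
    (q' := (List.range (len N k - 2 * (k + v + 1))).map (zz e) ++ [dp e, dd e] ++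
      (List.range (2 * (k + v + 1))).map
        (fun i => zz e (len N k - 2 * (k + v + 1) + i)) ++ B')
    (by rw [hL]; simp [gadL, spine]) (by rw [hR]; simp [gadR]) ?_ ?_ ?_ ?_ ha]
  · have := hw S
    simp only [wt_append, wt_double, wt_reverse, wt_cons, wt_nil]
    change 2 * wt S (xs N k E) + _ + _ = 2 * wt S (ys k) + _ + _ + _ + _ + _ ↔ _
    omega
  · simp [spine, hA]
  · simp [hB]
  · simp [qs, hA']
  · simp [hB']

theorem rem_cp (ha : cp e ∈ S) : Rem (colL N k E) (colR N k E) S (cp e) ↔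
    2 * wt S (xs N k E) + wt S (spine (2 * (k + u + 1)) e) + ind S (cc e) =
      2 * wt S (ys k) + 2 * wt S (qs N k E) + ind S YY := by
  obtain ⟨A, B, A', B', hL, hR, hn, hw⟩ := gad_pos N k E hE he
  obtain ⟨hA, hB, hA', hB'⟩ := hn (cp e) rfl
  rw [rem_iff (p := ((List.range (big N k E)).flatMap fun i => [xx i, xx i]) ++ A ++
      spine (2 * (k + u + 1)) e ++ [cc e])
    (q := (List.range (len N k - 2 * (k + u + 1))).map
      (fun i => zz e (2 * (k + u + 1) + i)) ++ [dd e, gg e, dp e] ++ B)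
    (p' := ((List.range k).flatMap fun i => [yy i, yy i]) ++ qs N k E ++ [YY] ++
      (qs N k E).reverse ++ A')
    (q' := [gg e, cc e] ++ (List.range (len N k - 2 * (k + v + 1))).map (zz e) ++ [dp e, dd e] ++
      (List.range (2 * (k + v + 1))).map
        (fun i => zz e (len N k - 2 * (k + v + 1) + i)) ++ B')
    (by rw [hL]; simp [gadL, spine]) (by rw [hR]; simp [gadR]) ?_ ?_ ?_ ?_ ha]
  · have := hw S
    simp only [wt_append, wt_double, wt_reverse, wt_cons, wt_nil]
    change 2 * wt S (xs N k E) + _ + _ + _ = 2 * wt S (ys k) + _ + _ + _ + _ ↔ _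
    omega
  · simp [spine, hA]
  · simp [hB]
  · simp [qs, hA']
  · simp [hB']

theorem rem_gg (ha : gg e ∈ S) : Rem (colL N k E) (colR N k E) S (gg e) ↔
    2 * wt S (xs N k E) + wt S (spine (len N k) e) + ind S (cc e) + ind S (dd e) =
      2 * wt S (ys k) + 2 * wt S (qs N k E) + ind S YY := by
  obtain ⟨A, B, A', B', hL, hR, hn, hw⟩ := gad_pos N k E hE he
  obtain ⟨hA, hB, hA', hB'⟩ := hn (gg e) rfl
  obtain ⟨hu, hv⟩ := lt_of_get hE he
  rw [rem_iff (p := ((List.range (big N k E)).flatMap fun i => [xx i, xx i]) ++ A ++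
      spine (2 * (k + u + 1)) e ++ [cc e, cp e] ++
      (List.range (len N k - 2 * (k + u + 1))).map
      (fun i => zz e (2 * (k + u + 1) + i)) ++ [dd e])
    (q := [dp e] ++ B)
    (p' := ((List.range k).flatMap fun i => [yy i, yy i]) ++ qs N k E ++ [YY] ++
      (qs N k E).reverse ++ A' ++ [cp e])
    (q' := [cc e] ++ (List.range (len N k - 2 * (k + v + 1))).map (zz e) ++ [dp e, dd e] ++
      (List.range (2 * (k + v + 1))).map
        (fun i => zz e (len N k - 2 * (k + v + 1) + i)) ++ B')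
    (by rw [hL]; simp [gadL, spine]) (by rw [hR]; simp [gadR]) ?_ ?_ ?_ ?_ ha]
  · have := hw S
    have h2 := wt_spine_tail (m := 2 * (k + u + 1)) (n := len N k) (e := e) S
      (by unfold len; omega)
    simp only [wt_append, wt_double, wt_reverse, wt_cons, wt_nil]
    change 2 * wt S (xs N k E) + _ + _ + _ + _ + _ = 2 * wt S (ys k) + _ + _ + _ + _ + _ ↔ _
    omega
  · simp [spine, hA]
  · simp [hB]
  · simp [qs, hA']
  · simp [hB']

theorem rem_dd (ha : dd e ∈ S) : Rem (colL N k E) (colR N k E) S (dd e) ↔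
    2 * wt S (xs N k E) + wt S (spine (len N k) e) =
      2 * wt S (ys k) + 2 * wt S (qs N k E) + ind S YY +
        wt S (spine (len N k - 2 * (k + v + 1)) e) + ind S (dp e) + ind S (gg e) := by
  obtain ⟨A, B, A', B', hL, hR, hn, hw⟩ := gad_pos N k E hE he
  obtain ⟨hA, hB, hA', hB'⟩ := hn (dd e) rfl
  obtain ⟨hu, hv⟩ := lt_of_get hE he
  rw [rem_iff (p := ((List.range (big N k E)).flatMap fun i => [xx i, xx i]) ++ A ++
      spine (2 * (k + u + 1)) e ++ [cc e, cp e] ++
      (List.range (len N k - 2 * (k + u + 1))).map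
      (fun i => zz e (2 * (k + u + 1) + i)))
    (q := [gg e, dp e] ++ B)
    (p' := ((List.range k).flatMap fun i => [yy i, yy i]) ++ qs N k E ++ [YY] ++
      (qs N k E).reverse ++ A' ++ [cp e, gg e, cc e] ++
      spine (len N k - 2 * (k + v + 1)) e ++ [dp e])
    (q' := (List.range (2 * (k + v + 1))).map
        (fun i => zz e (len N k - 2 * (k + v + 1) + i)) ++ B')
    (by rw [hL]; simp [gadL, spine]) (by rw [hR]; simp [gadR, spine]) ?_ ?_ ?_ ?_ ha]
  · have := hw S
    have h2 := wt_spine_tail (m := 2 * (k + u + 1)) (n := len N k) (e := e) S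
      (by unfold len; omega)
    simp only [wt_append, wt_double, wt_reverse, wt_cons, wt_nil]
    change 2 * wt S (xs N k E) + _ + _ + _ + _ = 2 * wt S (ys k) + _ + _ + _ + _ + _ + _ + _ ↔ _
    omega
  · simp [spine, hA]
  · simp [hB]
  · simp [qs, spine, hA']
  · simp [hB']

theorem rem_dp (ha : dp e ∈ S) : Rem (colL N k E) (colR N k E) S (dp e) ↔
    2 * wt S (xs N k E) + wt S (spine (len N k) e) + ind S (dd e) =
      2 * wt S (ys k) + 2 * wt S (qs N k E) + ind S YY +
        wt S (spine (len N k - 2 * (k + v + 1)) e) := by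
  obtain ⟨A, B, A', B', hL, hR, hn, hw⟩ := gad_pos N k E hE he
  obtain ⟨hA, hB, hA', hB'⟩ := hn (dp e) rfl
  obtain ⟨hu, hv⟩ := lt_of_get hE he
  rw [rem_iff (p := ((List.range (big N k E)).flatMap fun i => [xx i, xx i]) ++ A ++
      spine (2 * (k + u + 1)) e ++ [cc e, cp e] ++
      (List.range (len N k - 2 * (k + u + 1))).map
      (fun i => zz e (2 * (k + u + 1) + i)) ++ [dd e, gg e])
    (q := B)
    (p' := ((List.range k).flatMap fun i => [yy i, yy i]) ++ qs N k E ++ [YY] ++
      (qs N k E).reverse ++ A' ++ [cp e, gg e, cc e] ++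
      spine (len N k - 2 * (k + v + 1)) e)
    (q' := [dd e] ++ (List.range (2 * (k + v + 1))).map
        (fun i => zz e (len N k - 2 * (k + v + 1) + i)) ++ B')
    (by rw [hL]; simp [gadL, spine]) (by rw [hR]; simp [gadR, spine]) ?_ ?_ ?_ ?_ ha]
  · have := hw S
    have h2 := wt_spine_tail (m := 2 * (k + u + 1)) (n := len N k) (e := e) S
      (by unfold len; omega)
    simp only [wt_append, wt_double, wt_reverse, wt_cons, wt_nil]
    change 2 * wt S (xs N k E) + _ + _ + _ + _ + _ = 2 * wt S (ys k) + _ + _ + _ + _ + _ + _ ↔ _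
    omega
  · simp [spine, hA]
  · simp [hB]
  · simp [qs, spine, hA']
  · simp [hB']

end

end Pool.Agent.Clk
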