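import Pool.Agent.Clk.Pos

set_option autoImplicit false

/-!
# When the pairs of a spine, `YY` and `qq` can be removed
-/

namespace Pool.Agent.Clk

open Nm

theorem range_cut {m i : ℕ} (h : i < m) (f : ℕ → Nm) : (List.range m).map f =
    (List.range i).map f ++ f i :: (List.range (m - i - 1)).map (fun j => f (i + 1 + j)) := by
  have e : m = i + 1 + (m - i - 1) := by omega
  conv_lhs => rw [e, List.range_add, List.range_succ, List.map_append, List.map_append]
  simp

theorem gadL_zz {n P e i : ℕ} (hP : 2 * P ≤ n) (hi : i < n) : ∃ p q : List Nm,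
    gadL n P e = p ++ zz e i :: q ∧ zz e i ∉ p ∧ zz e i ∉ q ∧
    ∀ S : Set Nm, wt S p = wt S (spine i e) +
      if 2 * P ≤ i then ind S (cc e) + ind S (cp e) else 0 := by
  by_cases h : 2 * P ≤ i
  · refine ⟨spine (2 * P) e ++ [cc e, cp e] ++
      (List.range (i - 2 * P)).map (fun j => zz e (2 * P + j)),
      (List.range (n - 2 * P - (i - 2 * P) - 1)).map
        (fun j => zz e (2 * P + (i - 2 * P + 1 + j))) ++ [dd e, gg e, dp e], ?_, ?_, ?_, ?_⟩
    · rw [gadL, range_cut (m := n - 2 * P) (i := i - 2 * P) (by omega)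
        (fun j => zz e (2 * P + j))]
      have e1 : 2 * P + (i - 2 * P) = i := by omega
      rw [e1]
      simp [spine]
    · simp only [List.mem_append, not_or, zz_mem_spine]
      refine ⟨⟨by omega, by simp⟩, ?_⟩
      simp only [List.mem_map, List.mem_range, not_exists, not_and, zz.injEq]
      intro j hj _ h2
      omega
    · simp only [List.mem_append, not_or]
      refine ⟨?_, by simp⟩
      simp only [List.mem_map, List.mem_range, not_exists, not_and, zz.injEq]
      intro j hj _ h2
      omega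
    · intro S
      rw [if_pos h]
      have h2 := wt_spine_tail (m := 2 * P) (n := i) (e := e) S h
      simp only [wt_append, wt_cons, wt_nil]
      omega
  · refine ⟨spine i e, (List.range (2 * P - i - 1)).map (fun j => zz e (i + 1 + j)) ++
      [cc e, cp e] ++ (List.range (n - 2 * P)).map (fun j => zz e (2 * P + j)) ++
        [dd e, gg e, dp e], ?_, ?_, ?_, ?_⟩
    · rw [gadL, range_cut (m := 2 * P) (i := i) (by omega) (zz e)]
      simp [spine]
    · rw [zz_mem_spine]; omega
    · simp only [List.mem_append, not_or]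
      refine ⟨⟨⟨?_, by simp⟩, ?_⟩, by simp⟩
      · simp only [List.mem_map, List.mem_range, not_exists, not_and, zz.injEq]
        intro j hj _ h2
        omega
      · simp only [List.mem_map, List.mem_range, not_exists, not_and, zz.injEq]
        intro j hj _ h2
        omega
    · intro S
      rw [if_neg h, Nat.add_zero]

theorem gadR_zz {n Q e i : ℕ} (hQ : 2 * Q ≤ n) (hi : i < n) : ∃ p q : List Nm,
    gadR n Q e = p ++ zz e i :: q ∧ zz e i ∉ p ∧ zz e i ∉ q ∧
    ∀ S : Set Nm, wt S p = ind S (cp e) + ind S (gg e) + ind S (cc e) + wt S (spine i e) +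
      if n - 2 * Q ≤ i then ind S (dp e) + ind S (dd e) else 0 := by
  by_cases h : n - 2 * Q ≤ i
  · refine ⟨[cp e, gg e, cc e] ++ spine (n - 2 * Q) e ++ [dp e, dd e] ++
      (List.range (i - (n - 2 * Q))).map (fun j => zz e (n - 2 * Q + j)),
      (List.range (2 * Q - (i - (n - 2 * Q)) - 1)).map
        (fun j => zz e (n - 2 * Q + (i - (n - 2 * Q) + 1 + j))), ?_, ?_, ?_, ?_⟩
    · rw [gadR, range_cut (m := 2 * Q) (i := i - (n - 2 * Q)) (by omega)
        (fun j => zz e (n - 2 * Q + j))]
      have e1 : n - 2 * Q + (i - (n - 2 * Q)) = i := by omega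
      rw [e1]
      simp [spine]
    · simp only [List.mem_append, not_or, zz_mem_spine]
      refine ⟨⟨⟨by simp, by omega⟩, by simp⟩, ?_⟩
      simp only [List.mem_map, List.mem_range, not_exists, not_and, zz.injEq]
      intro j hj _ h2
      omega
    · simp only [List.mem_map, List.mem_range, not_exists, not_and, zz.injEq]
      intro j hj _ h2
      omega
    · intro S
      rw [if_pos h]
      have h2 := wt_spine_tail (m := n - 2 * Q) (n := i) (e := e) S h
      simp only [wt_append, wt_cons, wt_nil]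
      omega
  · refine ⟨[cp e, gg e, cc e] ++ spine i e,
      (List.range (n - 2 * Q - i - 1)).map (fun j => zz e (i + 1 + j)) ++ [dp e, dd e] ++
        (List.range (2 * Q)).map (fun j => zz e (n - 2 * Q + j)), ?_, ?_, ?_, ?_⟩
    · rw [gadR, range_cut (m := n - 2 * Q) (i := i) (by omega) (zz e)]
      simp [spine]
    · simp only [List.mem_append, not_or, zz_mem_spine]
      exact ⟨by simp, by omega⟩
    · simp only [List.mem_append, not_or]
      refine ⟨⟨?_, by simp⟩, ?_⟩
      · simp only [List.mem_map, List.mem_range, not_exists, not_and, zz.injEq]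
        intro j hj _ h2
        omega
      · simp only [List.mem_map, List.mem_range, not_exists, not_and, zz.injEq]
        intro j hj _ h2
        omega
    · intro S
      rw [if_neg h]
      simp only [wt_append, wt_cons, wt_nil]
      omega

section
variable {N k : ℕ} {E : List (ℕ × ℕ)} (hE : ∀ e ∈ E, e.1 < N ∧ e.2 < N) {e u v : ℕ}
  (he : E[e]? = some (u, v)) {S : Set Nm}

include hE he

theorem rem_zz {i : ℕ} (hi : i < len N k) (ha : zz e i ∈ S) :
    Rem (colL N k E) (colR N k E) S (zz e i) ↔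
    2 * wt S (xs N k E) + (if 2 * (k + u + 1) ≤ i then ind S (cc e) + ind S (cp e) else 0) =
      2 * wt S (ys k) + 2 * wt S (qs N k E) + ind S YY + ind S (cp e) + ind S (gg e) +
        ind S (cc e) +
        (if len N k - 2 * (k + v + 1) ≤ i then ind S (dp e) + ind S (dd e) else 0) := by
  obtain ⟨A, B, A', B', hL, hR, hn, hw⟩ := gad_pos N k E hE he
  obtain ⟨hA, hB, hA', hB'⟩ := hn (zz e i) rfl
  obtain ⟨hu, hv⟩ := lt_of_get hE he
  obtain ⟨p, q, h1, h2, h3, h4⟩ := gadL_zz (n := len N k) (P := k + u + 1) (e := e) (i := i)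
    (by unfold len; omega) hi
  obtain ⟨p', q', h1', h2', h3', h4'⟩ := gadR_zz (n := len N k) (Q := k + v + 1) (e := e) (i := i)
    (by unfold len; omega) hi
  rw [rem_iff (p := ((List.range (big N k E)).flatMap fun i => [xx i, xx i]) ++ A ++ p)
    (q := q ++ B)
    (p' := ((List.range k).flatMap fun i => [yy i, yy i]) ++ qs N k E ++ [YY] ++
      (qs N k E).reverse ++ A' ++ p')
    (q' := q' ++ B')
    (by rw [hL, h1]; simp) (by rw [hR, h1']; simp) ?_ ?_ ?_ ?_ ha]
  · have := hw S
    have g1 := h4 S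
    have g2 := h4' S
    simp only [wt_append, wt_double, wt_reverse, wt_cons, wt_nil]
    change 2 * wt S (xs N k E) + _ + _ = 2 * wt S (ys k) + _ + _ + _ + _ + _ ↔ _
    omega
  · simp [hA, h2]
  · simp [h3, hB]
  · simp [qs, hA', h2']
  · simp [h3', hB']

end

/-- the number of remaining pairs of the gadgets is the same in both columns -/
theorem wt_gads_eq {N k : ℕ} {E : List (ℕ × ℕ)} (hE : ∀ e ∈ E, e.1 < N ∧ e.2 < N) (S : Set Nm) :
    wt S (gadsL N k E) = wt S (gadsR N k E) := by
  rw [gadsL_eq, gadsR_eq]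
  exact wt_gads E (fun x hx e => wt_fL_fR N k E hE S x hx e) 0

theorem gix_gadsL {N k : ℕ} {E : List (ℕ × ℕ)} {a : Nm} (h : a ∈ gadsL N k E) :
    ∃ e, gix a = some e ∧ e < E.length := by
  rw [gadsL_eq] at h
  obtain ⟨e, h1, -, h2⟩ := gix_gads (f := fL N k) (fun x e a h => gix_gadL h) E 0 a h
  exact ⟨e, h1, by omega⟩

theorem gix_gadsR {N k : ℕ} {E : List (ℕ × ℕ)} {a : Nm} (h : a ∈ gadsR N k E) :
    ∃ e, gix a = some e ∧ e < E.length := by
  rw [gadsR_eq] at h
  obtain ⟨e, h1, -, h2⟩ := gix_gads (f := fR N k) (fun x e a h => gix_gadR h) E 0 a h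
  exact ⟨e, h1, by omega⟩

theorem rem_YY {N k : ℕ} {E : List (ℕ × ℕ)} {S : Set Nm} (ha : YY ∈ S) :
    Rem (colL N k E) (colR N k E) S YY ↔
    2 * wt S (xs N k E) + wt S (gadsL N k E) = 2 * wt S (ys k) + wt S (qs N k E) := by
  have nL : YY ∉ gadsL N k E := fun h => by
    obtain ⟨e, h1, -⟩ := gix_gadsL h
    cases h1
  have nR : YY ∉ gadsR N k E := fun h => by
    obtain ⟨e, h1, -⟩ := gix_gadsR h
    cases h1
  rw [rem_iff (p := ((List.range (big N k E)).flatMap fun i => [xx i, xx i]) ++ gadsL N k E)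
    (q := (List.range k).flatMap fun i => [tt i, tt i])
    (p' := ((List.range k).flatMap fun i => [yy i, yy i]) ++ qs N k E)
    (q' := (qs N k E).reverse ++ gadsR N k E)
    (by simp [colL]) (by simp [colR, qs]) ?_ ?_ ?_ ?_ ha]
  · simp only [wt_append, wt_double]
    rfl
  · simp [nL]
  · simp
  · simp [qs]
  · simp [qs, nR]

end Pool.Agent.Clk
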