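import Pool.Agent.Clk.Targets

set_option autoImplicit false

/-!
# CLK-SND: traces of two adjacent strips give traces of the union
-/

namespace Pool.Agent.Clk

namespace SND_

/-! ## Congruence -/

section congr
variable {c c' : St} {i j : ℕ} {G : Set (ℕ × ℕ)}

lemma touch_congr (hc : ∀ l, i ≤ l → l ≤ j → c l = c' l) {p q : ℕ × ℕ}
    (hp : i ≤ p.1 ∧ p.1 ≤ j) (hq : i ≤ q.1 ∧ q.1 ≤ j) (h : Touch c p q) : Touch c' p q := by
  rcases h with h | ⟨h1, ⟨h2, h3⟩ | ⟨h2, h3⟩⟩
  · exact Or.inl h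
  · refine Or.inr ⟨h1, Or.inl ⟨h2, fun l hl hl' => ?_⟩⟩
    rw [← hc l (by omega) (by omega)]
    exact h3 l hl hl'
  · refine Or.inr ⟨h1, Or.inr ⟨h2, fun l hl hl' => ?_⟩⟩
    rw [← hc l (by omega) (by omega)]
    exact h3 l hl hl'

lemma sbond_congr' (hc : ∀ l, i ≤ l → l ≤ j → c l = c' l) {p q : ℕ × ℕ}
    (hp : i ≤ p.1 ∧ p.1 ≤ j) (hq : i ≤ q.1 ∧ q.1 ≤ j) (h : SBond c p q) : SBond c' p q := by
  obtain ⟨h1, a, h2, h3⟩ := h
  refine ⟨touch_congr hc hp hq h1, a, ?_, ?_⟩
  · rw [tl, ← hc p.1 hp.1 hp.2]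
    exact h2
  · rw [tl, ← hc q.1 hq.1 hq.2]
    exact h3

lemma sbond_congr (hc : ∀ l, i ≤ l → l ≤ j → c l = c' l) {p q : ℕ × ℕ}
    (hp : i ≤ p.1 ∧ p.1 ≤ j) (hq : i ≤ q.1 ∧ q.1 ≤ j) : SBond c p q ↔ SBond c' p q :=
  ⟨sbond_congr' hc hp hq, sbond_congr' (fun l h1 h2 => (hc l h1 h2).symm) hp hq⟩

lemma cn_eq (hc : ∀ l, i ≤ l → l ≤ j → c l = c' l) (hG : ∀ p ∈ G, i ≤ p.1 ∧ p.1 ≤ j) :
    Cn c G = Cn c' G := by
  have h1 : (fun p q => p ∈ G ∧ q ∈ G ∧ SBond c p q) =
      fun p q => p ∈ G ∧ q ∈ G ∧ SBond c' p q := by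
    funext p q
    refine propext ⟨?_, ?_⟩
    · rintro ⟨h1, h2, h3⟩
      exact ⟨h1, h2, (sbond_congr hc (hG p h1) (hG q h2)).1 h3⟩
    · rintro ⟨h1, h2, h3⟩
      exact ⟨h1, h2, (sbond_congr hc (hG p h1) (hG q h2)).2 h3⟩
  rw [Cn, Cn, h1]

lemma ev_sub (hE : Ev c i j G) : ∀ p ∈ G, i ≤ p.1 ∧ p.1 ≤ j := fun p hp =>
  ⟨(hE.sub p hp).1, (hE.sub p hp).2.1⟩

lemma ev_congr (hc : ∀ l, i ≤ l → l ≤ j → c l = c' l) (hE : Ev c i j G) : Ev c' i j G := by
  have hs := ev_sub hE
  have hcn := cn_eq hc hs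
  refine ⟨?_, ?_, ?_, ?_, ?_⟩
  · intro p hp
    obtain ⟨h1, h2, h3⟩ := hE.sub p hp
    refine ⟨h1, h2, ?_⟩
    rw [tl, ← hc p.1 h1 h2]
    exact h3
  · intro p q hp h1 h2 h3
    exact hE.closed p q hp h1 h2 ((sbond_congr hc (hs p hp) ⟨h1, h2⟩).2 h3)
  · rw [← hcn]
    exact hE.attach
  · rw [← hcn]
    exact hE.span
  · intro hV
    rw [← hcn]
    obtain ⟨h1, p, hp, q, hq, h2⟩ := hE.inner hV
    exact ⟨h1, p, hp, q, hq, (sbond_congr hc (hs p hp) (hs q hq)).1 h2⟩

lemma lab_congr (h : ℕ) (hc : ∀ l, i ≤ l → l ≤ j → c l = c' l) (hE : Ev c i j G) :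
    lab h c i j G = lab h c' i j G := by
  have hs := ev_sub hE
  rw [lab, lab, cn_eq hc hs]
  have h1 : (∃ p ∈ G, ∃ q ∈ G, SBond c p q) = ∃ p ∈ G, ∃ q ∈ G, SBond c' p q := by
    refine propext ⟨?_, ?_⟩
    · rintro ⟨p, hp, q, hq, h2⟩
      exact ⟨p, hp, q, hq, (sbond_congr hc (hs p hp) (hs q hq)).1 h2⟩
    · rintro ⟨p, hp, q, hq, h2⟩
      exact ⟨p, hp, q, hq, (sbond_congr hc (hs p hp) (hs q hq)).2 h2⟩
  rw [h1]

lemma rem_congr (hc : ∀ l, i ≤ l → l ≤ j → c l = c' l) :
    ∀ l, i ≤ l → l ≤ j → rem c G l = rem c' G l := by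
  intro l h1 h2
  rw [rem, rem, hc l h1 h2]

end congr

lemma tr_congr {h i j : ℕ} {c : St} {τ : List (Label h)} (hT : Tr h i j c τ) :
    i < j → ∀ c' : St, (∀ l, i ≤ l → l ≤ j → c l = c' l) → Tr h i j c' τ := by
  induction hT with
  | done c hd =>
    intro _ c' hc
    refine Tr.done c' fun l h1 h2 => ?_
    rw [← hc l h1.le h2.le]
    exact hd l h1 h2
  | silent c G τ hi hj hE hV _ ih =>
    intro hij c' hc
    refine Tr.silent c' G τ ?_ ?_ (ev_congr hc hE) hV (ih hij _ (rem_congr hc))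
    · rwa [← hc i (le_refl i) hij.le]
    · rwa [← hc j hij.le (le_refl j)]
  | vis c G τ hi hj hE hV _ ih =>
    intro hij c' hc
    rw [lab_congr h hc hE]
    refine Tr.vis c' G τ ?_ ?_ (ev_congr hc hE) hV (ih hij _ (rem_congr hc))
    · rwa [← hc i (le_refl i) hij.le]
    · rwa [← hc j hij.le (le_refl j)]

/-! ## Removing cells of a column -/

lemma keep_congr (l : ℕ) (x : List ℕ) {S S' : Set (ℕ × ℕ)}
    (h : ∀ r, r < x.length → ((l, r) ∈ S ↔ (l, r) ∈ S')) : keep l x S = keep l x S' := by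
  classical
  rw [keep, keep]
  congr 1
  refine List.filter_congr fun t ht => ?_
  have h1 : t.2 < x.length := by
    have := List.snd_lt_of_mem_zipIdx ht
    omega
  rw [decide_eq_decide]
  exact not_congr (h _ h1)

lemma keep_empty (l : ℕ) (x : List ℕ) {S : Set (ℕ × ℕ)}
    (h : ∀ r, r < x.length → (l, r) ∉ S) : keep l x S = x := by
  classical
  rw [keep]
  have h1 : (x.zipIdx.filter fun t => decide ((l, t.2) ∉ S)) = x.zipIdx := by
    rw [List.filter_eq_self]
    intro t ht
    have h1 : t.2 < x.length := by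
      have := List.snd_lt_of_mem_zipIdx ht
      omega
    rw [decide_eq_true_iff]
    exact h _ h1
  rw [h1, List.zipIdx_map_fst]

lemma keep_length (l : ℕ) (x : List ℕ) (S : Set (ℕ × ℕ)) : (keep l x S).length ≤ x.length := by
  classical
  rw [keep, List.length_map]
  exact (List.length_filter_le _ _).trans (le_of_eq List.length_zipIdx)

lemma cut_of_forall {h : ℕ} (x : List ℕ) (A : Set (Fin h)) (hA : ∀ r, r ∉ A) : cut x A = x := by
  classical
  rw [cut]
  refine (congrArg (List.map Prod.fst) (List.filter_eq_self.2 ?_)).trans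
    (List.zipIdx_map_fst 0 x)
  intro t _
  rw [decide_eq_true_iff]
  intro r hr
  exact absurd hr (hA r)

lemma cut_empty {h : ℕ} (x : List ℕ) : cut x (∅ : Set (Fin h)) = x :=
  cut_of_forall x ∅ (Set.notMem_empty)

lemma cut_eq_keep {h : ℕ} (l : ℕ) (x : List ℕ) (S : Set (ℕ × ℕ)) (hx : x.length ≤ h) :
    cut x {r : Fin h | (l, (r : ℕ)) ∈ S} = keep l x S := by
  classical
  rw [cut, keep]
  congr 1
  refine List.filter_congr fun t ht => ?_
  have h1 : t.2 < x.length := by
    have := List.snd_lt_of_mem_zipIdx ht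
    omega
  rw [decide_eq_decide]
  constructor
  · intro h2 h3
    exact h2 ⟨t.2, lt_of_lt_of_le h1 hx⟩ h3 rfl
  · intro h2 r hr h3
    apply h2
    rw [← h3]
    exact hr

/-- a column without cells of the event -/
lemma not_mem_of_empty {h : ℕ} {c : St} {i j l : ℕ} {G : Set (ℕ × ℕ)} (hE : Ev c i j G)
    (hh : (c l).length ≤ h) (he : {r : Fin h | (l, (r : ℕ)) ∈ G} = ∅) : ∀ r, (l, r) ∉ G := by
  intro r hr
  have h1 := (hE.sub _ hr).2.2
  rw [tl] at h1
  have h2 : r < (c l).length := by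
    by_contra hcon
    rw [List.getElem?_eq_none (by simpa using not_lt.1 hcon)] at h1
    exact absurd h1 (by simp)
  have h3 : (⟨r, lt_of_lt_of_le h2 hh⟩ : Fin h) ∈ ({r : Fin h | (l, (r : ℕ)) ∈ G}) := hr
  rw [he] at h3
  exact h3

lemma row_lt {h : ℕ} {c : St} {i j l r : ℕ} {G : Set (ℕ × ℕ)} (hE : Ev c i j G)
    (hh : (c l).length ≤ h) (hr : (l, r) ∈ G) : r < h := by
  have h1 := (hE.sub _ hr).2.2
  rw [tl] at h1
  have h2 : r < (c l).length := by
    by_contra hcon
    rw [List.getElem?_eq_none (by simpa using not_lt.1 hcon)] at h1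
    exact absurd h1 (by simp)
  exact lt_of_lt_of_le h2 hh

/-- the right trace is not empty -/
lemma mrg_nil {h : ℕ} {τ₁ τ' : List (Label h)} (hM : Mrg τ₁ [] τ') (x : List ℕ) :
    cutsB τ₁ x = x := by
  have key : ∀ (τ₁ τ₂ τ' : List (Label h)), Mrg τ₁ τ₂ τ' → τ₂ = [] → ∀ x : List ℕ,
      cutsB τ₁ x = x := by
    intro τ₁ τ₂ τ' hM
    induction hM with
    | nil => intro _ x; rfl
    | left ℓ τ₁ τ₂ τ h1 _ ih =>
      intro h2 x
      have h3 : cutsB (ℓ :: τ₁) x = cutsB τ₁ (cut x ℓ.2.1) := rfl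
      rw [h3, h1, cut_empty]
      exact ih h2 x
    | right ℓ τ₁ τ₂ τ h1 _ ih => intro h2; exact absurd h2 (List.cons_ne_nil _ _)
    | both ℓ₁ ℓ₂ τ₁ τ₂ τ _ _ _ _ => intro h2; exact absurd h2 (List.cons_ne_nil _ _)
    | inner ℓ₁ ℓ₂ τ₁ τ₂ τ _ _ _ _ => intro h2; exact absurd h2 (List.cons_ne_nil _ _)
  exact key _ _ _ hM rfl x

/-- lengths after removing cells -/
lemma rem_length {h : ℕ} {c : St} (G : Set (ℕ × ℕ)) (hh : ∀ l, (c l).length ≤ h) :
    ∀ l, (rem c G l).length ≤ h := fun l => (keep_length l (c l) G).trans (hh l)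

lemma rem_eq_self {c : St} {G : Set (ℕ × ℕ)} {l : ℕ} (hG : ∀ r, (l, r) ∉ G) : rem c G l = c l :=
  keep_empty l (c l) fun r _ => hG r

/-- the main induction -/
theorem main (hG : T_GLUE) {h i k j : ℕ} (hik : i < k) (hkj : k < j) {c1 : St}
    {τ₁ : List (Label h)} (h1 : Tr h i k c1 τ₁) :
    ∀ (c2 : St) (τ₂ : List (Label h)), Tr h k j c2 τ₂ →
    ∀ (c c' : St) (τ' τ'' : List (Label h)), (∀ l, i ≤ l → l ≤ k → c l = c1 l) →
      (∀ l, k ≤ l → l ≤ j → c l = c2 l) → (∀ l, (c l).length ≤ h) → Mrg τ₁ τ₂ τ' →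
      cutsB τ₁ (c k) = [] → After i j c c' τ' → Tr h i j c' τ'' → Tr h i j c (τ' ++ τ'') := by
  have hij : i < j := hik.trans hkj
  -- the case of an empty middle column
  have hempty : ∀ (c1 c2 : St) (τ₁ τ₂ : List (Label h)), Tr h i k c1 τ₁ → Tr h k j c2 τ₂ →
      ∀ (c c' : St) (τ' τ'' : List (Label h)), (∀ l, i ≤ l → l ≤ k → c l = c1 l) →
      (∀ l, k ≤ l → l ≤ j → c l = c2 l) → Mrg τ₁ τ₂ τ' → c k = [] →
      After i j c c' τ' → Tr h i j c' τ'' → Tr h i j c (τ' ++ τ'') := by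
    intro c1 c2 τ₁ τ₂ t1 t2 c c' τ' τ'' a1 a2 hM hk hA t3
    have e1 : c1 k = [] := by rw [← a1 k hik.le (le_refl k)]; exact hk
    have e2 : c2 k = [] := by rw [← a2 k (le_refl k) hkj.le]; exact hk
    cases t1 with
    | silent _ G τ hi hj hE hV _ => exact absurd e1 hj
    | vis _ G τ hi hj hE hV _ => exact absurd e1 hj
    | done _ d1 =>
      cases t2 with
      | silent _ G τ hi hj hE hV _ => exact absurd e2 hi
      | vis _ G τ hi hj hE hV _ => exact absurd e2 hi
      | done _ d2 =>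
        cases hM
        rw [List.nil_append]
        obtain ⟨b1, b2, b3, -⟩ := hA
        refine tr_congr t3 hij c ?_
        intro l hl1 hl2
        rcases hl1.eq_or_lt with h3 | h3
        · rw [← h3, b2]
          rfl
        rcases hl2.eq_or_lt with h4 | h4
        · rw [h4, b3]
          rfl
        rw [b1 l h3 h4]
        rcases lt_trichotomy l k with h5 | h5 | h5
        · rw [a1 l h3.le h5.le, d1 l h3 h5]
        · rw [h5, hk]
        · rw [a2 l h5.le h4.le, d2 l h5 h4]
  induction h1 with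
  | done c1 d1 =>
    intro c2 τ₂ t2 c c' τ' τ'' a1 a2 hh hM hc hA t3
    exact hempty c1 c2 [] τ₂ (Tr.done c1 d1) t2 c c' τ' τ'' a1 a2 hM hc hA t3
  | silent c1 G τ hi hk hE hV t1 ih =>
    intro c2 τ₂ t2 c c' τ' τ'' a1 a2 hh hM hc hA t3
    have hck : c k ≠ [] := by rw [a1 k hik.le (le_refl k)]; exact hk
    have hci : c i ≠ [] := by rw [a1 i (le_refl i) hik.le]; exact hi
    have hcj : c j ≠ [] := by
      rw [a2 j hkj.le (le_refl j)]
      cases t2 with
      | silent _ G τ _ hj _ _ _ => exact hj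
      | vis _ G τ _ hj _ _ _ => exact hj
      | done _ d2 =>
        exfalso
        apply hck
        rw [← mrg_nil hM (c k)]
        exact hc
    have hE' : Ev c i k G := ev_congr (fun l x y => (a1 l x y).symm) hE
    have hk' : ∀ r, (k, r) ∉ G := fun r hr => hV ⟨_, hr, Or.inr rfl⟩
    have hi' : ∀ r, (i, r) ∉ G := fun r hr => hV ⟨_, hr, Or.inl rfl⟩
    have hright : ∀ l, k < l → ∀ r, (l, r) ∉ G := fun l hl r hr => by
      have := (ev_sub hE' _ hr).2
      simp only at this
      omega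
    obtain ⟨g1, -⟩ := (hG c i k j G ∅ hik hkj hck hh).2.1 hE' hk'
    have hV' : ¬ Vis i j G := by
      rintro ⟨p, hp, hp1 | hp1⟩
      · exact hV ⟨p, hp, Or.inl hp1⟩
      · have := (ev_sub hE' p hp).2
        omega
    refine Tr.silent c G (τ' ++ τ'') hci hcj g1 hV' ?_
    refine ih c2 τ₂ t2 (rem c G) c' τ' τ'' (rem_congr a1) ?_ (rem_length G hh) hM ?_ ?_ t3
    · intro l hl1 hl2
      rw [← a2 l hl1 hl2]
      rcases hl1.eq_or_lt with h3 | h3
      · rw [← h3]
        exact rem_eq_self hk'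
      · exact rem_eq_self (hright l h3)
    · rw [rem_eq_self hk']
      exact hc
    · obtain ⟨b1, b2, b3, b4⟩ := hA
      refine ⟨b1, ?_, ?_, b4⟩
      · rw [rem_eq_self hi']
        exact b2
      · rw [rem_eq_self (hright j hkj)]
        exact b3
  | vis c1 G₁ τa hi hk hE hV t1 ih =>
    intro c2 τ₂ t2
    induction t2 with
    | done c2 d2 =>
      intro c c' τ' τ'' a1 a2 hh hM hc hA t3
      exfalso
      have hck : c k ≠ [] := by rw [a1 k hik.le (le_refl k)]; exact hk
      apply hck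
      rw [← mrg_nil hM (c k)]
      exact hc
    | silent c2 G τ₂ hk2 hj hE2 hV2 t2 ih2 =>
      intro c c' τ' τ'' a1 a2 hh hM hc hA t3
      have hck : c k ≠ [] := by rw [a1 k hik.le (le_refl k)]; exact hk
      have hci : c i ≠ [] := by rw [a1 i (le_refl i) hik.le]; exact hi
      have hcj : c j ≠ [] := by rw [a2 j hkj.le (le_refl j)]; exact hj
      have hE' : Ev c k j G := ev_congr (fun l x y => (a2 l x y).symm) hE2
      have hk' : ∀ r, (k, r) ∉ G := fun r hr => hV2 ⟨_, hr, Or.inl rfl⟩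
      have hj' : ∀ r, (j, r) ∉ G := fun r hr => hV2 ⟨_, hr, Or.inr rfl⟩
      have hleft : ∀ l, l < k → ∀ r, (l, r) ∉ G := fun l hl r hr => by
        have := (ev_sub hE' _ hr).1
        simp only at this
        omega
      obtain ⟨g1, -⟩ := (hG c i k j ∅ G hik hkj hck hh).2.2 hE' hk'
      have hV' : ¬ Vis i j G := by
        rintro ⟨p, hp, hp1 | hp1⟩
        · have := (ev_sub hE' p hp).1
          omega
        · exact hV2 ⟨p, hp, Or.inr hp1⟩
      refine Tr.silent c G (τ' ++ τ'') hci hcj g1 hV' ?_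
      refine ih2 (rem c G) c' τ' τ'' ?_ (rem_congr a2) (rem_length G hh) hM ?_ ?_ t3
      · intro l hl1 hl2
        rw [← a1 l hl1 hl2]
        rcases hl2.eq_or_lt with h3 | h3
        · rw [h3]
          exact rem_eq_self hk'
        · exact rem_eq_self (hleft l h3)
      · rw [rem_eq_self hk']
        exact hc
      · obtain ⟨b1, b2, b3, b4⟩ := hA
        refine ⟨b1, ?_, ?_, b4⟩
        · rw [rem_eq_self (hleft i hik)]
          exact b2
        · rw [rem_eq_self hj']
          exact b3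
    | vis c2 G₂ τb hk2 hj hE2 hV2 t2 ih2 =>
      intro c c' τ' τ'' a1 a2 hh hM hc hA t3
      have hck : c k ≠ [] := by rw [a1 k hik.le (le_refl k)]; exact hk
      have hci : c i ≠ [] := by rw [a1 i (le_refl i) hik.le]; exact hi
      have hcj : c j ≠ [] := by rw [a2 j hkj.le (le_refl j)]; exact hj
      have hE₁ : Ev c i k G₁ := ev_congr (fun l x y => (a1 l x y).symm) hE
      have hE₂ : Ev c k j G₂ := ev_congr (fun l x y => (a2 l x y).symm) hE2
      have hl₁ : lab h c1 i k G₁ = lab h c i k G₁ :=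
        lab_congr h (fun l x y => (a1 l x y).symm) hE
      have hl₂ : lab h c2 k j G₂ = lab h c k j G₂ :=
        lab_congr h (fun l x y => (a2 l x y).symm) hE2
      have hright : ∀ l, k < l → ∀ r, (l, r) ∉ G₁ := fun l hl r hr => by
        have := (ev_sub hE₁ _ hr).2
        simp only at this
        omega
      have hleft : ∀ l, l < k → ∀ r, (l, r) ∉ G₂ := fun l hl r hr => by
        have := (ev_sub hE₂ _ hr).1
        simp only at this
        omega
      rw [hl₁, hl₂] at hM
      rw [hl₁] at hc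
      -- the joint step
      have joint : ∀ τ : List (Label h), Ok (lab h c i k G₁) (lab h c k j G₂) →
          Mrg τa τb τ → After i j (rem c (G₁ ∪ G₂)) c' τ →
          Tr h i j (rem c (G₁ ∪ G₂)) (τ ++ τ'') := by
        intro τ hOk hM' hA'
        have heq : ∀ r, (k, r) ∈ G₁ ↔ (k, r) ∈ G₂ := by
          intro r
          have h3 := hOk.eq
          constructor
          · intro hr
            have hlt := row_lt hE₁ (hh k) hr
            have h4 : (⟨r, hlt⟩ : Fin h) ∈ (lab h c i k G₁).2.1 := hr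
            rw [h3] at h4
            exact h4
          · intro hr
            have hlt := row_lt hE₂ (hh k) hr
            have h4 : (⟨r, hlt⟩ : Fin h) ∈ (lab h c k j G₂).1 := hr
            rw [← h3] at h4
            exact h4
        refine ih _ τb t2 (rem c (G₁ ∪ G₂)) c' τ τ'' ?_ ?_ (rem_length _ hh) hM' ?_ hA' t3
        · intro l hl1 hl2
          rw [← rem_congr a1 l hl1 hl2]
          refine keep_congr l (c l) fun r _ => ?_
          rcases hl2.eq_or_lt with h3 | h3
          · rw [h3]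
            exact ⟨fun h4 => h4.elim id (heq r).2, Or.inl⟩
          · exact ⟨fun h4 => h4.elim id fun h5 => absurd h5 (hleft l h3 r), Or.inl⟩
        · intro l hl1 hl2
          rw [← rem_congr a2 l hl1 hl2]
          refine keep_congr l (c l) fun r _ => ?_
          rcases hl1.eq_or_lt with h3 | h3
          · rw [← h3]
            exact ⟨fun h4 => h4.elim (heq r).1 id, Or.inr⟩
          · exact ⟨fun h4 => h4.elim (fun h5 => absurd h5 (hright l h3 r)) id, Or.inr⟩
        · have h5 : rem c (G₁ ∪ G₂) k = cut (c k) (lab h c i k G₁).2.1 := by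
            have h6 : cut (c k) (lab h c i k G₁).2.1 = keep k (c k) G₁ :=
              cut_eq_keep k (c k) G₁ (hh k)
            rw [h6]
            refine keep_congr k (c k) fun r _ => ?_
            exact ⟨fun h4 => h4.elim id (heq r).2, Or.inl⟩
          rw [h5]
          exact hc
      cases hM with
      | left _ _ _ τ he hM' =>
        have hk' : ∀ r, (k, r) ∉ G₁ := not_mem_of_empty hE₁ (hh k) he
        obtain ⟨g1, g2⟩ := (hG c i k j G₁ ∅ hik hkj hck hh).2.1 hE₁ hk'
        have hV' : Vis i j G₁ := by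
          obtain ⟨p, hp, hp1 | hp1⟩ := hV
          · exact ⟨p, hp, Or.inl hp1⟩
          · exfalso
            apply hk' p.2
            rw [← hp1]
            exact hp
        rw [List.cons_append, ← g2]
        refine Tr.vis c G₁ (τ ++ τ'') hci hcj g1 hV' ?_
        refine ih c2 _ (Tr.vis c2 G₂ τb hk2 hj hE2 hV2 t2) (rem c G₁) c' τ τ'' (rem_congr a1) ?_
          (rem_length _ hh) (by rw [hl₂]; exact hM') ?_ ?_ t3
        · intro l hl1 hl2
          rw [← a2 l hl1 hl2]
          rcases hl1.eq_or_lt with h3 | h3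
          · rw [← h3]
            exact rem_eq_self hk'
          · exact rem_eq_self (hright l h3)
        · rw [rem_eq_self hk']
          have h5 : cutsB (lab h c i k G₁ :: τa) (c k) =
              cutsB τa (cut (c k) (lab h c i k G₁).2.1) := rfl
          rw [h5, he, cut_empty] at hc
          exact hc
        · obtain ⟨b1, b2, b3, b4⟩ := hA
          refine ⟨b1, ?_, ?_, b4⟩
          · rw [b2]
            have h5 : cutsA (lab h c i k G₁ :: τ) (c i) =
              cutsA τ (cut (c i) (lab h c i k G₁).1) := rfl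
            rw [h5]
            have h6 : cut (c i) (lab h c i k G₁).1 = keep i (c i) G₁ :=
              cut_eq_keep i (c i) G₁ (hh i)
            rw [h6]
            rfl
          · rw [b3]
            have h5 : cutsB (lab h c i k G₁ :: τ) (c j) =
              cutsB τ (cut (c j) (lab h c i k G₁).2.1) := rfl
            rw [h5, he, cut_empty, rem_eq_self (hright j hkj)]
      | right _ _ _ τ he hM' =>
        have hk' : ∀ r, (k, r) ∉ G₂ := not_mem_of_empty hE₂ (hh k) he
        obtain ⟨g1, g2⟩ := (hG c i k j ∅ G₂ hik hkj hck hh).2.2 hE₂ hk'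
        have hV' : Vis i j G₂ := by
          obtain ⟨p, hp, hp1 | hp1⟩ := hV2
          · exfalso
            apply hk' p.2
            rw [← hp1]
            exact hp
          · exact ⟨p, hp, Or.inr hp1⟩
        rw [List.cons_append, ← g2]
        refine Tr.vis c G₂ (τ ++ τ'') hci hcj g1 hV' ?_
        refine ih2 (rem c G₂) c' τ τ'' ?_ (rem_congr a2) (rem_length _ hh)
          (by rw [hl₁]; exact hM') ?_ ?_ t3
        · intro l hl1 hl2
          rw [← a1 l hl1 hl2]
          rcases hl2.eq_or_lt with h3 | h3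
          · rw [h3]
            exact rem_eq_self hk'
          · exact rem_eq_self (hleft l h3)
        · rw [hl₁, rem_eq_self hk']
          exact hc
        · obtain ⟨b1, b2, b3, b4⟩ := hA
          refine ⟨b1, ?_, ?_, b4⟩
          · rw [b2]
            have h5 : cutsA (lab h c k j G₂ :: τ) (c i) =
              cutsA τ (cut (c i) (lab h c k j G₂).1) := rfl
            rw [h5, he, cut_empty, rem_eq_self (hleft i hik)]
          · rw [b3]
            have h5 : cutsB (lab h c k j G₂ :: τ) (c j) =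
              cutsB τ (cut (c j) (lab h c k j G₂).2.1) := rfl
            rw [h5]
            have h6 : cut (c j) (lab h c k j G₂).2.1 = keep j (c j) G₂ :=
              cut_eq_keep j (c j) G₂ (hh j)
            rw [h6]
            rfl
      | both _ _ _ _ τ hOk hVL hM' =>
        obtain ⟨g1, g2⟩ := (hG c i k j G₁ G₂ hik hkj hck hh).1 hE₁ hE₂ hOk
        have hV' : Vis i j (G₁ ∪ G₂) := by
          rcases hVL with ⟨r, hr⟩ | ⟨r, hr⟩
          · exact ⟨(i, (r : ℕ)), Or.inl hr, Or.inl rfl⟩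
          · exact ⟨(j, (r : ℕ)), Or.inr hr, Or.inr rfl⟩
        rw [List.cons_append, ← g2]
        refine Tr.vis c (G₁ ∪ G₂) (τ ++ τ'') hci hcj g1 hV' ?_
        refine joint τ hOk hM' ?_
        obtain ⟨b1, b2, b3, b4⟩ := hA
        refine ⟨b1, ?_, ?_, b4⟩
        · rw [b2]
          have h5 : cutsA (comp (lab h c i k G₁) (lab h c k j G₂) :: τ) (c i) =
              cutsA τ (cut (c i) (lab h c i k G₁).1) := rfl
          rw [h5]
          have h6 : cut (c i) (lab h c i k G₁).1 = keep i (c i) G₁ :=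
            cut_eq_keep i (c i) G₁ (hh i)
          rw [h6]
          congr 1
          refine keep_congr i (c i) fun r _ => ?_
          exact ⟨Or.inl, fun h4 => h4.elim id fun h7 => absurd h7 (hleft i hik r)⟩
        · rw [b3]
          have h5 : cutsB (comp (lab h c i k G₁) (lab h c k j G₂) :: τ) (c j) =
              cutsB τ (cut (c j) (lab h c k j G₂).2.1) := rfl
          rw [h5]
          have h6 : cut (c j) (lab h c k j G₂).2.1 = keep j (c j) G₂ :=
            cut_eq_keep j (c j) G₂ (hh j)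
          rw [h6]
          congr 1
          refine keep_congr j (c j) fun r _ => ?_
          exact ⟨Or.inr, fun h4 => h4.elim (fun h7 => absurd h7 (hright j hkj r)) id⟩
      | inner _ _ _ _ _ hOk hVL hM' =>
        obtain ⟨g1, -⟩ := (hG c i k j G₁ G₂ hik hkj hck hh).1 hE₁ hE₂ hOk
        have hi' : ∀ r, (i, r) ∉ G₁ := by
          refine not_mem_of_empty hE₁ (hh i) (Set.not_nonempty_iff_eq_empty.1 ?_)
          exact fun h4 => hVL (Or.inl h4)
        have hj' : ∀ r, (j, r) ∉ G₂ := by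
          refine not_mem_of_empty hE₂ (hh j) (Set.not_nonempty_iff_eq_empty.1 ?_)
          exact fun h4 => hVL (Or.inr h4)
        have hi'' : ∀ r, (i, r) ∉ G₁ ∪ G₂ := fun r hr => hr.elim (hi' r) (hleft i hik r)
        have hj'' : ∀ r, (j, r) ∉ G₁ ∪ G₂ := fun r hr => hr.elim (hright j hkj r) (hj' r)
        have hV' : ¬ Vis i j (G₁ ∪ G₂) := by
          rintro ⟨p, hp, hp1 | hp1⟩
          · exact hi'' p.2 (by rw [← hp1]; exact hp)
          · exact hj'' p.2 (by rw [← hp1]; exact hp)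
        refine Tr.silent c (G₁ ∪ G₂) (τ' ++ τ'') hci hcj g1 hV' ?_
        refine joint τ' hOk hM' ?_
        obtain ⟨b1, b2, b3, b4⟩ := hA
        refine ⟨b1, ?_, ?_, b4⟩
        · rw [rem_eq_self hi'']
          exact b2
        · rw [rem_eq_self hj'']
          exact b3

end SND_

/-- SND -/
theorem tSND (hG : T_GLUE) : T_SND := by
  intro h i k j c c' τ₁ τ₂ τ' τ'' hik hkj _ hh t1 t2 hM hc hA t3
  exact SND_.main hG hik hkj t1 c τ₂ t2 c c' τ' τ'' (fun _ _ _ => rfl) (fun _ _ _ => rfl) hh hM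
    hc hA t3

end Pool.Agent.Clk
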