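import Pool.Agent.Clk.Targets

set_option autoImplicit false

/-!
# SPLIT: an event of a strip, seen from a nonempty inner column
-/

namespace Pool.Agent.Clk

namespace SPLIT_

theorem touch_symm {c : St} {p q : ℕ × ℕ} (h : Touch c p q) : Touch c q p := by
  rcases h with ⟨h1, h2⟩ | ⟨h1, h2⟩
  · exact Or.inl ⟨h1.symm, h2.symm⟩
  · exact Or.inr ⟨h1.symm, h2.symm⟩

theorem sbond_symm {c : St} {p q : ℕ × ℕ} (h : SBond c p q) : SBond c q p := by
  obtain ⟨h1, a, h2, h3⟩ := h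
  exact ⟨touch_symm h1, a, h3, h2⟩

theorem cn_symm {c : St} {G : Set (ℕ × ℕ)} {p q : ℕ × ℕ} (h : Cn c G p q) : Cn c G q p := by
  induction h with
  | refl => exact Relation.ReflTransGen.refl
  | tail _ h2 ih => exact Relation.ReflTransGen.head ⟨h2.2.1, h2.1, sbond_symm h2.2.2⟩ ih

theorem cn_mono {c : St} {G G' : Set (ℕ × ℕ)} (h : G ⊆ G') {p q : ℕ × ℕ} (hp : Cn c G p q) :
    Cn c G' p q := by
  induction hp with
  | refl => exact Relation.ReflTransGen.refl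
  | tail _ h2 ih => exact ih.tail ⟨h h2.1, h h2.2.1, h2.2.2⟩

/-- bonds do not jump over a nonempty column -/
theorem no_jump {c : St} {k : ℕ} (hk : c k ≠ []) {p q : ℕ × ℕ} (h : SBond c p q) :
    ¬ (p.1 < k ∧ k < q.1) ∧ ¬ (q.1 < k ∧ k < p.1) := by
  obtain ⟨h1, -⟩ := h
  rcases h1 with ⟨h1, -⟩ | ⟨-, ⟨h1, h2⟩ | ⟨h1, h2⟩⟩
  · omega
  · refine ⟨fun h3 => hk (h2 k h3.1 h3.2), by omega⟩
  · refine ⟨by omega, fun h3 => hk (h2 k h3.1 h3.2)⟩

/-- the first visit of column `k` -/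
theorem first {c : St} {k : ℕ} {G : Set (ℕ × ℕ)} (A : ℕ → Prop)
    (hA : ∀ p q, SBond c p q → A p.1 → ¬ A q.1 → p.1 = k) {p q : ℕ × ℕ}
    (h : Cn c G p q) (hp : A p.1) (hpG : p ∈ G) :
    q ∈ G ∧ ((A q.1 ∧ Cn c {x | x ∈ G ∧ A x.1} p q) ∨
      ∃ m ∈ G, m.1 = k ∧ A m.1 ∧ Cn c {x | x ∈ G ∧ A x.1} p m ∧ Cn c G m q) := by
  induction h with
  | refl => exact ⟨hpG, Or.inl ⟨hp, Relation.ReflTransGen.refl⟩⟩
  | @tail b d h1 h2 ih =>
    obtain ⟨hb, ih⟩ := ih
    refine ⟨h2.2.1, ?_⟩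
    rcases ih with ⟨h3, h4⟩ | ⟨m, h3, h4, h5, h6, h7⟩
    · by_cases hd : A d.1
      · exact Or.inl ⟨hd, h4.tail ⟨⟨hb, h3⟩, ⟨h2.2.1, hd⟩, h2.2.2⟩⟩
      · exact Or.inr ⟨b, hb, hA b d h2.2.2 h3 hd, h3, h4,
          Relation.ReflTransGen.single ⟨hb, h2.2.1, h2.2.2⟩⟩
    · exact Or.inr ⟨m, h3, h4, h5, h6, h7.tail h2⟩

/-- the cell of a node -/
def cl {h : ℕ} (i k j : ℕ) (s : Fin 3 × Fin h) : ℕ × ℕ :=
  (if s.1 = 0 then i else if s.1 = 1 then k else j, (s.2 : ℕ))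

theorem cl_e1 {h : ℕ} (i k j : ℕ) (s : Bool × Fin h) : cl i k j (e1 s) = nd i k s := by
  obtain ⟨b, r⟩ := s
  cases b <;> simp [cl, e1, nd]

theorem cl_e2 {h : ℕ} (i k j : ℕ) (s : Bool × Fin h) : cl i k j (e2 s) = nd k j s := by
  obtain ⟨b, r⟩ := s
  cases b <;> simp [cl, e2, nd]

theorem cl_e3 {h : ℕ} (i k j : ℕ) (s : Bool × Fin h) : cl i k j (e3 s) = nd i j s := by
  obtain ⟨b, r⟩ := s
  cases b <;> simp [cl, e3, nd]

section
variable {h : ℕ} {c : St} {i k j : ℕ} {G : Set (ℕ × ℕ)}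

/-- the left part -/
abbrev LPart (k : ℕ) (G : Set (ℕ × ℕ)) : Set (ℕ × ℕ) := {p | p ∈ G ∧ p.1 ≤ k}

/-- the right part -/
abbrev RPart (k : ℕ) (G : Set (ℕ × ℕ)) : Set (ℕ × ℕ) := {p | p ∈ G ∧ k ≤ p.1}

theorem hAL (hk : c k ≠ []) : ∀ p q, SBond c p q → p.1 ≤ k → ¬ q.1 ≤ k → p.1 = k := by
  intro p q hb h1 h2
  have := (no_jump hk hb).1
  omega

theorem hAR (hk : c k ≠ []) : ∀ p q, SBond c p q → k ≤ p.1 → ¬ k ≤ q.1 → p.1 = k := by
  intro p q hb h1 h2
  have := (no_jump hk hb).2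
  omega

theorem row_lt (hlen : ∀ l, (c l).length ≤ h) (hev : Ev c i j G) {p : ℕ × ℕ} (hp : p ∈ G) :
    p.2 < h := by
  have h1 := (hev.sub p hp).2.2
  unfold tl at h1
  rw [Option.isSome_iff_ne_none, Ne, List.getElem?_eq_none_iff] at h1
  have := hlen p.1
  omega

/-- steps of `J` -/
theorem J1_left {s t : Bool × Fin h} (hs : nd i k s ∈ LPart k G) (ht : nd i k t ∈ LPart k G)
    (hc : Cn c (LPart k G) (nd i k s) (nd i k t)) (ℓ₂ : Label h) :
    J1 (lab h c i k (LPart k G)) ℓ₂ (e1 s) (e1 t) :=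
  Or.inl ⟨(s, t), ⟨hs, ht, hc⟩, rfl, rfl⟩

theorem J1_right {s t : Bool × Fin h} (hs : nd k j s ∈ RPart k G) (ht : nd k j t ∈ RPart k G)
    (hc : Cn c (RPart k G) (nd k j s) (nd k j t)) (ℓ₁ : Label h) :
    J1 ℓ₁ (lab h c k j (RPart k G)) (e2 s) (e2 t) :=
  Or.inr ⟨(s, t), ⟨hs, ht, hc⟩, rfl, rfl⟩

theorem walk (hik : i < k) (hkj : k < j) (hk : c k ≠ []) (hlen : ∀ l, (c l).length ≤ h)
    (hev : Ev c i j G) (s₀ : Fin 3 × Fin h) (hs₀ : cl i k j s₀ ∈ G) {q : ℕ × ℕ}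
    (hc : Cn c G (cl i k j s₀) q) :
    q ∈ G ∧ ((∃ s : Bool × Fin h, J (lab h c i k (LPart k G)) (lab h c k j (RPart k G)) s₀ (e1 s) ∧
        nd i k s ∈ LPart k G ∧ q.1 ≤ k ∧ Cn c (LPart k G) (nd i k s) q) ∨
      ∃ s : Bool × Fin h, J (lab h c i k (LPart k G)) (lab h c k j (RPart k G)) s₀ (e2 s) ∧
        nd k j s ∈ RPart k G ∧ k ≤ q.1 ∧ Cn c (RPart k G) (nd k j s) q) := by
  induction hc with
  | refl =>
    refine ⟨hs₀, ?_⟩
    obtain ⟨x, r⟩ := s₀
    have hx : x = 0 ∨ x = 1 ∨ x = 2 := by omega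
    rcases hx with rfl | rfl | rfl
    · have e : cl i k j ((0 : Fin 3), r) = nd i k (false, r) := by simp [cl, nd]
      rw [e] at hs₀ ⊢
      refine Or.inl ⟨(false, r), Relation.ReflTransGen.refl, ⟨hs₀, ?_⟩, ?_,
        Relation.ReflTransGen.refl⟩ <;> simp [nd] <;> omega
    · have e : cl i k j ((1 : Fin 3), r) = nd i k (true, r) := by simp [cl, nd]
      rw [e] at hs₀ ⊢
      refine Or.inl ⟨(true, r), Relation.ReflTransGen.refl, ⟨hs₀, ?_⟩, ?_,
        Relation.ReflTransGen.refl⟩ <;> simp [nd]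
    · have e : cl i k j ((2 : Fin 3), r) = nd k j (true, r) := by simp [cl, nd]
      rw [e] at hs₀ ⊢
      refine Or.inr ⟨(true, r), Relation.ReflTransGen.refl, ⟨hs₀, ?_⟩, ?_,
        Relation.ReflTransGen.refl⟩ <;> simp [nd] <;> omega
  | @tail b d h1 h2 ih =>
    obtain ⟨hb, ih⟩ := ih
    refine ⟨h2.2.1, ?_⟩
    rcases ih with ⟨s, hJ, hs, hbk, hCn⟩ | ⟨s, hJ, hs, hbk, hCn⟩
    · by_cases hd : d.1 ≤ k
      · exact Or.inl ⟨s, hJ, hs, hd, hCn.tail ⟨⟨hb, hbk⟩, ⟨h2.2.1, hd⟩, h2.2.2⟩⟩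
      · have hb1 := hAL hk b d h2.2.2 hbk hd
        have hr := row_lt hlen hev hb
        have e : b = nd i k (true, (⟨b.2, hr⟩ : Fin h)) := by
          apply Prod.ext
          · simp [nd, hb1]
          · simp [nd]
        have e' : b = nd k j (false, (⟨b.2, hr⟩ : Fin h)) := by
          apply Prod.ext
          · simp [nd, hb1]
          · simp [nd]
        have hbL : nd i k (true, (⟨b.2, hr⟩ : Fin h)) ∈ LPart k G := by
          rw [← e]; exact ⟨hb, hbk⟩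
        refine Or.inr ⟨(false, ⟨b.2, hr⟩), ?_, ?_, by omega, ?_⟩
        · refine hJ.tail ?_
          have h3 := J1_left (c := c) hs hbL (by rw [← e]; exact hCn) (lab h c k j (RPart k G))
          exact h3
        · rw [← e']; exact ⟨hb, hb1.ge⟩
        · rw [← e']
          exact Relation.ReflTransGen.single ⟨⟨hb, hb1.ge⟩, ⟨h2.2.1, by omega⟩, h2.2.2⟩
    · by_cases hd : k ≤ d.1
      · exact Or.inr ⟨s, hJ, hs, hd, hCn.tail ⟨⟨hb, hbk⟩, ⟨h2.2.1, hd⟩, h2.2.2⟩⟩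
      · have hb1 := hAR hk b d h2.2.2 hbk hd
        have hr := row_lt hlen hev hb
        have e : b = nd k j (false, (⟨b.2, hr⟩ : Fin h)) := by
          apply Prod.ext
          · simp [nd, hb1]
          · simp [nd]
        have e' : b = nd i k (true, (⟨b.2, hr⟩ : Fin h)) := by
          apply Prod.ext
          · simp [nd, hb1]
          · simp [nd]
        have hbR : nd k j (false, (⟨b.2, hr⟩ : Fin h)) ∈ RPart k G := by
          rw [← e]; exact ⟨hb, hbk⟩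
        refine Or.inl ⟨(true, ⟨b.2, hr⟩), ?_, ?_, by omega, ?_⟩
        · refine hJ.tail ?_
          have h3 := J1_right (c := c) hs hbR (by rw [← e]; exact hCn) (lab h c i k (LPart k G))
          exact h3
        · rw [← e']; exact ⟨hb, hb1.le⟩
        · rw [← e']
          exact Relation.ReflTransGen.single ⟨⟨hb, hb1.le⟩, ⟨h2.2.1, by omega⟩, h2.2.2⟩

/-- paths give `J` -/
theorem J_of_cn (hik : i < k) (hkj : k < j) (hk : c k ≠ []) (hlen : ∀ l, (c l).length ≤ h)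
    (hev : Ev c i j G) (s t : Fin 3 × Fin h) (hs : cl i k j s ∈ G)
    (hc : Cn c G (cl i k j s) (cl i k j t)) :
    J (lab h c i k (LPart k G)) (lab h c k j (RPart k G)) s t := by
  obtain ⟨ht, hw⟩ := walk hik hkj hk hlen hev s hs hc
  obtain ⟨x, r⟩ := t
  rcases hw with ⟨u, hJ, hu, hq, hCn⟩ | ⟨u, hJ, hu, hq, hCn⟩
  · have hx : x = 0 ∨ x = 1 := by
      by_contra hx
      have hx2 : x = 2 := by omega
      subst hx2
      simp [cl] at hq
      omega
    refine hJ.tail ?_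
    rcases hx with rfl | rfl
    · have e : cl i k j ((0 : Fin 3), r) = nd i k (false, r) := by simp [cl, nd]
      rw [e] at hCn ht hq
      exact J1_left (c := c) hu ⟨ht, hq⟩ hCn (lab h c k j (RPart k G))
    · have e : cl i k j ((1 : Fin 3), r) = nd i k (true, r) := by simp [cl, nd]
      rw [e] at hCn ht hq
      exact J1_left (c := c) hu ⟨ht, hq⟩ hCn (lab h c k j (RPart k G))
  · have hx : x = 1 ∨ x = 2 := by
      by_contra hx
      have hx2 : x = 0 := by omega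
      subst hx2
      simp [cl] at hq
      omega
    refine hJ.tail ?_
    rcases hx with rfl | rfl
    · have e : cl i k j ((1 : Fin 3), r) = nd k j (false, r) := by simp [cl, nd]
      rw [e] at hCn ht hq
      exact J1_right (c := c) hu ⟨ht, hq⟩ hCn (lab h c i k (LPart k G))
    · have e : cl i k j ((2 : Fin 3), r) = nd k j (true, r) := by simp [cl, nd]
      rw [e] at hCn ht hq
      exact J1_right (c := c) hu ⟨ht, hq⟩ hCn (lab h c i k (LPart k G))

/-- `J` gives paths -/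
theorem cn_of_J {s t : Fin 3 × Fin h}
    (hJ : J (lab h c i k (LPart k G)) (lab h c k j (RPart k G)) s t) :
    Cn c G (cl i k j s) (cl i k j t) := by
  induction hJ with
  | refl => exact Relation.ReflTransGen.refl
  | tail _ h2 ih =>
    refine ih.trans ?_
    rcases h2 with ⟨x, hx, rfl, rfl⟩ | ⟨x, hx, rfl, rfl⟩
    · rw [cl_e1, cl_e1]
      exact cn_mono (fun _ h => h.1) hx.2.2
    · rw [cl_e2, cl_e2]
      exact cn_mono (fun _ h => h.1) hx.2.2

/-- a bond lies on one side -/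
theorem bond_side (hk : c k ≠ []) :
    (∃ p ∈ G, ∃ q ∈ G, SBond c p q) ↔
      (∃ p ∈ LPart k G, ∃ q ∈ LPart k G, SBond c p q) ∨ ∃ p ∈ RPart k G, ∃ q ∈ RPart k G, SBond c p q := by
  constructor
  · rintro ⟨p, hp, q, hq, hb⟩
    by_cases h1 : p.1 ≤ k ∧ q.1 ≤ k
    · exact Or.inl ⟨p, ⟨hp, h1.1⟩, q, ⟨hq, h1.2⟩, hb⟩
    · have h2 := no_jump hk hb
      exact Or.inr ⟨p, ⟨hp, by omega⟩, q, ⟨hq, by omega⟩, hb⟩
  · rintro (⟨p, hp, q, hq, hb⟩ | ⟨p, hp, q, hq, hb⟩)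
    · exact ⟨p, hp.1, q, hq.1, hb⟩
    · exact ⟨p, hp.1, q, hq.1, hb⟩

/-- from every cell there is a path to a cell in one of the columns `i`, `j`, `k` -/
theorem reach (hev : Ev c i j G) {r : ℕ} (hr : (k, r) ∈ G) {p : ℕ × ℕ} (hp : p ∈ G) :
    ∃ q ∈ G, (q.1 = i ∨ q.1 = j ∨ q.1 = k) ∧ Cn c G p q := by
  by_cases hv : Vis i j G
  · obtain ⟨q, hq, h1, h2⟩ := hev.attach hv p hp
    exact ⟨q, hq, h1.imp_right Or.inl, h2⟩
  · exact ⟨(k, r), hr, Or.inr (Or.inr rfl), (hev.inner hv).1 p hp _ hr⟩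

theorem ev_left (hik : i < k) (hkj : k < j) (hk : c k ≠ []) (hev : Ev c i j G) {r : ℕ}
    (hr : (k, r) ∈ G) : Ev c i k (LPart k G) where
  sub := fun p hp => ⟨(hev.sub p hp.1).1, hp.2, (hev.sub p hp.1).2.2⟩
  closed := fun p q hp h1 h2 hb => ⟨hev.closed p q hp.1 h1 (by omega) hb, h2⟩
  attach := by
    intro _ p hp
    obtain ⟨q, hq, h1, h2⟩ := reach hev hr hp.1
    obtain ⟨-, h3⟩ := first (fun x => x ≤ k) (hAL hk) h2 hp.2 hp.1
    rcases h3 with ⟨h4, h5⟩ | ⟨m, h4, h5, h6, h7, -⟩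
    · refine ⟨q, ⟨hq, h4⟩, ?_, h5⟩
      omega
    · exact ⟨m, ⟨h4, h6⟩, Or.inr h5, h7⟩
  span := by
    rintro ⟨p, hp, hpi⟩ -
    have key : ∀ p' q' : ℕ × ℕ, p' ∈ G → p'.1 = i → k ≤ q'.1 → Cn c G p' q' →
        ∃ p ∈ LPart k G, ∃ q ∈ LPart k G, p.1 = i ∧ q.1 = k ∧ Cn c (LPart k G) p q := by
      intro p' q' hp' hi hq' hcn
      obtain ⟨hqG, h3⟩ := first (fun x => x ≤ k) (hAL hk) hcn (by show p'.1 ≤ k; omega) hp'
      rcases h3 with ⟨h4, h5⟩ | ⟨m, h4, h5, h6, h7, -⟩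
      · have h4' : q'.1 ≤ k := h4
        exact ⟨p', ⟨hp', by omega⟩, q', ⟨hqG, h4'⟩, hi, by omega, h5⟩
      · exact ⟨p', ⟨hp', by omega⟩, m, ⟨h4, h6⟩, hi, h5, h7⟩
    by_cases hj : ∃ q ∈ G, q.1 = j
    · obtain ⟨p', hp', q', hq', h1, h2, h3⟩ := hev.span ⟨p, hp.1, hpi⟩ hj
      exact key p' q' hp' h1 (by omega) h3
    · obtain ⟨q, hq, h1, h2⟩ := hev.attach ⟨p, hp.1, Or.inl hpi⟩ (k, r) hr
      have h3 : q.1 = i := by
        rcases h1 with h1 | h1
        · exact h1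
        · exact absurd ⟨q, hq, h1⟩ hj
      exact key q (k, r) hq h3 le_rfl (cn_symm h2)
  inner := fun hv => absurd ⟨(k, r), ⟨hr, le_rfl⟩, Or.inr rfl⟩ hv

theorem ev_right (hik : i < k) (hkj : k < j) (hk : c k ≠ []) (hev : Ev c i j G) {r : ℕ}
    (hr : (k, r) ∈ G) : Ev c k j (RPart k G) where
  sub := fun p hp => ⟨hp.2, (hev.sub p hp.1).2.1, (hev.sub p hp.1).2.2⟩
  closed := fun p q hp h1 h2 hb => ⟨hev.closed p q hp.1 (by omega) h2 hb, h1⟩
  attach := by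
    intro _ p hp
    obtain ⟨q, hq, h1, h2⟩ := reach hev hr hp.1
    obtain ⟨-, h3⟩ := first (fun x => k ≤ x) (hAR hk) h2 hp.2 hp.1
    rcases h3 with ⟨h4, h5⟩ | ⟨m, h4, h5, h6, h7, -⟩
    · refine ⟨q, ⟨hq, h4⟩, ?_, h5⟩
      omega
    · exact ⟨m, ⟨h4, h6⟩, Or.inl h5, h7⟩
  span := by
    rintro - ⟨p, hp, hpj⟩
    have key : ∀ p' q' : ℕ × ℕ, p' ∈ G → p'.1 = j → q'.1 ≤ k → Cn c G p' q' →
        ∃ p ∈ RPart k G, ∃ q ∈ RPart k G, p.1 = k ∧ q.1 = j ∧ Cn c (RPart k G) p q := by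
      intro p' q' hp' hi hq' hcn
      obtain ⟨hqG, h3⟩ := first (fun x => k ≤ x) (hAR hk) hcn (by show k ≤ p'.1; omega) hp'
      rcases h3 with ⟨h4, h5⟩ | ⟨m, h4, h5, h6, h7, -⟩
      · have h4' : k ≤ q'.1 := h4
        exact ⟨q', ⟨hqG, h4'⟩, p', ⟨hp', by omega⟩, by omega, hi, cn_symm h5⟩
      · exact ⟨m, ⟨h4, h6⟩, p', ⟨hp', by omega⟩, h5, hi, cn_symm h7⟩
    by_cases hj : ∃ q ∈ G, q.1 = i
    · obtain ⟨p', hp', q', hq', h1, h2, h3⟩ := hev.span hj ⟨p, hp.1, hpj⟩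
      exact key q' p' hq' h2 (by omega) (cn_symm h3)
    · obtain ⟨q, hq, h1, h2⟩ := hev.attach ⟨p, hp.1, Or.inr hpj⟩ (k, r) hr
      have h3 : q.1 = j := by
        rcases h1 with h1 | h1
        · exact absurd ⟨q, hq, h1⟩ hj
        · exact h1
      exact key q (k, r) hq h3 le_rfl (cn_symm h2)
  inner := fun hv => absurd ⟨(k, r), ⟨hr, le_rfl⟩, Or.inl rfl⟩ hv

theorem vis_of_visL (hik : i < k) (hkj : k < j) :
    VisL (lab h c i k (LPart k G)) (lab h c k j (RPart k G)) → Vis i j G := by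
  rintro (⟨r, hr⟩ | ⟨r, hr⟩)
  · exact ⟨_, hr.1, Or.inl rfl⟩
  · exact ⟨_, hr.1, Or.inr rfl⟩

theorem visL_of_vis (hik : i < k) (hkj : k < j) (hlen : ∀ l, (c l).length ≤ h)
    (hev : Ev c i j G) (hv : Vis i j G) :
    VisL (lab h c i k (LPart k G)) (lab h c k j (RPart k G)) := by
  obtain ⟨p, hp, h1 | h1⟩ := hv
  · left
    have hr := row_lt hlen hev hp
    refine ⟨⟨p.2, hr⟩, ?_, ?_⟩
    · have : (i, ((⟨p.2, hr⟩ : Fin h) : ℕ)) = p := Prod.ext h1.symm rfl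
      rw [this]; exact hp
    · show i ≤ k
      omega
  · right
    have hr := row_lt hlen hev hp
    refine ⟨⟨p.2, hr⟩, ?_, ?_⟩
    · have : (j, ((⟨p.2, hr⟩ : Fin h) : ℕ)) = p := Prod.ext h1.symm rfl
      rw [this]; exact hp
    · show k ≤ j
      omega

theorem ok_split (hik : i < k) (hkj : k < j) (hk : c k ≠ []) (hlen : ∀ l, (c l).length ≤ h)
    (hev : Ev c i j G) {r : ℕ} (hr : (k, r) ∈ G) :
    Ok (lab h c i k (LPart k G)) (lab h c k j (RPart k G)) where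
  eq := by
    ext x
    constructor
    · intro hx
      exact ⟨hx.1, le_rfl⟩
    · intro hx
      exact ⟨hx.1, le_rfl⟩
  ne := by
    have hlt : r < h := row_lt hlen hev hr
    exact ⟨⟨r, hlt⟩, hr, le_rfl⟩
  attach := by
    intro hv x hx
    obtain ⟨q, hq, h1, h2⟩ := hev.attach (vis_of_visL hik hkj hv) (k, (x : ℕ)) hx.1
    have hqr := row_lt hlen hev hq
    rcases h1 with h1 | h1
    · left
      have e : (i, ((⟨q.2, hqr⟩ : Fin h) : ℕ)) = q := Prod.ext h1.symm rfl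
      refine ⟨⟨q.2, hqr⟩, ⟨by rw [e]; exact hq, ?_⟩, ?_⟩
      · show i ≤ k
        omega
      · refine J_of_cn hik hkj hk hlen hev _ _ ?_ ?_
        · simpa [cl] using hx.1
        · have e2 : cl i k j ((0 : Fin 3), (⟨q.2, hqr⟩ : Fin h)) = q := by
            simp [cl, ← h1]
          rw [e2]
          simpa [cl] using h2
    · right
      have e : (j, ((⟨q.2, hqr⟩ : Fin h) : ℕ)) = q := Prod.ext h1.symm rfl
      refine ⟨⟨q.2, hqr⟩, ⟨by rw [e]; exact hq, ?_⟩, ?_⟩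
      · show k ≤ j
        omega
      · refine J_of_cn hik hkj hk hlen hev _ _ ?_ ?_
        · simpa [cl] using hx.1
        · have e2 : cl i k j ((2 : Fin 3), (⟨q.2, hqr⟩ : Fin h)) = q := by
            simp [cl, ← h1]
          rw [e2]
          simpa [cl] using h2
  span := by
    rintro ⟨a, ha⟩ ⟨b, hb⟩
    obtain ⟨p, hp, q, hq, h1, h2, h3⟩ := hev.span ⟨_, ha.1, rfl⟩ ⟨_, hb.1, rfl⟩
    have hpr := row_lt hlen hev hp
    have hqr := row_lt hlen hev hq
    have e : (i, ((⟨p.2, hpr⟩ : Fin h) : ℕ)) = p := Prod.ext h1.symm rfl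
    have e' : (j, ((⟨q.2, hqr⟩ : Fin h) : ℕ)) = q := Prod.ext h2.symm rfl
    refine ⟨⟨p.2, hpr⟩, ⟨by rw [e]; exact hp, ?_⟩, ⟨q.2, hqr⟩, ⟨by rw [e']; exact hq, ?_⟩, ?_⟩
    · show i ≤ k
      omega
    · show k ≤ j
      omega
    · have e2 : cl i k j ((0 : Fin 3), (⟨p.2, hpr⟩ : Fin h)) = p := by
        simp [cl, ← h1]
      have e3 : cl i k j ((2 : Fin 3), (⟨q.2, hqr⟩ : Fin h)) = q := by
        simp [cl, ← h2]
      refine J_of_cn hik hkj hk hlen hev _ _ ?_ ?_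
      · rw [e2]; exact hp
      · rw [e2, e3]; exact h3
  inner := by
    intro hv
    have hnv : ¬ Vis i j G := fun h' => hv (visL_of_vis hik hkj hlen hev h')
    obtain ⟨h1, h2⟩ := hev.inner hnv
    refine ⟨?_, ?_⟩
    · intro x hx y hy
      refine J_of_cn hik hkj hk hlen hev _ _ ?_ ?_
      · simpa [cl] using hx.1
      · simpa [cl] using h1 _ hx.1 _ hy.1
    · exact (bond_side hk).mp h2

theorem lab_split (hik : i < k) (hkj : k < j) (hk : c k ≠ []) (hlen : ∀ l, (c l).length ≤ h)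
    (hev : Ev c i j G) :
    lab h c i j G = comp (lab h c i k (LPart k G)) (lab h c k j (RPart k G)) := by
  have hi : ∀ x : Fin h, (i, (x : ℕ)) ∈ LPart k G ↔ (i, (x : ℕ)) ∈ G := fun x =>
    ⟨fun h => h.1, fun h => ⟨h, by show i ≤ k; omega⟩⟩
  have hj : ∀ x : Fin h, (j, (x : ℕ)) ∈ RPart k G ↔ (j, (x : ℕ)) ∈ G := fun x =>
    ⟨fun h => h.1, fun h => ⟨h, by show k ≤ j; omega⟩⟩
  have hin : ∀ s : Bool × Fin h, nd i j s ∈ G ↔
      InL (lab h c i k (LPart k G)) (lab h c k j (RPart k G)) s := by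
    rintro ⟨b, x⟩
    cases b
    · constructor
      · intro hx
        refine ⟨fun _ => (hi x).mpr (by simpa [nd] using hx), fun h => by simp at h⟩
      · intro hx
        have := (hi x).mp (hx.1 rfl)
        simpa [nd] using this
    · constructor
      · intro hx
        refine ⟨fun h => by simp at h, fun _ => (hj x).mpr (by simpa [nd] using hx)⟩
      · intro hx
        have := (hj x).mp (hx.2 rfl)
        simpa [nd] using this
  refine Prod.ext ?_ (Prod.ext ?_ (Prod.ext ?_ ?_))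
  · ext x
    exact (hi x).symm
  · ext x
    exact (hj x).symm
  · ext ⟨s, t⟩
    show (nd i j s ∈ G ∧ nd i j t ∈ G ∧ Cn c G (nd i j s) (nd i j t)) ↔
      (InL _ _ s ∧ InL _ _ t ∧ J (lab h c i k (LPart k G)) (lab h c k j (RPart k G)) (e3 s) (e3 t))
    rw [hin s, hin t]
    constructor
    · rintro ⟨h1, h2, h3⟩
      refine ⟨h1, h2, J_of_cn hik hkj hk hlen hev _ _ ?_ ?_⟩
      · rw [cl_e3]; exact (hin s).mpr h1
      · rw [cl_e3, cl_e3]; exact h3
    · rintro ⟨h1, h2, h3⟩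
      refine ⟨h1, h2, ?_⟩
      have := cn_of_J h3
      rwa [cl_e3, cl_e3] at this
  · exact propext (bond_side hk)

/-- if `G` does not meet column `k`, paths stay on one side -/
theorem stay (hk : c k ≠ []) (hn : ¬ ∃ r, (k, r) ∈ G) {p q : ℕ × ℕ} (hp : p ∈ G)
    (hc : Cn c G p q) : q ∈ G ∧ (p.1 < k → q.1 < k) ∧ (k < p.1 → k < q.1) := by
  have hne : ∀ x ∈ G, x.1 ≠ k := by
    intro x hx hxk
    exact hn ⟨x.2, by rw [← hxk]; exact hx⟩
  induction hc with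
  | refl => exact ⟨hp, id, id⟩
  | @tail b d _ h2 ih =>
    have h3 := no_jump hk h2.2.2
    have h4 := hne d h2.2.1
    have h5 := hne b h2.1
    refine ⟨h2.2.1, fun h => ?_, fun h => ?_⟩
    · have := ih.2.1 h
      omega
    · have := ih.2.2 h
      omega

end

end SPLIT_

open SPLIT_ in
theorem tSPLIT : T_SPLIT := by
  intro h c i k j G hik hkj hk hlen hev
  constructor
  · rintro ⟨r, hr⟩
    exact ⟨ev_left hik hkj hk hev hr, ev_right hik hkj hk hev hr,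
      ok_split hik hkj hk hlen hev hr, lab_split hik hkj hk hlen hev⟩
  · intro hn
    have hne : ∀ x ∈ G, x.1 ≠ k := by
      intro x hx hxk
      exact hn ⟨x.2, by rw [← hxk]; exact hx⟩
    have hside : (∀ p ∈ G, p.1 < k) ∨ ∀ p ∈ G, k < p.1 := by
      by_contra hcon
      push Not at hcon
      obtain ⟨⟨p, hp, h1⟩, ⟨q, hq, h2⟩⟩ := hcon
      have h3 : k < p.1 := lt_of_le_of_ne h1 (hne p hp).symm
      have h4 : q.1 < k := lt_of_le_of_ne h2 (hne q hq)
      by_cases hv : Vis i j G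
      · obtain ⟨p', hp', h5, h6⟩ := hev.attach hv p hp
        obtain ⟨q', hq', h7, h8⟩ := hev.attach hv q hq
        have h9 := (stay hk hn hp h6).2.2 h3
        have h10 := (stay hk hn hq h8).2.1 h4
        obtain ⟨a, ha, b, hb, h11, h12, h13⟩ := hev.span ⟨q', hq', by omega⟩ ⟨p', hp', by omega⟩
        have := (stay hk hn ha h13).2.1 (by omega)
        omega
      · have := (stay hk hn hq ((hev.inner hv).1 q hq p hp)).2.1 h4
        omega
    rcases hside with hs | hs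
    · refine Or.inl ⟨hs, ?_⟩
      have hvis : Vis i k G ↔ Vis i j G := by
        constructor
        · rintro ⟨p, hp, h1 | h1⟩
          · exact ⟨p, hp, Or.inl h1⟩
          · exact absurd h1 (hne p hp)
        · rintro ⟨p, hp, h1 | h1⟩
          · exact ⟨p, hp, Or.inl h1⟩
          · have := hs p hp
            omega
      exact
        { sub := fun p hp => ⟨(hev.sub p hp).1, (hs p hp).le, (hev.sub p hp).2.2⟩
          closed := fun p q hp h1 h2 hb => hev.closed p q hp h1 (by omega) hb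
          attach := by
            intro hv p hp
            obtain ⟨q, hq, h1, h2⟩ := hev.attach (hvis.mp hv) p hp
            have := hs q hq
            exact ⟨q, hq, Or.inl (by omega), h2⟩
          span := by
            rintro - ⟨p, hp, h1⟩
            exact absurd h1 (hne p hp)
          inner := fun hv => hev.inner (fun h' => hv (hvis.mpr h')) }
    · refine Or.inr ⟨hs, ?_⟩
      have hvis : Vis k j G ↔ Vis i j G := by
        constructor
        · rintro ⟨p, hp, h1 | h1⟩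
          · exact absurd h1 (hne p hp)
          · exact ⟨p, hp, Or.inr h1⟩
        · rintro ⟨p, hp, h1 | h1⟩
          · have := hs p hp
            omega
          · exact ⟨p, hp, Or.inr h1⟩
      exact
        { sub := fun p hp => ⟨(hs p hp).le, (hev.sub p hp).2.1, (hev.sub p hp).2.2⟩
          closed := fun p q hp h1 h2 hb => hev.closed p q hp (by omega) h2 hb
          attach := by
            intro hv p hp
            obtain ⟨q, hq, h1, h2⟩ := hev.attach (hvis.mp hv) p hp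
            have := hs q hq
            exact ⟨q, hq, Or.inr (by omega), h2⟩
          span := by
            rintro ⟨p, hp, h1⟩
            exact absurd h1 (hne p hp)
          inner := fun hv => hev.inner (fun h' => hv (hvis.mpr h')) }

end Pool.Agent.Clk
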