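import Pool.Agent.Clk.Base

set_option autoImplicit false

/-!
# The game on two columns in terms of the set of the remaining pairs
-/

namespace Pool.Agent.Clk

open Relation

section
variable {α : Type}

theorem rst_sdiff {S : Set α} {a : α} {l : List α} (h : a ∉ l) : rst (S \ {a}) l = rst S l := by
  unfold rst
  apply List.filter_congr
  intro b hb
  have : b ≠ a := fun h' => h (h' ▸ hb)
  simp [this]

theorem count_rst [DecidableEq α] (S : Set α) (a : α) (l : List α) (ha : a ∈ S) :
    (rst S l).count a = l.count a := by
  unfold rst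
  rw [List.count_filter]
  simpa using ha

/-- removing all `a` from a restricted list -/
theorem rst_remove [DecidableEq α] (S : Set α) (a : α) (l : List α) :
    rst (S \ {a}) l = (rst S l).filter fun b => decide (b ≠ a) := by
  classical
  unfold rst
  rw [List.filter_filter]
  apply List.filter_congr
  intro b _
  by_cases h1 : b ∈ S <;> by_cases h2 : b = a <;> simp [h1, h2]

theorem filter_ne_of_not_mem [DecidableEq α] {a : α} {l : List α} (h : a ∉ l) :
    (l.filter fun b => decide (b ≠ a)) = l := by
  rw [List.filter_eq_self]
  intro b hb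
  have : b ≠ a := fun h' => h (h' ▸ hb)
  simpa using this

/-- one move of the set game is a move of the list game -/
theorem mv_of_smv [DecidableEq α] {L R : List α} (hT : Twice L R) {S S' : Set α}
    (hS : ∀ a ∈ S, a ∈ L ++ R) (h : SMv L R S S') :
    Mv (rst S L, rst S R) (rst S' L, rst S' R) := by
  obtain ⟨a, ha, hR, rfl⟩ := h
  have hc := hT a (hS a ha)
  have cL := count_rst S a L ha
  have cR := count_rst S a R ha
  rw [rst_remove S a L, rst_remove S a R]
  rcases hR with ⟨s, t, h⟩ | ⟨s, t, h⟩ | ⟨s, t, s', t', hl, h, h'⟩
  · rw [h] at cL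
    simp only [List.count_append, List.count_cons_self] at cL
    have h1 : a ∉ s := List.count_eq_zero.1 (by omega)
    have h2 : a ∉ t := List.count_eq_zero.1 (by omega)
    have h3 : a ∉ rst S R := List.count_eq_zero.1 (by omega)
    rw [filter_ne_of_not_mem h3, h]
    have e : ((s ++ a :: a :: t).filter fun b => decide (b ≠ a)) = s ++ t := by
      rw [List.filter_append, filter_ne_of_not_mem h1]
      simp [filter_ne_of_not_mem h2]
      intro b hb h'
      exact h2 (h' ▸ hb)
    rw [e]
    exact Mv.left s t _ a
  · rw [h] at cR
    simp only [List.count_append, List.count_cons_self] at cR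
    have h1 : a ∉ s := List.count_eq_zero.1 (by omega)
    have h2 : a ∉ t := List.count_eq_zero.1 (by omega)
    have h3 : a ∉ rst S L := List.count_eq_zero.1 (by omega)
    rw [filter_ne_of_not_mem h3, h]
    have e : ((s ++ a :: a :: t).filter fun b => decide (b ≠ a)) = s ++ t := by
      rw [List.filter_append, filter_ne_of_not_mem h1]
      simp [filter_ne_of_not_mem h2]
      intro b hb h'
      exact h2 (h' ▸ hb)
    rw [e]
    exact Mv.right _ s t a
  · rw [h] at cL
    rw [h'] at cR
    simp only [List.count_append, List.count_cons_self] at cL cR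
    have h1 : a ∉ s := List.count_eq_zero.1 (by omega)
    have h2 : a ∉ t := List.count_eq_zero.1 (by omega)
    have h3 : a ∉ s' := List.count_eq_zero.1 (by omega)
    have h4 : a ∉ t' := List.count_eq_zero.1 (by omega)
    have e : ∀ p q : List α, a ∉ p → a ∉ q →
        ((p ++ a :: q).filter fun b => decide (b ≠ a)) = p ++ q := by
      intro p q hp hq
      rw [List.filter_append, filter_ne_of_not_mem hp, List.filter_cons_of_neg (by simp),
        filter_ne_of_not_mem hq]
    rw [h, h', e s t h1 h2, e s' t' h3 h4]
    exact Mv.cross s t s' t' a hl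

/-- one move of the list game is a move of the set game -/
theorem smv_of_mv [DecidableEq α] {L R : List α} (hT : Twice L R) {S : Set α}
    {x : List α × List α} (h : Mv (rst S L, rst S R) x) :
    ∃ S', SMv L R S S' ∧ x = (rst S' L, rst S' R) := by
  have key : ∀ a, a ∈ S → Rem L R S a → ∃ S', SMv L R S S' ∧
      (rst S' L, rst S' R) = ((rst S L).filter (fun b => decide (b ≠ a)),
        (rst S R).filter fun b => decide (b ≠ a)) := by
    intro a ha hR
    exact ⟨S \ {a}, ⟨a, ha, hR, rfl⟩, by rw [rst_remove, rst_remove]⟩
  generalize hp : (rst S L, rst S R) = p at h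
  cases h with
  | left s t R' a =>
    obtain ⟨h, hR'⟩ := Prod.mk.injEq .. ▸ hp
    have haS : a ∈ rst S L := by rw [h]; simp
    have hc := hT a (List.mem_append_left _ (mem_rst.1 haS).1)
    have cL := count_rst S a L (mem_rst.1 haS).2
    have cR := count_rst S a R (mem_rst.1 haS).2
    rw [h] at cL
    simp only [List.count_append, List.count_cons_self] at cL
    have h1 : a ∉ s := List.count_eq_zero.1 (by omega)
    have h2 : a ∉ t := List.count_eq_zero.1 (by omega)
    have h3 : a ∉ rst S R := List.count_eq_zero.1 (by omega)
    obtain ⟨S', g1, g2⟩ := key a (mem_rst.1 haS).2 (Or.inl ⟨s, t, h⟩)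
    refine ⟨S', g1, ?_⟩
    rw [g2, filter_ne_of_not_mem h3, h, hR']
    congr 1
    rw [List.filter_append, filter_ne_of_not_mem h1, List.filter_cons_of_neg (by simp),
      List.filter_cons_of_neg (by simp), filter_ne_of_not_mem h2]
  | right L' s t a =>
    obtain ⟨hL', h⟩ := Prod.mk.injEq .. ▸ hp
    have haS : a ∈ rst S R := by rw [h]; simp
    have hc := hT a (List.mem_append_right _ (mem_rst.1 haS).1)
    have cL := count_rst S a L (mem_rst.1 haS).2
    have cR := count_rst S a R (mem_rst.1 haS).2
    rw [h] at cR
    simp only [List.count_append, List.count_cons_self] at cR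
    have h1 : a ∉ s := List.count_eq_zero.1 (by omega)
    have h2 : a ∉ t := List.count_eq_zero.1 (by omega)
    have h3 : a ∉ rst S L := List.count_eq_zero.1 (by omega)
    obtain ⟨S', g1, g2⟩ := key a (mem_rst.1 haS).2 (Or.inr (Or.inl ⟨s, t, h⟩))
    refine ⟨S', g1, ?_⟩
    rw [g2, filter_ne_of_not_mem h3, h, hL']
    congr 1
    rw [List.filter_append, filter_ne_of_not_mem h1, List.filter_cons_of_neg (by simp),
      List.filter_cons_of_neg (by simp), filter_ne_of_not_mem h2]
  | cross s t s' t' a hl =>
    obtain ⟨h, h'⟩ := Prod.mk.injEq .. ▸ hp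
    have haS : a ∈ rst S L := by rw [h]; simp
    have haR : a ∈ rst S R := by rw [h']; simp
    have hc := hT a (List.mem_append_left _ (mem_rst.1 haS).1)
    have cL := count_rst S a L (mem_rst.1 haS).2
    have cR := count_rst S a R (mem_rst.1 haS).2
    rw [h] at cL
    rw [h'] at cR
    simp only [List.count_append, List.count_cons_self] at cL cR
    have h1 : a ∉ s := List.count_eq_zero.1 (by omega)
    have h2 : a ∉ t := List.count_eq_zero.1 (by omega)
    have h3 : a ∉ s' := List.count_eq_zero.1 (by omega)
    have h4 : a ∉ t' := List.count_eq_zero.1 (by omega)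
    obtain ⟨S', g1, g2⟩ := key a (mem_rst.1 haS).2 (Or.inr (Or.inr ⟨s, t, s', t', hl, h, h'⟩))
    refine ⟨S', g1, ?_⟩
    have e : ∀ p q : List α, a ∉ p → a ∉ q →
        ((p ++ a :: q).filter fun b => decide (b ≠ a)) = p ++ q := by
      intro p q hp hq
      rw [List.filter_append, filter_ne_of_not_mem hp, List.filter_cons_of_neg (by simp),
        filter_ne_of_not_mem hq]
    rw [g2, h, h', e s t h1 h2, e s' t' h3 h4]

theorem set_game [DecidableEq α] (L R : List α) (hT : Twice L R) :
    Clr L R ↔ ReflTransGen (SMv L R) {a | a ∈ L ++ R} ∅ := by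
  have full : ∀ l : List α, (∀ a ∈ l, a ∈ ({a | a ∈ L ++ R} : Set α)) →
      rst {a | a ∈ L ++ R} l = l := by
    intro l h
    unfold rst
    rw [List.filter_eq_self]
    intro a ha
    simpa using h a ha
  have eL := full L (fun a ha => List.mem_append_left _ ha)
  have eR := full R (fun a ha => List.mem_append_right _ ha)
  constructor
  · intro h
    have key : ∀ x : List α × List α, ReflTransGen Mv x ([], []) → ∀ S : Set α,
        (∀ a ∈ S, a ∈ L ++ R) → x = (rst S L, rst S R) → ReflTransGen (SMv L R) S ∅ := by
      intro x hx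
      induction hx using ReflTransGen.head_induction_on with
      | refl =>
        intro S hS h
        have h' := Prod.mk.inj h
        have : S = ∅ := by
          ext a
          simp only [Set.mem_empty_iff_false, iff_false]
          intro ha
          rcases List.mem_append.1 (hS a ha) with h1 | h1
          · have : a ∈ rst S L := mem_rst.2 ⟨h1, ha⟩
            rw [← h'.1] at this
            simp at this
          · have : a ∈ rst S R := mem_rst.2 ⟨h1, ha⟩
            rw [← h'.2] at this
            simp at this
        rw [this]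
      | head hstep _ ih =>
        intro S hS h
        subst h
        obtain ⟨S', h1, h2⟩ := smv_of_mv hT hstep
        refine ReflTransGen.head h1 (ih S' ?_ h2)
        obtain ⟨a, -, -, rfl⟩ := h1
        intro b hb
        exact hS b hb.1
    exact key (L, R) h _ (fun a ha => ha) (by rw [eL, eR])
  · intro h
    have key : ∀ S S' : Set α, ReflTransGen (SMv L R) S S' → (∀ a ∈ S, a ∈ L ++ R) →
        ReflTransGen Mv (rst S L, rst S R) (rst S' L, rst S' R) := by
      intro S S' h
      induction h using ReflTransGen.head_induction_on with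
      | refl => intro _; exact ReflTransGen.refl
      | head hstep _ ih =>
        intro hS
        refine ReflTransGen.head (mv_of_smv hT hS hstep) (ih ?_)
        obtain ⟨a, -, -, rfl⟩ := hstep
        intro b hb
        exact hS b hb.1
    have h1 := key _ _ h (fun a ha => ha)
    rw [eL, eR] at h1
    have e0 : ∀ l : List α, rst (∅ : Set α) l = [] := by
      intro l
      unfold rst
      rw [List.filter_eq_nil_iff]
      intro a _
      simp
    rw [e0, e0] at h1
    exact h1

theorem mv_map {β : Type} (f : α → β) {x y : List α × List α} (h : Mv x y) :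
    Mv (x.1.map f, x.2.map f) (y.1.map f, y.2.map f) := by
  cases h with
  | left s t R a => simpa using Mv.left (s.map f) (t.map f) (R.map f) (f a)
  | right L s t a => simpa using Mv.right (L.map f) (s.map f) (t.map f) (f a)
  | cross s t s' t' a hl =>
    simpa using Mv.cross (s.map f) (t.map f) (s'.map f) (t'.map f) (f a) (by simpa using hl)

theorem map_split {β : Type} {f : α → β} {l : List α} {p q : List β} {b : β}
    (h : l.map f = p ++ b :: q) : ∃ s a t, l = s ++ a :: t ∧ s.map f = p ∧ f a = b ∧ t.map f = q := by
  obtain ⟨s, t', h1, h2, h3⟩ := List.map_eq_append_iff.1 h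
  obtain ⟨a, t, h4, h5, h6⟩ := List.map_eq_cons_iff.1 h3
  exact ⟨s, a, t, by rw [h1, h4], h2, h5, h6⟩

theorem mv_unmap {β : Type} (f : α → β) (hf : Function.Injective f) {L R : List α}
    {y : List β × List β} (h : Mv (L.map f, R.map f) y) :
    ∃ L' R', Mv (L, R) (L', R') ∧ y = (L'.map f, R'.map f) := by
  generalize hp : (L.map f, R.map f) = p at h
  cases h with
  | left s t R' b =>
    obtain ⟨h, hR'⟩ := Prod.mk.inj hp
    obtain ⟨s1, a1, t1, e1, e2, e3, e4⟩ := map_split h
    obtain ⟨a2, t2, e5, e6, e7⟩ := List.map_eq_cons_iff.1 e4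
    have e8 : a1 = a2 := hf (by rw [e3, e6])
    subst e8
    refine ⟨s1 ++ t2, R, ?_, ?_⟩
    · rw [e1, e5]
      exact Mv.left s1 t2 R a1
    · rw [List.map_append, e2, e7, hR']
  | right L' s t b =>
    obtain ⟨hL', h⟩ := Prod.mk.inj hp
    obtain ⟨s1, a1, t1, e1, e2, e3, e4⟩ := map_split h
    obtain ⟨a2, t2, e5, e6, e7⟩ := List.map_eq_cons_iff.1 e4
    have e8 : a1 = a2 := hf (by rw [e3, e6])
    subst e8
    refine ⟨L, s1 ++ t2, ?_, ?_⟩
    · rw [e1, e5]
      exact Mv.right L s1 t2 a1
    · rw [List.map_append, e2, e7, hL']
  | cross s t s' t' b hl =>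
    obtain ⟨h, h'⟩ := Prod.mk.inj hp
    obtain ⟨s1, a1, t1, e1, e2, e3, e4⟩ := map_split h
    obtain ⟨s2, a2, t2, f1, f2, f3, f4⟩ := map_split h'
    have e8 : a1 = a2 := hf (by rw [e3, f3])
    subst e8
    refine ⟨s1 ++ t1, s2 ++ t2, ?_, ?_⟩
    · rw [e1, f1]
      refine Mv.cross s1 t1 s2 t2 a1 ?_
      rw [← e2, ← f2, List.length_map, List.length_map] at hl
      exact hl
    · rw [List.map_append, List.map_append, e2, e4, f2, f4]

theorem clr_map {β : Type} (f : α → β) (L R : List α) (hf : Function.Injective f) :
    Clr (L.map f) (R.map f) ↔ Clr L R := by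
  constructor
  · intro h
    have key : ∀ x : List β × List β, ReflTransGen Mv x ([], []) → ∀ L R : List α,
        x = (L.map f, R.map f) → Clr L R := by
      intro x hx
      induction hx using ReflTransGen.head_induction_on with
      | refl =>
        intro L R h
        have h' := Prod.mk.inj h
        have h1 : L = [] := by simpa using h'.1.symm
        have h2 : R = [] := by simpa using h'.2.symm
        rw [h1, h2]
        exact ReflTransGen.refl
      | head hstep _ ih =>
        intro L R h
        subst h
        obtain ⟨L', R', h1, h2⟩ := mv_unmap f hf hstep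
        exact ReflTransGen.head h1 (ih L' R' h2)
    exact key _ h L R rfl
  · intro h
    have key : ∀ x y : List α × List α, ReflTransGen Mv x y →
        ReflTransGen Mv (x.1.map f, x.2.map f) (y.1.map f, y.2.map f) := by
      intro x y h
      induction h with
      | refl => exact ReflTransGen.refl
      | tail _ hstep ih => exact ReflTransGen.tail ih (mv_map f hstep)
    exact key _ _ h

end

theorem tSET : T_SET := ⟨fun L R h => set_game L R h, fun f L R hf => clr_map f L R hf⟩

end Pool.Agent.Clk
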