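import Pool.Agent.Clk.PosZ

set_option autoImplicit false

/-!
# Clearing the columns gives a vertex cover
-/

namespace Pool.Agent.Clk

open Nm

section
variable {N k : ℕ} {E : List (ℕ × ℕ)}

theorem mem_gads {f : ℕ × ℕ → ℕ → List Nm} {a : Nm} (h : a ∈ gads f E 0) :
    ∃ e u v, E[e]? = some (u, v) ∧ a ∈ f (u, v) e := by
  rw [gads, List.mem_flatMap] at h
  obtain ⟨⟨⟨u, v⟩, e⟩, h1, h2⟩ := h
  exact ⟨e, u, v, List.mem_zipIdx_iff_getElem?.1 h1, h2⟩

theorem mem_gadL {n P e : ℕ} {a : Nm} (hP : 2 * P ≤ n) (h : a ∈ gadL n P e) :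
    (a = cc e ∨ a = cp e ∨ a = dd e ∨ a = dp e ∨ a = gg e) ∨ ∃ i, i < n ∧ a = zz e i := by
  simp only [gadL, List.mem_append, List.mem_map, List.mem_cons, List.not_mem_nil, or_false,
    List.mem_range] at h
  rcases h with ((⟨i, hi, rfl⟩ | rfl | rfl) | ⟨i, hi, rfl⟩) | rfl | rfl | rfl
  · exact Or.inr ⟨i, by omega, rfl⟩
  · simp
  · simp
  · exact Or.inr ⟨2 * P + i, by omega, rfl⟩
  · simp
  · simp
  · simp

theorem mem_gadR {n Q e : ℕ} {a : Nm} (hQ : 2 * Q ≤ n) (h : a ∈ gadR n Q e) :
    (a = cc e ∨ a = cp e ∨ a = dd e ∨ a = dp e ∨ a = gg e) ∨ ∃ i, i < n ∧ a = zz e i := by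
  simp only [gadR, List.mem_append, List.mem_map, List.mem_cons, List.not_mem_nil, or_false,
    List.mem_range] at h
  rcases h with (((rfl | rfl | rfl) | ⟨i, hi, rfl⟩) | rfl | rfl) | ⟨i, hi, rfl⟩
  · simp
  · simp
  · simp
  · exact Or.inr ⟨i, by omega, rfl⟩
  · simp
  · simp
  · exact Or.inr ⟨n - 2 * Q + i, by omega, rfl⟩

/-- the names which occur -/
theorem mem_cols (hE : ∀ e ∈ E, e.1 < N ∧ e.2 < N) {a : Nm} (h : a ∈ colL N k E ∨ a ∈ colR N k E) :
    (∃ i, a = xx i) ∨ (∃ i, i < k ∧ a = yy i) ∨ (∃ i, i < big N k E ∧ a = qq i) ∨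
      (∃ i, a = tt i) ∨ a = YY ∨ ∃ e u v, E[e]? = some (u, v) ∧
        ((a = cc e ∨ a = cp e ∨ a = dd e ∨ a = dp e ∨ a = gg e) ∨
          ∃ i, i < len N k ∧ a = zz e i) := by
  rcases h with h | h
  · rw [colL, List.mem_append, List.mem_append, List.mem_append] at h
    rcases h with ((h | h) | h) | h
    · rw [List.mem_flatMap] at h
      obtain ⟨i, -, h⟩ := h
      exact Or.inl ⟨i, by simpa using h⟩
    · rw [gadsL_eq] at h
      obtain ⟨e, u, v, h1, h2⟩ := mem_gads h
      have := lt_of_get hE h1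
      exact Or.inr (Or.inr (Or.inr (Or.inr (Or.inr ⟨e, u, v, h1,
        mem_gadL (by unfold len; dsimp only; omega) h2⟩))))
    · rw [List.mem_singleton] at h
      simp [h]
    · rw [List.mem_flatMap] at h
      obtain ⟨i, -, h⟩ := h
      exact Or.inr (Or.inr (Or.inr (Or.inl ⟨i, by simpa using h⟩)))
  · rw [colR, List.mem_append, List.mem_append, List.mem_append, List.mem_append] at h
    rcases h with (((h | h) | h) | h) | h
    · rw [List.mem_flatMap] at h
      obtain ⟨i, hi, h⟩ := h
      exact Or.inr (Or.inl ⟨i, by simpa using hi, by simpa using h⟩)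
    · simp only [List.mem_map, List.mem_range] at h
      obtain ⟨i, hi, h⟩ := h
      exact Or.inr (Or.inr (Or.inl ⟨i, hi, h.symm⟩))
    · rw [List.mem_singleton] at h
      simp [h]
    · simp only [List.mem_reverse, List.mem_map, List.mem_range] at h
      obtain ⟨i, hi, h⟩ := h
      exact Or.inr (Or.inr (Or.inl ⟨i, hi, h.symm⟩))
    · rw [gadsR_eq] at h
      obtain ⟨e, u, v, h1, h2⟩ := mem_gads h
      have := lt_of_get hE h1
      exact Or.inr (Or.inr (Or.inr (Or.inr (Or.inr ⟨e, u, v, h1,
        mem_gadR (by unfold len; dsimp only; omega) h2⟩))))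

theorem rem_mem {L R : List Nm} {S : Set Nm} {a : Nm} (h : Rem L R S a) : a ∈ L ∨ a ∈ R := by
  rcases h with ⟨s, t, h⟩ | ⟨s, t, h⟩ | ⟨s, t, s', t', -, h, -⟩
  · left
    have : a ∈ rst S L := by rw [h]; simp
    exact (mem_rst.1 this).1
  · right
    have : a ∈ rst S R := by rw [h]; simp
    exact (mem_rst.1 this).1
  · left
    have : a ∈ rst S L := by rw [h]; simp
    exact (mem_rst.1 this).1

/-- the invariant before the pair `YY` is removed; `C` is the set of the vertices whose level was
crossed upwards -/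
structure Inv (N k : ℕ) (E : List (ℕ × ℕ)) (S : Set Nm) (C : Finset ℕ) : Prop where
  sY : YY ∈ S
  sq : ∀ i, i < big N k E → qq i ∈ S
  sz : ∀ e i, e < E.length → i < len N k → zz e i ∈ S
  card : C.card + wt S (ys k) ≤ k
  i1 : ∀ e u v, E[e]? = some (u, v) → cc e ∉ S → gg e ∈ S → u ∈ C
  i2 : ∀ e u v, E[e]? = some (u, v) → dd e ∉ S → gg e ∈ S → v ∈ C
  i3 : ∀ e u v, E[e]? = some (u, v) → cp e ∉ S →
    u ∈ C ∨ wt S (xs N k E) + (k + u + 1) ≤ wt S (ys k) + big N k E
  i4 : ∀ e u v, E[e]? = some (u, v) → dp e ∉ S →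
    v ∈ C ∨ wt S (xs N k E) + (k + v + 1) ≤ wt S (ys k) + big N k E
  i5 : ∀ e u v, E[e]? = some (u, v) → gg e ∉ S → u ∈ C ∨ v ∈ C
  i6 : ∀ e, e < E.length → cc e ∈ S ∨ cp e ∈ S ∨ dd e ∈ S ∨ dp e ∈ S ∨ gg e ∈ S

theorem wt_sdiff {S : Set Nm} {a : Nm} {l : List Nm} (h : a ∉ l) : wt (S \ {a}) l = wt S l :=
  wt_congr fun b hb => by
    have : b ≠ a := fun h' => h (h' ▸ hb)
    simp [this]

theorem not_xs {a : Nm} (h : ∀ i, a ≠ xx i) : a ∉ xs N k E := by
  simp only [xs, List.mem_map, not_exists, not_and]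
  intro i _ h'
  exact h i h'.symm

theorem not_ys {a : Nm} (h : ∀ i, a ≠ yy i) : a ∉ ys k := by
  simp only [ys, List.mem_map, not_exists, not_and]
  intro i _ h'
  exact h i h'.symm

theorem lt_len_of_get {e u v : ℕ} (h : E[e]? = some (u, v)) : e < E.length := by
  by_contra h'
  rw [List.getElem?_eq_none (by omega)] at h
  cases h

theorem get_of_lt {e : ℕ} (h : e < E.length) : ∃ u v, E[e]? = some (u, v) :=
  ⟨(E[e]).1, (E[e]).2, by rw [List.getElem?_eq_getElem h]⟩

/-- the values of the full lists -/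
theorem Inv.full {S : Set Nm} {C : Finset ℕ} (h : Inv N k E S C) :
    wt S (qs N k E) = big N k E ∧ ∀ e, e < E.length → ∀ m, m ≤ len N k →
      wt S (spine m e) = m := by
  constructor
  · rw [wt_full, qs, List.length_map, List.length_range]
    intro a ha
    simp only [qs, List.mem_map, List.mem_range] at ha
    obtain ⟨i, hi, rfl⟩ := ha
    exact h.sq i hi
  · intro e he m hm
    rw [wt_full, spine, List.length_map, List.length_range]
    intro a ha
    simp only [spine, List.mem_map, List.mem_range] at ha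
    obtain ⟨i, hi, rfl⟩ := ha
    exact h.sz e i he (by omega)

/-- removing a pair of a gadget: what has to be checked -/
theorem Inv.special {S : Set Nm} {C : Finset ℕ} (h : Inv N k E S C) {a : Nm} {e₀ u₀ v₀ : ℕ}
    (h0 : E[e₀]? = some (u₀, v₀))
    (ha : a = cc e₀ ∨ a = cp e₀ ∨ a = dd e₀ ∨ a = dp e₀ ∨ a = gg e₀)
    (c1 : a = cc e₀ → gg e₀ ∈ S → u₀ ∈ C) (c2 : a = dd e₀ → gg e₀ ∈ S → v₀ ∈ C)
    (c3 : a = cp e₀ → u₀ ∈ C ∨ wt S (xs N k E) + (k + u₀ + 1) ≤ wt S (ys k) + big N k E)
    (c4 : a = dp e₀ → v₀ ∈ C ∨ wt S (xs N k E) + (k + v₀ + 1) ≤ wt S (ys k) + big N k E)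
    (c5 : a = gg e₀ → u₀ ∈ C ∨ v₀ ∈ C)
    (c6 : (cc e₀ ∈ S ∧ a ≠ cc e₀) ∨ (cp e₀ ∈ S ∧ a ≠ cp e₀) ∨ (dd e₀ ∈ S ∧ a ≠ dd e₀) ∨
      (dp e₀ ∈ S ∧ a ≠ dp e₀) ∨ (gg e₀ ∈ S ∧ a ≠ gg e₀)) : Inv N k E (S \ {a}) C := by
  have hx : wt (S \ {a}) (xs N k E) = wt S (xs N k E) :=
    wt_sdiff (not_xs (by intro i hi; subst hi; simp at ha))
  have hy : wt (S \ {a}) (ys k) = wt S (ys k) :=
    wt_sdiff (not_ys (by intro i hi; subst hi; simp at ha))
  refine ⟨⟨h.sY, ?_⟩, fun i hi => ⟨h.sq i hi, ?_⟩, fun e i he hi => ⟨h.sz e i he hi, ?_⟩, ?_, ?_, ?_,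
    ?_, ?_, ?_, ?_⟩
  · rcases ha with rfl | rfl | rfl | rfl | rfl <;> simp
  · rcases ha with rfl | rfl | rfl | rfl | rfl <;> simp
  · rcases ha with rfl | rfl | rfl | rfl | rfl <;> simp
  · rw [hy]; exact h.card
  · intro e u v he hc hg
    by_cases hcS : cc e ∈ S
    · have e1 : cc e = a := by
        by_contra hne
        exact hc ⟨hcS, hne⟩
      have e2 : e = e₀ := by
        rw [← e1] at ha
        simpa using ha
      subst e2
      rw [h0] at he
      cases he
      exact c1 e1.symm hg.1
    · exact h.i1 e u v he hcS hg.1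
  · intro e u v he hc hg
    by_cases hcS : dd e ∈ S
    · have e1 : dd e = a := by
        by_contra hne
        exact hc ⟨hcS, hne⟩
      have e2 : e = e₀ := by
        rw [← e1] at ha
        simpa using ha
      subst e2
      rw [h0] at he
      cases he
      exact c2 e1.symm hg.1
    · exact h.i2 e u v he hcS hg.1
  · intro e u v he hc
    rw [hx, hy]
    by_cases hcS : cp e ∈ S
    · have e1 : cp e = a := by
        by_contra hne
        exact hc ⟨hcS, hne⟩
      have e2 : e = e₀ := by
        rw [← e1] at ha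
        simpa using ha
      subst e2
      rw [h0] at he
      cases he
      exact c3 e1.symm
    · exact h.i3 e u v he hcS
  · intro e u v he hc
    rw [hx, hy]
    by_cases hcS : dp e ∈ S
    · have e1 : dp e = a := by
        by_contra hne
        exact hc ⟨hcS, hne⟩
      have e2 : e = e₀ := by
        rw [← e1] at ha
        simpa using ha
      subst e2
      rw [h0] at he
      cases he
      exact c4 e1.symm
    · exact h.i4 e u v he hcS
  · intro e u v he hc
    by_cases hcS : gg e ∈ S
    · have e1 : gg e = a := by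
        by_contra hne
        exact hc ⟨hcS, hne⟩
      have e2 : e = e₀ := by
        rw [← e1] at ha
        simpa using ha
      subst e2
      rw [h0] at he
      cases he
      exact c5 e1.symm
    · exact h.i5 e u v he hcS
  · intro e he
    by_cases e2 : e = e₀
    · subst e2
      rcases c6 with ⟨g, g'⟩ | ⟨g, g'⟩ | ⟨g, g'⟩ | ⟨g, g'⟩ | ⟨g, g'⟩
      · exact Or.inl ⟨g, fun h' => g' h'.symm⟩
      · exact Or.inr (Or.inl ⟨g, fun h' => g' h'.symm⟩)
      · exact Or.inr (Or.inr (Or.inl ⟨g, fun h' => g' h'.symm⟩))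
      · exact Or.inr (Or.inr (Or.inr (Or.inl ⟨g, fun h' => g' h'.symm⟩)))
      · exact Or.inr (Or.inr (Or.inr (Or.inr ⟨g, fun h' => g' h'.symm⟩)))
    · have : ∀ b : Nm, gix b = some e → b ∉ ({a} : Set Nm) := by
        intro b hb h'
        rw [Set.mem_singleton_iff] at h'
        subst h'
        rcases ha with rfl | rfl | rfl | rfl | rfl <;>
          exact e2 (Option.some.inj hb).symm
      rcases h.i6 e he with g | g | g | g | g
      · exact Or.inl ⟨g, this _ rfl⟩
      · exact Or.inr (Or.inl ⟨g, this _ rfl⟩)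
      · exact Or.inr (Or.inr (Or.inl ⟨g, this _ rfl⟩))
      · exact Or.inr (Or.inr (Or.inr (Or.inl ⟨g, this _ rfl⟩)))
      · exact Or.inr (Or.inr (Or.inr (Or.inr ⟨g, this _ rfl⟩)))

/-- removing a pair which is not in a gadget -/
theorem Inv.other {S : Set Nm} {C C' : Finset ℕ} (h : Inv N k E S C) {a : Nm} (hg : gix a = none)
    (hY : a ≠ YY) (hq : ∀ i, a ≠ qq i) (hC : C ⊆ C')
    (hcard : C'.card + wt (S \ {a}) (ys k) ≤ k)
    (hlev : ∀ u, wt S (xs N k E) + (k + u + 1) ≤ wt S (ys k) + big N k E →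
      u ∈ C' ∨ wt (S \ {a}) (xs N k E) + (k + u + 1) ≤ wt (S \ {a}) (ys k) + big N k E) :
    Inv N k E (S \ {a}) C' := by
  have hn : ∀ b : Nm, b ∈ S → (gix b ≠ none ∨ b = YY ∨ ∃ i, b = qq i) → b ∈ S \ {a} := by
    intro b hb hb'
    refine ⟨hb, fun h' => ?_⟩
    rw [Set.mem_singleton_iff] at h'
    subst h'
    rcases hb' with h1 | h1 | ⟨i, h1⟩
    · exact h1 hg
    · exact hY h1
    · exact hq i h1
  have hn' : ∀ b : Nm, b ∉ S \ {a} → gix b ≠ none → b ∉ S := fun b hb hb' h' =>
    hb (hn b h' (Or.inl hb'))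
  refine ⟨hn _ h.sY (by simp), fun i hi => hn _ (h.sq i hi) (by simp),
    fun e i he hi => hn _ (h.sz e i he hi) (Or.inl (by simp [gix])), hcard, ?_, ?_, ?_, ?_, ?_, ?_⟩
  · intro e u v he hc hg
    exact hC (h.i1 e u v he (hn' _ hc (by simp [gix])) hg.1)
  · intro e u v he hc hg
    exact hC (h.i2 e u v he (hn' _ hc (by simp [gix])) hg.1)
  · intro e u v he hc
    rcases h.i3 e u v he (hn' _ hc (by simp [gix])) with h1 | h1
    · exact Or.inl (hC h1)
    · exact hlev u h1
  · intro e u v he hc
    rcases h.i4 e u v he (hn' _ hc (by simp [gix])) with h1 | h1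
    · exact Or.inl (hC h1)
    · exact hlev v h1
  · intro e u v he hc
    rcases h.i5 e u v he (hn' _ hc (by simp [gix])) with h1 | h1
    · exact Or.inl (hC h1)
    · exact Or.inr (hC h1)
  · intro e he
    rcases h.i6 e he with g | g | g | g | g
    · exact Or.inl (hn _ g (Or.inl (by simp [gix])))
    · exact Or.inr (Or.inl (hn _ g (Or.inl (by simp [gix]))))
    · exact Or.inr (Or.inr (Or.inl (hn _ g (Or.inl (by simp [gix])))))
    · exact Or.inr (Or.inr (Or.inr (Or.inl (hn _ g (Or.inl (by simp [gix]))))))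
    · exact Or.inr (Or.inr (Or.inr (Or.inr (hn _ g (Or.inl (by simp [gix]))))))

theorem wt_ys_remove {S : Set Nm} {i : ℕ} (hi : i < k) (h : yy i ∈ S) :
    wt (S \ {yy i}) (ys k) + 1 = wt S (ys k) := by
  have e : ys k = (List.range i).map yy ++ yy i ::
      (List.range (k - i - 1)).map (fun j => yy (i + 1 + j)) := range_cut hi yy
  rw [e, wt_append, wt_append, wt_cons, wt_cons, ind_pos h, ind_neg (by simp),
    wt_sdiff (by simp), wt_sdiff (by simp; intro x _ h'; omega)]
  omega

/-- `qq` is locked while `YY` is there -/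
theorem qq_locked {S : Set Nm} (hY : YY ∈ S) (i : ℕ) :
    ¬ Rem (colL N k E) (colR N k E) S (qq i) := by
  have nL : qq i ∉ rst S (colL N k E) := by
    intro h
    have h := (mem_rst.1 h).1
    rw [colL, List.mem_append, List.mem_append, List.mem_append] at h
    rcases h with ((h | h) | h) | h
    · simp at h
    · obtain ⟨e, h1, -⟩ := gix_gadsL h
      cases h1
    · simp at h
    · simp at h
  have nR : qq i ∉ gadsR N k E := fun h => by
    obtain ⟨e, h1, -⟩ := gix_gadsR h
    cases h1
  rintro (⟨s, t, h⟩ | ⟨s, t, h⟩ | ⟨s, t, s', t', -, h, -⟩)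
  · exact nL (by rw [h]; simp)
  · -- two adjacent equal tiles in a list `P ++ YY :: Q`
    let P := rst S (((List.range k).flatMap fun i => [yy i, yy i]) ++ qs N k E)
    let Q := rst S ((qs N k E).reverse ++ gadsR N k E)
    have e1 : rst S (colR N k E) = P ++ YY :: Q := by
      have : colR N k E = (((List.range k).flatMap fun i => [yy i, yy i]) ++ qs N k E) ++ YY ::
          ((qs N k E).reverse ++ gadsR N k E) := by
        simp [colR, qs]
      rw [this, rst_append, rst_cons_pos _ hY]
    have hq : (qs N k E).Nodup := (List.nodup_range).map (fun a b h => by simpa using h)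
    have cP : List.count (qq i) P ≤ 1 := by
      refine (List.Sublist.count_le (qq i) List.filter_sublist).trans ?_
      rw [List.count_append, List.count_eq_zero_of_not_mem (a := qq i)
        (l := (List.range k).flatMap fun i => [yy i, yy i]) (by simp), Nat.zero_add]
      exact List.nodup_iff_count_le_one.1 hq _
    have cQ : List.count (qq i) Q ≤ 1 := by
      refine (List.Sublist.count_le (qq i) List.filter_sublist).trans ?_
      rw [List.count_append, List.count_eq_zero_of_not_mem nR, Nat.add_zero, List.count_reverse]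
      exact List.nodup_iff_count_le_one.1 hq _
    rw [e1, List.append_eq_append_iff] at h
    rcases h with ⟨c, h1, h2⟩ | ⟨c, h1, h2⟩
    · -- s = P ++ c, YY :: Q = c ++ qq i :: qq i :: t
      cases c with
      | nil => simp at h2
      | cons x c =>
        rw [List.cons_append, List.cons.injEq] at h2
        have : 2 ≤ List.count (qq i) Q := by rw [h2.2]; simp; omega
        omega
    · -- P = s ++ c, qq i :: qq i :: t = c ++ YY :: Q
      cases c with
      | nil => simp at h2
      | cons x c =>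
        rw [List.cons_append, List.cons.injEq] at h2
        cases c with
        | nil => simp at h2
        | cons y c =>
          rw [List.cons_append, List.cons.injEq] at h2
          have : 2 ≤ List.count (qq i) P := by rw [h1, ← h2.1, ← h2.2.1]; simp; omega
          omega
  · exact nL (by rw [h]; simp)

/-- one step -/
theorem Inv.step (hE : ∀ e ∈ E, e.1 < N ∧ e.2 < N) {S : Set Nm} {C : Finset ℕ} (h : Inv N k E S C)
    {a : Nm} (ha : a ∈ S) (hY : a ≠ YY) (hR : Rem (colL N k E) (colR N k E) S a) :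
    ∃ C', Inv N k E (S \ {a}) C' := by
  obtain ⟨fq, fz⟩ := h.full
  have hxle : wt S (xs N k E) ≤ big N k E := by
    refine (wt_le _ _).trans ?_
    simp [xs]
  have iY := ind_pos h.sY
  rcases mem_cols hE (rem_mem hR) with ⟨i, rfl⟩ | ⟨i, hi, rfl⟩ | ⟨i, hi, rfl⟩ | ⟨i, rfl⟩ | rfl |
    ⟨e, u, v, he, hs⟩
  · -- `xx`
    refine ⟨C, h.other rfl (by simp) (by simp) (Finset.Subset.refl _) ?_ fun u hu => Or.inr ?_⟩
    · rw [wt_sdiff (not_ys (by simp))]; exact h.card
    · rw [wt_sdiff (not_ys (by simp))]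
      have := wt_mono (Set.sdiff_subset (s := S) (t := {xx i})) (xs N k E)
      omega
  · -- `yy`
    have hy := wt_ys_remove hi ha
    have hx : wt (S \ {yy i}) (xs N k E) = wt S (xs N k E) := wt_sdiff (not_xs (by simp))
    refine ⟨insert (wt S (ys k) + big N k E - wt S (xs N k E) - k - 1) C,
      h.other rfl (by simp) (by simp) (Finset.subset_insert _ _) ?_ fun u hu => ?_⟩
    · have := Finset.card_insert_le (wt S (ys k) + big N k E - wt S (xs N k E) - k - 1) C
      have := h.card
      omega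
    · rw [hx]
      by_cases h' : wt S (xs N k E) + (k + u + 1) = wt S (ys k) + big N k E
      · left
        have : wt S (ys k) + big N k E - wt S (xs N k E) - k - 1 = u := by omega
        rw [this]
        exact Finset.mem_insert_self _ _
      · right; omega
  · exact absurd hR (qq_locked h.sY i)
  · -- `tt`
    refine ⟨C, h.other rfl (by simp) (by simp) (Finset.Subset.refl _) ?_ fun u hu => Or.inr ?_⟩
    · rw [wt_sdiff (not_ys (by simp))]; exact h.card
    · rw [wt_sdiff (not_ys (by simp)), wt_sdiff (not_xs (by simp))]; exact hu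
  · exact absurd rfl hY
  · have hel := lt_len_of_get he
    obtain ⟨hu, hv⟩ := lt_of_get hE he
    have f1 := fz e hel (2 * (k + u + 1)) (by unfold len; omega)
    have f2 := fz e hel (len N k) le_rfl
    have f3 := fz e hel (len N k - 2 * (k + v + 1)) (by omega)
    have hlen : len N k = 2 * (k + N) := rfl
    rcases hs with hs | ⟨i, hi, rfl⟩
    · refine ⟨C, ?_⟩
      rcases hs with rfl | rfl | rfl | rfl | rfl
      · have hr := (rem_cc hE he ha).1 hR
        rw [f1, fq, iY] at hr
        refine h.special he (by simp) ?_ (by simp) (by simp) (by simp) (by simp) ?_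
        · intro _ hg
          rw [ind_pos hg] at hr
          rcases ind_cases S (cp e) with ⟨g1, g2⟩ | ⟨g1, g2⟩
          · omega
          · rcases h.i3 e u v he g1 with g3 | g3
            · exact g3
            · omega
        · rcases ind_cases S (cp e) with ⟨g1, g2⟩ | ⟨g1, g2⟩
          · exact Or.inr (Or.inl ⟨g1, by simp⟩)
          · rcases ind_cases S (gg e) with ⟨g3, g4⟩ | ⟨g3, g4⟩
            · exact Or.inr (Or.inr (Or.inr (Or.inr ⟨g3, by simp⟩)))
            · omega
      · have hr := (rem_cp hE he ha).1 hR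
        rw [f1, fq, iY] at hr
        rcases ind_cases S (cc e) with ⟨g1, g2⟩ | ⟨g1, g2⟩
        · exact h.special he (by simp) (by simp) (by simp) (fun _ => Or.inr (by omega)) (by simp)
            (by simp) (Or.inl ⟨g1, by simp⟩)
        · omega
      · have hr := (rem_dd hE he ha).1 hR
        rw [f2, f3, fq, iY] at hr
        refine h.special he (by simp) (by simp) ?_ (by simp) (by simp) (by simp) ?_
        · intro _ hg
          rw [ind_pos hg] at hr
          rcases ind_cases S (dp e) with ⟨g1, g2⟩ | ⟨g1, g2⟩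
          · omega
          · rcases h.i4 e u v he g1 with g3 | g3
            · exact g3
            · omega
        · rcases ind_cases S (dp e) with ⟨g1, g2⟩ | ⟨g1, g2⟩
          · exact Or.inr (Or.inr (Or.inr (Or.inl ⟨g1, by simp⟩)))
          · rcases ind_cases S (gg e) with ⟨g3, g4⟩ | ⟨g3, g4⟩
            · exact Or.inr (Or.inr (Or.inr (Or.inr ⟨g3, by simp⟩)))
            · omega
      · have hr := (rem_dp hE he ha).1 hR
        rw [f2, f3, fq, iY] at hr
        rcases ind_cases S (dd e) with ⟨g1, g2⟩ | ⟨g1, g2⟩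
        · exact h.special he (by simp) (by simp) (by simp) (by simp) (fun _ => Or.inr (by omega))
            (by simp) (Or.inr (Or.inr (Or.inl ⟨g1, by simp⟩)))
        · omega
      · have hr := (rem_gg hE he ha).1 hR
        rw [f2, fq, iY] at hr
        rcases ind_cases S (cc e) with ⟨g1, g2⟩ | ⟨g1, g2⟩
        · rcases ind_cases S (dd e) with ⟨g3, g4⟩ | ⟨g3, g4⟩
          · omega
          · exact h.special he (by simp) (by simp) (by simp) (by simp) (by simp)
              (fun _ => Or.inr (h.i2 e u v he g3 ha)) (Or.inl ⟨g1, by simp⟩)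
        · rcases ind_cases S (dd e) with ⟨g3, g4⟩ | ⟨g3, g4⟩
          · exact h.special he (by simp) (by simp) (by simp) (by simp) (by simp)
              (fun _ => Or.inl (h.i1 e u v he g1 ha)) (Or.inr (Or.inr (Or.inl ⟨g3, by simp⟩)))
          · omega
    · exfalso
      have hr := (rem_zz hE he hi ha).1 hR
      rw [fq, iY] at hr
      have : (if 2 * (k + u + 1) ≤ i then ind S (cc e) + ind S (cp e) else 0) ≤
          ind S (cc e) + ind S (cp e) := by
        split_ifs
        · exact le_rfl
        · exact Nat.zero_le _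
      omega

theorem sum_gads {f : ℕ × ℕ → ℕ → List Nm} {g : ℕ × ℕ → ℕ} {S : Set Nm} (E : List (ℕ × ℕ)) :
    ∀ m, (∀ i x, E[i]? = some x → g x ≤ wt S (f x (m + i))) →
      (E.map g).sum ≤ wt S (gads f E m) := by
  induction E with
  | nil => intro m _; simp
  | cons x E ih =>
    intro m h
    rw [List.map_cons, List.sum_cons, gads_cons, wt_append]
    have h1 := h 0 x (by simp)
    rw [Nat.add_zero] at h1
    have h2 := ih (m + 1) (fun i y hy => by
      have := h (i + 1) y (by simpa using hy)
      rwa [Nat.add_comm i 1, ← Nat.add_assoc] at this)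
    omega

theorem sum_map_eq (E : List (ℕ × ℕ)) (c : ℕ) (p : ℕ × ℕ → Bool) :
    (E.map fun x => c + if p x then 2 else 0).sum = E.length * c + 2 * (E.filter p).length := by
  induction E with
  | nil => simp
  | cons x E ih =>
    rw [List.map_cons, List.sum_cons, ih, List.length_cons, List.filter_cons, Nat.add_mul, Nat.one_mul]
    by_cases h : p x = true
    · rw [if_pos h, if_pos h, List.length_cons]; omega
    · rw [if_neg h, if_neg h]; omega

/-- when `YY` is removed there is a small vertex cover -/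
theorem Inv.final (hE : ∀ e ∈ E, e.1 < N ∧ e.2 < N) {S : Set Nm} {C : Finset ℕ}
    (h : Inv N k E S C) (hR : Rem (colL N k E) (colR N k E) S YY) : HasCover k E := by
  classical
  obtain ⟨fq, fz⟩ := h.full
  have hr := (rem_YY h.sY).1 hR
  rw [fq] at hr
  let p : ℕ × ℕ → Bool := fun x => decide (x.1 ∉ C ∧ x.2 ∉ C)
  have h1 : (E.map fun x => (len N k + 1) + if p x then 2 else 0).sum ≤
      wt S (gads (fL N k) E 0) := by
    apply sum_gads
    rintro e ⟨u, v⟩ he
    rw [Nat.zero_add]
    have hel := lt_len_of_get he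
    obtain ⟨hu, hv⟩ := lt_of_get hE he
    rw [fL, wt_gadL S (by unfold len; omega), fz e hel (len N k) le_rfl]
    by_cases hp : p (u, v) = true
    · rw [if_pos hp]
      have hp' : u ∉ C ∧ v ∉ C := by simpa [p] using hp
      have hg : gg e ∈ S := by
        by_contra hg
        rcases h.i5 e u v he hg with g | g
        · exact hp'.1 g
        · exact hp'.2 g
      have hc : cc e ∈ S := by
        by_contra hc
        exact hp'.1 (h.i1 e u v he hc hg)
      have hd : dd e ∈ S := by
        by_contra hd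
        exact hp'.2 (h.i2 e u v he hd hg)
      rw [ind_pos hg, ind_pos hc, ind_pos hd]
      omega
    · rw [if_neg hp]
      rcases h.i6 e hel with g | g | g | g | g <;> have := ind_pos g <;> omega
  rw [sum_map_eq, ← gadsL_eq] at h1
  have hb : big N k E = E.length * (len N k + 1) := rfl
  have hcard := h.card
  refine ⟨C ∪ ((E.filter p).map Prod.fst).toFinset, ?_, ?_⟩
  · refine (Finset.card_union_le _ _).trans ?_
    have h2 : ((E.filter p).map Prod.fst).toFinset.card ≤ (E.filter p).length := by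
      refine (List.toFinset_card_le _).trans ?_
      rw [List.length_map]
    omega
  · intro x hx
    by_cases hp : p x = true
    · left
      apply Finset.mem_union_right
      rw [List.mem_toFinset, List.mem_map]
      exact ⟨x, List.mem_filter.2 ⟨hx, hp⟩, rfl⟩
    · have hp' : ¬ (x.1 ∉ C ∧ x.2 ∉ C) := by simpa [p] using hp
      by_cases hx1 : x.1 ∈ C
      · exact Or.inl (Finset.mem_union_left _ hx1)
      · right
        apply Finset.mem_union_left
        by_contra hx2
        exact hp' ⟨hx1, hx2⟩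

theorem Inv.run (hE : ∀ e ∈ E, e.1 < N ∧ e.2 < N) {S : Set Nm}
    (hr : Relation.ReflTransGen (SMv (colL N k E) (colR N k E)) S ∅) :
    ∀ C, Inv N k E S C → HasCover k E := by
  induction hr using Relation.ReflTransGen.head_induction_on with
  | refl =>
    intro C h
    exact absurd h.sY (by simp)
  | head hstep _ ih =>
    intro C h
    obtain ⟨a, ha, hR, rfl⟩ := hstep
    by_cases hY : a = YY
    · subst hY
      exact h.final hE hR
    · obtain ⟨C', h'⟩ := h.step hE ha hY hR
      exact ih C' h'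

end

theorem tSOUND (h1 : T_SET) (h2 : T_TWICE) : T_SOUND := by
  intro N k E _ hE hclr
  rw [h1.1 _ _ (h2 N k E hE).1] at hclr
  refine Inv.run hE hclr ∅ ?_
  have hL : ∀ a, a ∈ colL N k E → a ∈ ({a | a ∈ colL N k E ++ colR N k E} : Set Nm) := fun a ha =>
    List.mem_append_left _ ha
  have hR : ∀ a, a ∈ colR N k E → a ∈ ({a | a ∈ colL N k E ++ colR N k E} : Set Nm) := fun a ha =>
    List.mem_append_right _ ha
  have hG : ∀ e u v, E[e]? = some (u, v) → ∀ a, a ∈ gadL (len N k) (k + u + 1) e →
      a ∈ ({a | a ∈ colL N k E ++ colR N k E} : Set Nm) := by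
    intro e u v he a ha
    obtain ⟨A, B, A', B', h, -⟩ := gad_pos N k E hE he
    apply hL
    rw [h]
    simp [ha]
  have hS : ∀ e u v, E[e]? = some (u, v) → ∀ a,
      (a = cc e ∨ a = cp e ∨ a = dd e ∨ a = dp e ∨ a = gg e) →
      a ∈ ({a | a ∈ colL N k E ++ colR N k E} : Set Nm) := by
    intro e u v he a ha
    apply hG e u v he
    rcases ha with rfl | rfl | rfl | rfl | rfl <;> simp [gadL]
  refine ⟨hL _ (by simp [colL]), fun i hi => hR _ (by simp [colR, hi]), fun e i he hi => ?_, ?_,
    ?_, ?_, ?_, ?_, ?_, ?_⟩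
  · obtain ⟨u, v, hg⟩ := get_of_lt he
    obtain ⟨hu, hv⟩ := lt_of_get hE hg
    obtain ⟨p, q, h, -⟩ := gadL_zz (n := len N k) (P := k + u + 1) (e := e) (i := i)
      (by unfold len; omega) hi
    apply hG e u v hg
    rw [h]
    simp
  · rw [Finset.card_empty, Nat.zero_add]
    refine (wt_le _ _).trans ?_
    simp [ys]
  · exact fun e u v he hn => absurd (hS e u v he (cc e) (by simp)) hn
  · exact fun e u v he hn => absurd (hS e u v he (dd e) (by simp)) hn
  · exact fun e u v he hn => absurd (hS e u v he (cp e) (by simp)) hn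
  · exact fun e u v he hn => absurd (hS e u v he (dp e) (by simp)) hn
  · exact fun e u v he hn => absurd (hS e u v he (gg e) (by simp)) hn
  · intro e he
    obtain ⟨u, v, hg⟩ := get_of_lt he
    exact Or.inl (hS e u v hg (cc e) (by simp))

end Pool.Agent.Clk
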