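import Pool.Agent.Clk.Defs

set_option autoImplicit false

/-!
# Strips of columns: the tools for boards with a bounded number of rows

Columns keep their numbers; an erased column is empty. Two columns are adjacent when all columns
between them are empty.
-/

namespace Pool.Agent.Clk

/-- the contents of the columns -/
abbrev St : Type := ℕ → List ℕ

/-- the colour of the tile in the cell `p` -/
def tl (c : St) (p : ℕ × ℕ) : Option ℕ := (c p.1)[p.2]?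

/-- adjacent cells -/
def Touch (c : St) (p q : ℕ × ℕ) : Prop :=
  (p.1 = q.1 ∧ (p.2 + 1 = q.2 ∨ q.2 + 1 = p.2)) ∨
    (p.2 = q.2 ∧ ((p.1 < q.1 ∧ ∀ l, p.1 < l → l < q.1 → c l = []) ∨
      (q.1 < p.1 ∧ ∀ l, q.1 < l → l < p.1 → c l = [])))

/-- adjacent tiles of the same colour -/
def SBond (c : St) (p q : ℕ × ℕ) : Prop := Touch c p q ∧ ∃ a, tl c p = some a ∧ tl c q = some a

/-- connected inside `G` -/
def Cn (c : St) (G : Set (ℕ × ℕ)) : ℕ × ℕ → ℕ × ℕ → Prop :=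
  Relation.ReflTransGen fun p q => p ∈ G ∧ q ∈ G ∧ SBond c p q

/-- `G` meets one of the boundary columns `i`, `j` -/
def Vis (i j : ℕ) (G : Set (ℕ × ℕ)) : Prop := ∃ p ∈ G, p.1 = i ∨ p.1 = j

/-- An event of the strip `[i, j]`: the trace of a click on this strip. -/
structure Ev (c : St) (i j : ℕ) (G : Set (ℕ × ℕ)) : Prop where
  sub : ∀ p ∈ G, i ≤ p.1 ∧ p.1 ≤ j ∧ (tl c p).isSome
  closed : ∀ p q, p ∈ G → i ≤ q.1 → q.1 ≤ j → SBond c p q → q ∈ G
  attach : Vis i j G → ∀ p ∈ G, ∃ q ∈ G, (q.1 = i ∨ q.1 = j) ∧ Cn c G p q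
  span : (∃ p ∈ G, p.1 = i) → (∃ p ∈ G, p.1 = j) → ∃ p ∈ G, ∃ q ∈ G, p.1 = i ∧ q.1 = j ∧ Cn c G p q
  inner : ¬ Vis i j G → (∀ p ∈ G, ∀ q ∈ G, Cn c G p q) ∧ ∃ p ∈ G, ∃ q ∈ G, SBond c p q

/-- remove the cells in `G` -/
noncomputable def rem (c : St) (G : Set (ℕ × ℕ)) : St := fun l => keep l (c l) G

/-- Labels: the rows removed in the left and in the right boundary column, the connections between
them (inside the strip), and whether there are two adjacent tiles. -/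
abbrev Label (h : ℕ) : Type :=
  Set (Fin h) × Set (Fin h) × Set ((Bool × Fin h) × (Bool × Fin h)) × Prop

/-- a boundary cell -/
def nd {h : ℕ} (i j : ℕ) (s : Bool × Fin h) : ℕ × ℕ := (if s.1 then j else i, (s.2 : ℕ))

/-- the label of an event -/
def lab (h : ℕ) (c : St) (i j : ℕ) (G : Set (ℕ × ℕ)) : Label h :=
  ({r | (i, (r : ℕ)) ∈ G}, {r | (j, (r : ℕ)) ∈ G},
    {s | nd i j s.1 ∈ G ∧ nd i j s.2 ∈ G ∧ Cn c G (nd i j s.1) (nd i j s.2)},
    ∃ p ∈ G, ∃ q ∈ G, SBond c p q)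

/-- `Tr h i j c τ`: starting with `c`, some sequence of events of the strip `[i, j]` empties all
inner columns; the boundary columns are nonempty before each event; `τ` is the list of the labels of
the events which meet the boundary columns. -/
inductive Tr (h i j : ℕ) : St → List (Label h) → Prop
  | done (c : St) : (∀ l, i < l → l < j → c l = []) → Tr h i j c []
  | silent (c : St) (G : Set (ℕ × ℕ)) (τ : List (Label h)) : c i ≠ [] → c j ≠ [] → Ev c i j G →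
      ¬ Vis i j G → Tr h i j (rem c G) τ → Tr h i j c τ
  | vis (c : St) (G : Set (ℕ × ℕ)) (τ : List (Label h)) : c i ≠ [] → c j ≠ [] → Ev c i j G →
      Vis i j G → Tr h i j (rem c G) τ → Tr h i j c (lab h c i j G :: τ)

section
variable {h : ℕ}

open scoped Classical in
/-- remove the rows in `A` -/
noncomputable def cut (x : List ℕ) (A : Set (Fin h)) : List ℕ :=
  (x.zipIdx.filter fun t => decide (∀ r ∈ A, (r : ℕ) ≠ t.2)).map Prod.fst

/-- remove successively the rows given by the first components -/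
noncomputable def cutsA (τ : List (Label h)) (x : List ℕ) : List ℕ :=
  τ.foldl (fun x ℓ => cut x ℓ.1) x

/-- remove successively the rows given by the second components -/
noncomputable def cutsB (τ : List (Label h)) (x : List ℕ) : List ℕ :=
  τ.foldl (fun x ℓ => cut x ℓ.2.1) x

/-- nodes of the left strip among the nodes of three columns -/
def e1 (s : Bool × Fin h) : Fin 3 × Fin h := (if s.1 then 1 else 0, s.2)

/-- nodes of the right strip -/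
def e2 (s : Bool × Fin h) : Fin 3 × Fin h := (if s.1 then 2 else 1, s.2)

/-- nodes of the outer columns -/
def e3 (s : Bool × Fin h) : Fin 3 × Fin h := (if s.1 then 2 else 0, s.2)

/-- connections given by one of the two labels -/
def J1 (ℓ₁ ℓ₂ : Label h) (u v : Fin 3 × Fin h) : Prop :=
  (∃ s ∈ ℓ₁.2.2.1, u = e1 s.1 ∧ v = e1 s.2) ∨ ∃ s ∈ ℓ₂.2.2.1, u = e2 s.1 ∧ v = e2 s.2

/-- connections given by both labels -/
def J (ℓ₁ ℓ₂ : Label h) : Fin 3 × Fin h → Fin 3 × Fin h → Prop :=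
  Relation.ReflTransGen (J1 ℓ₁ ℓ₂)

/-- the union of the two events meets one of the outer columns -/
def VisL (ℓ₁ ℓ₂ : Label h) : Prop := ℓ₁.1.Nonempty ∨ ℓ₂.2.1.Nonempty

/-- The labels of the two parts (left and right of a middle column) of an event which meets the
middle column. -/
structure Ok (ℓ₁ ℓ₂ : Label h) : Prop where
  eq : ℓ₁.2.1 = ℓ₂.1
  ne : ℓ₁.2.1.Nonempty
  attach : VisL ℓ₁ ℓ₂ → ∀ r ∈ ℓ₁.2.1, (∃ a ∈ ℓ₁.1, J ℓ₁ ℓ₂ (1, r) (0, a)) ∨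
    ∃ b ∈ ℓ₂.2.1, J ℓ₁ ℓ₂ (1, r) (2, b)
  span : ℓ₁.1.Nonempty → ℓ₂.2.1.Nonempty → ∃ a ∈ ℓ₁.1, ∃ b ∈ ℓ₂.2.1, J ℓ₁ ℓ₂ (0, a) (2, b)
  inner : ¬ VisL ℓ₁ ℓ₂ → (∀ r ∈ ℓ₁.2.1, ∀ r' ∈ ℓ₁.2.1, J ℓ₁ ℓ₂ (1, r) (1, r')) ∧
    (ℓ₁.2.2.2 ∨ ℓ₂.2.2.2)

/-- the boundary cell `s` belongs to the event -/
def InL (ℓ₁ ℓ₂ : Label h) (s : Bool × Fin h) : Prop :=
  (s.1 = false → s.2 ∈ ℓ₁.1) ∧ (s.1 = true → s.2 ∈ ℓ₂.2.1)

/-- the label of the whole event -/
def comp (ℓ₁ ℓ₂ : Label h) : Label h :=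
  (ℓ₁.1, ℓ₂.2.1, {s | InL ℓ₁ ℓ₂ s.1 ∧ InL ℓ₁ ℓ₂ s.2 ∧ J ℓ₁ ℓ₂ (e3 s.1) (e3 s.2)},
    ℓ₁.2.2.2 ∨ ℓ₂.2.2.2)

/-- the labels of the left strip, of the right strip and of the whole strip -/
inductive Mrg : List (Label h) → List (Label h) → List (Label h) → Prop
  | nil : Mrg [] [] []
  | left (ℓ : Label h) (τ₁ τ₂ τ : List (Label h)) : ℓ.2.1 = ∅ → Mrg τ₁ τ₂ τ →
      Mrg (ℓ :: τ₁) τ₂ (ℓ :: τ)
  | right (ℓ : Label h) (τ₁ τ₂ τ : List (Label h)) : ℓ.1 = ∅ → Mrg τ₁ τ₂ τ →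
      Mrg τ₁ (ℓ :: τ₂) (ℓ :: τ)
  | both (ℓ₁ ℓ₂ : Label h) (τ₁ τ₂ τ : List (Label h)) : Ok ℓ₁ ℓ₂ → VisL ℓ₁ ℓ₂ → Mrg τ₁ τ₂ τ →
      Mrg (ℓ₁ :: τ₁) (ℓ₂ :: τ₂) (comp ℓ₁ ℓ₂ :: τ)
  | inner (ℓ₁ ℓ₂ : Label h) (τ₁ τ₂ τ : List (Label h)) : Ok ℓ₁ ℓ₂ → ¬ VisL ℓ₁ ℓ₂ →
      Mrg τ₁ τ₂ τ → Mrg (ℓ₁ :: τ₁) (ℓ₂ :: τ₂) τ

end

/-- two columns -/
def pr (a b : List ℕ) : St := fun l => if l = 0 then a else if l = 1 then b else []

/-- the pattern of two columns: which tiles exist and have equal colours -/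
def pat (h : ℕ) (a b : List ℕ) : Set ((Bool × Fin h) × (Bool × Fin h)) :=
  {s | ∃ x, tl (pr a b) (nd 0 1 s.1) = some x ∧ tl (pr a b) (nd 0 1 s.2) = some x}

/-- the strip of a position: its columns have the numbers `1, ..., b.length`, the colours are
increased by one, and the two boundary columns consist of one tile with colour `0` -/
def wrap (b : Pos) : St := fun l =>
  if l = 0 ∨ l = b.length + 1 then [0] else ((b[l - 1]?).getD []).map (· + 1)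

end Pool.Agent.Clk
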