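import Pool.Agent.Clk.Targets

set_option autoImplicit false

/-!
# The two columns of the reduction: lengths and multiplicities
-/

namespace Pool.Agent.Clk

open Nm

theorem tw_map (f : ℕ → Nm) (hf : Function.Injective f) (m j : ℕ) :
    ((List.range m).map f).count (f j) = if j < m then 1 else 0 := by
  rw [List.count_map_of_injective _ _ hf, List.nodup_range.count]
  simp

theorem tw_shift (f : ℕ → Nm) (hf : Function.Injective f) (q m i : ℕ) :
    ((List.range m).map fun t => f (q + t)).count (f i) =
      if q ≤ i ∧ i < q + m then 1 else 0 := by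
  by_cases h : q ≤ i
  · obtain ⟨t, rfl⟩ := Nat.exists_eq_add_of_le h
    have h1 := tw_map (fun t => f (q + t)) (fun x y hxy => by
      have := hf hxy
      omega) m t
    rw [h1]
    split_ifs <;> omega
  · rw [if_neg (by omega)]
    apply List.count_eq_zero.2
    intro hm
    rw [List.mem_map] at hm
    obtain ⟨t, _, ht⟩ := hm
    have := hf ht
    omega

theorem tw_flat (f : ℕ → Nm) (hf : Function.Injective f) (m j : ℕ) :
    ((List.range m).flatMap fun i => [f i, f i]).count (f j) = if j < m then 2 else 0 := by
  induction m with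
  | zero => simp
  | succ m ih =>
    rw [List.range_succ, List.flatMap_append, List.count_append, ih]
    simp only [List.flatMap_cons, List.flatMap_nil, List.append_nil, List.count_cons,
      List.count_nil, beq_iff_eq, hf.eq_iff]
    split_ifs <;> omega

theorem tw_zip (g : ℕ × ℕ → ℕ → List Nm) (a : Nm) (e c : ℕ) : ∀ (E : List (ℕ × ℕ)) (m : ℕ),
    (∀ x ∈ E, ∀ e', (g x e').count a = if e' = e then c else 0) →
    ((E.zipIdx m).flatMap fun s => g s.1 s.2).count a =
      if m ≤ e ∧ e < m + E.length then c else 0 := by
  intro E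
  induction E with
  | nil =>
    intro m _
    simp only [List.zipIdx_nil, List.flatMap_nil, List.count_nil, List.length_nil]
    rw [if_neg (by omega)]
  | cons x E ih =>
    intro m h
    rw [List.zipIdx_cons, List.flatMap_cons, List.count_append,
      ih (m + 1) (fun y hy => h y (List.mem_cons_of_mem _ hy)),
      h x List.mem_cons_self m, List.length_cons]
    split_ifs <;> omega

theorem tw_gadL_zz (n P e e' i : ℕ) (h : 2 * P ≤ n) :
    (gadL n P e').count (zz e i) = if e' = e then (if i < n then 1 else 0) else 0 := by
  by_cases he : e' = e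
  · subst he
    have hf : Function.Injective (zz e') := fun x y hxy => by injection hxy
    unfold gadL
    rw [List.count_append, List.count_append, List.count_append, tw_map _ hf, tw_shift _ hf]
    simp only [List.count_cons, List.count_nil, beq_iff_eq, reduceCtorEq, if_false, if_true]
    split_ifs <;> omega
  · rw [if_neg he]
    apply List.count_eq_zero.2
    simp [gadL, he]

theorem tw_gadR_zz (n Q e e' i : ℕ) (h : 2 * Q ≤ n) :
    (gadR n Q e').count (zz e i) = if e' = e then (if i < n then 1 else 0) else 0 := by
  by_cases he : e' = e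
  · subst he
    have hf : Function.Injective (zz e') := fun x y hxy => by injection hxy
    unfold gadR
    rw [List.count_append, List.count_append, List.count_append, tw_map _ hf, tw_shift _ hf]
    simp only [List.count_cons, List.count_nil, beq_iff_eq, reduceCtorEq, if_false, if_true]
    split_ifs <;> omega
  · rw [if_neg he]
    apply List.count_eq_zero.2
    simp [gadR, he]

/-- a name which occurs once in each of the two columns of its gadget -/
def twOne (a : Nm) (e : ℕ) : Prop := a = cc e ∨ a = cp e ∨ a = dd e ∨ a = dp e ∨ a = gg e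

theorem tw_gadL_one (n P e e' : ℕ) (a : Nm) (ha : twOne a e) :
    (gadL n P e').count a = if e' = e then 1 else 0 := by
  have hz : ∀ (m : ℕ) (F : ℕ → ℕ), ((List.range m).map fun t => zz e' (F t)).count a = 0 := by
    intro m F
    apply List.count_eq_zero.2
    intro hm
    rw [List.mem_map] at hm
    obtain ⟨t, _, ht⟩ := hm
    rcases ha with h | h | h | h | h <;> rw [h] at ht <;> exact Nm.noConfusion ht
  unfold gadL
  rw [List.count_append, List.count_append, List.count_append, hz _ (fun t => t),
    hz _ (fun t => 2 * P + t)]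
  rcases ha with h | h | h | h | h <;> subst h <;> by_cases he : e' = e <;>
    simp [List.count_cons, he]

theorem tw_gadR_one (n Q e e' : ℕ) (a : Nm) (ha : twOne a e) :
    (gadR n Q e').count a = if e' = e then 1 else 0 := by
  have hz : ∀ (m : ℕ) (F : ℕ → ℕ), ((List.range m).map fun t => zz e' (F t)).count a = 0 := by
    intro m F
    apply List.count_eq_zero.2
    intro hm
    rw [List.mem_map] at hm
    obtain ⟨t, _, ht⟩ := hm
    rcases ha with h | h | h | h | h <;> rw [h] at ht <;> exact Nm.noConfusion ht
  unfold gadR
  rw [List.count_append, List.count_append, List.count_append, hz _ (fun t => t),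
    hz _ (fun t => n - 2 * Q + t)]
  rcases ha with h | h | h | h | h <;> subst h <;> by_cases he : e' = e <;>
    simp [List.count_cons, he]

theorem tw_gads_zz (N k : ℕ) (E : List (ℕ × ℕ)) (hE : ∀ e ∈ E, e.1 < N ∧ e.2 < N) (e i : ℕ) :
    ∃ c, c ≤ 1 ∧ (gadsL N k E).count (zz e i) = c ∧ (gadsR N k E).count (zz e i) = c := by
  have h1 := tw_zip (fun x e' => gadL (len N k) (k + x.1 + 1) e') (zz e i) e
    (if i < len N k then 1 else 0) E 0 (fun x hx e' => by
      have := (hE x hx).1
      exact tw_gadL_zz _ _ _ _ _ (by unfold len; omega))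
  have h2 := tw_zip (fun x e' => gadR (len N k) (k + x.2 + 1) e') (zz e i) e
    (if i < len N k then 1 else 0) E 0 (fun x hx e' => by
      have := (hE x hx).2
      exact tw_gadR_zz _ _ _ _ _ (by unfold len; omega))
  refine ⟨_, ?_, h1, h2⟩
  split_ifs <;> omega

theorem tw_gads_one (N k : ℕ) (E : List (ℕ × ℕ)) (e : ℕ) (a : Nm) (ha : twOne a e) :
    ∃ c, c ≤ 1 ∧ (gadsL N k E).count a = c ∧ (gadsR N k E).count a = c := by
  have h1 := tw_zip (fun x e' => gadL (len N k) (k + x.1 + 1) e') a e 1 E 0
    (fun x _ e' => tw_gadL_one _ _ _ _ _ ha)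
  have h2 := tw_zip (fun x e' => gadR (len N k) (k + x.2 + 1) e') a e 1 E 0
    (fun x _ e' => tw_gadR_one _ _ _ _ _ ha)
  refine ⟨_, ?_, h1, h2⟩
  split_ifs <;> omega

theorem tw_gads_none (N k : ℕ) (E : List (ℕ × ℕ)) (a : Nm)
    (h1 : ∀ e i, a ≠ zz e i) (h2 : ∀ e, ¬ twOne a e) :
    (gadsL N k E).count a = 0 ∧ (gadsR N k E).count a = 0 := by
  have hone : ∀ e, a ≠ cc e ∧ a ≠ cp e ∧ a ≠ dd e ∧ a ≠ dp e ∧ a ≠ gg e := by
    intro e
    have := h2 e
    unfold twOne at this
    push Not at this
    exact this
  constructor
  · apply List.count_eq_zero.2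
    intro hm
    unfold gadsL at hm
    rw [List.mem_flatMap] at hm
    obtain ⟨s, _, hs⟩ := hm
    obtain ⟨q1, q2, q3, q4, q5⟩ := hone s.2
    simp only [gadL, List.mem_append, List.mem_map, List.mem_cons, List.not_mem_nil,
      or_false] at hs
    rcases hs with ((⟨t, _, ht⟩ | h | h) | ⟨t, _, ht⟩) | h | h | h
    · exact h1 _ _ ht.symm
    · exact q1 h
    · exact q2 h
    · exact h1 _ _ ht.symm
    · exact q3 h
    · exact q5 h
    · exact q4 h
  · apply List.count_eq_zero.2
    intro hm
    unfold gadsR at hm
    rw [List.mem_flatMap] at hm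
    obtain ⟨s, _, hs⟩ := hm
    obtain ⟨q1, q2, q3, q4, q5⟩ := hone s.2
    simp only [gadR, List.mem_append, List.mem_map, List.mem_cons, List.not_mem_nil,
      or_false] at hs
    rcases hs with (((h | h | h) | ⟨t, _, ht⟩) | h | h) | ⟨t, _, ht⟩
    · exact q2 h
    · exact q5 h
    · exact q1 h
    · exact h1 _ _ ht.symm
    · exact q4 h
    · exact q3 h
    · exact h1 _ _ ht.symm

theorem tw_gadL_len (n P e : ℕ) (h : 2 * P ≤ n) : (gadL n P e).length = n + 5 := by
  simp only [gadL, List.length_append, List.length_map, List.length_range, List.length_cons,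
    List.length_nil]
  omega

theorem tw_gadR_len (n Q e : ℕ) (h : 2 * Q ≤ n) : (gadR n Q e).length = n + 5 := by
  simp only [gadR, List.length_append, List.length_map, List.length_range, List.length_cons,
    List.length_nil]
  omega

theorem tw_zip_len (g : ℕ × ℕ → ℕ → List Nm) (c : ℕ) : ∀ (E : List (ℕ × ℕ)) (m : ℕ),
    (∀ x ∈ E, ∀ e', (g x e').length = c) →
    ((E.zipIdx m).flatMap fun s => g s.1 s.2).length = E.length * c := by
  intro E
  induction E with
  | nil => intro m _; simp
  | cons x E ih =>
    intro m h
    rw [List.zipIdx_cons, List.flatMap_cons, List.length_append,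
      ih (m + 1) (fun y hy => h y (List.mem_cons_of_mem _ hy)),
      h x List.mem_cons_self m, List.length_cons]
    ring

theorem tw_flat_len (f : ℕ → Nm) (m : ℕ) :
    ((List.range m).flatMap fun i => [f i, f i]).length = 2 * m := by
  induction m with
  | zero => simp
  | succ m ih =>
    rw [List.range_succ, List.flatMap_append, List.length_append, ih]
    simp
    ring

theorem tw_flat_none (f : ℕ → Nm) (m : ℕ) (a : Nm) (h : ∀ i, a ≠ f i) :
    ((List.range m).flatMap fun i => [f i, f i]).count a = 0 := by
  apply List.count_eq_zero.2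
  intro hm
  rw [List.mem_flatMap] at hm
  obtain ⟨i, _, hi⟩ := hm
  simp only [List.mem_cons, List.not_mem_nil, or_false, or_self] at hi
  exact h i hi

theorem tw_map_none (f : ℕ → Nm) (m : ℕ) (a : Nm) (h : ∀ i, a ≠ f i) :
    ((List.range m).map f).count a = 0 := by
  apply List.count_eq_zero.2
  intro hm
  rw [List.mem_map] at hm
  obtain ⟨i, _, hi⟩ := hm
  exact h i hi.symm

theorem tw_count (N k : ℕ) (E : List (ℕ × ℕ)) (hE : ∀ e ∈ E, e.1 < N ∧ e.2 < N) (a : Nm) :
    (colL N k E).count a + (colR N k E).count a = 0 ∨
      (colL N k E).count a + (colR N k E).count a = 2 := by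
  have hx : Function.Injective xx := fun x y h => by injection h
  have hy : Function.Injective yy := fun x y h => by injection h
  have hq : Function.Injective qq := fun x y h => by injection h
  have ht : Function.Injective tt := fun x y h => by injection h
  unfold colL colR
  simp only [List.count_append, List.count_reverse]
  cases a with
  | xx i =>
    obtain ⟨g1, g2⟩ := tw_gads_none N k E (xx i) (by simp) (by simp [twOne])
    rw [g1, g2, tw_flat _ hx, tw_flat_none tt _ _ (by simp), tw_flat_none yy _ _ (by simp),
      tw_map_none qq _ _ (by simp)]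
    simp only [List.count_cons, List.count_nil, beq_iff_eq, reduceCtorEq, if_false]
    split_ifs <;> omega
  | yy i =>
    obtain ⟨g1, g2⟩ := tw_gads_none N k E (yy i) (by simp) (by simp [twOne])
    rw [g1, g2, tw_flat _ hy, tw_flat_none tt _ _ (by simp), tw_flat_none xx _ _ (by simp),
      tw_map_none qq _ _ (by simp)]
    simp only [List.count_cons, List.count_nil, beq_iff_eq, reduceCtorEq, if_false]
    split_ifs <;> omega
  | qq i =>
    obtain ⟨g1, g2⟩ := tw_gads_none N k E (qq i) (by simp) (by simp [twOne])
    rw [g1, g2, tw_map _ hq, tw_flat_none tt _ _ (by simp), tw_flat_none xx _ _ (by simp),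
      tw_flat_none yy _ _ (by simp)]
    simp only [List.count_cons, List.count_nil, beq_iff_eq, reduceCtorEq, if_false]
    split_ifs <;> omega
  | tt i =>
    obtain ⟨g1, g2⟩ := tw_gads_none N k E (tt i) (by simp) (by simp [twOne])
    rw [g1, g2, tw_flat _ ht, tw_flat_none yy _ _ (by simp), tw_flat_none xx _ _ (by simp),
      tw_map_none qq _ _ (by simp)]
    simp only [List.count_cons, List.count_nil, beq_iff_eq, reduceCtorEq, if_false]
    split_ifs <;> omega
  | YY =>
    obtain ⟨g1, g2⟩ := tw_gads_none N k E YY (by simp) (by simp [twOne])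
    rw [g1, g2, tw_flat_none tt _ _ (by simp), tw_flat_none yy _ _ (by simp),
      tw_flat_none xx _ _ (by simp), tw_map_none qq _ _ (by simp)]
    simp
  | zz e i =>
    obtain ⟨c, hc, g1, g2⟩ := tw_gads_zz N k E hE e i
    rw [g1, g2, tw_flat_none tt _ _ (by simp), tw_flat_none yy _ _ (by simp),
      tw_flat_none xx _ _ (by simp), tw_map_none qq _ _ (by simp)]
    simp only [List.count_cons, List.count_nil, beq_iff_eq, reduceCtorEq, if_false]
    omega
  | cc e =>
    obtain ⟨c, hc, g1, g2⟩ := tw_gads_one N k E e (cc e) (by simp [twOne])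
    rw [g1, g2, tw_flat_none tt _ _ (by simp), tw_flat_none yy _ _ (by simp),
      tw_flat_none xx _ _ (by simp), tw_map_none qq _ _ (by simp)]
    simp only [List.count_cons, List.count_nil, beq_iff_eq, reduceCtorEq, if_false]
    omega
  | cp e =>
    obtain ⟨c, hc, g1, g2⟩ := tw_gads_one N k E e (cp e) (by simp [twOne])
    rw [g1, g2, tw_flat_none tt _ _ (by simp), tw_flat_none yy _ _ (by simp),
      tw_flat_none xx _ _ (by simp), tw_map_none qq _ _ (by simp)]
    simp only [List.count_cons, List.count_nil, beq_iff_eq, reduceCtorEq, if_false]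
    omega
  | dd e =>
    obtain ⟨c, hc, g1, g2⟩ := tw_gads_one N k E e (dd e) (by simp [twOne])
    rw [g1, g2, tw_flat_none tt _ _ (by simp), tw_flat_none yy _ _ (by simp),
      tw_flat_none xx _ _ (by simp), tw_map_none qq _ _ (by simp)]
    simp only [List.count_cons, List.count_nil, beq_iff_eq, reduceCtorEq, if_false]
    omega
  | dp e =>
    obtain ⟨c, hc, g1, g2⟩ := tw_gads_one N k E e (dp e) (by simp [twOne])
    rw [g1, g2, tw_flat_none tt _ _ (by simp), tw_flat_none yy _ _ (by simp),
      tw_flat_none xx _ _ (by simp), tw_map_none qq _ _ (by simp)]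
    simp only [List.count_cons, List.count_nil, beq_iff_eq, reduceCtorEq, if_false]
    omega
  | gg e =>
    obtain ⟨c, hc, g1, g2⟩ := tw_gads_one N k E e (gg e) (by simp [twOne])
    rw [g1, g2, tw_flat_none tt _ _ (by simp), tw_flat_none yy _ _ (by simp),
      tw_flat_none xx _ _ (by simp), tw_map_none qq _ _ (by simp)]
    simp only [List.count_cons, List.count_nil, beq_iff_eq, reduceCtorEq, if_false]
    omega

/-- TWICE -/
theorem tTWICE : T_TWICE := by
  intro N k E hE
  refine ⟨?_, ?_⟩
  · intro a ha
    have h1 : 0 < (colL N k E ++ colR N k E).count a := List.count_pos_iff.2 ha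
    rw [List.count_append] at h1
    rcases tw_count N k E hE a with h | h
    · omega
    · exact h
  · have h1 : (gadsL N k E).length = E.length * (len N k + 5) :=
      tw_zip_len (fun x e' => gadL (len N k) (k + x.1 + 1) e') _ E 0 (fun x hx e' => by
        have := (hE x hx).1
        exact tw_gadL_len _ _ _ (by unfold len; omega))
    have h2 : (gadsR N k E).length = E.length * (len N k + 5) :=
      tw_zip_len (fun x e' => gadR (len N k) (k + x.2 + 1) e') _ E 0 (fun x hx e' => by
        have := (hE x hx).2
        exact tw_gadR_len _ _ _ (by unfold len; omega))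
    unfold colL colR
    simp only [List.length_append, List.length_reverse, List.length_map, List.length_range,
      List.length_cons, List.length_nil, h1, h2, tw_flat_len]
    ring

end Pool.Agent.Clk
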