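import Pool.Agent.Clk.Targets

set_option autoImplicit false

/-!
# Two columns with at most two copies: clicks are moves
-/

namespace Pool.Agent.Clk

open Relation

/-! ## Lists -/

theorem two_aux0 : ∀ (M : List ℕ) (a i : ℕ), M.count a = 0 → M[i]? = some a → False := by
  intro M a i h hi
  have := List.mem_of_getElem? hi
  have h2 := List.count_pos_iff.2 this
  omega

theorem two_aux1 : ∀ (M : List ℕ) (a i j : ℕ), M.count a ≤ 1 → M[i]? = some a →
    M[j]? = some a → i = j := by
  intro M
  induction M with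
  | nil => intro a i j _ hi; simp at hi
  | cons c M ih =>
    intro a i j h hi hj
    rw [List.count_cons] at h
    rcases i with _ | i <;> rcases j with _ | j
    · rfl
    · exfalso
      simp only [List.getElem?_cons_zero, Option.some.injEq, List.getElem?_cons_succ] at hi hj
      subst hi
      simp only [beq_self_eq_true, if_true] at h
      exact two_aux0 M c j (by omega) hj
    · exfalso
      simp only [List.getElem?_cons_zero, Option.some.injEq, List.getElem?_cons_succ] at hi hj
      subst hj
      simp only [beq_self_eq_true, if_true] at h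
      exact two_aux0 M c i (by omega) hi
    · simp only [List.getElem?_cons_succ] at hi hj
      rw [ih a i j (by omega) hi hj]

theorem two_aux2 : ∀ (M : List ℕ) (a i j k : ℕ), M.count a ≤ 2 → M[i]? = some a →
    M[j]? = some a → M[k]? = some a → i = j ∨ j = k ∨ i = k := by
  intro M
  induction M with
  | nil => intro a i j k _ hi; simp at hi
  | cons c M ih =>
    intro a i j k h hi hj hk
    rw [List.count_cons] at h
    by_cases hc : c = a
    · subst hc
      simp only [beq_self_eq_true, if_true] at h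
      have h1 : M.count c ≤ 1 := by omega
      rcases i with _ | i <;> rcases j with _ | j <;> rcases k with _ | k <;>
        try simp only [List.getElem?_cons_succ] at hi hj hk
      · exact Or.inl rfl
      · exact Or.inl rfl
      · exact Or.inr (Or.inr rfl)
      · exact Or.inr (Or.inl (by rw [two_aux1 M c j k h1 hj hk]))
      · exact Or.inr (Or.inl rfl)
      · exact Or.inr (Or.inr (by rw [two_aux1 M c i k h1 hi hk]))
      · exact Or.inl (by rw [two_aux1 M c i j h1 hi hj])
      · exact Or.inl (by rw [two_aux1 M c i j h1 hi hj])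
    · rcases i with _ | i
      · simp only [List.getElem?_cons_zero, Option.some.injEq] at hi; exact absurd hi hc
      rcases j with _ | j
      · simp only [List.getElem?_cons_zero, Option.some.injEq] at hj; exact absurd hj hc
      rcases k with _ | k
      · simp only [List.getElem?_cons_zero, Option.some.injEq] at hk; exact absurd hk hc
      simp only [List.getElem?_cons_succ] at hi hj hk
      rcases ih a i j k (by omega) hi hj hk with h | h | h
      · exact Or.inl (by omega)
      · exact Or.inr (Or.inl (by omega))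
      · exact Or.inr (Or.inr (by omega))

theorem split_at {L : List ℕ} {k a : ℕ} (h : L[k]? = some a) :
    ∃ s t, s.length = k ∧ L = s ++ a :: t := by
  obtain ⟨hk, h⟩ := List.getElem?_eq_some_iff.1 h
  refine ⟨L.take k, L.drop (k + 1), by simp; omega, ?_⟩
  rw [← h, ← List.drop_eq_getElem_cons hk, List.take_append_drop]

theorem split_at2 {L : List ℕ} {k a : ℕ} (h : L[k]? = some a) (h' : L[k + 1]? = some a) :
    ∃ s t, s.length = k ∧ L = s ++ a :: a :: t := by
  obtain ⟨s, t, hs, rfl⟩ := split_at h
  subst hs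
  rw [List.getElem?_append_right (by omega)] at h'
  have h2 : t[0]? = some a := by
    simpa using h'
  obtain ⟨s', t', hs', rfl⟩ := split_at h2
  have : s' = [] := List.length_eq_zero_iff.1 hs'
  subst this
  exact ⟨s, t', rfl, rfl⟩

/-! ## Removing -/

open scoped Classical in
/-- `keep` with an offset -/
noncomputable def kp (n x : ℕ) (col : List ℕ) (S : Set (ℕ × ℕ)) : List ℕ :=
  ((col.zipIdx n).filter fun t => decide ((x, t.2) ∉ S)).map Prod.fst

theorem keep_eq (x : ℕ) (col : List ℕ) (S : Set (ℕ × ℕ)) : keep x col S = kp 0 x col S := rfl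

theorem kp_append (n x : ℕ) (s t : List ℕ) (S : Set (ℕ × ℕ)) :
    kp n x (s ++ t) S = kp n x s S ++ kp (n + s.length) x t S := by
  simp [kp, List.zipIdx_append]

theorem kp_id : ∀ (n x : ℕ) (col : List ℕ) (S : Set (ℕ × ℕ)),
    (∀ i, n ≤ i → i < n + col.length → (x, i) ∉ S) → kp n x col S = col := by
  intro n x col
  induction col generalizing n with
  | nil => intro S _; simp [kp]
  | cons c col ih =>
    intro S h
    have h1 : (x, n) ∉ S := h n le_rfl (by simp)
    have h2 := ih (n + 1) S (fun i hi hi2 => h i (by omega) (by simp only [List.length_cons]; omega))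
    simp only [kp] at h2 ⊢
    rw [List.zipIdx_cons, List.filter_cons]
    rw [if_pos (by simpa using h1), List.map_cons, h2]

theorem kp_one (n x a : ℕ) (S : Set (ℕ × ℕ)) (h : (x, n) ∈ S) : kp n x [a] S = [] := by
  simp [kp, h]

theorem kp_two (n x a b : ℕ) (S : Set (ℕ × ℕ)) (h : (x, n) ∈ S) (h' : (x, n + 1) ∈ S) :
    kp n x [a, b] S = [] := by
  simp [kp, h, h', List.zipIdx_cons]

theorem keep_none (x : ℕ) (col : List ℕ) (S : Set (ℕ × ℕ)) (h : ∀ i, (x, i) ∉ S) :
    keep x col S = col := kp_id 0 x col S (fun i _ _ => h i)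

theorem keep_one (x : ℕ) (s t : List ℕ) (a : ℕ) (S : Set (ℕ × ℕ))
    (h : ∀ i, (x, i) ∈ S ↔ i = s.length) : keep x (s ++ a :: t) S = s ++ t := by
  have e : s ++ a :: t = s ++ ([a] ++ t) := rfl
  rw [keep_eq, e, kp_append, kp_append, kp_one _ _ _ _ ((h _).2 (by simp)),
    kp_id 0 x s, kp_id _ x t, List.nil_append]
  · intro i hi _ hS
    have := (h i).1 hS
    simp only [List.length_singleton] at hi
    omega
  · intro i _ hi hS
    have := (h i).1 hS
    omega

theorem keep_two (x : ℕ) (s t : List ℕ) (a b : ℕ) (S : Set (ℕ × ℕ))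
    (h : ∀ i, (x, i) ∈ S ↔ i = s.length ∨ i = s.length + 1) :
    keep x (s ++ a :: b :: t) S = s ++ t := by
  have e : s ++ a :: b :: t = s ++ ([a, b] ++ t) := rfl
  rw [keep_eq, e, kp_append, kp_append, kp_two _ _ _ _ _ ((h _).2 (by simp)) ((h _).2 (by simp)),
    kp_id 0 x s, kp_id _ x t, List.nil_append]
  · intro i hi _ hS
    have := (h i).1 hS
    simp only [List.length_cons, List.length_nil] at hi
    omega
  · intro i _ hi hS
    have := (h i).1 hS
    omega

/-! ## Groups -/

theorem group_tile {b : Pos} {p q : ℕ × ℕ} {a : ℕ} (h : tile b p = some a) (hq : q ∈ group b p) :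
    tile b q = some a := by
  have hq' : ReflTransGen (Bond b) p q := hq
  induction hq' with
  | refl => exact h
  | tail _ hb ih =>
    obtain ⟨_, c, h1, h2⟩ := hb
    rw [ih ‹_›] at h1
    rw [h2, ← h1]

/-- at most two tiles of each colour -/
def Two (b : Pos) : Prop := ∀ a p q r, tile b p = some a → tile b q = some a →
  tile b r = some a → p = q ∨ q = r ∨ p = r

theorem near_ne {p q : ℕ × ℕ} (h : Near p q) : q ≠ p := by
  rintro rfl
  rcases h with ⟨_, h⟩ | ⟨_, h⟩ <;> omega

theorem near_symm {p q : ℕ × ℕ} (h : Near p q) : Near q p := by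
  rcases h with ⟨h1, h⟩ | ⟨h1, h⟩
  · exact Or.inl ⟨h1.symm, h.symm⟩
  · exact Or.inr ⟨h1.symm, h.symm⟩

theorem group_pair {b : Pos} (hb : Two b) {p q : ℕ × ℕ} {a : ℕ} (hp : tile b p = some a)
    (hq : tile b q = some a) (hn : Near p q) : group b p = {p, q} := by
  have hne : q ≠ p := near_ne hn
  have hqg : q ∈ group b p := ReflTransGen.single ⟨hn, a, hp, hq⟩
  ext r
  constructor
  · intro hr
    have h3 := group_tile hp hr
    rcases hb a p q r hp hq h3 with h | h | h
    · exact absurd h.symm hne
    · exact Or.inr h.symm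
    · exact Or.inl h.symm
  · rintro (rfl | rfl)
    · exact ReflTransGen.refl
    · exact hqg

theorem click_iff {b b' : Pos} (hb : Two b) : Click b b' ↔
    ∃ p q a, Near p q ∧ tile b p = some a ∧ tile b q = some a ∧ b' = remove b {p, q} := by
  constructor
  · rintro ⟨p, hp, ⟨q, hqp, hq⟩, h⟩
    obtain ⟨a, ha⟩ := Option.isSome_iff_exists.1 hp
    have hqa := group_tile ha hq
    have hq' : ReflTransGen (Bond b) p q := hq
    rcases ReflTransGen.cases_head hq' with h1 | ⟨c, h1, h2⟩
    · exact absurd h1.symm hqp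
    · have hc : tile b c = some a := group_tile ha (ReflTransGen.single h1)
      have hcp : c ≠ p := near_ne h1.1
      have hcq : c = q := by
        rcases hb a p q c ha hqa hc with h | h | h
        · exact absurd h.symm hqp
        · exact h.symm
        · exact absurd h.symm hcp
      subst hcq
      exact ⟨p, c, a, h1.1, ha, hqa, by rw [h, group_pair hb ha hqa h1.1]⟩
  · rintro ⟨p, q, a, hn, hp, hq, h⟩
    refine ⟨p, by simp [hp], ⟨q, near_ne hn, ReflTransGen.single ⟨hn, a, hp, hq⟩⟩, ?_⟩
    rw [h, group_pair hb hp hq hn]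

theorem click_iff' {b b' : Pos} (hb : Two b) : Click b b' ↔
    (∃ x k a, tile b (x, k) = some a ∧ tile b (x, k + 1) = some a ∧
      b' = remove b {(x, k), (x, k + 1)}) ∨
    (∃ x k a, tile b (x, k) = some a ∧ tile b (x + 1, k) = some a ∧
      b' = remove b {(x, k), (x + 1, k)}) := by
  rw [click_iff hb]
  constructor
  · rintro ⟨⟨x, k⟩, ⟨y, l⟩, a, hn, hp, hq, h⟩
    rcases hn with ⟨h1, h2 | h2⟩ | ⟨h1, h2 | h2⟩
    · simp only at h1 h2
      subst h1; subst h2
      exact Or.inl ⟨x, k, a, hp, hq, h⟩
    · simp only at h1 h2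
      subst h1; subst h2
      exact Or.inl ⟨x, l, a, hq, hp, by rw [h, Set.pair_comm]⟩
    · simp only at h1 h2
      subst h1; subst h2
      exact Or.inr ⟨x, k, a, hp, hq, h⟩
    · simp only at h1 h2
      subst h1; subst h2
      exact Or.inr ⟨y, k, a, hq, hp, by rw [h, Set.pair_comm]⟩
  · rintro (⟨x, k, a, hp, hq, h⟩ | ⟨x, k, a, hp, hq, h⟩)
    · exact ⟨(x, k), (x, k + 1), a, Or.inl ⟨rfl, Or.inl rfl⟩, hp, hq, h⟩
    · exact ⟨(x, k), (x + 1, k), a, Or.inr ⟨rfl, Or.inl rfl⟩, hp, hq, h⟩

/-! ## Two columns -/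

/-- the position with the columns `L` and `R`, one of which may be empty -/
def pos2 (L R : List ℕ) : Pos := [L, R].filter fun col => decide (col ≠ [])

theorem pos2_ne {L R : List ℕ} (hL : L ≠ []) (hR : R ≠ []) : pos2 L R = [L, R] := by
  simp [pos2, hL, hR]

theorem pos2_left {L : List ℕ} (hL : L ≠ []) : pos2 L [] = [L] := by
  simp [pos2, hL]

theorem pos2_right {R : List ℕ} (hR : R ≠ []) : pos2 [] R = [R] := by
  simp [pos2, hR]

theorem remove_pair (L R : List ℕ) (S : Set (ℕ × ℕ)) :
    remove [L, R] S = pos2 (keep 0 L S) (keep 1 R S) := by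
  simp [remove, pos2, List.zipIdx_cons]

theorem remove_single (L : List ℕ) (S : Set (ℕ × ℕ)) :
    remove [L] S = pos2 (keep 0 L S) [] := by
  by_cases h : keep 0 L S = []
  · simp [remove, pos2, List.zipIdx_cons, h]
  · simp [remove, pos2, List.zipIdx_cons, h]

theorem pos2_swap (L : List ℕ) : pos2 L [] = pos2 [] L := by
  by_cases h : L = []
  · rw [h]
  · rw [pos2_left h, pos2_right h]

theorem tile_pair0 (L R : List ℕ) (k : ℕ) : tile [L, R] (0, k) = L[k]? := by simp [tile]
theorem tile_pair1 (L R : List ℕ) (k : ℕ) : tile [L, R] (1, k) = R[k]? := by simp [tile]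
theorem tile_pair2 (L R : List ℕ) (x k : ℕ) : tile [L, R] (x + 2, k) = none := by simp [tile]
theorem tile_single0 (L : List ℕ) (k : ℕ) : tile [L] (0, k) = L[k]? := by simp [tile]
theorem tile_single1 (L : List ℕ) (x k : ℕ) : tile [L] (x + 1, k) = none := by simp [tile]

theorem tile_pair_some {L R : List ℕ} {p : ℕ × ℕ} {a : ℕ} (h : tile [L, R] p = some a) :
    (p.1 = 0 ∧ (L ++ R)[p.2]? = some a ∧ p.2 < L.length) ∨
      (p.1 = 1 ∧ (L ++ R)[L.length + p.2]? = some a) := by
  obtain ⟨x, k⟩ := p
  rcases x with _ | _ | x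
  · rw [tile_pair0] at h
    have hk := (List.getElem?_eq_some_iff.1 h).1
    exact Or.inl ⟨rfl, by rw [List.getElem?_append_left hk, h], hk⟩
  · rw [zero_add, tile_pair1] at h
    refine Or.inr ⟨rfl, ?_⟩
    rw [List.getElem?_append_right (by simp)]
    simpa using h
  · rw [tile_pair2] at h
    simp at h

theorem two_pair {L R : List ℕ} (h : ∀ a, (L ++ R).count a ≤ 2) : Two [L, R] := by
  intro a p q r hp hq hr
  have key : ∀ p q : ℕ × ℕ, p.1 = q.1 → p.2 = q.2 → p = q := fun p q h1 h2 => Prod.ext h1 h2
  rcases tile_pair_some hp with ⟨p1, p2, p3⟩ | ⟨p1, p2⟩ <;>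
  rcases tile_pair_some hq with ⟨q1, q2, q3⟩ | ⟨q1, q2⟩ <;>
  rcases tile_pair_some hr with ⟨r1, r2, r3⟩ | ⟨r1, r2⟩ <;>
  rcases two_aux2 _ a _ _ _ (h a) p2 q2 r2 with e | e | e <;>
  first
  | (exfalso; omega)
  | exact Or.inl (key _ _ (by omega) (by omega))
  | exact Or.inr (Or.inl (key _ _ (by omega) (by omega)))
  | exact Or.inr (Or.inr (key _ _ (by omega) (by omega)))

theorem tile_single_some {L : List ℕ} {p : ℕ × ℕ} {a : ℕ} (h : tile [L] p = some a) :
    p.1 = 0 ∧ L[p.2]? = some a := by
  obtain ⟨x, k⟩ := p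
  rcases x with _ | x
  · rw [tile_single0] at h
    exact ⟨rfl, h⟩
  · rw [tile_single1] at h
    simp at h

theorem two_single {L : List ℕ} (h : ∀ a, L.count a ≤ 2) : Two [L] := by
  intro a p q r hp hq hr
  have key : ∀ p q : ℕ × ℕ, p.1 = q.1 → p.2 = q.2 → p = q := fun p q h1 h2 => Prod.ext h1 h2
  obtain ⟨p1, p2⟩ := tile_single_some hp
  obtain ⟨q1, q2⟩ := tile_single_some hq
  obtain ⟨r1, r2⟩ := tile_single_some hr
  rcases two_aux2 _ a _ _ _ (h a) p2 q2 r2 with e | e | e
  · exact Or.inl (key _ _ (by omega) e)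
  · exact Or.inr (Or.inl (key _ _ (by omega) e))
  · exact Or.inr (Or.inr (key _ _ (by omega) e))

theorem not_click_nil (b' : Pos) : ¬ Click [] b' := by
  rintro ⟨p, hp, _⟩
  simp [tile] at hp

theorem get_mid (s t : List ℕ) (a : ℕ) : (s ++ a :: t)[s.length]? = some a := by
  rw [List.getElem?_append_right le_rfl]
  simp

theorem get_mid1 (s t : List ℕ) (a b : ℕ) : (s ++ a :: b :: t)[s.length + 1]? = some b := by
  rw [List.getElem?_append_right (by omega)]
  simp

/-- what a click in a single column does -/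
theorem click_single {L : List ℕ} {b' : Pos} (h : ∀ a, L.count a ≤ 2) : Click [L] b' ↔
    ∃ s t a, L = s ++ a :: a :: t ∧ b' = pos2 (s ++ t) [] := by
  rw [click_iff' (two_single h)]
  clear h
  constructor
  · rintro (⟨x, k, a, hp, hq, h⟩ | ⟨x, k, a, hp, hq, h⟩)
    · have hx := (tile_single_some hp).1
      simp only at hx
      subst hx
      rw [tile_single0] at hp hq
      obtain ⟨s, t, hs, rfl⟩ := split_at2 hp hq
      refine ⟨s, t, a, rfl, ?_⟩
      rw [h, remove_single, keep_two]
      intro i
      simp [hs]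
    · rw [tile_single1] at hq
      simp at hq
  · rintro ⟨s, t, a, rfl, h⟩
    refine Or.inl ⟨0, s.length, a, ?_, ?_, ?_⟩
    · rw [tile_single0, get_mid]
    · rw [tile_single0, get_mid1]
    · rw [h, remove_single, keep_two]
      intro i
      simp

/-- what a click in two columns does -/
theorem click_pair {L R : List ℕ} {b' : Pos} (h : ∀ a, (L ++ R).count a ≤ 2) :
    Click [L, R] b' ↔ ∃ L' R', Mv (L, R) (L', R') ∧ b' = pos2 L' R' := by
  rw [click_iff' (two_pair h)]
  clear h
  constructor
  · rintro (⟨x, k, a, hp, hq, h⟩ | ⟨x, k, a, hp, hq, h⟩)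
    · rcases x with _ | _ | x
      · rw [tile_pair0] at hp hq
        obtain ⟨s, t, hs, rfl⟩ := split_at2 hp hq
        refine ⟨s ++ t, R, Mv.left s t R a, ?_⟩
        rw [h, remove_pair, keep_two, keep_none]
        · intro i
          simp
        · intro i
          simp [hs]
      · rw [zero_add, tile_pair1] at hp hq
        obtain ⟨s, t, hs, rfl⟩ := split_at2 hp hq
        refine ⟨L, s ++ t, Mv.right L s t a, ?_⟩
        rw [h, remove_pair, keep_two, keep_none]
        · intro i
          simp
        · intro i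
          simp [hs]
      · rw [tile_pair2] at hp
        simp at hp
    · rcases x with _ | x
      · rw [tile_pair0] at hp
        rw [zero_add, tile_pair1] at hq
        obtain ⟨s, t, hs, rfl⟩ := split_at hp
        obtain ⟨s', t', hs', rfl⟩ := split_at hq
        refine ⟨s ++ t, s' ++ t', Mv.cross s t s' t' a (by rw [hs, hs']), ?_⟩
        rw [h, remove_pair, keep_one, keep_one]
        · intro i
          simp [hs']
        · intro i
          simp [hs]
      · have : x + 1 + 1 = x + 2 := rfl
        rw [this, tile_pair2] at hq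
        simp at hq
  · rintro ⟨L', R', hm, h⟩
    cases hm with
    | left s t R a =>
      refine Or.inl ⟨0, s.length, a, ?_, ?_, ?_⟩
      · rw [tile_pair0, get_mid]
      · rw [tile_pair0, get_mid1]
      · rw [h, remove_pair, keep_two, keep_none]
        · intro i
          simp
        · intro i
          simp
    | right L s t a =>
      refine Or.inl ⟨1, s.length, a, ?_, ?_, ?_⟩
      · rw [tile_pair1, get_mid]
      · rw [tile_pair1, get_mid1]
      · rw [h, remove_pair, keep_two, keep_none]
        · intro i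
          simp
        · intro i
          simp
    | cross s t s' t' a hs =>
      refine Or.inr ⟨0, s.length, a, ?_, ?_, ?_⟩
      · rw [tile_pair0, get_mid]
      · rw [zero_add, tile_pair1, hs, get_mid]
      · rw [h, remove_pair, keep_one, keep_one]
        · intro i
          simp [hs]
        · intro i
          simp

theorem mv_inv {L R L' R' : List ℕ} (h : Mv (L, R) (L', R')) :
    (∃ s t a, L = s ++ a :: a :: t ∧ L' = s ++ t ∧ R' = R) ∨
    (∃ s t a, R = s ++ a :: a :: t ∧ R' = s ++ t ∧ L' = L) ∨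
    (∃ s t s' t' a, s.length = s'.length ∧ L = s ++ a :: t ∧ R = s' ++ a :: t' ∧
      L' = s ++ t ∧ R' = s' ++ t') := by
  cases h with
  | left s t R a => exact Or.inl ⟨s, t, a, rfl, rfl, rfl⟩
  | right L s t a => exact Or.inr (Or.inl ⟨s, t, a, rfl, rfl, rfl⟩)
  | cross s t s' t' a hs => exact Or.inr (Or.inr ⟨s, t, s', t', a, hs, rfl, rfl, rfl, rfl⟩)

theorem mv_count {L R L' R' : List ℕ} (h : Mv (L, R) (L', R')) (c : ∀ a, (L ++ R).count a ≤ 2) :
    ∀ a, (L' ++ R').count a ≤ 2 := by
  intro x
  have cx := c x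
  rcases mv_inv h with ⟨s, t, a, rfl, rfl, rfl⟩ | ⟨s, t, a, rfl, rfl, rfl⟩ |
    ⟨s, t, s', t', a, _, rfl, rfl, rfl, rfl⟩ <;>
  · simp only [List.count_append, List.count_cons] at cx ⊢
    omega

/-- clicks are moves, also when a column is empty -/
theorem click_pos2 {L R : List ℕ} {b' : Pos} (h : ∀ a, (L ++ R).count a ≤ 2) :
    Click (pos2 L R) b' ↔ ∃ L' R', Mv (L, R) (L', R') ∧ b' = pos2 L' R' := by
  by_cases hL : L = []
  · subst hL
    by_cases hR : R = []
    · subst hR
      constructor
      · intro hc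
        exact absurd hc (by simpa [pos2] using not_click_nil b')
      · rintro ⟨L', R', hm, _⟩
        exfalso
        rcases mv_inv hm with ⟨s, t, a, h1, _⟩ | ⟨s, t, a, h1, _⟩ | ⟨s, t, s', t', a, _, h1, _⟩ <;>
          simp at h1
    · rw [pos2_right hR, click_single (by simpa using h)]
      constructor
      · rintro ⟨s, t, a, rfl, h1⟩
        exact ⟨[], s ++ t, Mv.right [] s t a, by rw [h1, pos2_swap]⟩
      · rintro ⟨L', R', hm, h1⟩
        rcases mv_inv hm with ⟨s, t, a, h1, _⟩ | ⟨s, t, a, h2, rfl, rfl⟩ |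
          ⟨s, t, s', t', a, _, h1, _⟩
        · simp at h1
        · exact ⟨s, t, a, h2, by rw [h1, pos2_swap]⟩
        · simp at h1
  · by_cases hR : R = []
    · subst hR
      rw [pos2_left hL, click_single (by simpa using h)]
      constructor
      · rintro ⟨s, t, a, rfl, h1⟩
        exact ⟨s ++ t, [], Mv.left s t [] a, h1⟩
      · rintro ⟨L', R', hm, h1⟩
        rcases mv_inv hm with ⟨s, t, a, h2, rfl, rfl⟩ | ⟨s, t, a, h2, _⟩ |
          ⟨s, t, s', t', a, _, _, h2, _⟩
        · exact ⟨s, t, a, h2, h1⟩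
        · simp at h2
        · simp at h2
    · rw [pos2_ne hL hR, click_pair h]

theorem pos2_eq_nil {L R : List ℕ} (h : pos2 L R = []) : L = [] ∧ R = [] := by
  by_cases hL : L = []
  · subst hL
    refine ⟨rfl, ?_⟩
    by_contra hR
    rw [pos2_right hR] at h
    simp at h
  · exfalso
    by_cases hR : R = []
    · subst hR
      rw [pos2_left hL] at h
      simp at h
    · rw [pos2_ne hL hR] at h
      simp at h

theorem clr_of_clearable {b : Pos} (hb : ReflTransGen Click b []) : ∀ L R : List ℕ,
    b = pos2 L R → (∀ a, (L ++ R).count a ≤ 2) → Clr L R := by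
  induction hb using ReflTransGen.head_induction_on with
  | refl =>
    intro L R h _
    obtain ⟨rfl, rfl⟩ := pos2_eq_nil h.symm
    exact ReflTransGen.refl
  | head h1 _ ih =>
    intro L R h hc
    subst h
    obtain ⟨L', R', hm, h2⟩ := (click_pos2 hc).1 h1
    exact ReflTransGen.head hm (ih L' R' h2 (mv_count hm hc))

theorem clearable_of_clr {p : List ℕ × List ℕ} (hp : ReflTransGen Mv p ([], [])) :
    (∀ a, (p.1 ++ p.2).count a ≤ 2) → Clearable (pos2 p.1 p.2) := by
  induction hp using ReflTransGen.head_induction_on with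
  | refl =>
    intro _
    exact ReflTransGen.refl
  | @head p q h1 _ ih =>
    intro hc
    obtain ⟨L, R⟩ := p
    obtain ⟨L', R'⟩ := q
    exact ReflTransGen.head ((click_pos2 hc).2 ⟨L', R', h1, rfl⟩) (ih (mv_count h1 hc))

theorem tTWO : T_TWO := by
  intro L R hL hR hc
  constructor
  · intro h
    exact clr_of_clearable h L R (pos2_ne hL hR).symm hc
  · intro h
    have := clearable_of_clr h hc
    simpa only [pos2_ne hL hR] using this

end Pool.Agent.Clk
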