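import Pool.Agent.Clk.Defs

set_option autoImplicit false

/-!
# Two columns, two copies: the reduction from vertex cover
-/

namespace Pool.Agent.Clk

open Pool.Agent.SLN (Lit Satisfiable)

/-! ## The game on two columns -/

section
variable {α : Type}

/-- A move: two equal tiles which are adjacent in a column, or which have the same height in the two
columns, are removed. -/
inductive Mv : List α × List α → List α × List α → Prop
  | left (s t R : List α) (a : α) : Mv (s ++ a :: a :: t, R) (s ++ t, R)
  | right (L s t : List α) (a : α) : Mv (L, s ++ a :: a :: t) (L, s ++ t)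
  | cross (s t s' t' : List α) (a : α) : s.length = s'.length →
      Mv (s ++ a :: t, s' ++ a :: t') (s ++ t, s' ++ t')

/-- the two columns can be cleared -/
def Clr (L R : List α) : Prop := Relation.ReflTransGen Mv (L, R) ([], [])

open scoped Classical in
/-- the remaining tiles -/
noncomputable def rst (S : Set α) (L : List α) : List α := L.filter fun a => decide (a ∈ S)

/-- The pair `a` can be removed when the pairs in `S` are left. -/
def Rem (L R : List α) (S : Set α) (a : α) : Prop :=
  (∃ s t, rst S L = s ++ a :: a :: t) ∨ (∃ s t, rst S R = s ++ a :: a :: t) ∨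
    ∃ s t s' t', s.length = s'.length ∧ rst S L = s ++ a :: t ∧ rst S R = s' ++ a :: t'

/-- one move, described by the set of the remaining pairs -/
def SMv (L R : List α) (S S' : Set α) : Prop := ∃ a ∈ S, Rem L R S a ∧ S' = S \ {a}

/-- every element occurs twice in the two lists together -/
def Twice [DecidableEq α] (L R : List α) : Prop := ∀ a ∈ L ++ R, L.count a + R.count a = 2

end

/-! ## The two columns built from a graph -/

/-- Names of pairs of tiles. -/
inductive Nm : Type
  | xx (i : ℕ) | yy (i : ℕ) | qq (i : ℕ) | tt (i : ℕ) | YY | zz (e i : ℕ)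
  | cc (e : ℕ) | cp (e : ℕ) | dd (e : ℕ) | dp (e : ℕ) | gg (e : ℕ)
  deriving DecidableEq

open Nm

/-- the left column of the gadget number `e`; `P` is the level of the first vertex -/
def gadL (n P e : ℕ) : List Nm :=
  (List.range (2 * P)).map (zz e) ++ [cc e, cp e] ++
    (List.range (n - 2 * P)).map (fun i => zz e (2 * P + i)) ++ [dd e, gg e, dp e]

/-- the right column of the gadget; `Q` is the level of the second vertex -/
def gadR (n Q e : ℕ) : List Nm :=
  [cp e, gg e, cc e] ++ (List.range (n - 2 * Q)).map (zz e) ++ [dp e, dd e] ++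
    (List.range (2 * Q)).map (fun i => zz e (n - 2 * Q + i))

/-- the number of the pairs `zz` of a gadget -/
def len (N k : ℕ) : ℕ := 2 * (k + N)

/-- the number of the pairs `xx` and of the pairs `qq` -/
def big (N k : ℕ) (E : List (ℕ × ℕ)) : ℕ := E.length * (len N k + 1)

/-- all left columns of the gadgets; vertex `v` has level `k + v + 1` -/
def gadsL (N k : ℕ) (E : List (ℕ × ℕ)) : List Nm :=
  E.zipIdx.flatMap fun s => gadL (len N k) (k + s.1.1 + 1) s.2

/-- all right columns of the gadgets -/
def gadsR (N k : ℕ) (E : List (ℕ × ℕ)) : List Nm :=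
  E.zipIdx.flatMap fun s => gadR (len N k) (k + s.1.2 + 1) s.2

/-- the left column -/
def colL (N k : ℕ) (E : List (ℕ × ℕ)) : List Nm :=
  (List.range (big N k E)).flatMap (fun i => [xx i, xx i]) ++ gadsL N k E ++ [YY] ++
    (List.range k).flatMap fun i => [tt i, tt i]

/-- the right column -/
def colR (N k : ℕ) (E : List (ℕ × ℕ)) : List Nm :=
  (List.range k).flatMap (fun i => [yy i, yy i]) ++ (List.range (big N k E)).map qq ++ [YY] ++
    ((List.range (big N k E)).map qq).reverse ++ gadsR N k E

/-- a set of at most `k` vertices covers the edges in `E` -/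
def HasCover (k : ℕ) (E : List (ℕ × ℕ)) : Prop :=
  ∃ C : Finset ℕ, C.card ≤ k ∧ ∀ e ∈ E, e.1 ∈ C ∨ e.2 ∈ C

/-- numbers for the names -/
def code : Nm → ℕ
  | xx i => 11 * i
  | yy i => 11 * i + 1
  | qq i => 11 * i + 2
  | tt i => 11 * i + 3
  | YY => 4
  | zz e i => 11 * Nat.pair e i + 5
  | cc e => 11 * e + 6
  | cp e => 11 * e + 7
  | dd e => 11 * e + 8
  | dp e => 11 * e + 9
  | gg e => 11 * e + 10

/-! ## Graphs from formulas -/

/-- the occurrences of literals, with the number of the clause -/
def occ (φ : List (List Lit)) : List (ℕ × Lit) := φ.zipIdx.flatMap fun t => t.1.map fun l => (t.2, l)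

/-- two occurrences which are not chosen together -/
def conf (p q : ℕ × Lit) : Bool :=
  decide (p.1 = q.1) || (decide (p.2.2 = q.2.2) && !decide (p.2.1 = q.2.1))

/-- the conflict graph -/
def vcE (φ : List (List Lit)) : List (ℕ × ℕ) :=
  (occ φ).zipIdx.flatMap fun s => ((occ φ).zipIdx.filter fun t =>
    decide (s.2 < t.2) && conf s.1 t.1).map fun t => (s.2, t.2)

/-- a formula with one more clause, which is always satisfied -/
def pad (φ : List (List Lit)) : List (List Lit) := [(true, []), (false, [])] :: φ

/-- the board of a formula -/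
def board (φ : List (List Lit)) : Pos :=
  if φ.any (fun c => c.isEmpty) then [[0], [1]]
  else
    let N := (occ (pad φ)).length
    let k := N - (pad φ).length
    [(colL N k (vcE (pad φ))).map code, (colR N k (vcE (pad φ))).map code]

end Pool.Agent.Clk
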