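import Pool.Agent.Clk.Strip
import Pool.Agent.Clk.Two
import Pool.Agent.CookLevin.All

set_option autoImplicit false

/-!
# Exact targets (proofs: Blueprint.lean.txt)
-/

namespace Pool.Agent.Clk

open Pool.Agent.SLN (Sym Lit Satisfiable)
open Pool.Agent.PT (Dat PolyF)
open Pool.Agent.CookLevin (InNP NPHard)

/-! ## Strips -/

/-- SPLIT: an event of the strip `[i, j]`, seen from a nonempty column `k` between them -/
def T_SPLIT : Prop := ∀ {h : ℕ} (c : St) (i k j : ℕ) (G : Set (ℕ × ℕ)), i < k → k < j → c k ≠ [] →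
  (∀ l, (c l).length ≤ h) → Ev c i j G →
    ((∃ r, (k, r) ∈ G) → Ev c i k {p | p ∈ G ∧ p.1 ≤ k} ∧ Ev c k j {p | p ∈ G ∧ k ≤ p.1} ∧
      Ok (lab h c i k {p | p ∈ G ∧ p.1 ≤ k}) (lab h c k j {p | p ∈ G ∧ k ≤ p.1}) ∧
      lab h c i j G = comp (lab h c i k {p | p ∈ G ∧ p.1 ≤ k}) (lab h c k j {p | p ∈ G ∧ k ≤ p.1})) ∧
    ((¬ ∃ r, (k, r) ∈ G) → ((∀ p ∈ G, p.1 < k) ∧ Ev c i k G) ∨ ((∀ p ∈ G, k < p.1) ∧ Ev c k j G))

/-- GLUE: events of the two parts give events of the whole strip -/
def T_GLUE : Prop := ∀ {h : ℕ} (c : St) (i k j : ℕ) (G₁ G₂ : Set (ℕ × ℕ)), i < k → k < j →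
  c k ≠ [] → (∀ l, (c l).length ≤ h) →
    (Ev c i k G₁ → Ev c k j G₂ → Ok (lab h c i k G₁) (lab h c k j G₂) →
      Ev c i j (G₁ ∪ G₂) ∧ lab h c i j (G₁ ∪ G₂) = comp (lab h c i k G₁) (lab h c k j G₂)) ∧
    (Ev c i k G₁ → (∀ r, (k, r) ∉ G₁) → Ev c i j G₁ ∧ lab h c i j G₁ = lab h c i k G₁) ∧
    (Ev c k j G₂ → (∀ r, (k, r) ∉ G₂) → Ev c i j G₂ ∧ lab h c i j G₂ = lab h c k j G₂)

/-- the second phase: `i` and `j` are adjacent and have lost the rows given by the first phase -/
def After {h : ℕ} (i j : ℕ) (c c' : St) (τ : List (Label h)) : Prop :=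
  (∀ l, i < l → l < j → c' l = []) ∧ c' i = cutsA τ (c i) ∧ c' j = cutsB τ (c j) ∧
    ∀ l, (c' l).length ≤ h

/-- DEC: decomposition of a trace at the inner column which is emptied last -/
def T_DEC : Prop := ∀ {h : ℕ} (i j : ℕ) (c : St) (τ : List (Label h)), i < j →
  (∀ l, (c l).length ≤ h) → Tr h i j c τ →
    (∀ l, i < l → l < j → c l = []) ∨
    ∃ k, i < k ∧ k < j ∧ c k ≠ [] ∧ ∃ τ₁ τ₂ τ' τ'', τ = τ' ++ τ'' ∧ Tr h i k c τ₁ ∧
      Tr h k j c τ₂ ∧ Mrg τ₁ τ₂ τ' ∧ cutsB τ₁ (c k) = [] ∧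
      ∃ c', After i j c c' τ' ∧ Tr h i j c' τ''

/-- SND: the converse -/
def T_SND : Prop := ∀ {h : ℕ} (i k j : ℕ) (c c' : St) (τ₁ τ₂ τ' τ'' : List (Label h)), i < k →
  k < j → c k ≠ [] → (∀ l, (c l).length ≤ h) → Tr h i k c τ₁ → Tr h k j c τ₂ → Mrg τ₁ τ₂ τ' →
    cutsB τ₁ (c k) = [] → After i j c c' τ' → Tr h i j c' τ'' → Tr h i j c (τ' ++ τ'')

/-- ISO: traces of two adjacent columns depend only on their pattern; the pattern after a cut depends
only on the pattern before; traces are short -/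
def T_ISO : Prop :=
  (∀ {h : ℕ} (i j i' j' : ℕ) (c c' : St) (τ : List (Label h)), i < j → i' < j' →
    (∀ l, i < l → l < j → c l = []) → (∀ l, i' < l → l < j' → c' l = []) →
    (∀ l, (c l).length ≤ h) → (∀ l, (c' l).length ≤ h) →
    pat h (c i) (c j) = pat h (c' i') (c' j') → Tr h i j c τ → Tr h i' j' c' τ) ∧
  (∀ {h : ℕ} (a b a' b' : List ℕ) (A B : Set (Fin h)), a.length ≤ h → b.length ≤ h →
    a'.length ≤ h → b'.length ≤ h → pat h a b = pat h a' b' →
    pat h (cut a A) (cut b B) = pat h (cut a' A) (cut b' B)) ∧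
  (∀ {h : ℕ} (i j : ℕ) (c : St) (τ : List (Label h)), i < j → (∀ l, (c l).length ≤ h) →
    Tr h i j c τ → τ.length ≤ 2 * h)

/-- LINK: clearing a position is erasing the inner columns of its strip without touching the two
boundary columns -/
def T_LINK : Prop := ∀ (h : ℕ) (b : Pos), 1 ≤ h → (∀ col ∈ b, col ≠ [] ∧ col.length ≤ h) →
  (Clearable b ↔ Tr h 0 (b.length + 1) (wrap b) [])

/-! ## The algorithm -/

/-- CYK: interval dynamic programming with values in a finite type, in polynomial time -/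
def T_CYK : Prop := ∀ {α V : Type} [Dat α] [Dat V] [Finite V] (x₀ : α) (d : α × α → V)
  (s : (α × α × α) × V × V → V) (u : V → V → V) (z : V), PolyF d → PolyF s →
  ∃ F : List α → V, PolyF F ∧ ∀ (l : List α) (val : ℕ → ℕ → V), 2 ≤ l.length →
    (∀ i j, i < j → j < l.length → val i j = if j = i + 1 then d (l.getD i x₀, l.getD j x₀)
      else ((List.range l.length).filter fun k => decide (i < k ∧ k < j)).foldl
        (fun acc k => u acc (s ((l.getD i x₀, l.getD k x₀, l.getD j x₀), val i k, val k j))) z) →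
    F l = val 0 (l.length - 1)

/-- PATPT: the pattern of two columns is computed in polynomial time -/
def T_PATPT : Prop := ∀ (h : ℕ) [Dat (Set ((Bool × Fin h) × (Bool × Fin h)))],
  PolyF fun p : List ℕ × List ℕ => pat h p.1 p.2

/-- ALG: for positions with at most `h` rows, clearability is decided in polynomial time -/
def T_ALG : Prop := ∀ h : ℕ, ∃ alg : List (List ℕ) → Bool, PolyF alg ∧
  ∀ b : Pos, (∀ col ∈ b, col ≠ [] ∧ col.length ≤ h) → (alg b = true ↔ Clearable b)

/-- DECODE: reading a position from its encoding -/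
def T_DECODE : Prop := ∃ D : List Sym → List (List ℕ), PolyF D ∧ ∀ b : Pos, D (encPos b) = b

/-- COL: a single column behaves as a single row -/
def T_COL : Prop := ∀ col : List ℕ, col ≠ [] → (Clearable [col] ↔ Clearable (col.map fun a => [a]))

/-- NP: clearing a board is in NP -/
def T_NP : Prop := ∀ F : Pos → Prop, (∀ b, F b → ∃ h w, IsBoard h w b) → InNP (clear F)

/-! ## The reduction -/

/-- TWO: the puzzle on two columns with at most two copies of each colour -/
def T_TWO : Prop := ∀ L R : List ℕ, L ≠ [] → R ≠ [] → (∀ a, (L ++ R).count a ≤ 2) →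
  (Clearable [L, R] ↔ Clr L R)

/-- SET: the game on two columns in which each element occurs twice, in terms of the set of
remaining pairs; renaming of the elements -/
def T_SET : Prop :=
  (∀ {α : Type} [DecidableEq α] (L R : List α), Twice L R →
    (Clr L R ↔ Relation.ReflTransGen (SMv L R) {a | a ∈ L ++ R} ∅)) ∧
  (∀ {α β : Type} (f : α → β) (L R : List α), Function.Injective f →
    (Clr (L.map f) (R.map f) ↔ Clr L R))

/-- TWICE: the two columns of the reduction have the same length and each name occurs twice -/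
def T_TWICE : Prop := ∀ (N k : ℕ) (E : List (ℕ × ℕ)), (∀ e ∈ E, e.1 < N ∧ e.2 < N) →
  Twice (colL N k E) (colR N k E) ∧ (colL N k E).length = (colR N k E).length

/-- SOUND: a way to clear the columns gives a vertex cover -/
def T_SOUND : Prop := ∀ (N k : ℕ) (E : List (ℕ × ℕ)), E ≠ [] → (∀ e ∈ E, e.1 < N ∧ e.2 < N) →
  Clr (colL N k E) (colR N k E) → HasCover k E

/-- COMPL: a vertex cover gives a way to clear the columns -/
def T_COMPL : Prop := ∀ (N k : ℕ) (E : List (ℕ × ℕ)), E ≠ [] → (∀ e ∈ E, e.1 < N ∧ e.2 < N) →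
  HasCover k E → Clr (colL N k E) (colR N k E)

/-- VC: satisfiability as vertex cover -/
def T_VC : Prop := ∀ φ : List (List Lit), (∀ c ∈ φ, c ≠ []) →
  (Satisfiable φ ↔ HasCover ((occ φ).length - φ.length) (vcE φ))

/-- PRINT: the board of a formula is written in polynomial time -/
def T_PRINT : Prop := PolyF fun φ : List (List Lit) => encPos (board φ)

end Pool.Agent.Clk
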