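import Pool.Agent.Clk.Targets

set_option autoImplicit false

namespace Pool.Agent.Clk

open Pool.Agent.SLN (Sym Lit Satisfiable)

namespace VC_

theorem mem_occ (φ : List (List Lit)) (p : ℕ × Lit) :
    p ∈ occ φ ↔ ∃ cl, φ[p.1]? = some cl ∧ p.2 ∈ cl := by
  unfold occ
  simp only [List.mem_flatMap, List.mem_map]
  constructor
  · rintro ⟨⟨cl, i⟩, h1, l, hl, rfl⟩
    exact ⟨cl, List.mem_zipIdx_iff_getElem?.1 h1, hl⟩
  · rintro ⟨cl, h1, h2⟩
    exact ⟨(cl, p.1), List.mem_zipIdx_iff_getElem?.2 h1, p.2, h2, rfl⟩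

theorem mem_vcE (φ : List (List Lit)) (i j : ℕ) :
    (i, j) ∈ vcE φ ↔ ∃ p q, (occ φ)[i]? = some p ∧ (occ φ)[j]? = some q ∧ i < j ∧
      conf p q = true := by
  unfold vcE
  simp only [List.mem_flatMap, List.mem_map, List.mem_filter, Bool.and_eq_true, decide_eq_true_eq]
  constructor
  · rintro ⟨⟨p, i'⟩, h1, ⟨q, j'⟩, ⟨h2, h3, h4⟩, h5⟩
    simp only [Prod.mk.injEq] at h5
    obtain ⟨rfl, rfl⟩ := h5
    exact ⟨p, q, List.mem_zipIdx_iff_getElem?.1 h1, List.mem_zipIdx_iff_getElem?.1 h2, h3, h4⟩
  · rintro ⟨p, q, h1, h2, h3, h4⟩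
    exact ⟨(p, i), List.mem_zipIdx_iff_getElem?.2 h1, (q, j),
      ⟨List.mem_zipIdx_iff_getElem?.2 h2, h3, h4⟩, rfl⟩

theorem conf_symm (p q : ℕ × Lit) : conf p q = conf q p := by
  unfold conf
  have h1 : decide (p.1 = q.1) = decide (q.1 = p.1) := by
    by_cases h : p.1 = q.1
    · simp [h]
    · have : ¬ q.1 = p.1 := fun e => h e.symm
      simp [h, this]
  have h2 : decide (p.2.2 = q.2.2) = decide (q.2.2 = p.2.2) := by
    by_cases h : p.2.2 = q.2.2
    · simp [h]
    · have : ¬ q.2.2 = p.2.2 := fun e => h e.symm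
      simp [h, this]
  have h3 : decide (p.2.1 = q.2.1) = decide (q.2.1 = p.2.1) := by
    by_cases h : p.2.1 = q.2.1
    · simp [h]
    · have : ¬ q.2.1 = p.2.1 := fun e => h e.symm
      simp [h, this]
  rw [h1, h2, h3]

theorem conf_iff (p q : ℕ × Lit) :
    conf p q = true ↔ p.1 = q.1 ∨ (p.2.2 = q.2.2 ∧ p.2.1 ≠ q.2.1) := by
  unfold conf
  simp

/-- two uncovered occurrences do not conflict -/
theorem uncov {φ : List (List Lit)} {C : Finset ℕ}
    (hC : ∀ e ∈ vcE φ, e.1 ∈ C ∨ e.2 ∈ C) {i j : ℕ} {p q : ℕ × Lit}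
    (hi : (occ φ)[i]? = some p) (hj : (occ φ)[j]? = some q) (hiC : i ∉ C) (hjC : j ∉ C)
    (hc : conf p q = true) : i = j := by
  rcases lt_trichotomy i j with h | h | h
  · have := hC (i, j) ((mem_vcE φ i j).2 ⟨p, q, hi, hj, h, hc⟩)
    rcases this with h' | h'
    · exact absurd h' hiC
    · exact absurd h' hjC
  · exact h
  · have := hC (j, i) ((mem_vcE φ j i).2 ⟨q, p, hj, hi, h, by rw [conf_symm]; exact hc⟩)
    rcases this with h' | h'
    · exact absurd h' hjC
    · exact absurd h' hiC

end VC_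

open VC_ in
theorem tVC : T_VC := by
  intro φ hne
  -- an occurrence in each clause
  have hex : ∀ c : ℕ, c < φ.length → ∀ l ∈ φ.getD c [], ∃ i : ℕ, (occ φ)[i]? = some (c, l) := by
    intro c hc l hl
    have hmem : (c, l) ∈ occ φ := by
      rw [mem_occ]
      refine ⟨φ.getD c [], ?_, hl⟩
      rw [List.getD_eq_getElem?_getD]
      simp [List.getElem?_eq_getElem hc]
    exact List.mem_iff_getElem?.1 hmem
  have hlt : ∀ {i : ℕ} {p : ℕ × Lit}, (occ φ)[i]? = some p → i < (occ φ).length := by
    intro i p h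
    exact (List.getElem?_eq_some_iff.1 h).1
  -- number of occurrences
  have hle : φ.length ≤ (occ φ).length := by
    have hch : ∀ c : Fin φ.length, ∃ i : ℕ, ∃ l : Lit, (occ φ)[i]? = some (c.1, l) := by
      intro c
      have hcl : φ.getD c.1 [] ≠ [] := by
        rw [List.getD_eq_getElem?_getD, List.getElem?_eq_getElem c.2]
        exact hne _ (List.getElem_mem _)
      obtain ⟨l, hl⟩ := List.exists_mem_of_ne_nil _ hcl
      obtain ⟨i, hi⟩ := hex c.1 c.2 l hl
      exact ⟨i, l, hi⟩
    choose f l hf using hch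
    have hinj : Function.Injective (fun c => (⟨f c, hlt (hf c)⟩ : Fin (occ φ).length)) := by
      intro c c' h
      have h' : f c = f c' := congrArg Fin.val h
      have h1 := hf c
      rw [h', hf c'] at h1
      have h2 := (Prod.mk.inj (Option.some.inj h1)).1
      exact Fin.ext h2.symm
    simpa using Fintype.card_le_of_injective _ hinj
  constructor
  · rintro ⟨τ, hτ⟩
    have hch : ∀ c : Fin φ.length, ∃ i : ℕ, ∃ l : Lit, (occ φ)[i]? = some (c.1, l) ∧ τ l.2 = l.1 := by
      intro c
      have hm : φ.getD c.1 [] ∈ φ := by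
        rw [List.getD_eq_getElem?_getD, List.getElem?_eq_getElem c.2]
        exact List.getElem_mem _
      obtain ⟨l, hl, hl2⟩ := hτ _ hm
      obtain ⟨i, hi⟩ := hex c.1 c.2 l hl
      exact ⟨i, l, hi, hl2⟩
    choose f l hf hl using hch
    have hinj : Function.Injective f := by
      intro c c' h'
      have h1 := hf c
      rw [h', hf c'] at h1
      have h2 := (Prod.mk.inj (Option.some.inj h1)).1
      exact Fin.ext h2.symm
    refine ⟨Finset.range (occ φ).length \ Finset.univ.image f, ?_, ?_⟩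
    · rw [Finset.card_sdiff_of_subset, Finset.card_image_of_injective _ hinj]
      · simp
      · intro i hi
        obtain ⟨c, _, rfl⟩ := Finset.mem_image.1 hi
        exact Finset.mem_range.2 (hlt (hf c))
    · rintro ⟨i, j⟩ he
      obtain ⟨p, q, hi, hj, hij, hc⟩ := (mem_vcE φ i j).1 he
      by_contra hcon
      push Not at hcon
      obtain ⟨h1, h2⟩ := hcon
      simp only [Finset.mem_sdiff, Finset.mem_range, Finset.mem_image, Finset.mem_univ, true_and,
        not_and, not_not] at h1 h2
      obtain ⟨c, rfl⟩ := h1 (hlt hi)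
      obtain ⟨c', rfl⟩ := h2 (hlt hj)
      have hp : p = (c.1, l c) := Option.some.inj (hi.symm.trans (hf c))
      have hq : q = (c'.1, l c') := Option.some.inj (hj.symm.trans (hf c'))
      rw [conf_iff, hp, hq] at hc
      rcases hc with hc | ⟨hc1, hc2⟩
      · have : c = c' := Fin.ext hc
        rw [this] at hij
        exact lt_irrefl _ hij
      · apply hc2
        simp only at hc1
        rw [← hl c, ← hl c', hc1]
  · rintro ⟨C, hCc, hC⟩
    classical
    let U : Finset ℕ := Finset.range (occ φ).length \ C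
    have hUmem : ∀ i, i ∈ U ↔ i < (occ φ).length ∧ i ∉ C := by
      intro i
      simp [U]
    have hUc : φ.length ≤ U.card := by
      have h1 : (Finset.range (occ φ).length).card ≤ U.card + C.card := by
        have := Finset.card_le_card (show Finset.range (occ φ).length ⊆ U ∪ C by
          intro i hi
          by_cases h : i ∈ C
          · exact Finset.mem_union_right _ h
          · exact Finset.mem_union_left _ (Finset.mem_sdiff.2 ⟨hi, h⟩))
        exact this.trans (Finset.card_union_le _ _)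
      rw [Finset.card_range] at h1
      omega
    let g : ℕ → ℕ := fun i => ((occ φ)[i]?.map Prod.fst).getD 0
    have hg : ∀ {i : ℕ} {p : ℕ × Lit}, (occ φ)[i]? = some p → g i = p.1 := by
      intro i p h
      simp only [g, h, Option.map_some, Option.getD_some]
    have hget : ∀ i ∈ U, ∃ p, (occ φ)[i]? = some p := by
      intro i hi
      exact ⟨_, List.getElem?_eq_getElem ((hUmem i).1 hi).1⟩
    have hginj : Set.InjOn g (U : Set ℕ) := by
      intro i hi j hj hij
      obtain ⟨p, hp⟩ := hget i hi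
      obtain ⟨q, hq⟩ := hget j hj
      rw [hg hp, hg hq] at hij
      exact uncov hC hp hq ((hUmem i).1 hi).2 ((hUmem j).1 hj).2
        ((conf_iff p q).2 (Or.inl hij))
    have himg : U.image g = Finset.range φ.length := by
      apply Finset.eq_of_subset_of_card_le
      · intro c hc
        obtain ⟨i, hi, rfl⟩ := Finset.mem_image.1 hc
        obtain ⟨p, hp⟩ := hget i hi
        rw [hg hp, Finset.mem_range]
        obtain ⟨cl, h1, _⟩ := (mem_occ φ p).1 (List.mem_of_getElem? hp)
        exact (List.getElem?_eq_some_iff.1 h1).1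
      · rw [Finset.card_range, Finset.card_image_of_injOn hginj]
        exact hUc
    refine ⟨fun x => decide (∃ i ∈ U, ∃ c, (occ φ)[i]? = some (c, (true, x))), ?_⟩
    intro cl hcl
    obtain ⟨c, hc⟩ := List.mem_iff_getElem?.1 hcl
    have hcm : c ∈ U.image g := by
      rw [himg, Finset.mem_range]
      exact (List.getElem?_eq_some_iff.1 hc).1
    obtain ⟨i, hi, hic⟩ := Finset.mem_image.1 hcm
    obtain ⟨p, hp⟩ := hget i hi
    rw [hg hp] at hic
    obtain ⟨cl', h1, h2⟩ := (mem_occ φ p).1 (List.mem_of_getElem? hp)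
    rw [hic, hc] at h1
    obtain rfl := Option.some.inj h1
    refine ⟨p.2, h2, ?_⟩
    rcases hb : p.2.1 with _ | _
    · simp only [decide_eq_false_iff_not]
      rintro ⟨j, hj, c', hq⟩
      have hij := uncov hC hp hq ((hUmem i).1 hi).2 ((hUmem j).1 hj).2
        ((conf_iff _ _).2 (Or.inr ⟨rfl, by rw [hb]; simp⟩))
      rw [hij, hq] at hp
      have := Option.some.inj hp
      rw [← this] at hb
      simp at hb
    · simp only [decide_eq_true_eq]
      refine ⟨i, hi, p.1, ?_⟩
      rw [hp]
      congr 1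
      exact Prod.ext rfl (Prod.ext hb rfl)

end Pool.Agent.Clk
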